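import Pool.Agent.CZS.Lists

/-! Reachability in the graph of adjacent pairs, maximal words, zigzags: definitions. -/

set_option autoImplicit false

namespace Pool.Agent.CZS

/-- `y` is reachable from `x` through adjacent pairs of `u`. -/
def Reach (u : List ℕ) (x y : ℕ) : Prop := Relation.ReflTransGen (fun a b => (a, b) ∈ ed u) x y

/-- `u` has as many adjacent pairs as possible in its class. -/
def EMax (R : List ℕ → List ℕ → Prop) (u : List ℕ) : Prop :=
  ∀ v, R u v → (∀ e ∈ ed u, e ∈ ed v) → ∀ e ∈ ed v, e ∈ ed u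

/-- `Zig u k x y`: the row of `x` and the column of `y` are joined by a path with `2 k + 1` edges in
the bipartite graph of `u`. -/
inductive Zig (u : List ℕ) : ℕ → ℕ → ℕ → Prop
  | base {x y : ℕ} : (x, y) ∈ ed u → Zig u 0 x y
  | step {k x a b y : ℕ} : (x, a) ∈ ed u → (b, a) ∈ ed u → Zig u k b y → Zig u (k + 1) x y

end Pool.Agent.CZS
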