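import Pool.Agent.CZS.Laws
import Pool.Agent.CZS.Graph

/-! Alignment of first and last letters, splitting of identities. -/

set_option autoImplicit false

namespace Pool.Agent.CZS

theorem head_pw (n c : ℕ) (W Z : List ℕ) : (pw n (c :: W) ++ c :: Z).head? = some c := by
  cases n with
  | zero => simp
  | succ n => rw [pw_succ]; simp

theorem reach_mono {u v : List ℕ} (h : ∀ e ∈ ed u, e ∈ ed v) {x y : ℕ} (hr : Reach u x y) :
    Reach v x y := by
  induction hr with
  | refl => exact Relation.ReflTransGen.refl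
  | tail _ h2 ih => exact ih.tail (h _ h2)

theorem reach_cons (x : ℕ) (l : List ℕ) : ∀ y ∈ x :: l, Reach (x :: l) x y := by
  induction l generalizing x with
  | nil =>
    intro y hy
    simp at hy
    subst hy
    exact Relation.ReflTransGen.refl
  | cons z l ih =>
    intro y hy
    rcases List.mem_cons.1 hy with h | h
    · subst h; exact Relation.ReflTransGen.refl
    · have h1 := ih z y h
      have h2 : Reach (x :: z :: l) z y := reach_mono (fun e he => by
        rw [ed_cons_cons]; exact Multiset.mem_cons_of_mem he) h1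
      exact Relation.ReflTransGen.head (by rw [ed_cons_cons]; exact Multiset.mem_cons_self _ _) h2

theorem reach_from {a : List ℕ} {d : ℕ} {b : List ℕ} {y : ℕ} (hy : y ∈ d :: b) :
    Reach (a ++ d :: b) d y :=
  reach_mono (fun e he => by rw [ed_append_cons]; exact Multiset.mem_add.2 (Or.inr he))
    (reach_cons d b y hy)

theorem reach_hd {u : List ℕ} {h y : ℕ} (hh : u.head? = some h) (hy : y ∈ u) : Reach u h y := by
  cases u with
  | nil => simp at hh
  | cons z l =>
    simp at hh
    subst hh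
    exact reach_cons z l y hy

/-- Walks realising reachability in at least one step. -/
theorem walk_of_trg {u : List ℕ} {x y : ℕ}
    (h : Relation.TransGen (fun a b => (a, b) ∈ ed u) x y) :
    ∃ s : List ℕ, ∀ e ∈ ed (x :: (s ++ [y])), e ∈ ed u ∧ Reach u e.2 y ∧ Reach u x e.1 := by
  induction h using Relation.TransGen.head_induction_on with
  | single h =>
    refine ⟨[], ?_⟩
    intro e he
    simp only [List.nil_append, ed_cons_cons, ed_singleton, Multiset.mem_cons,
      Multiset.notMem_zero, or_false] at he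
    subst he
    exact ⟨h, Relation.ReflTransGen.refl, Relation.ReflTransGen.refl⟩
  | @head a c h1 h2 ih =>
    obtain ⟨s, hs⟩ := ih
    refine ⟨c :: s, ?_⟩
    intro e he
    rw [List.cons_append, ed_cons_cons, Multiset.mem_cons] at he
    rcases he with he | he
    · subst he
      exact ⟨h1, h2.to_reflTransGen, Relation.ReflTransGen.refl⟩
    · have := hs e he
      exact ⟨this.1, this.2.1, Relation.ReflTransGen.head h1 this.2.2⟩

theorem trg_of_reach {u : List ℕ} {x y : ℕ} (h : Reach u x y) (he : x = y → (x, y) ∈ ed u) :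
    Relation.TransGen (fun a b => (a, b) ∈ ed u) x y := by
  rcases Relation.reflTransGen_iff_eq_or_transGen.1 h with h | h
  · exact Relation.TransGen.single (he h.symm)
  · exact h

section ins

variable {m : ℕ} {R : List ℕ → List ℕ → Prop} (hct : CTRel m R) (hm0 : 0 < m)
include hct hm0

/-- Inserting `m` copies of a closed walk after an occurrence of `d`. -/
theorem ins_wk {X D V : List ℕ} {d : ℕ} (hE : ∀ e ∈ ed (d :: (V ++ [d])), e ∈ ed (X ++ d :: D)) :
    R (X ++ d :: D) (X ++ d :: (pw m (V ++ [d]) ++ D)) := by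
  refine ct_main hm0 hct (head_ins X d D _) (last_ins X m d V D).symm ?_ ?_
  · intro e
    rw [ed_ins, Multiset.mem_add]
    exact ⟨Or.inl, fun h => h.elim id (fun h => hE e (Multiset.mem_of_mem_nsmul h))⟩
  · intro e
    rw [ed_ins, Multiset.count_add, Multiset.count_nsmul]
    exact modEq_add_mul _ _ _

/-- The same with the last copy ending before the suffix, the others rotated. -/
theorem ins_wk' {X D W : List ℕ} {c n : ℕ} (hn : m = n + 1)
    (hE : ∀ e ∈ ed (c :: (W ++ [c])), e ∈ ed (X ++ c :: D)) :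
    R (X ++ c :: D) (X ++ (pw n (c :: W) ++ c :: (W ++ c :: D))) := by
  have h := ins_wk hct hm0 hE
  have e : X ++ c :: (pw m (W ++ [c]) ++ D) = X ++ (pw n (c :: W) ++ c :: (W ++ c :: D)) := by
    have h1 : c :: (pw (n + 1) (W ++ [c]) ++ D) = pw (n + 1) (c :: W) ++ [c] ++ D := by
      rw [← cons_pw]; rfl
    rw [hn, h1, pw_succ']
    simp
  rw [e] at h
  exact h

theorem alignR {X D : List ℕ} {c a c' : ℕ} {s t : List ℕ}
    (hlaw : R ((c :: a :: (s ++ c' :: a :: (t ++ [c]))) ++ D)
      ((c :: a :: (s ++ c' :: a :: (t ++ c :: pw m (a :: (s ++ [c']))))) ++ D))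
    (hE : ∀ e ∈ ed (c :: a :: (s ++ c' :: a :: (t ++ [c]))), e ∈ ed (X ++ [c])) :
    R (X ++ c :: D) (X ++ c :: (pw m (a :: (s ++ [c'])) ++ D)) := by
  obtain ⟨n, hn⟩ : ∃ n, m = n + 1 := ⟨m - 1, by omega⟩
  have hE' : ∀ D' : List ℕ, ∀ e ∈ ed (c :: ((a :: (s ++ c' :: a :: t)) ++ [c])),
      e ∈ ed (X ++ c :: D') := by
    intro D' e he
    rw [ed_append_cons]
    refine Multiset.mem_add.2 (Or.inl (hE e ?_))
    simpa using he
  have h1 := ins_wk' hct hm0 hn (hE' D)
  have h3 := ins_wk' hct hm0 hn (hE' (pw m (a :: (s ++ [c'])) ++ D))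
  have h2 := hct.app (X ++ pw n (c :: (a :: (s ++ c' :: a :: t)))) [] hlaw
  refine hct.trans h1 (hct.trans ?_ (hct.symm h3))
  simpa using h2

theorem alignL {X D : List ℕ} {d b d' : ℕ} {s t : List ℕ}
    (hlaw : R (X ++ (d :: (s ++ b :: d' :: (t ++ [b, d]))))
      (X ++ (pw m (d' :: (t ++ [b])) ++ d :: (s ++ b :: d' :: (t ++ [b, d])))))
    (hE : ∀ e ∈ ed (d :: (s ++ b :: d' :: (t ++ [b, d]))), e ∈ ed (d :: D)) :
    R (X ++ d :: D) (X ++ (pw m (d' :: (t ++ [b])) ++ d :: D)) := by
  obtain ⟨n, hn⟩ : ∃ n, m = n + 1 := ⟨m - 1, by omega⟩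
  have hE' : ∀ X' : List ℕ, ∀ e ∈ ed (d :: ((s ++ b :: d' :: (t ++ [b])) ++ [d])),
      e ∈ ed (X' ++ d :: D) := by
    intro X' e he
    rw [ed_append_cons]
    refine Multiset.mem_add.2 (Or.inr (hE e ?_))
    simpa using he
  have h1 := ins_wk hct hm0 (hE' X)
  have h3 := ins_wk hct hm0 (hE' (X ++ pw m (d' :: (t ++ [b]))))
  have h2 := hct.app [] (pw n ((s ++ b :: d' :: (t ++ [b])) ++ [d]) ++ D) hlaw
  refine hct.trans h1 (hct.trans
    (v := X ++ (pw m (d' :: (t ++ [b])) ++ d :: (s ++ b :: d' :: (t ++ [b, d]))) ++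
      (pw n ((s ++ b :: d' :: (t ++ [b])) ++ [d]) ++ D)) ?_ ?_)
  · have e : X ++ d :: (pw m ((s ++ b :: d' :: (t ++ [b])) ++ [d]) ++ D) =
        X ++ (d :: (s ++ b :: d' :: (t ++ [b, d]))) ++
          (pw n ((s ++ b :: d' :: (t ++ [b])) ++ [d]) ++ D) := by
      rw [hn, pw_succ]; simp
    rw [e]
    simpa using h2
  · have e : X ++ (pw m (d' :: (t ++ [b])) ++ d :: (s ++ b :: d' :: (t ++ [b, d]))) ++
      (pw n ((s ++ b :: d' :: (t ++ [b])) ++ [d]) ++ D) =
        X ++ pw m (d' :: (t ++ [b])) ++ d :: (pw m ((s ++ b :: d' :: (t ++ [b])) ++ [d]) ++ D) := by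
      rw [hn, pw_succ (w := (s ++ b :: d' :: (t ++ [b])) ++ [d])]; simp
    rw [e]
    have := hct.symm h3
    simpa using this

end ins

/-! ### Splitting -/

section split

variable {G I L : Type} [AddCommGroup G] {A : L → I → Prop} {p : L → I → G} {m : ℕ}

theorem SId.trans {u v w : List ℕ} (h1 : SId A p m u v) (h2 : SId A p m v w) : SId A p m u w where
  content x := (h1.content x).trans (h2.content x)
  occ x := (h1.occ x).trans (h2.occ x)
  ok la io := (h1.ok la io).trans (h2.ok la io)
  head la io hO := (h1.head la io hO).trans (h2.head la io ((h1.ok la io).1 hO))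
  last la io hO := (h1.last la io hO).trans (h2.last la io ((h1.ok la io).1 hO))
  psum la io hO := (h1.psum la io hO).trans (h2.psum la io ((h1.ok la io).1 hO))

/-- Edges of a word cut at a set of letters. -/
theorem cut_edges {Lt : ℕ → Prop} {a b : List ℕ} {c d : ℕ} (h1 : ∀ z ∈ a ++ [c], Lt z)
    (h2 : ∀ z ∈ d :: b, ¬ Lt z) {x y : ℕ} (he : (x, y) ∈ ed (a ++ c :: d :: b)) :
    (Lt y → (x, y) ∈ ed (a ++ [c])) ∧ (¬ Lt x → (x, y) ∈ ed (d :: b)) ∧
      (Lt x → ¬ Lt y → x = c ∧ y = d) := by
  rw [ed_append_two, Multiset.mem_add, Multiset.mem_cons] at he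
  rcases he with he | he | he
  · have hm := mem_of_mem_ed he
    exact ⟨fun _ => he, fun h => absurd (h1 _ hm.1) h, fun _ h => absurd (h1 _ hm.2) h⟩
  · obtain ⟨rfl, rfl⟩ := Prod.mk.inj he
    exact ⟨fun h => absurd h (h2 _ (by simp)), fun h => absurd (h1 _ (by simp)) h,
      fun _ _ => ⟨rfl, rfl⟩⟩
  · have hm := mem_of_mem_ed he
    exact ⟨fun h => absurd h (h2 _ hm.2), fun _ => he, fun h => absurd h (h2 _ hm.1)⟩

theorem pm_const {la : ℕ → L} {io : ℕ → I} {F : Multiset (ℕ × ℕ)} {g : G}
    (h : ∀ e ∈ F, p (la e.1) (io e.2) = g) : pm p la io F = F.card • g := by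
  unfold pm
  rw [Multiset.map_congr rfl h]
  simp

theorem sId_split (hrow : ∀ l, ∃ i, A l i) (hcol : ∀ i, ∃ l, A l i) (hm : ∀ g : G, m • g = 0)
    {Lt : ℕ → Prop} {a b a' b' : List ℕ} {c d : ℕ}
    (h1 : ∀ z ∈ a ++ [c], Lt z) (h2 : ∀ z ∈ d :: b, ¬ Lt z)
    (h1' : ∀ z ∈ a' ++ [c], Lt z) (h2' : ∀ z ∈ d :: b', ¬ Lt z)
    (h : SId A p m (a ++ c :: d :: b) (a' ++ c :: d :: b')) :
    SId A p m (a ++ [c]) (a' ++ [c]) ∧ SId A p m (d :: b) (d :: b') := by
  classical
  have mem_split : ∀ (a b : List ℕ) (x : ℕ), x ∈ a ++ c :: d :: b ↔ x ∈ a ++ [c] ∨ x ∈ d :: b := by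
    intro a b x; simp; tauto
  have cnt_split : ∀ (a b : List ℕ) (x : ℕ), (a ++ c :: d :: b).count x =
      (a ++ [c]).count x + (d :: b).count x := by
    intro a b x
    rw [← List.count_append]; simp
  have occ1 : ∀ x, (a ++ [c]).count x ≡ (a' ++ [c]).count x [MOD m] := by
    intro x
    have := h.occ x
    rw [cnt_split, cnt_split] at this
    by_cases hx : Lt x
    · rwa [List.count_eq_zero_of_not_mem (fun hm => h2 x hm hx),
        List.count_eq_zero_of_not_mem (fun hm => h2' x hm hx)] at this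
    · rw [List.count_eq_zero_of_not_mem (fun hm => hx (h1 x hm)),
        List.count_eq_zero_of_not_mem (fun hm => hx (h1' x hm))]
  have occ2 : ∀ x, (d :: b).count x ≡ (d :: b').count x [MOD m] := by
    intro x
    have := h.occ x
    rw [cnt_split, cnt_split] at this
    by_cases hx : Lt x
    · rw [List.count_eq_zero_of_not_mem (fun hm => h2 x hm hx),
        List.count_eq_zero_of_not_mem (fun hm => h2' x hm hx)]
    · rwa [List.count_eq_zero_of_not_mem (fun hm => hx (h1 x hm)),
        List.count_eq_zero_of_not_mem (fun hm => hx (h1' x hm)), zero_add, zero_add] at this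
  -- extension from the left part
  have ok_iff : ∀ (a b : List ℕ) (la : ℕ → L) (io : ℕ → I), Ok A la io (a ++ c :: d :: b) ↔
      Ok A la io (a ++ [c]) ∧ A (la c) (io d) ∧ Ok A la io (d :: b) := by
    intro a b la io
    unfold Ok
    rw [ed_append_two]
    simp only [Multiset.mem_add, Multiset.mem_cons]
    constructor
    · intro hh
      exact ⟨fun e he => hh e (Or.inl he), hh _ (Or.inr (Or.inl rfl)),
        fun e he => hh e (Or.inr (Or.inr he))⟩
    · rintro ⟨g1, g2, g3⟩ e (he | he | he)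
      · exact g1 e he
      · rw [he]; exact g2
      · exact g3 e he
  have ps_split : ∀ (a b : List ℕ) (la : ℕ → L) (io : ℕ → I), CZS.psum p la io (a ++ c :: d :: b) =
      CZS.psum p la io (a ++ [c]) + (p (la c) (io d) + CZS.psum p la io (d :: b)) := by
    intro a b la io
    rw [psum_eq_pm, ed_append_two, pm_add, pm_cons]; rfl
  have cgr : ∀ (u : List ℕ) (la la' : ℕ → L) (io io' : ℕ → I),
      (∀ z ∈ u, la z = la' z ∧ io z = io' z) → (Ok A la io u ↔ Ok A la' io' u) ∧
        CZS.psum p la io u = CZS.psum p la' io' u := by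
    intro u la la' io io' hh
    have hh' : ∀ e ∈ ed u, la e.1 = la' e.1 ∧ io e.2 = io' e.2 := by
      intro e he
      have := mem_of_mem_ed (x := e.1) (y := e.2) he
      exact ⟨(hh _ this.1).1, (hh _ this.2).2⟩
    constructor
    · unfold Ok
      refine forall_congr' fun e => forall_congr' fun he => ?_
      rw [(hh' e he).1, (hh' e he).2]
    · unfold CZS.psum
      congr 1
      refine Multiset.map_congr rfl fun e he => ?_
      rw [(hh' e he).1, (hh' e he).2]
  have head_eq : ∀ (a b : List ℕ), (a ++ c :: d :: b).head? = (a ++ [c]).head? := by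
    intro a b; cases a <;> simp
  have last_eq : ∀ (a b : List ℕ), (a ++ c :: d :: b).getLast? = (d :: b).getLast? := by
    intro a b
    rw [show a ++ c :: d :: b = (a ++ [c]) ++ (d :: b) by simp,
      List.getLast?_append_of_ne_nil _ (by simp)]
  constructor
  · have ext1 : ∀ (la : ℕ → L) (io : ℕ → I), ∃ (la' : ℕ → L) (io' : ℕ → I),
        (∀ z, Lt z → la' z = la z ∧ io' z = io z) ∧
        (∃ l1 i1, A l1 i1 ∧ A (la c) i1 ∧ ∀ z, ¬ Lt z → la' z = l1 ∧ io' z = i1) := by
      intro la io
      obtain ⟨i1, hi1⟩ := hrow (la c)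
      obtain ⟨l1, hl1⟩ := hcol i1
      exact ⟨fun z => if Lt z then la z else l1, fun z => if Lt z then io z else i1,
        fun z hz => ⟨if_pos hz, if_pos hz⟩, l1, i1, hl1, hi1,
        fun z hz => ⟨if_neg hz, if_neg hz⟩⟩
    have okext : ∀ (a b : List ℕ), (∀ z ∈ a ++ [c], Lt z) → (∀ z ∈ d :: b, ¬ Lt z) →
        ∀ (la la' : ℕ → L) (io io' : ℕ → I), (∀ z, Lt z → la' z = la z ∧ io' z = io z) →
        (∃ l1 i1, A l1 i1 ∧ A (la c) i1 ∧ ∀ z, ¬ Lt z → la' z = l1 ∧ io' z = i1) →
        (Ok A la' io' (a ++ c :: d :: b) ↔ Ok A la io (a ++ [c])) := by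
      intro a b h1 h2 la la' io io' g1 ⟨l1, i1, g2, g3, g4⟩
      rw [ok_iff, (cgr (a ++ [c]) la' la io' io (fun z hz => g1 z (h1 z hz))).1]
      constructor
      · exact fun hh => hh.1
      · intro hh
        refine ⟨hh, ?_, ?_⟩
        · rw [(g1 c (h1 c (by simp))).1, (g4 d (h2 d (by simp))).2]; exact g3
        · intro e he
          have := mem_of_mem_ed (x := e.1) (y := e.2) he
          rw [(g4 _ (h2 _ this.1)).1, (g4 _ (h2 _ this.2)).2]; exact g2
    have okiff : ∀ (la : ℕ → L) (io : ℕ → I), Ok A la io (a ++ [c]) ↔ Ok A la io (a' ++ [c]) := by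
      intro la io
      obtain ⟨la', io', g1, g2⟩ := ext1 la io
      rw [← okext a b h1 h2 la la' io io' g1 g2, ← okext a' b' h1' h2' la la' io io' g1 g2]
      exact h.ok la' io'
    refine ⟨?_, occ1, okiff, ?_, ?_, ?_⟩
    · intro x
      have := h.content x
      rw [mem_split, mem_split] at this
      constructor
      · intro hx
        rcases this.1 (Or.inl hx) with h | h
        · exact h
        · exact absurd (h1 x hx) (h2' x h)
      · intro hx
        rcases this.2 (Or.inl hx) with h | h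
        · exact h
        · exact absurd (h1' x hx) (h2 x h)
    · intro la io hO
      obtain ⟨la', io', g1, g2⟩ := ext1 la io
      have hh := h.head la' io' ((okext a b h1 h2 la la' io io' g1 g2).2 hO)
      rw [head_eq, head_eq] at hh
      have e1 : ∀ a : List ℕ, (∀ z ∈ a ++ [c], Lt z) →
          (a ++ [c]).head?.map io' = (a ++ [c]).head?.map io := by
        intro a h1
        cases ha : (a ++ [c]).head? with
        | none => rfl
        | some y => simp only [Option.map_some]; rw [(g1 y (h1 y (List.mem_of_mem_head? ha))).2]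
      rw [e1 a h1, e1 a' h1'] at hh
      exact hh
    · intro la io _; simp
    · intro la io hO
      obtain ⟨la', io', g1, l1, i1, g2, g3, g4⟩ := ext1 la io
      have hh := h.psum la' io' ((okext a b h1 h2 la la' io io' g1 ⟨l1, i1, g2, g3, g4⟩).2 hO)
      rw [ps_split, ps_split,
        (cgr (a ++ [c]) la' la io' io (fun z hz => g1 z (h1 z hz))).2,
        (cgr (a' ++ [c]) la' la io' io (fun z hz => g1 z (h1' z hz))).2] at hh
      have e2 : ∀ b : List ℕ, (∀ z ∈ d :: b, ¬ Lt z) →
          CZS.psum p la' io' (d :: b) = (ed (d :: b)).card • p l1 i1 := by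
        intro b h2
        rw [psum_eq_pm]
        refine pm_const fun e he => ?_
        have := mem_of_mem_ed (x := e.1) (y := e.2) he
        rw [(g4 _ (h2 _ this.1)).1, (g4 _ (h2 _ this.2)).2]
      rw [e2 b h2, e2 b' h2', card_ed_smul hm (by simp) (by simp) occ2] at hh
      exact add_right_cancel hh
  · have ext1 : ∀ (la : ℕ → L) (io : ℕ → I), ∃ (la' : ℕ → L) (io' : ℕ → I),
        (∀ z, ¬ Lt z → la' z = la z ∧ io' z = io z) ∧
        (∃ l1 i1, A l1 i1 ∧ A l1 (io d) ∧ ∀ z, Lt z → la' z = l1 ∧ io' z = i1) := by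
      intro la io
      obtain ⟨l1, hl1⟩ := hcol (io d)
      obtain ⟨i1, hi1⟩ := hrow l1
      exact ⟨fun z => if Lt z then l1 else la z, fun z => if Lt z then i1 else io z,
        fun z hz => ⟨if_neg hz, if_neg hz⟩, l1, i1, hi1, hl1,
        fun z hz => ⟨if_pos hz, if_pos hz⟩⟩
    have okext : ∀ (a b : List ℕ), (∀ z ∈ a ++ [c], Lt z) → (∀ z ∈ d :: b, ¬ Lt z) →
        ∀ (la la' : ℕ → L) (io io' : ℕ → I), (∀ z, ¬ Lt z → la' z = la z ∧ io' z = io z) →
        (∃ l1 i1, A l1 i1 ∧ A l1 (io d) ∧ ∀ z, Lt z → la' z = l1 ∧ io' z = i1) →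
        (Ok A la' io' (a ++ c :: d :: b) ↔ Ok A la io (d :: b)) := by
      intro a b h1 h2 la la' io io' g1 ⟨l1, i1, g2, g3, g4⟩
      rw [ok_iff, (cgr (d :: b) la' la io' io (fun z hz => g1 z (h2 z hz))).1]
      constructor
      · exact fun hh => hh.2.2
      · intro hh
        refine ⟨?_, ?_, hh⟩
        · intro e he
          have := mem_of_mem_ed (x := e.1) (y := e.2) he
          rw [(g4 _ (h1 _ this.1)).1, (g4 _ (h1 _ this.2)).2]; exact g2
        · rw [(g4 c (h1 c (by simp))).1, (g1 d (h2 d (by simp))).2]; exact g3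
    have okiff : ∀ (la : ℕ → L) (io : ℕ → I), Ok A la io (d :: b) ↔ Ok A la io (d :: b') := by
      intro la io
      obtain ⟨la', io', g1, g2⟩ := ext1 la io
      rw [← okext a b h1 h2 la la' io io' g1 g2, ← okext a' b' h1' h2' la la' io io' g1 g2]
      exact h.ok la' io'
    refine ⟨?_, occ2, okiff, ?_, ?_, ?_⟩
    · intro x
      have := h.content x
      rw [mem_split, mem_split] at this
      constructor
      · intro hx
        rcases this.1 (Or.inr hx) with h | h
        · exact absurd (h1' x h) (h2 x hx)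
        · exact h
      · intro hx
        rcases this.2 (Or.inr hx) with h | h
        · exact absurd (h1 x h) (h2' x hx)
        · exact h
    · intro la io _; simp
    · intro la io hO
      obtain ⟨la', io', g1, g2⟩ := ext1 la io
      have hh := h.last la' io' ((okext a b h1 h2 la la' io io' g1 g2).2 hO)
      rw [last_eq, last_eq] at hh
      have e1 : ∀ b : List ℕ, (∀ z ∈ d :: b, ¬ Lt z) →
          (d :: b).getLast?.map la' = (d :: b).getLast?.map la := by
        intro b h2
        cases hb : (d :: b).getLast? with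
        | none => rfl
        | some y => simp only [Option.map_some]; rw [(g1 y (h2 y (List.mem_of_getLast? hb))).1]
      rw [e1 b h2, e1 b' h2'] at hh
      exact hh
    · intro la io hO
      obtain ⟨la', io', g1, l1, i1, g2, g3, g4⟩ := ext1 la io
      have hh := h.psum la' io' ((okext a b h1 h2 la la' io io' g1 ⟨l1, i1, g2, g3, g4⟩).2 hO)
      rw [ps_split, ps_split,
        (cgr (d :: b) la' la io' io (fun z hz => g1 z (h2 z hz))).2,
        (cgr (d :: b') la' la io' io (fun z hz => g1 z (h2' z hz))).2] at hh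
      have e2 : ∀ a : List ℕ, (∀ z ∈ a ++ [c], Lt z) →
          CZS.psum p la' io' (a ++ [c]) = (ed (a ++ [c])).card • p l1 i1 := by
        intro a h1
        rw [psum_eq_pm]
        refine pm_const fun e he => ?_
        have := mem_of_mem_ed (x := e.1) (y := e.2) he
        rw [(g4 _ (h1 _ this.1)).1, (g4 _ (h1 _ this.2)).2]
      rw [e2 a h1, e2 a' h1', card_ed_smul hm (by simp) (by simp) occ1] at hh
      exact add_left_cancel (add_left_cancel hh)

end split

end Pool.Agent.CZS
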