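import Pool.Agent.CZS.CT

/-! Semantics of identities in Rees matrix semigroups with zero over abelian groups. -/

set_option autoImplicit false

namespace Pool.Agent.CZS

/-! ### `ed` -/

attribute [simp] ed_nil
@[simp] theorem ed_singleton (x : ℕ) : ed [x] = 0 := rfl
@[simp] theorem ed_cons_cons (x y : ℕ) (l : List ℕ) : ed (x :: y :: l) = (x, y) ::ₘ ed (y :: l) := rfl

theorem ed_append_cons (a : List ℕ) (x : ℕ) (b : List ℕ) :
    ed (a ++ x :: b) = ed (a ++ [x]) + ed (x :: b) := by
  induction a with
  | nil => simp
  | cons y a ih =>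
    cases a with
    | nil => simp
    | cons w a => simpa using ih

theorem ed_concat_append (a : List ℕ) (x : ℕ) (b : List ℕ) :
    ed (a ++ [x] ++ b) = ed (a ++ [x]) + ed (x :: b) := by
  rw [List.append_assoc, List.singleton_append, ed_append_cons]

theorem ed_append_two (a : List ℕ) (x y : ℕ) (b : List ℕ) :
    ed (a ++ x :: y :: b) = ed (a ++ [x]) + (x, y) ::ₘ ed (y :: b) := by
  rw [ed_append_cons, ed_cons_cons]

theorem card_ed (x : ℕ) (l : List ℕ) : (ed (x :: l)).card = l.length := by
  induction l generalizing x with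
  | nil => simp
  | cons y l ih => simp [ih]

/-- The first components of the adjacent pairs, with the last letter, are all letters. -/
theorem map_fst_ed (u : List ℕ) :
    (ed u).map Prod.fst + (u.getLast?.elim 0 (fun x => {x})) = (u : Multiset ℕ) := by
  induction u with
  | nil => simp
  | cons x u ih =>
    cases u with
    | nil => simp
    | cons y u =>
      simp only [ed_cons_cons, Multiset.map_cons, Multiset.cons_add, List.getLast?_cons_cons]
      rw [ih]; simp

theorem map_snd_ed (u : List ℕ) :
    (ed u).map Prod.snd + (u.head?.elim 0 (fun x => {x})) = (u : Multiset ℕ) := by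
  induction u with
  | nil => simp
  | cons x u ih =>
    cases u with
    | nil => simp
    | cons y u =>
      simp only [ed_cons_cons, Multiset.map_cons, List.head?_cons, Option.elim] at ih ⊢
      rw [Multiset.cons_add]
      have : (Multiset.map Prod.snd (ed (y :: u)) + {x}) = x ::ₘ Multiset.map Prod.snd (ed (y :: u)) := by
        rw [add_comm, Multiset.singleton_add]
      rw [this, Multiset.cons_swap, ← Multiset.cons_coe]
      congr 1
      rw [← ih, add_comm, Multiset.singleton_add]

theorem mem_of_mem_ed {u : List ℕ} {x y : ℕ} (h : (x, y) ∈ ed u) : x ∈ u ∧ y ∈ u := by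
  constructor
  · have h1 : x ∈ (u : Multiset ℕ) := by
      rw [← map_fst_ed u]
      exact Multiset.mem_add.2 (Or.inl (Multiset.mem_map.2 ⟨_, h, rfl⟩))
    simpa using h1
  · have h1 : y ∈ (u : Multiset ℕ) := by
      rw [← map_snd_ed u]
      exact Multiset.mem_add.2 (Or.inl (Multiset.mem_map.2 ⟨_, h, rfl⟩))
    simpa using h1

/-- An adjacent pair gives a decomposition. -/
theorem mem_ed_iff {u : List ℕ} {x y : ℕ} : (x, y) ∈ ed u ↔ ∃ a b, u = a ++ x :: y :: b := by
  constructor
  · intro h
    induction u with
    | nil => simp at h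
    | cons z u ih =>
      cases u with
      | nil => simp at h
      | cons w u =>
        rw [ed_cons_cons, Multiset.mem_cons] at h
        rcases h with h | h
        · obtain ⟨rfl, rfl⟩ := Prod.mk.inj h
          exact ⟨[], u, rfl⟩
        · obtain ⟨a, b, hab⟩ := ih h
          exact ⟨z :: a, b, by rw [hab]; rfl⟩
  · rintro ⟨a, b, rfl⟩
    rw [ed_append_two]
    simp

/-! ### Evaluation -/

section Eval

variable {G I L : Type} [AddCommGroup G]

/-- All adjacent pairs of `u` go to nonzero entries. -/
def Ok (A : L → I → Prop) (la : ℕ → L) (io : ℕ → I) (u : List ℕ) : Prop :=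
  ∀ e ∈ ed u, A (la e.1) (io e.2)

/-- Sum of the entries along `u`. -/
def psum (p : L → I → G) (la : ℕ → L) (io : ℕ → I) (u : List ℕ) : G :=
  ((ed u).map (fun e => p (la e.1) (io e.2))).sum

theorem ok_cons_cons {A : L → I → Prop} {la : ℕ → L} {io : ℕ → I} {x y : ℕ} {l : List ℕ} :
    Ok A la io (x :: y :: l) ↔ A (la x) (io y) ∧ Ok A la io (y :: l) := by
  simp [Ok]

theorem foldl_none (A : L → I → Prop) (p : L → I → G) (g : ℕ → Option (I × G × L)) (l : List ℕ) :
    l.foldl (fun a y => rmul A p a (g y)) none = none := by
  induction l with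
  | nil => rfl
  | cons y l ih => simpa [rmul] using ih

open Classical in
theorem foldl_some (A : L → I → Prop) (p : L → I → G) (la : ℕ → L) (io : ℕ → I) (gr : ℕ → G)
    (l : List ℕ) : ∀ (x : ℕ) (i : I) (h : G),
    l.foldl (fun a y => rmul A p a (some (io y, gr y, la y))) (some (i, h, la x)) =
      if Ok A la io (x :: l) then
        some (i, h + (l.map gr).sum + psum p la io (x :: l), la ((x :: l).getLast (by simp)))
      else none := by
  induction l with
  | nil => intro x i h; simp [Ok, psum]
  | cons y l ih =>
    intro x i h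
    rw [List.foldl_cons]
    by_cases hA : A (la x) (io y)
    · have h1 : rmul A p (some (i, h, la x)) (some (io y, gr y, la y)) =
          some (i, h + p (la x) (io y) + gr y, la y) := by simp [rmul, hA]
      rw [h1, ih]
      by_cases hO : Ok A la io (y :: l)
      · rw [if_pos hO, if_pos (ok_cons_cons.2 ⟨hA, hO⟩)]
        congr 2
        · simp only [psum, ed_cons_cons, Multiset.map_cons, Multiset.sum_cons, List.map_cons,
            List.sum_cons]
          congr 1
          · abel
      · rw [if_neg hO, if_neg (fun h => hO (ok_cons_cons.1 h).2)]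
    · have h1 : rmul A p (some (i, h, la x)) (some (io y, gr y, la y)) = none := by
        simp [rmul, hA]
      rw [h1, foldl_none, if_neg (fun h => hA (ok_cons_cons.1 h).1)]

open Classical in
theorem evo_some (A : L → I → Prop) (p : L → I → G) (la : ℕ → L) (io : ℕ → I) (gr : ℕ → G)
    (u : ℕ × List ℕ) :
    evo (rmul A p) (fun x => some (io x, gr x, la x)) u =
      if Ok A la io (u.1 :: u.2) then
        some (io u.1, ((u.1 :: u.2).map gr).sum + psum p la io (u.1 :: u.2),
          la ((u.1 :: u.2).getLast (by simp)))
      else none := by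
  rw [evo]
  have := foldl_some A p la io gr u.2 u.1 (io u.1) (gr u.1)
  rw [this]
  by_cases hO : Ok A la io (u.1 :: u.2)
  · rw [if_pos hO, if_pos hO]
    simp
  · rw [if_neg hO, if_neg hO]

theorem evo_none (A : L → I → Prop) (p : L → I → G) (g : ℕ → Option (I × G × L))
    (u : ℕ × List ℕ) {x : ℕ} (hx : x ∈ u.1 :: u.2) (hg : g x = none) :
    evo (rmul A p) g u = none := by
  obtain ⟨y, l⟩ := u
  simp only [evo]
  rcases List.mem_cons.1 hx with h | h
  · subst h
    rw [hg]
    exact foldl_none A p g l
  · obtain ⟨a, b, rfl⟩ := List.append_of_mem h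
    rw [List.foldl_append, List.foldl_cons, hg]
    have : ∀ t : Option (I × G × L), rmul A p t none = none := by
      intro t; cases t <;> rfl
    rw [this]
    exact foldl_none A p g b

/-- Letters only matter if they occur. -/
theorem evo_congr {T : Type} (op : T → T → T) {g g' : ℕ → T} (u : ℕ × List ℕ)
    (h : ∀ x ∈ u.1 :: u.2, g x = g' x) : evo op g u = evo op g' u := by
  obtain ⟨y, l⟩ := u
  simp only [evo]
  rw [h y (by simp)]
  have : ∀ (l : List ℕ) (a : T), (∀ x ∈ l, g x = g' x) →
      l.foldl (fun a y => op a (g y)) a = l.foldl (fun a y => op a (g' y)) a := by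
    intro l
    induction l with
    | nil => intro a _; rfl
    | cons z l ih =>
      intro a hl
      rw [List.foldl_cons, List.foldl_cons, hl z (by simp)]
      exact ih _ (fun x hx => hl x (by simp [hx]))
  exact this l _ (fun x hx => h x (by simp [hx]))

/-- `u ≈ v` holds in the Rees matrix semigroup, in terms of adjacent pairs; `m` is the exponent
of the group. -/
structure SId (A : L → I → Prop) (p : L → I → G) (m : ℕ) (u v : List ℕ) : Prop where
  content : ∀ x, x ∈ u ↔ x ∈ v
  occ : ∀ x, u.count x ≡ v.count x [MOD m]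
  ok : ∀ la io, Ok A la io u ↔ Ok A la io v
  head : ∀ la io, Ok A la io u → u.head?.map io = v.head?.map io
  last : ∀ la io, Ok A la io u → u.getLast?.map la = v.getLast?.map la
  psum : ∀ la io, Ok A la io u → psum p la io u = psum p la io v

theorem sum_map_congr {m : ℕ} (hm : ∀ g : G, m • g = 0) (gr : ℕ → G) {u v : List ℕ}
    (h : ∀ x, u.count x ≡ v.count x [MOD m]) : (u.map gr).sum = (v.map gr).sum := by
  classical
  have key : ∀ w : List ℕ, ∀ s : Finset ℕ, (∀ x ∈ w, x ∈ s) →
      (w.map gr).sum = ∑ x ∈ s, w.count x • gr x := by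
    intro w
    induction w with
    | nil => intro s _; simp
    | cons y w ih =>
      intro s hs
      rw [List.map_cons, List.sum_cons, ih s (fun x hx => hs x (by simp [hx]))]
      have : ∀ x ∈ s, (y :: w).count x • gr x = w.count x • gr x + if x = y then gr y else 0 := by
        intro x _
        rw [List.count_cons]
        by_cases hxy : x = y
        · subst hxy; simp [add_smul]
        · have : ¬ (y == x) = true := by simpa using fun h => hxy h.symm
          simp [hxy, this]
      rw [Finset.sum_congr rfl this, Finset.sum_add_distrib, Finset.sum_ite_eq' s y]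
      rw [if_pos (hs y (by simp)), add_comm]
  have h1 := key u (u.toFinset ∪ v.toFinset) (by intro x hx; simp [hx])
  have h2 := key v (u.toFinset ∪ v.toFinset) (by intro x hx; simp [hx])
  rw [h1, h2]
  refine Finset.sum_congr rfl fun x _ => ?_
  have hx := (h x)
  have red : ∀ n : ℕ, n • gr x = (n % m) • gr x := by
    intro n
    conv_lhs => rw [← Nat.mod_add_div n m, add_smul, mul_smul, smul_comm, hm, smul_zero, add_zero]
  rw [red, red (v.count x), hx]

theorem mod_of_sId {A : L → I → Prop} {p : L → I → G} {m : ℕ} (hm : ∀ g : G, m • g = 0)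
    {u v : ℕ × List ℕ} (h : SId A p m (u.1 :: u.2) (v.1 :: v.2)) (f : ℕ → Option (I × G × L)) :
    evo (rmul A p) f u = evo (rmul A p) f v := by
  classical
  by_cases hn : ∃ x ∈ u.1 :: u.2, f x = none
  · obtain ⟨x, hx, hf⟩ := hn
    rw [evo_none A p f u hx hf, evo_none A p f v ((h.content x).1 hx) hf]
  · push Not at hn
    have h0 := hn u.1 (by simp)
    obtain ⟨t0, ht0⟩ := Option.ne_none_iff_exists'.1 h0
    let io : ℕ → I := fun x => ((f x).getD t0).1
    let gr : ℕ → G := fun x => ((f x).getD t0).2.1
    let la : ℕ → L := fun x => ((f x).getD t0).2.2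
    have hfx : ∀ x ∈ u.1 :: u.2, f x = some (io x, gr x, la x) := by
      intro x hx
      obtain ⟨t, ht⟩ := Option.ne_none_iff_exists'.1 (hn x hx)
      simp only [io, gr, la, ht, Option.getD_some]
    rw [evo_congr (rmul A p) u hfx,
      evo_congr (rmul A p) v (fun x hx => hfx x ((h.content x).2 hx)), evo_some, evo_some]
    by_cases hO : Ok A la io (u.1 :: u.2)
    · rw [if_pos hO, if_pos ((h.ok la io).1 hO)]
      have h1 := h.head la io hO
      have h2 := h.last la io hO
      have h3 := h.psum la io hO
      rw [sum_map_congr hm gr h.occ, h3]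
      simp only [List.head?_cons, Option.map_some, Option.some.injEq] at h1
      rw [h1]
      rw [List.getLast?_eq_some_getLast (by simp), List.getLast?_eq_some_getLast (by simp)] at h2
      simp only [Option.map_some, Option.some.injEq] at h2
      rw [h2]
    · rw [if_neg hO, if_neg (fun h' => hO ((h.ok la io).2 h'))]

theorem sId_of_mod {A : L → I → Prop} {p : L → I → G} {m : ℕ}
    (hm : ∀ n : ℤ, (∀ g : G, n • g = 0) → (m : ℤ) ∣ n) {l0 : L} {i0 : I} (h0 : A l0 i0)
    {u v : ℕ × List ℕ} (h : ∀ f : ℕ → Option (I × G × L), evo (rmul A p) f u = evo (rmul A p) f v) :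
    SId A p m (u.1 :: u.2) (v.1 :: v.2) := by
  classical
  have main : ∀ (la : ℕ → L) (io : ℕ → I) (gr : ℕ → G), Ok A la io (u.1 :: u.2) ∨
      Ok A la io (v.1 :: v.2) →
      (Ok A la io (u.1 :: u.2) ∧ Ok A la io (v.1 :: v.2)) ∧
      io u.1 = io v.1 ∧
      ((u.1 :: u.2).map gr).sum + psum p la io (u.1 :: u.2) =
        ((v.1 :: v.2).map gr).sum + psum p la io (v.1 :: v.2) ∧
      la ((u.1 :: u.2).getLast (by simp)) = la ((v.1 :: v.2).getLast (by simp)) := by
    intro la io gr hO
    have hh := h (fun x => some (io x, gr x, la x))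
    rw [evo_some, evo_some] at hh
    by_cases h1 : Ok A la io (u.1 :: u.2) <;> by_cases h2 : Ok A la io (v.1 :: v.2)
    · rw [if_pos h1, if_pos h2] at hh
      simp only [Option.some.injEq, Prod.mk.injEq] at hh
      exact ⟨⟨h1, h2⟩, hh.1, hh.2.1, hh.2.2⟩
    · rw [if_pos h1, if_neg h2] at hh; simp at hh
    · rw [if_neg h1, if_pos h2] at hh; simp at hh
    · tauto
  have hc0 : ∀ w : List ℕ, Ok A (fun _ => l0) (fun _ => i0) w := fun w e _ => h0
  have hcont : ∀ (u v : ℕ × List ℕ), (∀ f : ℕ → Option (I × G × L), evo (rmul A p) f u =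
      evo (rmul A p) f v) → ∀ x, x ∈ v.1 :: v.2 → x ∈ u.1 :: u.2 := by
    intro u v h x hx
    by_contra hxu
    have h1 := h (fun y => if y = x then none else some (i0, 0, l0))
    rw [evo_none A p _ v hx (by simp)] at h1
    rw [evo_congr (rmul A p) (g' := fun _ => some (i0, 0, l0)) u (by
      intro y hy
      have : y ≠ x := fun h => hxu (h ▸ hy)
      simp [this])] at h1
    have h2 := evo_some A p (fun _ => l0) (fun _ => i0) (fun _ => (0 : G)) u
    rw [if_pos (hc0 _)] at h2
    rw [h2] at h1
    simp at h1
  refine ⟨fun x => ⟨fun hx => hcont v u (fun f => (h f).symm) x hx, fun hx => hcont u v h x hx⟩,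
    ?_, ?_, ?_, ?_, ?_⟩
  · intro x
    have hz := (main (fun _ => l0) (fun _ => i0) (fun _ => 0) (Or.inl (hc0 _))).2.2.1
    have hg : ∀ g : G, ((u.1 :: u.2).count x) • g = ((v.1 :: v.2).count x) • g := by
      intro g
      have h1 := (main (fun _ => l0) (fun _ => i0) (fun y => if y = x then g else 0)
        (Or.inl (hc0 _))).2.2.1
      have cnt : ∀ w : List ℕ, (w.map (fun y => if y = x then g else 0)).sum = w.count x • g := by
        intro w
        induction w with
        | nil => simp
        | cons y w ih =>
          rw [List.map_cons, List.sum_cons, ih, List.count_cons]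
          by_cases hxy : y = x
          · subst hxy; simp [add_smul, add_comm]
          · have : ¬ (y == x) = true := by simpa using hxy
            simp [hxy, this]
      rw [cnt, cnt] at h1
      have z1 : ∀ w : List ℕ, (w.map (fun _ => (0 : G))).sum = 0 := by
        intro w; induction w with
        | nil => rfl
        | cons y w ih => simp
      rw [z1, z1, zero_add, zero_add] at hz
      rw [hz] at h1
      exact add_right_cancel h1
    have h2 : (m : ℤ) ∣ ((v.1 :: v.2).count x : ℤ) - ((u.1 :: u.2).count x : ℤ) := by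
      refine hm _ fun g => ?_
      rw [sub_smul, natCast_zsmul, natCast_zsmul, hg, sub_self]
    exact (Nat.modEq_iff_dvd).2 h2
  · intro la io
    exact ⟨fun h => (main la io (fun _ => 0) (Or.inl h)).1.2,
      fun h => (main la io (fun _ => 0) (Or.inr h)).1.1⟩
  · intro la io hO
    have := (main la io (fun _ => 0) (Or.inl hO)).2.1
    simp [this]
  · intro la io hO
    have := (main la io (fun _ => 0) (Or.inl hO)).2.2.2
    rw [List.getLast?_eq_some_getLast (by simp), List.getLast?_eq_some_getLast (by simp)]
    simp only [Option.map_some, this]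
  · intro la io hO
    have := (main la io (fun _ => 0) (Or.inl hO)).2.2.1
    simpa using this

end Eval

end Pool.Agent.CZS
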