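import Pool.Agent.CZS.Nec

/-! Words built from blocks `a b z` (with `z = 0`). -/

set_option autoImplicit false
open scoped BigOperators

namespace Pool.Agent.CZS

/-- The word `∏ (e.1 e.2 z)` over `e ∈ l`, with `z = 0`. -/
def blocks (l : List (ℕ × ℕ)) : List ℕ := l.flatMap (fun e => [e.1, e.2, 0])

@[simp] theorem blocks_nil : blocks [] = [] := rfl

theorem blocks_cons (e : ℕ × ℕ) (l : List (ℕ × ℕ)) :
    blocks (e :: l) = e.1 :: e.2 :: 0 :: blocks l := rfl

theorem ed_blocks (l : List (ℕ × ℕ)) {H : Type} [AddCommMonoid H] (f : ℕ × ℕ → H) :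
    ((ed (0 :: blocks l)).map f).sum = (l.map (fun e => f (0, e.1) + f (e.1, e.2) + f (e.2, 0))).sum := by
  induction l with
  | nil => simp
  | cons e l ih =>
    rw [blocks_cons, ed_cons_cons, ed_cons_cons, ed_cons_cons, Multiset.map_cons, Multiset.map_cons,
      Multiset.map_cons, Multiset.sum_cons, Multiset.sum_cons, Multiset.sum_cons, ih, List.map_cons,
      List.sum_cons]
    simp only [add_assoc]

theorem mem_ed_blocks (l : List (ℕ × ℕ)) (e : ℕ × ℕ) :
    e ∈ ed (0 :: blocks l) ↔ ∃ e' ∈ l, e = (0, e'.1) ∨ e = (e'.1, e'.2) ∨ e = (e'.2, 0) := by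
  induction l with
  | nil => simp
  | cons e0 l ih =>
    rw [blocks_cons, ed_cons_cons, ed_cons_cons, ed_cons_cons, Multiset.mem_cons, Multiset.mem_cons,
      Multiset.mem_cons, ih]
    simp only [List.mem_cons, exists_eq_or_imp, or_assoc]

theorem mem_blocks (l : List (ℕ × ℕ)) (x : ℕ) :
    x ∈ 0 :: blocks l ↔ x = 0 ∨ ∃ e ∈ l, x = e.1 ∨ x = e.2 := by
  induction l with
  | nil => simp
  | cons e l ih =>
    rw [blocks_cons]
    simp only [List.mem_cons, exists_eq_or_imp] at ih ⊢
    generalize (x ∈ blocks l) = P at ih ⊢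
    generalize (∃ a ∈ l, x = a.1 ∨ x = a.2) = Q at ih ⊢
    constructor
    · rintro (h | h | h | h)
      · exact Or.inl h
      · exact Or.inr (Or.inl (Or.inl h))
      · exact Or.inr (Or.inl (Or.inr h))
      · rcases ih.1 h with h | h
        · exact Or.inl h
        · exact Or.inr (Or.inr h)
    · rintro (h | (h | h) | h)
      · exact Or.inl h
      · exact Or.inr (Or.inl h)
      · exact Or.inr (Or.inr (Or.inl h))
      · exact Or.inr (Or.inr (Or.inr (ih.2 (Or.inr h))))

theorem count_blocks (l : List (ℕ × ℕ)) (x : ℕ) :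
    (0 :: blocks l).count x = (if x = 0 then 1 else 0) +
      (l.map (fun e => (if x = e.1 then 1 else 0) + (if x = e.2 then 1 else 0) +
        (if x = 0 then 1 else 0))).sum := by
  induction l with
  | nil =>
    rw [blocks_nil, List.count_singleton]
    by_cases h : x = 0
    · simp [h]
    · have : ¬ ((0 : ℕ) == x) = true := by simpa using fun h' => h h'.symm
      simp [h, this]
  | cons e l ih =>
    rw [blocks_cons]
    simp only [List.count_cons, List.map_cons, List.sum_cons] at ih ⊢
    have h1 : ∀ a : ℕ, (if (a == x) = true then 1 else 0) = (if x = a then 1 else 0) := by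
      intro a
      by_cases h : x = a
      · simp [h]
      · have : ¬ (a == x) = true := by simpa using fun h' => h h'.symm
        simp [h, this]
    rw [h1, h1, h1] at *
    omega

theorem last_blocks (l : List (ℕ × ℕ)) : (0 :: blocks l).getLast? = some 0 := by
  induction l with
  | nil => simp
  | cons e l ih =>
    rw [blocks_cons, List.getLast?_cons_cons, List.getLast?_cons_cons, List.getLast?_cons_cons, ih]

/-- Sum over the pairs of a list in which the `j`-th pair is repeated `r` times. -/
theorem sum_map_flatMap {H : Type} [AddCommMonoid H] (M r : ℕ) (c : ℕ → ℕ × ℕ) (h : ℕ × ℕ → H) :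
    (((List.range M).flatMap (fun j => List.replicate r (c j))).map h).sum =
      ∑ j ∈ Finset.range M, r • h (c j) := by
  induction M with
  | zero => simp
  | succ M ih =>
    rw [List.range_succ, List.flatMap_append, List.map_append, List.sum_append, ih,
      Finset.sum_range_succ]
    simp

theorem sum_shift {H : Type} [AddCommMonoid H] (M : ℕ) {T : Type} (X : ℕ → T) (hX : X M = X 0)
    (h : T → H) : ∑ j ∈ Finset.range M, h (X (j + 1)) = ∑ j ∈ Finset.range M, h (X j) := by
  cases M with
  | zero => rfl
  | succ M =>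
    rw [Finset.sum_range_succ, Finset.sum_range_succ', hX]

/-- Sum over a multiset of pairs as a double sum. -/
theorem sum_map_count {H : Type} [AddCommMonoid H] (s : Multiset (ℕ × ℕ)) (c : Finset ℕ)
    (hc : ∀ e ∈ s, e.1 ∈ c ∧ e.2 ∈ c) (f : ℕ × ℕ → H) :
    (s.map f).sum = ∑ x ∈ c, ∑ y ∈ c, s.count (x, y) • f (x, y) := by
  rw [Finset.sum_multiset_map_count, ← Finset.sum_product']
  refine Finset.sum_subset ?_ ?_
  · intro e he
    exact Finset.mem_product.2 (hc e (Multiset.mem_toFinset.1 he))
  · intro e _ he
    have : s.count e = 0 := Multiset.count_eq_zero.2 fun h => he (Multiset.mem_toFinset.2 h)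
    rw [this, zero_smul]

theorem sum_count_fst (s : Multiset (ℕ × ℕ)) (c : Finset ℕ) (hc : ∀ e ∈ s, e.2 ∈ c) (x : ℕ) :
    ∑ y ∈ c, s.count (x, y) = (s.map Prod.fst).count x := by
  induction s using Multiset.induction_on with
  | empty => simp
  | cons e s ih =>
    have h1 := ih (fun e' he' => hc e' (Multiset.mem_cons_of_mem he'))
    have h2 := hc e (Multiset.mem_cons_self e s)
    obtain ⟨a, b⟩ := e
    simp only [Multiset.map_cons, Multiset.count_cons, Finset.sum_add_distrib, h1]
    congr 1
    by_cases hax : x = a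
    · subst hax
      simp only [Prod.mk.injEq, true_and, if_true]
      rw [Finset.sum_ite_eq' c b]
      exact if_pos h2
    · simp [hax]

theorem sum_count_snd (s : Multiset (ℕ × ℕ)) (c : Finset ℕ) (hc : ∀ e ∈ s, e.1 ∈ c) (y : ℕ) :
    ∑ x ∈ c, s.count (x, y) = (s.map Prod.snd).count y := by
  induction s using Multiset.induction_on with
  | empty => simp
  | cons e s ih =>
    have h1 := ih (fun e' he' => hc e' (Multiset.mem_cons_of_mem he'))
    have h2 := hc e (Multiset.mem_cons_self e s)
    obtain ⟨a, b⟩ := e
    simp only [Multiset.map_cons, Multiset.count_cons, Finset.sum_add_distrib, h1]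
    congr 1
    by_cases hax : y = b
    · subst hax
      simp only [Prod.mk.injEq, and_true, if_true]
      rw [Finset.sum_ite_eq' c a]
      exact if_pos h2
    · simp [hax]

/-- `rmul` is associative. -/
theorem rmul_assoc {G I L : Type} [AddCommGroup G] (A : L → I → Prop) (p : L → I → G)
    (a b c : Option (I × G × L)) : rmul A p (rmul A p a b) c = rmul A p a (rmul A p b c) := by
  classical
  rcases a with _ | ⟨i, g, l⟩
  · rfl
  · rcases b with _ | ⟨j, h, k⟩
    · rfl
    · rcases c with _ | ⟨i', g', l'⟩
      · have : ∀ t : Option (I × G × L), rmul A p t none = none := by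
          intro t; cases t <;> rfl
        rw [this, this, this]
      · by_cases h1 : A l j <;> by_cases h2 : A k i' <;> simp [rmul, h1, h2, add_assoc]

end Pool.Agent.CZS
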