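import Pool.Agent.CZS.Defs

/-!
# Words with the same head, tail and (mod m) adjacent pairs are related
-/

set_option autoImplicit false

namespace Pool.Agent.CZS

/-! ### adjacent pairs -/

theorem ed_nil : ed [] = 0 := rfl

theorem ed_single (x : ℕ) : ed [x] = 0 := rfl

theorem ed_cons₂ (x y : ℕ) (l : List ℕ) : ed (x :: y :: l) = (x, y) ::ₘ ed (y :: l) := rfl

theorem ed_append (u : List ℕ) (x : ℕ) (v : List ℕ) :
    ed (u ++ x :: v) = ed (u ++ [x]) + ed (x :: v) := by
  induction u with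
  | nil => simp [ed_single]
  | cons a u ih =>
    cases u with
    | nil =>
      show ed (a :: x :: v) = ed (a :: x :: []) + ed (x :: v)
      rw [ed_cons₂, ed_cons₂, ed_single, Multiset.cons_add, zero_add]
    | cons b u =>
      show ed (a :: b :: (u ++ x :: v)) = ed (a :: b :: (u ++ [x])) + ed (x :: v)
      rw [ed_cons₂, ed_cons₂, Multiset.cons_add]
      congr 1

theorem ed_ca (x : ℕ) (a : List ℕ) (y : ℕ) (b : List ℕ) :
    ed (x :: (a ++ y :: b)) = ed (x :: (a ++ [y])) + ed (y :: b) := by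
  rw [← List.cons_append, ed_append]; rfl

/-- `w` leads from `x` to `y` -/
def Wk (x : ℕ) (w : List ℕ) (y : ℕ) : Prop := (x :: w).getLast? = some y

theorem Wk.nil (x : ℕ) : Wk x [] x := rfl

theorem wk_concat (x y : ℕ) (a : List ℕ) : Wk x (a ++ [y]) y := by
  unfold Wk
  rw [← List.cons_append, List.getLast?_concat]

theorem wk_cons (x y z : ℕ) (a : List ℕ) : Wk x (y :: a) z ↔ Wk y a z := by
  unfold Wk
  rw [List.getLast?_cons_cons]

theorem wk_append (x y z : ℕ) (a b : List ℕ) : Wk x (a ++ y :: b) z ↔ Wk y b z := by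
  induction a generalizing x with
  | nil => exact wk_cons x y z b
  | cons c a ih => rw [List.cons_append, wk_cons]; exact ih c

theorem wk_exists {x y : ℕ} {w : List ℕ} (h : Wk x w y) : ∃ a, x :: w = a ++ [y] :=
  List.getLast?_eq_some_iff.1 h

theorem wk_closed {x : ℕ} {w : List ℕ} (h : Wk x w x) : w = [] ∨ ∃ a, w = a ++ [x] := by
  rcases List.eq_nil_or_concat w with h1 | ⟨a, b, h1⟩
  · exact Or.inl h1
  · right
    refine ⟨a, ?_⟩
    rw [h1, List.concat_eq_append] at h ⊢
    have := (wk_append x b x a []).1 h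
    unfold Wk at this
    simp at this
    rw [this]

theorem Wk.trans {x y z : ℕ} {a b : List ℕ} (h : Wk x a y) (h' : Wk y b z) : Wk x (a ++ b) z := by
  obtain ⟨c, hc⟩ := wk_exists h
  unfold Wk
  rw [← List.cons_append, hc, List.append_assoc, List.singleton_append]
  cases c with
  | nil => exact h'
  | cons d c => exact (wk_append d y z c b).2 h'

theorem ed_glue {z y : ℕ} {p : List ℕ} (h : Wk z p y) (q : List ℕ) :
    ed (z :: (p ++ q)) = ed (z :: p) + ed (y :: q) := by
  obtain ⟨c, hc⟩ := wk_exists h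
  rw [← List.cons_append, hc, List.append_assoc, List.singleton_append, ed_append]

theorem ed_insert {z : ℕ} {g : List ℕ} (h : Wk z g z) (A B : List ℕ) :
    ed (A ++ z :: (g ++ B)) = ed (A ++ z :: B) + ed (z :: g) := by
  rw [ed_append A z (g ++ B), ed_glue h, ed_append A z B]
  abel

theorem mem_of_ed {a b : ℕ} {u : List ℕ} (h : (a, b) ∈ ed u) : a ∈ u ∧ b ∈ u := by
  induction u with
  | nil => simp [ed_nil] at h
  | cons x u ih =>
    cases u with
    | nil => simp [ed_single] at h
    | cons y u =>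
      rw [ed_cons₂, Multiset.mem_cons] at h
      rcases h with h | h
      · obtain ⟨rfl, rfl⟩ := Prod.mk.inj h
        simp
      · obtain ⟨h1, h2⟩ := ih h
        exact ⟨List.mem_cons_of_mem _ h1, List.mem_cons_of_mem _ h2⟩

theorem split_of_ed {a b : ℕ} {u : List ℕ} (h : (a, b) ∈ ed u) : ∃ A B, u = A ++ a :: b :: B := by
  induction u with
  | nil => simp [ed_nil] at h
  | cons x u ih =>
    cases u with
    | nil => simp [ed_single] at h
    | cons y u =>
      rw [ed_cons₂, Multiset.mem_cons] at h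
      rcases h with h | h
      · obtain ⟨rfl, rfl⟩ := Prod.mk.inj h
        exact ⟨[], u, rfl⟩
      · obtain ⟨A, B, h⟩ := ih h
        exact ⟨x :: A, B, by rw [h]; rfl⟩

/-- the first letter of a pair of `u ++ [x]` is in `u` -/
theorem mem_left_of_ed {a b x : ℕ} {u : List ℕ} (h : (a, b) ∈ ed (u ++ [x])) : a ∈ u := by
  obtain ⟨A, B, h⟩ := split_of_ed h
  rcases List.eq_nil_or_concat B with hB | ⟨B', c, hB⟩
  · subst hB
    have : u ++ [x] = (A ++ [a]) ++ [b] := by rw [h]; simp
    rw [(List.append_inj' this rfl).1]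
    simp
  · subst hB
    have : u ++ [x] = (A ++ a :: b :: B') ++ [c] := by rw [h]; simp
    rw [(List.append_inj' this rfl).1]
    simp

/-! ### powers -/

theorem pw_zero (w : List ℕ) : pw 0 w = [] := rfl

theorem pw_succ (n : ℕ) (w : List ℕ) : pw (n + 1) w = w ++ pw n w := by
  unfold pw
  rw [List.replicate_succ, List.flatten_cons]

theorem pw_one (w : List ℕ) : pw 1 w = w := by rw [pw_succ, pw_zero, List.append_nil]

theorem pw_nil (n : ℕ) : pw n [] = [] := by
  induction n with
  | zero => rfl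
  | succ n ih => rw [pw_succ, ih]; rfl

theorem pw_add (a b : ℕ) (w : List ℕ) : pw (a + b) w = pw a w ++ pw b w := by
  induction a with
  | zero => rw [zero_add, pw_zero]; rfl
  | succ a ih => rw [Nat.succ_add, pw_succ, ih, pw_succ, List.append_assoc]

theorem pw_rot (n : ℕ) (P Q : List ℕ) : pw (n + 1) (P ++ Q) = P ++ (pw n (Q ++ P) ++ Q) := by
  induction n with
  | zero => rw [zero_add, pw_one, pw_zero]; rfl
  | succ n ih =>
    rw [pw_succ, ih, pw_succ n (Q ++ P)]
    simp [List.append_assoc]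

theorem Wk.pw {x : ℕ} {w : List ℕ} (h : Wk x w x) (n : ℕ) : Wk x (pw n w) x := by
  induction n with
  | zero => exact Wk.nil x
  | succ n ih => rw [pw_succ]; exact h.trans ih

theorem ed_pw {x : ℕ} {w : List ℕ} (h : Wk x w x) (n : ℕ) :
    ed (x :: pw n w) = n • ed (x :: w) := by
  induction n with
  | zero => simp [pw_zero, ed_single]
  | succ n ih => rw [pw_succ, ed_glue h, ih, succ_nsmul]; abel

/-! ### first consequences of the laws -/

variable {m : ℕ} {R : List ℕ → List ℕ → Prop}

theorem CTRel.app' (hR : CTRel m R) {u v : List ℕ} (a b : List ℕ) (h : R u v) :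
    R (a ++ (u ++ b)) (a ++ (v ++ b)) := by
  have := hR.app a b h
  rwa [List.append_assoc, List.append_assoc] at this

theorem CTRel.comm (hR : CTRel m R) {x : ℕ} {w w' : List ℕ} (h : Wk x w x) (h' : Wk x w' x) :
    R (x :: (w ++ w')) (x :: (w' ++ w)) := by
  rcases wk_closed h with rfl | ⟨a, rfl⟩
  · rw [List.nil_append, List.append_nil]; exact hR.refl _
  rcases wk_closed h' with rfl | ⟨b, rfl⟩
  · rw [List.nil_append, List.append_nil]; exact hR.refl _
  have := hR.l2 x a b
  simpa [List.append_assoc] using this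

theorem CTRel.pump1 (hR : CTRel m R) {x : ℕ} {w : List ℕ} (h : Wk x w x) :
    R (x :: w) (x :: pw (m + 1) w) := by
  rcases wk_closed h with rfl | ⟨a, rfl⟩
  · rw [pw_nil]; exact hR.refl _
  · exact hR.l1 x a

theorem CTRel.pump (hR : CTRel m R) {x : ℕ} {w : List ℕ} (h : Wk x w x) (j : ℕ) :
    R (x :: w) (x :: pw (1 + j * m) w) := by
  induction j with
  | zero => rw [zero_mul, add_zero, pw_one]; exact hR.refl _
  | succ j ih =>
    refine hR.trans ih ?_
    have h1 := hR.app' [] (pw (j * m) w) (hR.pump1 h)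
    rw [List.nil_append, List.nil_append, List.cons_append, List.cons_append, ← pw_succ,
      ← pw_add] at h1
    have h2 : m + 1 + j * m = 1 + (j + 1) * m := by ring
    rw [h2, add_comm (j * m) 1] at h1
    exact h1

/-- `x w^m ~ x w^(jm)` for `j ≥ 1` -/
theorem CTRel.pumpm (hR : CTRel m R) (hm : 0 < m) {x : ℕ} {w : List ℕ} (h : Wk x w x) (j : ℕ) :
    R (x :: pw m w) (x :: pw (m + j * m) w) := by
  have h1 := hR.app' [] (pw (m - 1) w) (hR.pump h j)
  rw [List.nil_append, List.nil_append, List.cons_append, List.cons_append, ← pw_succ,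
      ← pw_add] at h1
  have h2 : m - 1 + 1 = m := by omega
  have h3 : 1 + j * m + (m - 1) = m + j * m := by
    have : 1 + j * m + (m - 1) = (m - 1 + 1) + j * m := by ring
    rw [this, h2]
  rwa [h2, h3] at h1

theorem CTRel.swap (hR : CTRel m R) (hm : 0 < m) (x y : ℕ) (b c d : List ℕ) :
    R (x :: (b ++ y :: (c ++ x :: (d ++ [y])))) (x :: (d ++ y :: (c ++ x :: (b ++ [y])))) := by
  obtain ⟨m', rfl⟩ : ∃ m', m = m' + 1 := ⟨m - 1, by omega⟩
  have hW : Wk x ((b ++ [y]) ++ (c ++ [x])) x := by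
    rw [← List.append_assoc]; exact wk_concat _ _ _
  have e1 : x :: (b ++ y :: (c ++ x :: (d ++ [y]))) =
      [] ++ ((x :: ((b ++ [y]) ++ (c ++ [x]))) ++ (d ++ [y])) := by simp
  have s1 := hR.app' [] (d ++ [y]) (hR.pump1 hW)
  rw [← e1, pw_rot] at s1
  -- at `y`
  have hP : Wk y ((c ++ [x]) ++ (b ++ [y])) y := by
    rw [← List.append_assoc]; exact wk_concat _ _ _
  have s2 := hR.app' (x :: b) [] (hR.comm (hP.pw (m' + 1))
    (show Wk y ((c ++ [x]) ++ (d ++ [y])) y by rw [← List.append_assoc]; exact wk_concat _ _ _))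
  have e2 : [] ++ (x :: (b ++ [y] ++ (pw (m' + 1) (c ++ [x] ++ (b ++ [y])) ++ (c ++ [x]))) ++
      (d ++ [y])) = x :: b ++ (y :: (pw (m' + 1) (c ++ [x] ++ (b ++ [y])) ++
      (c ++ [x] ++ (d ++ [y]))) ++ []) := by simp
  rw [e2] at s1
  -- at `x`
  have hb : Wk x (b ++ [y] ++ (c ++ [x])) x := hW
  have hd : Wk x (d ++ [y] ++ (c ++ [x])) x := by
    rw [← List.append_assoc]; exact wk_concat _ _ _
  have s3 := hR.app' [] ((b ++ [y]) ++ pw m' (c ++ [x] ++ (b ++ [y]))) (hR.comm hb hd)
  have e3 : x :: b ++ (y :: (c ++ [x] ++ (d ++ [y]) ++ pw (m' + 1) (c ++ [x] ++ (b ++ [y]))) ++ [])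
      = [] ++ (x :: (b ++ [y] ++ (c ++ [x]) ++ (d ++ [y] ++ (c ++ [x]))) ++
        (b ++ [y] ++ pw m' (c ++ [x] ++ (b ++ [y])))) := by
    rw [pw_succ]; simp
  rw [e3] at s2
  have s4 := hR.app' (x :: d) [] (hR.symm (hR.pump1 hP))
  have e4 : [] ++ (x :: (d ++ [y] ++ (c ++ [x]) ++ (b ++ [y] ++ (c ++ [x]))) ++
        (b ++ [y] ++ pw m' (c ++ [x] ++ (b ++ [y])))) =
      x :: d ++ (y :: pw (m' + 1 + 1) (c ++ [x] ++ (b ++ [y])) ++ []) := by
    rw [pw_succ, pw_succ]; simp
  rw [e4] at s3
  have e5 : x :: d ++ (y :: (c ++ [x] ++ (b ++ [y])) ++ []) =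
      x :: (d ++ y :: (c ++ x :: (b ++ [y]))) := by simp
  rw [e5] at s4
  exact hR.trans s1 (hR.trans s2 (hR.trans s3 s4))

/-! ### exact multiset of pairs -/

/-- A letter common to `x :: A'` and `z :: B` if `u = x A' x z B` and `v = x z v'` have the same
pairs and `u` does not start with `x z`. -/
theorem exists_common {x y z : ℕ} {A' B v' : List ℕ} (hyz : y ≠ z)
    (hxy : (x, y) ∈ ed (x :: (A' ++ x :: z :: B)))
    (hed : ed (x :: (A' ++ x :: z :: B)) = ed (x :: z :: v')) :
    ∃ t, t ∈ x :: A' ∧ t ∈ z :: B := by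
  by_contra hno
  push Not at hno
  have hsplit : ed (x :: (A' ++ x :: z :: B)) = ed (x :: A' ++ [x]) + ed (x :: z :: B) := by
    rw [← List.cons_append, ed_append]
  have hstep : ∀ p q, (p, q) ∈ ed (x :: z :: v') → p ∈ z :: B → q ∈ z :: B := by
    intro p q h hp
    rw [← hed, hsplit, Multiset.mem_add] at h
    rcases h with h | h
    · exact absurd hp (hno p (mem_left_of_ed h))
    · rw [ed_cons₂, Multiset.mem_cons] at h
      rcases h with h | h
      · obtain ⟨rfl, rfl⟩ := Prod.mk.inj h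
        exact absurd hp (hno p (by simp))
      · exact (mem_of_ed h).2
  have hall : ∀ (l : List ℕ) (a : ℕ), (∀ p q, (p, q) ∈ ed (a :: l) → p ∈ z :: B → q ∈ z :: B) →
      a ∈ z :: B → ∀ b ∈ a :: l, b ∈ z :: B := by
    intro l
    induction l with
    | nil => intro a _ ha b hb; rw [List.mem_singleton] at hb; rw [hb]; exact ha
    | cons c l ih =>
      intro a h ha b hb
      rw [List.mem_cons] at hb
      rcases hb with rfl | hb
      · exact ha
      · refine ih c (fun p q hpq => h p q ?_) ?_ b hb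
        · rw [ed_cons₂]; exact Multiset.mem_cons_of_mem hpq
        · exact h a c (by rw [ed_cons₂]; exact Multiset.mem_cons_self _ _) ha
  have hv : ∀ b ∈ z :: v', b ∈ z :: B := by
    refine hall v' z (fun p q hpq => hstep p q ?_) (by simp)
    rw [ed_cons₂]; exact Multiset.mem_cons_of_mem hpq
  rw [hed, ed_cons₂, Multiset.mem_cons] at hxy
  rcases hxy with h | h
  · exact hyz (Prod.mk.inj h).2
  · exact hno x (by simp) (hv x (mem_of_ed h).1)

theorem ct_exact {m : ℕ} (hm : 0 < m) {R : List ℕ → List ℕ → Prop} (hR : CTRel m R)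
    {u v : List ℕ} (hhead : u.head? = v.head?) (hed : ed u = ed v) : R u v := by
  induction hn : u.length using Nat.strong_induction_on generalizing u v with
  | _ n ih =>
  subst hn
  cases u with
  | nil =>
    cases v with
    | nil => exact hR.refl _
    | cons a v => simp at hhead
  | cons x u =>
  cases v with
  | nil => simp at hhead
  | cons x' v =>
  obtain rfl : x = x' := by simpa using hhead
  cases u with
  | nil =>
    cases v with
    | nil => exact hR.refl _
    | cons a v =>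
      rw [ed_single, ed_cons₂] at hed
      exact absurd hed.symm (Multiset.cons_ne_zero)
  | cons y u =>
  cases v with
  | nil =>
    rw [ed_single, ed_cons₂] at hed
    exact absurd hed (Multiset.cons_ne_zero)
  | cons z v =>
  -- a reduction: if `u ~ x z u'` with the same pairs and length then done
  have key : ∀ u' : List ℕ, R (x :: y :: u) (x :: z :: u') → ed (x :: y :: u) = ed (x :: z :: u') →
      u'.length = u.length → R (x :: y :: u) (x :: z :: v) := by
    intro u' h1 h2 h3
    refine hR.trans h1 ?_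
    have h4 : ed (z :: u') = ed (z :: v) := by
      rw [h2, ed_cons₂, ed_cons₂] at hed
      exact (Multiset.cons_inj_right _).1 hed
    have h5 := ih (z :: u').length (by simp [h3]) (u := z :: u') (v := z :: v) rfl h4 rfl
    have h6 := hR.app' [x] [] h5
    simpa using h6
  by_cases hyz : y = z
  · subst hyz
    exact key u (hR.refl _) rfl rfl
  have hxz : (x, z) ∈ ed (x :: y :: u) := by
    rw [hed, ed_cons₂]; exact Multiset.mem_cons_self _ _
  have hxy : (x, y) ∈ ed (x :: y :: u) := by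
    rw [ed_cons₂]; exact Multiset.mem_cons_self _ _
  obtain ⟨A, B, hAB⟩ := split_of_ed hxz
  cases A with
  | nil =>
    simp at hAB
    exact absurd hAB.1 hyz
  | cons a A' =>
  obtain ⟨rfl, hu⟩ : x = a ∧ y :: u = A' ++ x :: z :: B := by simpa using hAB
  rw [hu] at hed hxy key
  obtain ⟨t, ht1, ht2⟩ := exists_common hyz hxy hed
  have hlen : (y :: u).length = (A' ++ x :: z :: B).length := by rw [hu]
  simp at hlen
  rw [List.mem_cons] at ht1
  obtain ⟨B1, B2, hB⟩ := List.append_of_mem ht2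
  have hlenB : (z :: B).length = (B1 ++ t :: B2).length := by rw [hB]
  simp at hlenB
  rw [hu]
  rcases ht1 with rfl | ht1
  · -- `t = x`
    have h1 : R (t :: (A' ++ t :: z :: B)) (t :: (B1 ++ t :: (A' ++ t :: B2))) := by
      have := hR.app' [] B2 (hR.l2 t A' B1)
      rw [hB]
      simpa using this
    have h2 : ed (t :: (A' ++ t :: z :: B)) = ed (t :: (B1 ++ t :: (A' ++ t :: B2))) := by
      rw [hB, ed_ca t A' t (B1 ++ t :: B2), ed_ca t B1 t B2, ed_ca t B1 t (A' ++ t :: B2),
        ed_ca t A' t B2]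
      abel
    cases B1 with
    | nil =>
      simp at hB hlenB
      obtain ⟨rfl, rfl⟩ := hB
      exact key _ h1 h2 (by simp; omega)
    | cons b B1 =>
      simp at hB hlenB
      obtain ⟨rfl, hB⟩ := hB
      exact key _ h1 h2 (by simp; omega)
  · obtain ⟨A1, A2, hA⟩ := List.append_of_mem ht1
    have hlenA : A'.length = (A1 ++ t :: A2).length := by rw [hA]
    simp at hlenA
    have h1 : R (x :: (A' ++ x :: z :: B)) (x :: (B1 ++ t :: (A2 ++ x :: (A1 ++ t :: B2)))) := by
      have := hR.app' [] B2 (hR.swap hm x t A1 A2 B1)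
      rw [hB, hA]
      simpa using this
    have h2 : ed (x :: (A' ++ x :: z :: B)) =
        ed (x :: (B1 ++ t :: (A2 ++ x :: (A1 ++ t :: B2)))) := by
      rw [hB, hA]
      have e1 : A1 ++ t :: A2 ++ x :: (B1 ++ t :: B2) = A1 ++ t :: (A2 ++ x :: (B1 ++ t :: B2)) := by
        simp
      rw [e1, ed_ca x A1 t (A2 ++ x :: (B1 ++ t :: B2)), ed_ca t A2 x (B1 ++ t :: B2),
        ed_ca x B1 t B2, ed_ca x B1 t (A2 ++ x :: (A1 ++ t :: B2)), ed_ca t A2 x (A1 ++ t :: B2),
        ed_ca x A1 t B2]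
      abel
    cases B1 with
    | nil =>
      simp at hB hlenB
      obtain ⟨rfl, rfl⟩ := hB
      exact key _ h1 h2 (by simp; omega)
    | cons b B1 =>
      simp at hB hlenB
      obtain ⟨rfl, hB⟩ := hB
      exact key _ h1 h2 (by simp; omega)

/-! ### the relation on multisets of pairs -/

/-- `F` and `F'` are the multisets of pairs of two related words with head `h`. -/
def QR (R : List ℕ → List ℕ → Prop) (h : ℕ) (F F' : Multiset (ℕ × ℕ)) : Prop :=
  ∃ p q : List ℕ, p.head? = some h ∧ q.head? = some h ∧ ed p = F ∧ ed q = F' ∧ R p q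

section QRsec

variable {h : ℕ}

theorem QR.refl' (hR : CTRel m R) {u : List ℕ} (hu : u.head? = some h) : QR R h (ed u) (ed u) :=
  ⟨u, u, hu, hu, rfl, rfl, hR.refl _⟩

theorem QR.symm' (hR : CTRel m R) {F F' : Multiset (ℕ × ℕ)} (H : QR R h F F') : QR R h F' F := by
  obtain ⟨p, q, h1, h2, h3, h4, h5⟩ := H
  exact ⟨q, p, h2, h1, h4, h3, hR.symm h5⟩

theorem QR.trans' (hm : 0 < m) (hR : CTRel m R) {F F' F'' : Multiset (ℕ × ℕ)}
    (H : QR R h F F') (H' : QR R h F' F'') : QR R h F F'' := by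
  obtain ⟨p, q, h1, h2, h3, h4, h5⟩ := H
  obtain ⟨p', q', h1', h2', h3', h4', h5'⟩ := H'
  exact ⟨p, q', h1, h2', h3, h4',
    hR.trans h5 (hR.trans (ct_exact hm hR (h2.trans h1'.symm) (h4.trans h3'.symm)) h5')⟩

theorem QR.apply (hm : 0 < m) (hR : CTRel m R) {u v : List ℕ} (H : QR R h (ed u) (ed v))
    (hu : u.head? = some h) (hv : v.head? = some h) : R u v := by
  obtain ⟨p, q, h1, h2, h3, h4, h5⟩ := H
  exact hR.trans (ct_exact hm hR (hu.trans h1.symm) h3.symm)
    (hR.trans h5 (ct_exact hm hR (h2.trans hv.symm) h4))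

theorem head_app (A : List ℕ) (z : ℕ) (B B' : List ℕ) :
    (A ++ z :: B).head? = (A ++ z :: B').head? := by
  cases A <;> rfl

theorem m1 (hR : CTRel m R) {A B c : List ℕ} {t : ℕ} (hh : (A ++ t :: (c ++ B)).head? = some h)
    (hc : Wk t c t) :
    QR R h (ed (A ++ t :: (c ++ B))) (ed (A ++ t :: (c ++ B)) + m • ed (t :: c)) := by
  refine ⟨A ++ t :: (c ++ B), A ++ t :: (pw (m + 1) c ++ B), hh, ?_, rfl, ?_, ?_⟩
  · rw [← hh]; exact head_app _ _ _ _
  · rw [ed_insert (hc.pw (m + 1)), ed_insert hc, ed_pw hc, succ_nsmul]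
    abel
  · have := hR.app' A B (hR.pump1 hc)
    simpa using this

theorem m2 (hm : 0 < m) (hR : CTRel m R) {u g : List ℕ} {z : ℕ} (hh : u.head? = some h)
    (hz : z ∈ u) (hg : Wk z g z) (j : ℕ) :
    QR R h (ed u + m • ed (z :: g)) (ed u + (m + j * m) • ed (z :: g)) := by
  obtain ⟨A, B, rfl⟩ := List.append_of_mem hz
  refine ⟨A ++ z :: (pw m g ++ B), A ++ z :: (pw (m + j * m) g ++ B), ?_, ?_, ?_, ?_, ?_⟩
  · rw [← hh]; exact head_app _ _ _ _
  · rw [← hh]; exact head_app _ _ _ _
  · rw [ed_insert (hg.pw m), ed_pw hg]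
  · rw [ed_insert (hg.pw _), ed_pw hg]
  · have := hR.app' A B (hR.pumpm hm hg j)
    simpa using this

theorem lemY (hm : 0 < m) (hR : CTRel m R) {A B c g : List ℕ} {t z : ℕ}
    (hh : (A ++ t :: (c ++ B)).head? = some h) (hc : Wk t c t)
    (hz : z ∈ A ++ t :: (c ++ B)) (hg : Wk z g z) :
    QR R h (ed (A ++ t :: (c ++ B)) + m • ed (z :: g))
      (ed (A ++ t :: (c ++ B)) + m • ed (z :: g) + m • ed (t :: c)) := by
  have hcase : z ∈ A ∨ z ∈ t :: c ∨ z ∈ B := by
    simp only [List.mem_append, List.mem_cons] at hz ⊢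
    tauto
  rcases hcase with h1 | h1 | h1
  · obtain ⟨A1, A2, rfl⟩ := List.append_of_mem h1
    have e1 : ed (A1 ++ z :: A2 ++ t :: (c ++ B)) + m • ed (z :: g) =
        ed ((A1 ++ z :: (pw m g ++ A2)) ++ t :: (c ++ B)) := by
      have := ed_insert (hg.pw m) A1 (A2 ++ t :: (c ++ B))
      rw [ed_pw hg] at this
      simp only [List.append_assoc, List.cons_append] at this ⊢
      exact this.symm
    rw [e1]
    refine m1 hR ?_ hc
    rw [← hh]
    cases A1 <;> rfl
  · -- the walk `c` passes through `z`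
    obtain ⟨c', hc1, hc2⟩ : ∃ c', Wk t c' t ∧ ed (t :: c') = ed (t :: c) + m • ed (z :: g) := by
      rw [List.mem_cons] at h1
      rcases h1 with rfl | h1
      · refine ⟨pw m g ++ c, (hg.pw m).trans hc, ?_⟩
        rw [ed_glue (hg.pw m), ed_pw hg]
        abel
      · obtain ⟨c1, c2, rfl⟩ := List.append_of_mem h1
        refine ⟨c1 ++ z :: (pw m g ++ c2), ?_, ?_⟩
        · rw [wk_append] at hc ⊢
          exact (hg.pw m).trans hc
        · have := ed_insert (hg.pw m) (t :: c1) c2
          rw [ed_pw hg] at this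
          exact this
    have s1 := m1 (h := h) hR (A := A) (B := B) (c := c') (t := t)
      (by rw [← hh]; exact head_app _ _ _ _) hc1
    have e0 : ed (A ++ t :: (c' ++ B)) = ed (A ++ t :: (c ++ B)) + m • ed (z :: g) := by
      rw [ed_insert hc1, ed_insert hc, hc2]
      abel
    rw [e0, hc2] at s1
    have s2 := m2 (h := h) hm hR (u := A ++ t :: (pw (m + 1) c ++ B)) (z := z) (g := g)
      (by rw [← hh]; exact head_app _ _ _ _) (by
        rw [pw_succ]
        simp only [List.mem_append, List.mem_cons] at h1 ⊢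
        tauto) hg m
    have e2 : ed (A ++ t :: (pw (m + 1) c ++ B)) = ed (A ++ t :: (c ++ B)) + m • ed (t :: c) := by
      rw [ed_insert (hc.pw _), ed_insert hc, ed_pw hc, succ_nsmul]
      abel
    rw [e2] at s2
    have s3 := QR.symm' hR s2
    have e3 : ed (A ++ t :: (c ++ B)) + m • ed (z :: g) + m • (ed (t :: c) + m • ed (z :: g)) =
        ed (A ++ t :: (c ++ B)) + m • ed (t :: c) + (m + m * m) • ed (z :: g) := by
      rw [smul_add, add_smul, mul_smul]
      abel
    rw [e3] at s1
    have s4 := QR.trans' hm hR s1 s3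
    have e4 : ed (A ++ t :: (c ++ B)) + m • ed (t :: c) + m • ed (z :: g) =
        ed (A ++ t :: (c ++ B)) + m • ed (z :: g) + m • ed (t :: c) := by abel
    rw [e4] at s4
    exact s4
  · obtain ⟨B1, B2, rfl⟩ := List.append_of_mem h1
    have e1 : ed (A ++ t :: (c ++ (B1 ++ z :: B2))) + m • ed (z :: g) =
        ed (A ++ t :: (c ++ (B1 ++ z :: (pw m g ++ B2)))) := by
      have := ed_insert (hg.pw m) (A ++ t :: (c ++ B1)) B2
      rw [ed_pw hg] at this
      simp only [List.append_assoc, List.cons_append] at this ⊢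
      exact this.symm
    rw [e1]
    refine m1 hR ?_ hc
    rw [← hh]
    exact head_app _ _ _ _

end QRsec

/-! ### reachability -/

theorem wk_total (x : ℕ) (w : List ℕ) : ∃ y, Wk x w y := by
  unfold Wk
  cases hw : (x :: w).getLast? with
  | none => simp at hw
  | some y => exact ⟨y, rfl⟩

theorem Wk.cancel {z y x : ℕ} {p r : List ℕ} (h : Wk z p y) (h' : Wk z (p ++ r) x) : Wk y r x := by
  obtain ⟨x', hx'⟩ := wk_total y r
  have := h.trans hx'
  unfold Wk at this h'
  rw [this] at h'
  rw [Option.some_inj] at h'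
  rw [← h']
  exact hx'

theorem reach_of_wk {E : Multiset (ℕ × ℕ)} {x y : ℕ} {w : List ℕ} (h : Wk x w y)
    (hE : ∀ e ∈ ed (x :: w), e ∈ E) : Relation.ReflTransGen (fun a b => (a, b) ∈ E) x y := by
  induction w generalizing x with
  | nil =>
    unfold Wk at h
    simp at h
    rw [h]
  | cons a w ih =>
    rw [wk_cons] at h
    refine Relation.ReflTransGen.head ?_ (ih h fun e he => hE e ?_)
    · exact hE _ (by rw [ed_cons₂]; exact Multiset.mem_cons_self _ _)
    · rw [ed_cons₂]; exact Multiset.mem_cons_of_mem he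

theorem wk_of_reach {E : Multiset (ℕ × ℕ)} {x y : ℕ}
    (h : Relation.ReflTransGen (fun a b => (a, b) ∈ E) x y) :
    ∃ w, Wk x w y ∧ ∀ e ∈ ed (x :: w), e ∈ E := by
  induction h using Relation.ReflTransGen.head_induction_on with
  | refl => exact ⟨[], Wk.nil _, by simp [ed_single]⟩
  | head hab hbc ih =>
    rename_i a c
    obtain ⟨w, h1, h2⟩ := ih
    refine ⟨c :: w, (wk_cons _ _ _ _).2 h1, fun e he => ?_⟩
    rw [ed_cons₂, Multiset.mem_cons] at he
    rcases he with rfl | he
    · exact hab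
    · exact h2 e he

theorem p3 {u : List ℕ} {x y : ℕ} (hxy : (x, y) ∈ ed u)
    (hr : Relation.ReflTransGen (fun a b => (a, b) ∈ ed u) y x) :
    ∃ A t c B k, u = A ++ t :: (c ++ B) ∧ Wk t c t ∧ Wk x (y :: k) x ∧
      ed (x :: y :: k) = ed (t :: c) := by
  obtain ⟨A0, B0, rfl⟩ := split_of_ed hxy
  have hsplit : ed (A0 ++ x :: y :: B0) = ed (A0 ++ [x]) + ed (x :: y :: B0) := ed_append _ _ _
  obtain ⟨t, ht1, ht2⟩ : ∃ t, t ∈ A0 ++ [x] ∧ t ∈ y :: B0 := by
    by_contra hno
    push Not at hno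
    have hall : ∀ b, Relation.ReflTransGen (fun a b => (a, b) ∈ ed (A0 ++ x :: y :: B0)) y b →
        b ∈ y :: B0 := by
      intro b hb
      induction hb with
      | refl => simp
      | tail _ hbc ih =>
        rename_i b c _
        rw [hsplit, Multiset.mem_add] at hbc
        rcases hbc with h | h
        · exact absurd ih (hno b (by simp [mem_left_of_ed h]))
        · rw [ed_cons₂, Multiset.mem_cons] at h
          rcases h with h | h
          · obtain ⟨rfl, rfl⟩ := Prod.mk.inj h
            exact absurd ih (hno b (by simp))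
          · exact (mem_of_ed h).2
    exact hno x (by simp) (hall x hr)
  obtain ⟨A1, A2, hA⟩ := List.append_of_mem ht1
  obtain ⟨B1, B2, hB⟩ := List.append_of_mem ht2
  have hA2 : Wk t A2 x := by
    have := wk_concat 0 x A0
    rw [hA] at this
    exact (wk_append _ _ _ _ _).1 this
  obtain ⟨k, hk⟩ : ∃ k, B1 ++ t :: A2 = y :: k := by
    cases B1 with
    | nil => simp at hB; exact ⟨A2, by rw [hB.1]; rfl⟩
    | cons b B1 => simp at hB; exact ⟨B1 ++ t :: A2, by rw [hB.1]; rfl⟩
  refine ⟨A1, t, A2 ++ (B1 ++ [t]), B2, k, ?_, ?_, ?_, ?_⟩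
  · have : A0 ++ x :: y :: B0 = (A0 ++ [x]) ++ (y :: B0) := by simp
    rw [this, hA, hB]
    simp
  · rw [← List.append_assoc]; exact wk_concat _ _ _
  · rw [← hk]; exact (wk_append _ _ _ _ _).2 hA2
  · rw [← hk, ed_ca, ed_glue hA2]
    abel

section claimD

variable {h : ℕ}

theorem claimD (hm : 0 < m) (hR : CTRel m R) {u w : List ℕ} {z : ℕ} (hh : u.head? = some h)
    (hw : Wk z w z) (hsub : ∀ e ∈ ed (z :: w), e ∈ ed u) :
    QR R h (ed u) (ed u + m • ed (z :: w)) := by
  rcases w with _ | ⟨a0, w0⟩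
  · rw [ed_single, smul_zero, add_zero]; exact QR.refl' hR hh
  have hzu : z ∈ u := (mem_of_ed (hsub (z, a0) (by rw [ed_cons₂]; exact Multiset.mem_cons_self _ _))).1
  set w := a0 :: w0 with hwdef
  clear_value w
  -- the induction over the prefixes
  have step : ∀ (s p : List ℕ), p ++ s = w →
      (∃ r, Wk z (p ++ r) z ∧ (∀ e ∈ ed (z :: (p ++ r)), e ∈ ed u) ∧
        ∀ g, Wk z g z → QR R h (ed u + m • ed (z :: g)) (ed u + m • ed (z :: (g ++ (p ++ r))))) →
      ∃ r, Wk z (w ++ r) z ∧ (∀ e ∈ ed (z :: (w ++ r)), e ∈ ed u) ∧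
        ∀ g, Wk z g z → QR R h (ed u + m • ed (z :: g)) (ed u + m • ed (z :: (g ++ (w ++ r)))) := by
    intro s
    induction s with
    | nil => intro p hp H; rw [List.append_nil] at hp; rw [hp] at H; exact H
    | cons a s ih =>
      intro p hp H
      obtain ⟨r, hr1, hr2, hr3⟩ := H
      refine ih (p ++ [a]) (by rw [← hp]; simp) ?_
      obtain ⟨y, hy⟩ := wk_total z p
      have hed : ed (z :: w) = ed (z :: p) + ed (y :: a :: s) := by
        rw [← hp, ed_glue hy]
      have hya : (y, a) ∈ ed u := by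
        apply hsub
        rw [hed, ed_cons₂]
        exact Multiset.mem_add.2 (Or.inr (Multiset.mem_cons_self _ _))
      have hsz : Wk a s z := by
        rw [← hp] at hw
        exact (wk_append _ _ _ _ _).1 hw
      have hreach : Relation.ReflTransGen (fun a b => (a, b) ∈ ed u) a y := by
        refine (reach_of_wk hsz fun e he => hsub e ?_).trans (reach_of_wk hy fun e he => hsub e ?_)
        · rw [hed, ed_cons₂]
          exact Multiset.mem_add.2 (Or.inr (Multiset.mem_cons_of_mem he))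
        · rw [hed]
          exact Multiset.mem_add.2 (Or.inl he)
      obtain ⟨A, t, c, B, k, hu, hc, hk, hke⟩ := p3 hya hreach
      have hyr : Wk y r z := hy.cancel hr1
      have hnew : (p ++ [a]) ++ (k ++ r) = p ++ ((a :: k) ++ r) := by simp
      have hednew : ed (z :: (p ++ ((a :: k) ++ r))) = ed (z :: (p ++ r)) + ed (t :: c) := by
        rw [ed_glue hy, ed_glue hk, ed_glue hy r, hke]
        abel
      refine ⟨k ++ r, ?_, ?_, ?_⟩
      · rw [hnew]
        exact hy.trans (hk.trans hyr)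
      · intro e he
        rw [hnew, hednew, Multiset.mem_add] at he
        rcases he with he | he
        · exact hr2 e he
        · rw [hu, ed_insert hc]
          exact Multiset.mem_add.2 (Or.inr he)
      · intro g hg
        refine QR.trans' hm hR (hr3 g hg) ?_
        have h1 := lemY (h := h) (z := z) (g := g ++ (p ++ r)) hm hR (A := A) (B := B) (c := c)
          (t := t) (by rw [← hu]; exact hh) hc (by rw [← hu]; exact hzu) (hg.trans hr1)
        rw [← hu] at h1
        have e1 : ed u + m • ed (z :: (g ++ (p ++ r))) + m • ed (t :: c) =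
            ed u + m • ed (z :: (g ++ (p ++ [a] ++ (k ++ r)))) := by
          rw [hnew, ed_glue hg, ed_glue hg (p ++ (a :: k ++ r)), hednew]
          simp only [smul_add]
          abel
        rw [e1] at h1
        exact h1
  obtain ⟨r, hr1, hr2, hr3⟩ := step w [] rfl ⟨[], Wk.nil z, by simp [ed_single], fun g hg => by
    rw [List.append_nil, List.append_nil]
    have := m2 (h := h) hm hR hh hzu hg 0
    rw [zero_mul, add_zero] at this
    exact this⟩
  have hr : Wk z r z := hw.cancel hr1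
  have s1 := hr3 [] (Wk.nil z)
  rw [List.nil_append, ed_single, smul_zero, add_zero, ed_glue hw, smul_add] at s1
  have s2 := hr3 w hw
  rw [ed_glue hw, ed_glue hw, smul_add, smul_add] at s2
  obtain ⟨A, B, hu⟩ := List.append_of_mem hzu
  have hu1 : ed (A ++ z :: (pw m r ++ B)) = ed u + m • ed (z :: r) := by
    rw [hu, ed_insert (hr.pw m), ed_pw hr]
  have s3 := m2 (h := h) hm hR (u := A ++ z :: (pw m r ++ B)) (z := z) (g := w)
    (by rw [← hh, hu]; exact head_app _ _ _ _) (by simp) hw 1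
  rw [hu1, one_mul, add_smul] at s3
  have e1 : ed u + m • ed (z :: r) + m • ed (z :: w) =
      ed u + (m • ed (z :: w) + m • ed (z :: r)) := by abel
  have e2 : ed u + m • ed (z :: r) + (m • ed (z :: w) + m • ed (z :: w)) =
      ed u + (m • ed (z :: w) + (m • ed (z :: w) + m • ed (z :: r))) := by abel
  rw [e1, e2] at s3
  exact QR.trans' hm hR s1 (QR.trans' hm hR s3 (QR.symm' hR s2))

theorem claimDs (hm : 0 < m) (hR : CTRel m R) {u : List ℕ} (hh : u.head? = some h)
    (S : Multiset (ℕ × List ℕ))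
    (hS : ∀ s ∈ S, Wk s.1 s.2 s.1 ∧ ∀ e ∈ ed (s.1 :: s.2), e ∈ ed u) :
    QR R h (ed u) (ed u + m • (S.map fun s => ed (s.1 :: s.2)).sum) := by
  induction S using Multiset.induction with
  | empty =>
    simp only [Multiset.map_zero, Multiset.sum_zero, smul_zero, add_zero]
    exact QR.refl' hR hh
  | cons s S ih =>
    have h1 := ih fun s' hs' => hS s' (Multiset.mem_cons_of_mem hs')
    obtain ⟨hs1, hs2⟩ := hS s (Multiset.mem_cons_self _ _)
    obtain ⟨p, q, hp, hq, hpe, hqe, hpq⟩ := h1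
    have h2 := claimD hm hR (u := q) hq hs1 fun e he => by
      rw [hqe]; exact Multiset.mem_add.2 (Or.inl (hs2 e he))
    rw [hqe] at h2
    have h3 := QR.trans' hm hR ⟨p, q, hp, hq, hpe, hqe, hpq⟩ h2
    rw [Multiset.map_cons, Multiset.sum_cons]
    have e1 : ed u + m • (S.map fun s => ed (s.1 :: s.2)).sum + m • ed (s.1 :: s.2) =
        ed u + m • (ed (s.1 :: s.2) + (S.map fun s => ed (s.1 :: s.2)).sum) := by
      rw [smul_add]; abel
    rw [e1] at h3
    exact h3

end claimD

/-! ### the main theorem -/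

theorem exists_div {α : Type} [DecidableEq α] {m : ℕ} (F : Multiset α)
    (hF : ∀ e, m ∣ F.count e) : ∃ P : Multiset α, F = m • P := by
  refine ⟨∑ e ∈ F.toFinset, (F.count e / m) • {e}, ?_⟩
  conv_lhs => rw [← Multiset.toFinset_sum_count_nsmul_eq F]
  rw [Finset.smul_sum]
  refine Finset.sum_congr rfl fun e _ => ?_
  rw [← mul_smul, Nat.mul_div_cancel' (hF e)]

theorem balance {x y : ℕ} {w : List ℕ} (h : Wk x w y) :
    (ed (x :: w)).map Prod.fst + {y} = (ed (x :: w)).map Prod.snd + {x} := by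
  induction w generalizing x with
  | nil =>
    unfold Wk at h
    simp at h
    simp [ed_single, h]
  | cons a w ih =>
    rw [wk_cons] at h
    have := ih h
    rw [ed_cons₂, Multiset.map_cons, Multiset.map_cons, Multiset.cons_add, this]
    show x ::ₘ ((ed (a :: w)).map Prod.snd + {a}) = (a ::ₘ (ed (a :: w)).map Prod.snd) + {x}
    rw [Multiset.cons_add, ← Multiset.singleton_add, ← Multiset.singleton_add a]
    abel

theorem reach_of_twice {u : List ℕ} {x y : ℕ} (h : 2 ≤ (ed u).count (x, y)) :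
    Relation.ReflTransGen (fun a b => (a, b) ∈ ed u) y x := by
  have h0 : (x, y) ∈ ed u := Multiset.count_pos.1 (by omega)
  obtain ⟨A, B, rfl⟩ := split_of_ed h0
  have hsplit : ed (A ++ x :: y :: B) = ed (A ++ [x]) + ed (x :: y :: B) := ed_append _ _ _
  rw [hsplit, ed_cons₂, Multiset.count_add, Multiset.count_cons_self] at h
  have h1 : (x, y) ∈ ed (A ++ [x]) ∨ (x, y) ∈ ed (y :: B) := by
    by_contra hno
    push Not at hno
    rw [Multiset.count_eq_zero_of_notMem hno.1, Multiset.count_eq_zero_of_notMem hno.2] at h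
    omega
  rcases h1 with h1 | h1
  · obtain ⟨C, D, hC⟩ := split_of_ed h1
    have hw : Wk y D x := by
      have := wk_concat 0 x A
      rw [hC] at this
      have h2 := (wk_append _ _ _ _ _).1 this
      exact (wk_cons _ _ _ _).1 h2
    refine reach_of_wk hw fun e he => ?_
    rw [hsplit]
    refine Multiset.mem_add.2 (Or.inl ?_)
    rw [hC, ed_append, ed_cons₂]
    exact Multiset.mem_add.2 (Or.inr (Multiset.mem_cons_of_mem he))
  · obtain ⟨C, D, hC⟩ := split_of_ed h1
    cases C with
    | nil =>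
      simp at hC
      rw [hC.1]
    | cons c C =>
      obtain ⟨rfl, hC'⟩ : y = c ∧ B = C ++ x :: y :: D := by simpa using hC
      refine reach_of_wk (w := C ++ [x]) (wk_concat _ _ _) fun e he => ?_
      rw [hsplit]
      refine Multiset.mem_add.2 (Or.inr ?_)
      rw [ed_cons₂]
      refine Multiset.mem_cons_of_mem ?_
      rw [hC', ed_ca]
      exact Multiset.mem_add.2 (Or.inl he)

theorem ct_main {m : ℕ} (hm : 0 < m) {R : List ℕ → List ℕ → Prop} (hR : CTRel m R)
    {u v : List ℕ} (hhead : u.head? = v.head?) (hlast : u.getLast? = v.getLast?)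
    (hsupp : ∀ e, e ∈ ed u ↔ e ∈ ed v)
    (hcount : ∀ e, (ed u).count e ≡ (ed v).count e [MOD m]) : R u v := by
  classical
  cases u with
  | nil =>
    cases v with
    | nil => exact hR.refl _
    | cons a v => simp at hhead
  | cons h u =>
  cases v with
  | nil => simp at hhead
  | cons h' v =>
  obtain rfl : h = h' := by simpa using hhead
  obtain ⟨l, hul⟩ := wk_total h u
  have hvl : Wk h v l := hlast.symm.trans hul
  set N := ed (h :: u) with hN
  set N' := ed (h :: v) with hN'
  have hcomm : N ∪ N' = N' ∪ N := Multiset.union_comm _ _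
  obtain ⟨P, hP⟩ := exists_div (m := m) ((N ∪ N') - N) fun e => by
    rw [Multiset.count_sub, Multiset.count_union]
    rcases le_total (N'.count e) (N.count e) with hle | hle
    · rw [max_eq_left hle, Nat.sub_self]; exact dvd_zero _
    · rw [max_eq_right hle]
      exact (Nat.modEq_iff_dvd' hle).1 (hcount e)
  obtain ⟨Q, hQ⟩ := exists_div (m := m) ((N ∪ N') - N') fun e => by
    rw [Multiset.count_sub, Multiset.count_union]
    rcases le_total (N'.count e) (N.count e) with hle | hle
    · rw [max_eq_left hle]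
      exact (Nat.modEq_iff_dvd' hle).1 (hcount e).symm
    · rw [max_eq_right hle, Nat.sub_self]; exact dvd_zero _
  have hPQ : N + m • P = N' + m • Q := by
    rw [← hP, ← hQ, add_comm, Multiset.sub_add_cancel Multiset.le_union_left,
      add_comm, Multiset.sub_add_cancel Multiset.le_union_right]
  -- pairs of `P` and `Q` lie on closed walks
  have hEq : (fun a b => (a, b) ∈ N') = fun a b => (a, b) ∈ N := by
    funext a b
    exact propext (hsupp (a, b)).symm
  have hPm : ∀ e ∈ P, e ∈ N ∧ Relation.ReflTransGen (fun a b => (a, b) ∈ N) e.2 e.1 := by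
    intro e he
    have h1 : 0 < ((N ∪ N') - N).count e := by
      rw [hP, Multiset.count_nsmul]
      exact Nat.mul_pos hm (Multiset.count_pos.2 he)
    rw [Multiset.count_sub, Multiset.count_union] at h1
    have h2 : N.count e < N'.count e := by
      rcases le_total (N'.count e) (N.count e) with hle | hle
      · rw [max_eq_left hle] at h1; omega
      · rw [max_eq_right hle] at h1; omega
    have h3 : e ∈ N := (hsupp e).2 (Multiset.count_pos.1 (by omega))
    have h4 := Multiset.count_pos.2 h3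
    refine ⟨h3, ?_⟩
    rw [← hEq]
    exact reach_of_twice (by rw [← hN']; show 2 ≤ N'.count e; omega)
  have hQm : ∀ e ∈ Q, e ∈ N ∧ Relation.ReflTransGen (fun a b => (a, b) ∈ N) e.2 e.1 := by
    intro e he
    have h1 : 0 < ((N ∪ N') - N').count e := by
      rw [hQ, Multiset.count_nsmul]
      exact Nat.mul_pos hm (Multiset.count_pos.2 he)
    rw [Multiset.count_sub, Multiset.count_union] at h1
    have h2 : N'.count e < N.count e := by
      rcases le_total (N'.count e) (N.count e) with hle | hle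
      · rw [max_eq_left hle] at h1; omega
      · rw [max_eq_right hle] at h1; omega
    have h3 : e ∈ N' := (hsupp e).1 (Multiset.count_pos.1 (by omega))
    have h4 := Multiset.count_pos.2 h3
    exact ⟨(hsupp e).2 h3, reach_of_twice (by rw [← hN]; show 2 ≤ N.count e; omega)⟩
  -- balance
  have hbal : P.map Prod.snd + Q.map Prod.fst = Q.map Prod.snd + P.map Prod.fst := by
    have b1 := balance hul
    have b2 := balance hvl
    rw [← hN] at b1
    rw [← hN'] at b2
    have c1 : N.map Prod.fst + m • P.map Prod.fst = N'.map Prod.fst + m • Q.map Prod.fst := by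
      rw [← Multiset.map_nsmul, ← Multiset.map_nsmul, ← Multiset.map_add, ← Multiset.map_add, hPQ]
    have c2 : N.map Prod.snd + m • P.map Prod.snd = N'.map Prod.snd + m • Q.map Prod.snd := by
      rw [← Multiset.map_nsmul, ← Multiset.map_nsmul, ← Multiset.map_add, ← Multiset.map_add, hPQ]
    ext a
    have d1 := congrArg (Multiset.count a) b1
    have d2 := congrArg (Multiset.count a) b2
    have d3 := congrArg (Multiset.count a) c1
    have d4 := congrArg (Multiset.count a) c2
    simp only [Multiset.count_add, Multiset.count_nsmul] at d1 d2 d3 d4 ⊢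
    have d5 : m * ((P.map Prod.snd).count a + (Q.map Prod.fst).count a) =
        m * ((Q.map Prod.snd).count a + (P.map Prod.fst).count a) := by
      rw [mul_add, mul_add]; omega
    exact Nat.eq_of_mul_eq_mul_left hm d5
  -- base points
  let Rc : ℕ → ℕ → Prop := Relation.ReflTransGen (fun a b => (a, b) ∈ N)
  let b : ℕ → ℕ := fun x => sInf {y | Rc x y ∧ Rc y x}
  have hb : ∀ x, Rc x (b x) ∧ Rc (b x) x := fun x =>
    Nat.sInf_mem (s := {y | Rc x y ∧ Rc y x}) ⟨x, Relation.ReflTransGen.refl,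
      Relation.ReflTransGen.refl⟩
  have hbb : ∀ x y, Rc x y → Rc y x → b x = b y := by
    intro x y hxy hyx
    show sInf _ = sInf _
    congr 1
    ext z
    exact ⟨fun ⟨h1, h2⟩ => ⟨hyx.trans h1, h2.trans hxy⟩,
      fun ⟨h1, h2⟩ => ⟨hxy.trans h1, h2.trans hyx⟩⟩
  choose ρ hρ1 hρ2 using fun x => wk_of_reach (hb x).1
  choose π hπ1 hπ2 using fun x => wk_of_reach (hb x).2
  let f1 : ℕ × ℕ → ℕ × List ℕ := fun e => (b e.1, π e.1 ++ e.2 :: ρ e.2)
  let f2 : ℕ × ℕ → ℕ × List ℕ := fun e => (b e.1, π e.1 ++ ρ e.1)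
  have hf1 : ∀ e, e ∈ N → Rc e.2 e.1 → Wk (f1 e).1 (f1 e).2 (f1 e).1 ∧
      ed ((f1 e).1 :: (f1 e).2) = ed (b e.1 :: π e.1) + ({e} + ed (e.2 :: ρ e.2)) := by
    intro e he hre
    refine ⟨?_, ?_⟩
    · show Wk (b e.1) (π e.1 ++ e.2 :: ρ e.2) (b e.1)
      rw [wk_append, hbb e.1 e.2 (Relation.ReflTransGen.single he) hre]
      exact hρ1 e.2
    · show ed (b e.1 :: (π e.1 ++ e.2 :: ρ e.2)) = _
      rw [ed_glue (hπ1 e.1), ed_cons₂]
      rfl
  have hf2 : ∀ e, Wk (f2 e).1 (f2 e).2 (f2 e).1 ∧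
      ed ((f2 e).1 :: (f2 e).2) = ed (b e.1 :: π e.1) + ed (e.1 :: ρ e.1) := by
    intro e
    exact ⟨(hπ1 e.1).trans (hρ1 e.1), ed_glue (hπ1 e.1) _⟩
  have hmem1 : ∀ e, e ∈ N → Rc e.2 e.1 → ∀ d ∈ ed ((f1 e).1 :: (f1 e).2), d ∈ N := by
    intro e he hre d hd
    rw [(hf1 e he hre).2, Multiset.mem_add, Multiset.mem_add, Multiset.mem_singleton] at hd
    rcases hd with hd | rfl | hd
    · exact hπ2 _ d hd
    · exact he
    · exact hρ2 _ d hd
  have hmem2 : ∀ e, ∀ d ∈ ed ((f2 e).1 :: (f2 e).2), d ∈ N := by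
    intro e d hd
    rw [(hf2 e).2, Multiset.mem_add] at hd
    rcases hd with hd | hd
    · exact hπ2 _ d hd
    · exact hρ2 _ d hd
  -- general sums
  have hsum : ∀ P Q : Multiset (ℕ × ℕ),
      (∀ e ∈ P, e ∈ N ∧ Rc e.2 e.1) → (∀ e ∈ Q, e ∈ N ∧ Rc e.2 e.1) →
      ((P.map f1 + Q.map f2).map fun s => ed (s.1 :: s.2)).sum =
        (P.map fun e => ed (b e.1 :: π e.1)).sum + (P + (P.map fun e => ed (e.2 :: ρ e.2)).sum) +
        ((Q.map fun e => ed (b e.1 :: π e.1)).sum + (Q.map fun e => ed (e.1 :: ρ e.1)).sum) := by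
    intro P Q hP hQ
    rw [Multiset.map_add, Multiset.sum_add, Multiset.map_map, Multiset.map_map]
    congr 1
    · have : P.map ((fun s => ed (s.1 :: s.2)) ∘ f1) =
          P.map fun e => ed (b e.1 :: π e.1) + ({e} + ed (e.2 :: ρ e.2)) :=
        Multiset.map_congr rfl fun e he => (hf1 e (hP e he).1 (hP e he).2).2
      rw [this, Multiset.sum_map_add, Multiset.sum_map_add, Multiset.sum_map_singleton]
    · have : Q.map ((fun s => ed (s.1 :: s.2)) ∘ f2) =
          Q.map fun e => ed (b e.1 :: π e.1) + ed (e.1 :: ρ e.1) :=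
        Multiset.map_congr rfl fun e he => (hf2 e).2
      rw [this, Multiset.sum_map_add]
  have hS : ∀ P Q : Multiset (ℕ × ℕ),
      (∀ e ∈ P, e ∈ N ∧ Rc e.2 e.1) → (∀ e ∈ Q, e ∈ N ∧ Rc e.2 e.1) →
      ∀ s ∈ P.map f1 + Q.map f2, Wk s.1 s.2 s.1 ∧ ∀ e ∈ ed (s.1 :: s.2), e ∈ N := by
    intro P Q hP hQ s hs
    rw [Multiset.mem_add, Multiset.mem_map, Multiset.mem_map] at hs
    rcases hs with ⟨e, he, rfl⟩ | ⟨e, he, rfl⟩
    · exact ⟨(hf1 e (hP e he).1 (hP e he).2).1, hmem1 e (hP e he).1 (hP e he).2⟩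
    · exact ⟨(hf2 e).1, hmem2 e⟩
  have r1 := claimDs (h := h) hm hR (u := h :: u) rfl (P.map f1 + Q.map f2) (hS P Q hPm hQm)
  have r2 := claimDs (h := h) hm hR (u := h :: v) rfl (Q.map f1 + P.map f2) fun s hs =>
    ⟨(hS Q P hQm hPm s hs).1, fun e he => (hsupp e).1 ((hS Q P hQm hPm s hs).2 e he)⟩
  rw [hsum P Q hPm hQm] at r1
  rw [hsum Q P hQm hPm] at r2
  have hρs : (P.map fun e => ed (e.2 :: ρ e.2)).sum + (Q.map fun e => ed (e.1 :: ρ e.1)).sum =
      (Q.map fun e => ed (e.2 :: ρ e.2)).sum + (P.map fun e => ed (e.1 :: ρ e.1)).sum := by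
    have := congrArg (fun M : Multiset ℕ => (M.map fun x => ed (x :: ρ x)).sum) hbal
    simpa [Multiset.map_add, Multiset.sum_add, Multiset.map_map, Function.comp_def] using this
  rw [← hN] at r1
  rw [← hN'] at r2
  have hfin : N + m • ((P.map fun e => ed (b e.1 :: π e.1)).sum +
        (P + (P.map fun e => ed (e.2 :: ρ e.2)).sum) +
        ((Q.map fun e => ed (b e.1 :: π e.1)).sum + (Q.map fun e => ed (e.1 :: ρ e.1)).sum)) =
      N' + m • ((Q.map fun e => ed (b e.1 :: π e.1)).sum +
        (Q + (Q.map fun e => ed (e.2 :: ρ e.2)).sum) +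
        ((P.map fun e => ed (b e.1 :: π e.1)).sum + (P.map fun e => ed (e.1 :: ρ e.1)).sum)) := by
    generalize (P.map fun e => ed (b e.1 :: π e.1)).sum = a1 at *
    generalize (Q.map fun e => ed (b e.1 :: π e.1)).sum = a2 at *
    generalize (P.map fun e => ed (e.2 :: ρ e.2)).sum = a3 at *
    generalize (Q.map fun e => ed (e.2 :: ρ e.2)).sum = a4 at *
    generalize (P.map fun e => ed (e.1 :: ρ e.1)).sum = a5 at *
    generalize (Q.map fun e => ed (e.1 :: ρ e.1)).sum = a6 at *
    have e1 : a1 + (P + a3) + (a2 + a6) = P + (a1 + a2 + (a3 + a6)) := by abel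
    have e2 : a2 + (Q + a4) + (a1 + a5) = Q + (a1 + a2 + (a4 + a5)) := by abel
    rw [e1, e2, hρs, smul_add m P, smul_add m Q, ← add_assoc N, ← add_assoc N', hPQ]
  rw [← hfin] at r2
  have r3 := QR.trans' hm hR r1 (QR.symm' hR r2)
  exact QR.apply hm hR r3 rfl rfl

end Pool.Agent.CZS
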