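import Pool.Agent.CZS.Graph

/-! Zigzags in a closed graph of adjacent pairs, reachability is total, cutting a word. -/

set_option autoImplicit false

namespace Pool.Agent.CZS

theorem ed_cons_sub {x : ℕ} {l : List ℕ} {e : ℕ × ℕ} (h : e ∈ ed l) : e ∈ ed (x :: l) := by
  cases l with
  | nil => simp [ed] at h
  | cons y l => simp only [ed, Multiset.mem_cons]; exact Or.inr h

theorem reach_cons_sub {x : ℕ} {l : List ℕ} {a b : ℕ} (h : Reach l a b) : Reach (x :: l) a b :=
  Relation.ReflTransGen.mono (fun _ _ h => ed_cons_sub h) _ _ h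

theorem reach_head {l : List ℕ} : ∀ {h y : ℕ}, y ∈ h :: l → Reach (h :: l) h y := by
  induction l with
  | nil =>
    intro h y hy
    simp only [List.mem_cons, List.not_mem_nil, or_false] at hy
    subst hy
    exact Relation.ReflTransGen.refl
  | cons z l ih =>
    intro h y hy
    rcases List.mem_cons.1 hy with hy | hy
    · subst hy; exact Relation.ReflTransGen.refl
    · refine Relation.ReflTransGen.head (b := z) ?_ (reach_cons_sub (ih hy))
      simp [ed]

/-- linearity of reachability -/
theorem reach_total {u : List ℕ} {x y : ℕ} (hx : x ∈ u) (hy : y ∈ u) : Reach u x y ∨ Reach u y x := by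
  induction u with
  | nil => simp at hx
  | cons h l ih =>
    rcases List.mem_cons.1 hx with hx' | hx'
    · subst hx'; exact Or.inl (reach_head hy)
    rcases List.mem_cons.1 hy with hy' | hy'
    · subst hy'; exact Or.inr (reach_head hx)
    rcases ih hx' hy' with h1 | h1
    · exact Or.inl (reach_cons_sub h1)
    · exact Or.inr (reach_cons_sub h1)

theorem head_of_down (L : ℕ → Prop) {l : List ℕ} : ∀ {h : ℕ},
    (∀ x y, (x, y) ∈ ed (h :: l) → L y → L x) → (∃ z ∈ h :: l, L z) → L h := by
  induction l with
  | nil =>
    intro h _ hz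
    obtain ⟨z, hz, hL⟩ := hz
    simp only [List.mem_cons, List.not_mem_nil, or_false] at hz
    subst hz; exact hL
  | cons y l ih =>
    intro h hd hz
    obtain ⟨z, hz, hL⟩ := hz
    rcases List.mem_cons.1 hz with hz | hz
    · subst hz; exact hL
    · have : L y := ih (fun a b hab => hd a b (ed_cons_sub hab)) ⟨z, hz, hL⟩
      exact hd h y (by simp [ed]) this

/-- cutting at a down-closed set of letters -/
theorem exists_cut {u : List ℕ} (L : ℕ → Prop) (hdown : ∀ x y, (x, y) ∈ ed u → L y → L x)
    (hh : ∀ h, u.head? = some h → L h) (hn : ∃ z ∈ u, ¬ L z) :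
    ∃ a c d b, u = a ++ c :: d :: b ∧ (∀ z ∈ a ++ [c], L z) ∧ ∀ z ∈ d :: b, ¬ L z := by
  induction u with
  | nil => obtain ⟨z, hz, _⟩ := hn; simp at hz
  | cons x l ih =>
    have hx : L x := hh x rfl
    cases l with
    | nil =>
      obtain ⟨z, hz, hzL⟩ := hn
      simp only [List.mem_cons, List.not_mem_nil, or_false] at hz
      subst hz; exact absurd hx hzL
    | cons y l =>
      by_cases hy : L y
      · obtain ⟨a, c, d, b, h1, h2, h3⟩ := ih (fun p q hpq => hdown p q (ed_cons_sub hpq))
          (fun h hh' => by
            simp only [List.head?_cons, Option.some.injEq] at hh'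
            subst hh'; exact hy)
          (by
            obtain ⟨z, hz, hzL⟩ := hn
            rcases List.mem_cons.1 hz with hz | hz
            · subst hz; exact absurd hx hzL
            · exact ⟨z, hz, hzL⟩)
        refine ⟨x :: a, c, d, b, by rw [h1]; rfl, ?_, h3⟩
        intro z hz
        rw [List.cons_append] at hz
        rcases List.mem_cons.1 hz with hz | hz
        · subst hz; exact hx
        · exact h2 z hz
      · refine ⟨[], x, y, l, rfl, ?_, ?_⟩
        · intro z hz
          simp only [List.nil_append, List.mem_cons, List.not_mem_nil, or_false] at hz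
          subst hz; exact hx
        · intro z hz hL
          exact hy (head_of_down L (fun p q hpq => hdown p q (ed_cons_sub hpq)) ⟨z, hz, hL⟩)

theorem ed_split (a : List ℕ) (c d : ℕ) (b : List ℕ) {e : ℕ × ℕ} (h : e ∈ ed (a ++ c :: d :: b)) :
    e ∈ ed (a ++ [c]) ∨ e = (c, d) ∨ e ∈ ed (d :: b) := by
  induction a with
  | nil =>
    simp only [List.nil_append, ed, Multiset.mem_cons] at h
    rcases h with h | h
    · exact Or.inr (Or.inl h)
    · exact Or.inr (Or.inr h)
  | cons x a ih =>
    cases a with
    | nil =>
      simp only [List.cons_append, List.nil_append, ed, Multiset.mem_cons] at h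
      rcases h with h | h | h
      · left; subst h; simp
      · exact Or.inr (Or.inl h)
      · exact Or.inr (Or.inr h)
    | cons y a =>
      simp only [List.cons_append, ed, Multiset.mem_cons] at h
      rcases h with h | h
      · left; subst h; simp [ed]
      · rcases ih (by simpa using h) with h | h | h
        · left; exact ed_cons_sub h
        · exact Or.inr (Or.inl h)
        · exact Or.inr (Or.inr h)

theorem zig_append {u : List ℕ} {k x a z w : ℕ} (h : Zig u k x a) (h1 : (z, a) ∈ ed u)
    (h2 : (z, w) ∈ ed u) : Zig u (k + 1) x w := by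
  induction h with
  | base h => exact Zig.step h h1 (Zig.base h2)
  | step ha hb _ ih => exact Zig.step ha hb (ih h1)

theorem zig_cross {u : List ℕ} (L : ℕ → Prop) {a : ℕ}
    (hdown : ∀ x y, (x, y) ∈ ed u → L y → L x)
    (hcr : ∀ p q, (p, q) ∈ ed u → L p → ¬ L q → q = a) {k c y : ℕ} (h : Zig u k c y)
    (hc : L c) (hy : ¬ L y) : y = a ∨ ∃ k' < k, ∃ b', (b', a) ∈ ed u ∧ Zig u k' b' y := by
  induction h with
  | base h => exact Or.inl (hcr _ _ h hc hy)
  | @step k c a1 b1 y h1 h2 h3 ih =>
    by_cases ha : L a1
    · rcases ih (hdown _ _ h2 ha) hy with h | ⟨k', hk', b', h4, h5⟩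
      · exact Or.inl h
      · exact Or.inr ⟨k', Nat.lt_succ_of_lt hk', b', h4, h5⟩
    · have : a1 = a := hcr _ _ h1 hc ha
      subst this
      exact Or.inr ⟨k, Nat.lt_succ_self k, b1, h2, h3⟩

theorem zig_closed {u : List ℕ}
    (hcl : ∀ x a b y, (x, a) ∈ ed u → (b, a) ∈ ed u → (b, y) ∈ ed u → Reach u y x → (x, y) ∈ ed u) :
    ∀ k x y, Zig u k x y → Reach u y x → (x, y) ∈ ed u := by
  intro k
  induction k using Nat.strong_induction_on with
  | _ k ih =>
    intro x y hz hr
    cases hz with
    | base h => exact h
    | @step k x a b y h1 h2 h3 =>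
      by_cases hyb : Reach u y b
      · exact hcl x a b y h1 h2 (ih k (Nat.lt_succ_self k) b y h3 hyb) hr
      have hya : Reach u y a := Relation.ReflTransGen.tail hr h1
      have hab : ¬ Reach u a b := fun h => hyb (Relation.ReflTransGen.trans hya h)
      have hdown : ∀ p q, (p, q) ∈ ed u → Reach u q b → Reach u p b :=
        fun p q hpq hq => Relation.ReflTransGen.head hpq hq
      obtain ⟨A, c, d, B, hu, hA, hB⟩ := exists_cut (u := u) (fun z => Reach u z b) hdown
        (by
          intro h hh
          cases u with
          | nil => simp at hh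
          | cons g l =>
            simp only [List.head?_cons, Option.some.injEq] at hh
            subst hh
            exact reach_head (mem_of_ed h2).1)
        ⟨a, (mem_of_ed h2).2, hab⟩
      have hcr0 : ∀ p q, (p, q) ∈ ed u → Reach u p b → ¬ Reach u q b → p = c ∧ q = d := by
        intro p q hpq hp hq
        have hpq' : (p, q) ∈ ed (A ++ c :: d :: B) := by rw [← hu]; exact hpq
        rcases ed_split A c d B hpq' with h | h | h
        · exact absurd (hA q (mem_of_ed h).2) hq
        · simpa using h
        · exact absurd hp (hB p (mem_of_ed h).1)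
      have hba : b = c ∧ a = d := hcr0 b a h2 Relation.ReflTransGen.refl hab
      have hcr : ∀ p q, (p, q) ∈ ed u → Reach u p b → ¬ Reach u q b → q = a := by
        intro p q hpq hp hq
        rw [(hcr0 p q hpq hp hq).2, hba.2]
      rcases zig_cross (a := a) (fun z => Reach u z b) hdown hcr h3
        Relation.ReflTransGen.refl hyb with h | ⟨k', hk', b', h4, h5⟩
      · rw [h]; exact h1
      · exact ih (k' + 1) (Nat.succ_lt_succ hk') x y (Zig.step h1 h4 h5) hr

end Pool.Agent.CZS
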