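import Pool.Agent.CZS.Laws
import Pool.Agent.CZS.ZigClosed

/-! Words with a maximal set of adjacent pairs are closed under completing rectangles. -/

set_option autoImplicit false

namespace Pool.Agent.CZS

attribute [local irreducible] pw

/-- Insertion of the `m`-th power of a closed walk. -/
theorem ins_rel {m : ℕ} (hm : 0 < m) {R : List ℕ → List ℕ → Prop} (hR : CTRel m R)
    {α β W : List ℕ} {x : ℕ} (h : ∀ e ∈ ed (x :: (W ++ [x])), e ∈ ed (α ++ x :: β)) :
    R (α ++ x :: β) (α ++ x :: (pw m (W ++ [x]) ++ β)) := by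
  refine ct_main hm hR (head_ins _ _ _ _) (last_ins _ _ _ _ _).symm ?_ ?_
  · intro e
    rw [ed_ins, Multiset.mem_add]
    constructor
    · exact Or.inl
    · rintro (he | he)
      · exact he
      · exact h e (Multiset.mem_of_mem_nsmul he)
  · intro e
    rw [ed_ins, Multiset.count_add, Multiset.count_nsmul, Nat.ModEq, Nat.add_mul_mod_self_left]

theorem walk_exists {u : List ℕ} {p q : ℕ}
    (h : Relation.TransGen (fun a b => (a, b) ∈ ed u) p q) :
    ∃ s, ∀ e ∈ ed (p :: (s ++ [q])), e ∈ ed u := by
  induction h with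
  | single h =>
    refine ⟨[], ?_⟩
    intro e he
    simp only [List.nil_append, ed, Multiset.mem_cons, Multiset.notMem_zero, or_false] at he
    subst he; exact h
  | @tail q r _ h ih =>
    obtain ⟨s, hs⟩ := ih
    refine ⟨s ++ [q], ?_⟩
    intro e he
    have : p :: (s ++ [q] ++ [r]) = (p :: s) ++ q :: [r] := by simp
    rw [this, ed_append_cons, Multiset.mem_add] at he
    rcases he with he | he
    · exact hs e (by simpa using he)
    · simp only [ed, Multiset.mem_cons, Multiset.notMem_zero, or_false] at he
      subst he; exact h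

theorem trans_of_reach {u : List ℕ} {p q : ℕ} (h : Reach u p q)
    (h' : p = q → Relation.TransGen (fun a b => (a, b) ∈ ed u) p q) :
    Relation.TransGen (fun a b => (a, b) ∈ ed u) p q := by
  rcases Relation.reflTransGen_iff_eq_or_transGen.1 h with h | h
  · exact h' h.symm
  · exact h

theorem emax_closure {G I L : Type} [AddCommGroup G] {A : L → I → Prop} {p : L → I → G} {m r : ℕ}
    {R : List ℕ → List ℕ → Prop} (hL : Laws A p m r R) (hm0 : 0 < m) (hK : K1 A)
    {u : List ℕ} (hmax : EMax R u) {x a b y : ℕ} (h1 : (x, a) ∈ ed u) (h2 : (b, a) ∈ ed u)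
    (h3 : (b, y) ∈ ed u) (h4 : Reach u y x) : (x, y) ∈ ed u := by
  obtain ⟨k, rfl⟩ : ∃ k, m = k + 1 := ⟨m - 1, by omega⟩
  have hR := hL.ct
  by_cases hab : Reach u a b
  · -- case I
    have tab := trans_of_reach hab (fun h => by
      subst h; exact Relation.TransGen.single h2)
    have tyx := trans_of_reach h4 (fun h => by
      subst h
      exact Relation.TransGen.tail (Relation.TransGen.head h1 tab) h3)
    obtain ⟨s, hs⟩ := walk_exists tab
    obtain ⟨z, hz⟩ := walk_exists tyx
    obtain ⟨α, β, hu⟩ := List.append_of_mem (mem_of_ed h1).1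
    subst hu
    have hW : ∀ e ∈ ed (x :: ((a :: (s ++ b :: a :: (s ++ b :: y :: z))) ++ [x])),
        e ∈ ed (α ++ x :: β) := by
      intro e he
      have e1 : x :: ((a :: (s ++ b :: a :: (s ++ b :: y :: z))) ++ [x]) =
          [x] ++ a :: (s ++ b :: a :: (s ++ b :: y :: (z ++ [x]))) := by simp
      have e2 : a :: (s ++ b :: a :: (s ++ b :: y :: (z ++ [x]))) =
          (a :: s) ++ b :: (a :: (s ++ b :: y :: (z ++ [x]))) := by simp
      have e3 : b :: (a :: (s ++ b :: y :: (z ++ [x]))) =
          [b] ++ a :: (s ++ b :: y :: (z ++ [x])) := by simp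
      have e4 : a :: (s ++ b :: y :: (z ++ [x])) = (a :: s) ++ b :: (y :: (z ++ [x])) := by simp
      have e5 : b :: (y :: (z ++ [x])) = [b] ++ y :: (z ++ [x]) := by simp
      rw [e1, ed_append_cons [x] a, Multiset.mem_add] at he
      have single : ∀ {p q : ℕ}, (p, q) ∈ ed (α ++ x :: β) → e ∈ ed [p, q] →
          e ∈ ed (α ++ x :: β) := by
        intro p q hpq he
        simp only [ed, Multiset.mem_cons, Multiset.notMem_zero, or_false] at he
        subst he; exact hpq
      rcases he with he | he
      · exact single h1 he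
      rw [e2, ed_append_cons (a :: s) b, Multiset.mem_add] at he
      rcases he with he | he
      · exact hs e he
      rw [e3, ed_append_cons [b] a, Multiset.mem_add] at he
      rcases he with he | he
      · exact single h2 he
      rw [e4, ed_append_cons (a :: s) b, Multiset.mem_add] at he
      rcases he with he | he
      · exact hs e he
      rw [e5, ed_append_cons [b] y, Multiset.mem_add] at he
      rcases he with he | he
      · exact single h3 he
      · exact hz e he
    have r1 := ins_rel hm0 hR hW
    have l3 := hL.law3 hK x a b y s s z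
    have r2 := hR.app α (pw k (a :: (s ++ b :: a :: (s ++ b :: y :: (z ++ [x])))) ++ β) l3
    have e1 : α ++ x :: (a :: (s ++ b :: a :: (s ++ b :: y :: (z ++ [x])))) ++
        (pw k (a :: (s ++ b :: a :: (s ++ b :: y :: (z ++ [x])))) ++ β) =
        α ++ x :: (pw (k + 1) ((a :: (s ++ b :: a :: (s ++ b :: y :: z))) ++ [x]) ++ β) := by
      rw [pw_succ]; simp
    have e2 : α ++ x :: ((a :: (s ++ b :: a :: (s ++ b :: y :: (z ++ [x])))) ++
        pw (k + 1) (y :: (z ++ [x]))) ++
        (pw k (a :: (s ++ b :: a :: (s ++ b :: y :: (z ++ [x])))) ++ β) =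
        (α ++ x :: a :: (s ++ b :: a :: (s ++ b :: y :: z))) ++ x ::
          (pw (k + 1) ((y :: z) ++ [x]) ++
            (pw k (a :: (s ++ b :: a :: (s ++ b :: y :: (z ++ [x])))) ++ β)) := by
      simp
    have e3 : (α ++ x :: a :: (s ++ b :: a :: (s ++ b :: y :: z))) ++ x ::
        (pw k (a :: (s ++ b :: a :: (s ++ b :: y :: (z ++ [x])))) ++ β) =
        α ++ x :: (pw (k + 1) ((a :: (s ++ b :: a :: (s ++ b :: y :: z))) ++ [x]) ++ β) := by
      rw [pw_succ]; simp
    rw [e1, e2] at r2
    refine hmax _ (hR.trans r1 r2) ?_ (x, y) ?_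
    · intro e he
      rw [ed_ins, e3, ed_ins, Multiset.mem_add, Multiset.mem_add]
      exact Or.inl (Or.inl he)
    · rw [ed_ins, Multiset.mem_add]
      right
      rw [Multiset.mem_nsmul]
      exact ⟨Nat.succ_ne_zero k, by simp⟩
  · -- case II
    have hdown : ∀ p q, (p, q) ∈ ed u → Reach u q b → Reach u p b :=
      fun p q hpq hq => Relation.ReflTransGen.head hpq hq
    obtain ⟨A', c, d, B', hu, hA, hB⟩ := exists_cut (u := u) (fun z => Reach u z b) hdown
      (by
        intro h hh
        cases u with
        | nil => simp at hh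
        | cons g l =>
          simp only [List.head?_cons, Option.some.injEq] at hh
          subst hh
          exact reach_head (mem_of_ed h2).1)
      ⟨a, (mem_of_ed h2).2, hab⟩
    have hcr0 : ∀ p q, (p, q) ∈ ed u → Reach u p b → ¬ Reach u q b → p = c ∧ q = d := by
      intro p q hpq hp hq
      have hpq' : (p, q) ∈ ed (A' ++ c :: d :: B') := by rw [← hu]; exact hpq
      rcases ed_split A' c d B' hpq' with h | h | h
      · exact absurd (hA q (mem_of_ed h).2) hq
      · simpa using h
      · exact absurd hp (hB p (mem_of_ed h).1)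
    obtain ⟨hbc, had⟩ : b = c ∧ a = d := hcr0 b a h2 Relation.ReflTransGen.refl hab
    subst hbc; subst had
    by_cases hyb : Reach u y b
    swap
    · have := (hcr0 b y h3 Relation.ReflTransGen.refl hyb).2
      rw [this]; exact h1
    by_cases hxb : Reach u x b
    · have := (hcr0 x a h1 hxb hab).1
      rw [this]; exact h3
    have tyb := trans_of_reach hyb (fun h => by
      subst h; exact Relation.TransGen.single h3)
    have hax : Reach u a x := by
      rcases reach_total (mem_of_ed h1).1 (mem_of_ed h1).2 with h | h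
      · -- locate x in a :: B'
        have hxm : x ∈ A' ++ b :: a :: B' := by rw [← hu]; exact (mem_of_ed h1).1
        have hxB : x ∈ a :: B' := by
          by_contra hn
          apply hxb
          apply hA
          have : A' ++ b :: a :: B' = (A' ++ [b]) ++ (a :: B') := by simp
          rw [this, List.mem_append] at hxm
          exact hxm.resolve_right hn
        have h5 : Reach (a :: B') a x := reach_head hxB
        refine Relation.ReflTransGen.mono (fun p q hpq => ?_) _ _ h5
        rw [hu]
        have : A' ++ b :: a :: B' = (A' ++ [b]) ++ a :: B' := by simp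
        rw [this, ed_append_cons, Multiset.mem_add]
        exact Or.inr hpq
      · exact h
    have tax := trans_of_reach hax (fun h => by
      subst h; exact Relation.TransGen.single h1)
    obtain ⟨s, hs⟩ := walk_exists tyb
    obtain ⟨t, ht⟩ := walk_exists tax
    subst hu
    have r1 := ins_rel (α := A' ++ [b]) (x := a) (β := B') (W := t ++ [x]) hm0 hR (by
      intro e he
      have e1 : a :: (t ++ [x] ++ [a]) = (a :: t) ++ x :: [a] := by simp
      rw [e1, ed_append_cons, Multiset.mem_add] at he
      have e2 : A' ++ [b] ++ a :: B' = A' ++ b :: a :: B' := by simp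
      rw [e2]
      rcases he with he | he
      · exact ht e (by simpa using he)
      · simp only [ed, Multiset.mem_cons, Multiset.notMem_zero, or_false] at he
        subst he; exact h1)
    have r2 := ins_rel (α := A') (x := b) (β := a :: (pw (k + 1) (t ++ [x] ++ [a]) ++ B'))
      (W := y :: s) hm0 hR (by
      intro e he
      have e1 : b :: (y :: s ++ [b]) = [b] ++ y :: (s ++ [b]) := by simp
      rw [e1, ed_append_cons, Multiset.mem_add] at he
      have e2 : A' ++ b :: a :: (pw (k + 1) (t ++ [x] ++ [a]) ++ B') =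
        (A' ++ [b]) ++ a :: (pw (k + 1) ((t ++ [x]) ++ [a]) ++ B') := by simp
      have e3 : A' ++ [b] ++ a :: B' = A' ++ b :: a :: B' := by simp
      rw [e2, ed_ins, Multiset.mem_add, e3]
      left
      rcases he with he | he
      · simp only [List.cons_append, List.nil_append, ed, Multiset.mem_cons, Multiset.notMem_zero,
          or_false] at he
        subst he; exact h3
      · exact hs e he)
    have l4 := hL.law4 hK x a b y s t
    have r3 := hR.app (A' ++ pw k (b :: y :: s)) (pw k (t ++ [x, a]) ++ B') l4
    have e1 : A' ++ pw k (b :: y :: s) ++ b :: y :: (s ++ b :: a :: (t ++ [x, a])) ++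
        (pw k (t ++ [x, a]) ++ B') =
        A' ++ b :: (pw (k + 1) (y :: s ++ [b]) ++ a :: (pw (k + 1) (t ++ [x] ++ [a]) ++ B')) := by
      have e0 : A' ++ b :: (pw (k + 1) (y :: s ++ [b]) ++
          a :: (pw (k + 1) (t ++ [x] ++ [a]) ++ B')) =
          A' ++ ((b :: pw (k + 1) (y :: s ++ [b])) ++
          a :: (pw (k + 1) (t ++ [x] ++ [a]) ++ B')) := by simp
      rw [e0, cons_pw, pw_succ', pw_succ]
      simp
    have e2 : A' ++ pw k (b :: y :: s) ++ b :: y :: (s ++ b :: a :: (t ++ x ::
        (pw (k + 1) (y :: (s ++ b :: a :: (t ++ [x]))) ++ [a]))) ++ (pw k (t ++ [x, a]) ++ B') =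
        (A' ++ pw k (b :: y :: s) ++ b :: y :: (s ++ b :: a :: t)) ++ x ::
        (pw (k + 1) ((y :: (s ++ b :: a :: t)) ++ [x]) ++ (a :: (pw k (t ++ [x, a]) ++ B'))) := by
      simp
    have e3 : (A' ++ pw k (b :: y :: s) ++ b :: y :: (s ++ b :: a :: t)) ++ x ::
        (a :: (pw k (t ++ [x, a]) ++ B')) =
        A' ++ pw k (b :: y :: s) ++ b :: y :: (s ++ b :: a :: (t ++ [x, a])) ++
        (pw k (t ++ [x, a]) ++ B') := by
      simp
    rw [e1, e2] at r3
    have e4 : A' ++ [b] ++ a :: B' = A' ++ b :: a :: B' := by simp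
    have e5 : A' ++ [b] ++ a :: (pw (k + 1) (t ++ [x] ++ [a]) ++ B') =
        A' ++ b :: a :: (pw (k + 1) (t ++ [x] ++ [a]) ++ B') := by simp
    rw [e4, e5] at r1
    refine hmax _ (hR.trans r1 (hR.trans r2 r3)) ?_ (x, y) ?_
    · intro e he
      rw [ed_ins, e3, e1, ed_ins, ← e5, ed_ins, e4, Multiset.mem_add, Multiset.mem_add,
        Multiset.mem_add]
      exact Or.inl (Or.inl (Or.inl he))
    · rw [ed_ins, Multiset.mem_add]
      right
      rw [Multiset.mem_nsmul]
      exact ⟨Nat.succ_ne_zero k, by simp⟩

end Pool.Agent.CZS
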