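import Pool.Agent.CZS.Defs

/-!
# The criterion is computable

Deep embedding of bounded formulas over a Cayley table.
-/

set_option autoImplicit false

namespace Pool.Agent.CZS

/-- The operation given by a table. -/
def top (t : List (List ℕ)) (i j : ℕ) : ℕ := (t.getD i []).getD j 0

/-- `ppow o k x` is `x^(k+1)`. -/
def ppow (o : ℕ → ℕ → ℕ) : ℕ → ℕ → ℕ
  | 0, x => x
  | k + 1, x => o (ppow o k x) x

/-- The criterion, with bounded quantifiers only. -/
def Crit (n : ℕ) (o : ℕ → ℕ → ℕ) : Prop :=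
  ∃ z < n,
    (∀ x < n, o z x = z ∧ o x z = z) ∧
    (∃ x < n, ∃ y < n, o x y ≠ z) ∧
    (∀ x < n, x ≠ z → ∀ y < n, y = x ∨ (∃ s < n, y = o s x) ∨ (∃ t < n, y = o x t) ∨
      ∃ s < n, ∃ t < n, y = o (o s x) t) ∧
    (∃ e < n, e ≠ z ∧ o e e = e ∧
      ∀ f < n, f ≠ z → o f f = f → o e f = f → o f e = f → f = e) ∧
    (∀ e < n, e ≠ z → o e e = e → ∀ a < n, ∀ b < n,
      o (o (o e a) e) (o (o e b) e) = o (o (o e b) e) (o (o e a) e)) ∧
    ((∀ a < n, ∀ b < n, ∀ c < n, ∀ d < n, o a b ≠ z → o c b ≠ z → o c d ≠ z → o a d ≠ z) ∨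
      ∀ k < n, (∀ a < n, ∀ b < n, ∀ c < n, ∀ d < n, ∀ y < n,
          o a b ≠ z → o c d ≠ z → o a d ≠ z → o c b ≠ z →
          o (ppow o k (o (o a b) y)) (ppow o k (o (o c d) y)) =
            o (ppow o k (o (o a d) y)) (ppow o k (o (o c b) y))) →
        ∀ x < n, o x x ≠ z → ppow o (k + 1) x = x)

namespace Cmp

/-- terms -/
inductive Tm : Type
  | v (i : ℕ) : Tm
  | op (s t : Tm) : Tm
  | pp (i : ℕ) (t : Tm) : Tm
  | ps (i : ℕ) (t : Tm) : Tm

/-- formulas -/
inductive Fm : Type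
  | eq (s t : Tm) : Fm
  | not (φ : Fm) : Fm
  | and (φ ψ : Fm) : Fm
  | all (φ : Fm) : Fm

/-- value of a term -/
def evT (o : ℕ → ℕ → ℕ) (env : List ℕ) : Tm → ℕ
  | .v i => env.getD i 0
  | .op s t => o (evT o env s) (evT o env t)
  | .pp i t => ppow o (env.getD i 0) (evT o env t)
  | .ps i t => ppow o (env.getD i 0 + 1) (evT o env t)

/-- truth of a formula -/
def holds (n : ℕ) (o : ℕ → ℕ → ℕ) : List ℕ → Fm → Prop
  | env, .eq s t => evT o env s = evT o env t
  | env, .not φ => ¬ holds n o env φ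
  | env, .and φ ψ => holds n o env φ ∧ holds n o env ψ
  | env, .all φ => ∀ x < n, holds n o (x :: env) φ

/-- data -/
abbrev Dat : Type := (ℕ × List (List ℕ)) × List ℕ

theorem primrec_top : Primrec fun a : (List (List ℕ)) × ℕ × ℕ => top a.1 a.2.1 a.2.2 := by
  unfold top
  exact (Primrec.list_getD (0 : ℕ)).comp
    ((Primrec.list_getD ([] : List ℕ)).comp Primrec.fst (Primrec.fst.comp Primrec.snd))
    (Primrec.snd.comp Primrec.snd)

theorem primrec_ppow :
    Primrec fun a : (List (List ℕ)) × ℕ × ℕ => ppow (top a.1) a.2.1 a.2.2 := by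
  have h : Primrec fun a : (List (List ℕ)) × ℕ × ℕ =>
      (Nat.rec a.2.2 (fun _ y => top a.1 y a.2.2) a.2.1 : ℕ) := by
    refine Primrec.nat_rec' (f := fun a : (List (List ℕ)) × ℕ × ℕ => a.2.1)
      (g := fun a => a.2.2) (h := fun a p => top a.1 p.2 a.2.2)
      (Primrec.fst.comp Primrec.snd) (Primrec.snd.comp Primrec.snd) ?_
    exact primrec_top.comp (Primrec.pair (Primrec.fst.comp Primrec.fst)
      (Primrec.pair (Primrec.snd.comp Primrec.snd)
        (Primrec.snd.comp (Primrec.snd.comp Primrec.fst))))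
  refine h.of_eq ?_
  rintro ⟨t, k, x⟩
  simp only
  induction k with
  | zero => rfl
  | succ k ih => simp only [ppow, ih]

theorem primrec_evT (s : Tm) : Primrec fun a : Dat => evT (top a.1.2) a.2 s := by
  have hv : ∀ i : ℕ, Primrec fun a : Dat => a.2.getD i 0 := fun i =>
    (Primrec.list_getD (0 : ℕ)).comp Primrec.snd (Primrec.const i)
  have ht : Primrec fun a : Dat => a.1.2 := Primrec.snd.comp Primrec.fst
  induction s with
  | v i => exact hv i
  | op s t ihs iht => exact primrec_top.comp (Primrec.pair ht (Primrec.pair ihs iht))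
  | pp i t iht => exact primrec_ppow.comp (Primrec.pair ht (Primrec.pair (hv i) iht))
  | ps i t iht =>
    exact primrec_ppow.comp (Primrec.pair ht (Primrec.pair (Primrec.succ.comp (hv i)) iht))

theorem primrec_holds (φ : Fm) : PrimrecPred fun a : Dat => holds a.1.1 (top a.1.2) a.2 φ := by
  induction φ with
  | eq s t => exact Primrec.eq.comp (primrec_evT s) (primrec_evT t)
  | not φ ih => exact ih.not
  | and φ ψ ih1 ih2 => exact ih1.and ih2
  | all φ ih =>
    have h : PrimrecRel fun (x : ℕ) (a : Dat) => holds a.1.1 (top a.1.2) (x :: a.2) φ := by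
      have := ih.comp (f := fun p : ℕ × Dat => (p.2.1, p.1 :: p.2.2))
        (Primrec.pair (Primrec.fst.comp Primrec.snd)
          (Primrec.list_cons.comp Primrec.fst (Primrec.snd.comp Primrec.snd)))
      exact this
    have h2 := PrimrecRel.comp h.forall_mem_list (f := fun a : Dat => List.range a.1.1)
      (g := fun a : Dat => a) (Primrec.list_range.comp (Primrec.fst.comp Primrec.fst)) Primrec.id
    refine h2.of_eq ?_
    intro a
    simp only [List.mem_range, holds]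

/-- exists -/
def ex (φ : Fm) : Fm := .not (.all (.not φ))
/-- or -/
def or' (φ ψ : Fm) : Fm := .not (.and (.not φ) (.not ψ))
/-- implies -/
def imp (φ ψ : Fm) : Fm := .not (.and φ (.not ψ))
/-- not equal -/
def ne' (s t : Tm) : Fm := .not (.eq s t)

theorem holds_ex {n : ℕ} {o : ℕ → ℕ → ℕ} {env : List ℕ} {φ : Fm} :
    holds n o env (ex φ) ↔ ∃ x < n, holds n o (x :: env) φ := by
  simp [ex, holds]

theorem holds_or {n : ℕ} {o : ℕ → ℕ → ℕ} {env : List ℕ} {φ ψ : Fm} :
    holds n o env (or' φ ψ) ↔ holds n o env φ ∨ holds n o env ψ := by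
  simp only [or', holds]
  tauto

theorem holds_imp {n : ℕ} {o : ℕ → ℕ → ℕ} {env : List ℕ} {φ ψ : Fm} :
    holds n o env (imp φ ψ) ↔ (holds n o env φ → holds n o env ψ) := by
  simp only [imp, holds]
  tauto

theorem holds_ne {n : ℕ} {o : ℕ → ℕ → ℕ} {env : List ℕ} {s t : Tm} :
    holds n o env (ne' s t) ↔ evT o env s ≠ evT o env t := by
  simp only [ne', holds, ne_eq]

theorem holds_eq {n : ℕ} {o : ℕ → ℕ → ℕ} {env : List ℕ} {s t : Tm} :
    holds n o env (.eq s t) ↔ evT o env s = evT o env t := Iff.rfl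

theorem holds_and {n : ℕ} {o : ℕ → ℕ → ℕ} {env : List ℕ} {φ ψ : Fm} :
    holds n o env (.and φ ψ) ↔ holds n o env φ ∧ holds n o env ψ := Iff.rfl

theorem holds_all {n : ℕ} {o : ℕ → ℕ → ℕ} {env : List ℕ} {φ : Fm} :
    holds n o env (.all φ) ↔ ∀ x < n, holds n o (x :: env) φ := Iff.rfl

open Tm Fm in
/-- the formula -/
def critF : Fm :=
  ex (.and (.all (.and (.eq (.op (v 1) (v 0)) (v 1)) (.eq (.op (v 0) (v 1)) (v 1))))
  (.and (ex (ex (ne' (.op (v 1) (v 0)) (v 2))))
  (.and (.all (imp (ne' (v 0) (v 1)) (.all (or' (.eq (v 0) (v 1))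
    (or' (ex (.eq (v 1) (.op (v 0) (v 2)))) (or' (ex (.eq (v 1) (.op (v 2) (v 0))))
      (ex (ex (.eq (v 2) (.op (.op (v 1) (v 3)) (v 0)))))))))))
  (.and (ex (.and (ne' (v 0) (v 1)) (.and (.eq (.op (v 0) (v 0)) (v 0))
    (.all (imp (ne' (v 0) (v 2)) (imp (.eq (.op (v 0) (v 0)) (v 0))
      (imp (.eq (.op (v 1) (v 0)) (v 0)) (imp (.eq (.op (v 0) (v 1)) (v 0))
        (.eq (v 0) (v 1))))))))))
  (.and (.all (imp (ne' (v 0) (v 1)) (imp (.eq (.op (v 0) (v 0)) (v 0)) (.all (.all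
    (.eq (.op (.op (.op (v 2) (v 1)) (v 2)) (.op (.op (v 2) (v 0)) (v 2)))
      (.op (.op (.op (v 2) (v 0)) (v 2)) (.op (.op (v 2) (v 1)) (v 2)))))))))
  (or' (.all (.all (.all (.all (imp (ne' (.op (v 3) (v 2)) (v 4))
    (imp (ne' (.op (v 1) (v 2)) (v 4)) (imp (ne' (.op (v 1) (v 0)) (v 4))
      (ne' (.op (v 3) (v 0)) (v 4)))))))))
    (.all (imp (.all (.all (.all (.all (.all (imp (ne' (.op (v 4) (v 3)) (v 6))
      (imp (ne' (.op (v 2) (v 1)) (v 6)) (imp (ne' (.op (v 4) (v 1)) (v 6))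
        (imp (ne' (.op (v 2) (v 3)) (v 6))
          (.eq (.op (pp 5 (.op (.op (v 4) (v 3)) (v 0))) (pp 5 (.op (.op (v 2) (v 1)) (v 0))))
            (.op (pp 5 (.op (.op (v 4) (v 1)) (v 0)))
              (pp 5 (.op (.op (v 2) (v 3)) (v 0))))))))))))))
      (.all (imp (ne' (.op (v 0) (v 0)) (v 2)) (.eq (ps 1 (v 0)) (v 0))))))))))))

theorem crit_iff (n : ℕ) (o : ℕ → ℕ → ℕ) : Crit n o ↔ holds n o [] critF := by
  unfold critF
  simp only [holds_ex, holds_or, holds_imp, holds_ne, holds_eq, holds_and, holds_all]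
  exact Iff.rfl

end Cmp

theorem crit_computable :
    ComputablePred (fun a : ℕ × List (List ℕ) => Crit a.1 (top a.2)) := by
  have h1 : PrimrecPred (fun a : ℕ × List (List ℕ) => Crit a.1 (top a.2)) := by
    have h2 := (Cmp.primrec_holds Cmp.critF).comp (f := fun a : ℕ × List (List ℕ) => (a, []))
      (Primrec.pair Primrec.id (Primrec.const []))
    refine h2.of_eq ?_
    intro a
    exact (Cmp.crit_iff a.1 (top a.2)).symm
  exact h1.computablePred

end Pool.Agent.CZS
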