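import Mathlib

/-!
# Finite basability of completely 0-simple semigroups over abelian groups: definitions

Words are pairs `(x, l)` (first letter, remaining letters) as in the frozen statement S01183.
Rees matrix semigroups with zero over an additive abelian group `G` are given by an incidence
relation `A : L → I → Prop` (which entries are nonzero) and the values `p : L → I → G`.
-/

set_option autoImplicit false

namespace Pool.Agent.CZS

/-- The value of the word `u` under the substitution `g`, for the operation `op`. -/
def evo {T : Type} (op : T → T → T) (g : ℕ → T) (u : ℕ × List ℕ) : T :=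
  u.2.foldl (fun a y => op a (g y)) (g u.1)

/-- The operation `op` satisfies the identity `p`. -/
def Mod {T : Type} (op : T → T → T) (p : (ℕ × List ℕ) × (ℕ × List ℕ)) : Prop :=
  ∀ g : ℕ → T, evo op g p.1 = evo op g p.2

/-- The operation `op` is finitely based. -/
def FB {S : Type} (op : S → S → S) : Prop :=
  ∃ B : Finset ((ℕ × List ℕ) × (ℕ × List ℕ)),
    (∀ p ∈ B, ∀ f : ℕ → S, evo op f p.1 = evo op f p.2) ∧
    ∀ u v : ℕ × List ℕ,
      (∀ f : ℕ → S, evo op f u = evo op f v) →
      ∀ (T : Type) [Semigroup T],
        (∀ p ∈ B, ∀ g : ℕ → T, evo (fun a b : T => a * b) g p.1 = evo (fun a b : T => a * b) g p.2) →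
        ∀ g : ℕ → T, evo (fun a b : T => a * b) g u = evo (fun a b : T => a * b) g v

open Classical in
/-- Multiplication of the Rees matrix semigroup with zero `none`; `(i, g, l)` is an element, `A l i`
says that the entry in row `l` and column `i` is nonzero and `p l i` is its value. -/
noncomputable def rmul {G I L : Type} [Add G] (A : L → I → Prop) (p : L → I → G) :
    Option (I × G × L) → Option (I × G × L) → Option (I × G × L)
  | some (i, g, l), some (j, h, k) => if A l j then some (i, g + p l j + h, k) else none
  | _, _ => none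

/-- The nonzero entries form a disjoint union of complete bipartite graphs. -/
def K1 {I L : Type} (A : L → I → Prop) : Prop :=
  ∀ l i l' i', A l i → A l' i → A l' i' → A l i'

/-- All cross-ratios have order dividing `k`. -/
def K2 {G I L : Type} [AddCommGroup G] (A : L → I → Prop) (p : L → I → G) (k : ℕ) : Prop :=
  ∀ l i l' i', A l i → A l i' → A l' i → A l' i' → k • (p l i - p l i' - p l' i + p l' i') = 0

/-- The cross-ratios generate a group of the same exponent as `G`. -/
def K3 {G I L : Type} [AddCommGroup G] (A : L → I → Prop) (p : L → I → G) : Prop :=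
  ∀ k : ℕ, 0 < k → K2 A p k → ∀ g : G, k • g = 0

/-! ### Graphs used for the non-finitely-based direction -/

/-- Vertices (of both kinds): a finite set of natural numbers with a labelling by `ZMod q`. -/
abbrev Vx (q : ℕ) : Type := Finset ℕ × (ℕ → ZMod q)

/-- Adjacency of a left vertex `x` and a right vertex `y`. -/
def HAdj {q : ℕ} (k : ℕ) (x y : Vx q) : Prop :=
  x.1.card = k ∧ (y.1.card = k + 1 ∨ y.1.card = k + 2) ∧ x.1 ⊆ y.1 ∧
    ∃ e : ZMod q, ∀ n ∈ x.1, y.2 n = x.2 n + e

/-- The gain of the edge `x y` (the `e` of `HAdj` when `k > 0`). -/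
noncomputable def gain {q : ℕ} (x y : Vx q) : ZMod q :=
  y.2 (sInf (x.1 : Set ℕ)) - x.2 (sInf (x.1 : Set ℕ))

/-! ### Lists -/

/-- The multiset of pairs of adjacent letters of a word. -/
def ed : List ℕ → Multiset (ℕ × ℕ)
  | [] => 0
  | [_] => 0
  | x :: y :: l => (x, y) ::ₘ ed (y :: l)

/-- The `n`-th power of a word. -/
def pw (n : ℕ) (w : List ℕ) : List ℕ := (List.replicate n w).flatten

/-- Congruences on the free monoid of words that satisfy, for all letters `x` and all (possibly
empty) words `a`, `b`, `w`, the laws `x w x ≈ x (w x)^(m+1)` and `x a x b x ≈ x b x a x`. -/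
structure CTRel (m : ℕ) (R : List ℕ → List ℕ → Prop) : Prop where
  refl : ∀ u, R u u
  symm : ∀ {u v}, R u v → R v u
  trans : ∀ {u v w}, R u v → R v w → R u w
  app : ∀ {u v} (a b : List ℕ), R u v → R (a ++ u ++ b) (a ++ v ++ b)
  l1 : ∀ (x : ℕ) (w : List ℕ), R (x :: (w ++ [x])) (x :: pw (m + 1) (w ++ [x]))
  l2 : ∀ (x : ℕ) (a b : List ℕ),
    R (x :: (a ++ x :: (b ++ [x]))) (x :: (b ++ x :: (a ++ [x])))

end Pool.Agent.CZS
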