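import Pool.Agent.CZS.Align
import Pool.Agent.CZS.ZigClosed

/-! Changing the last letter of a prefix and the first letter of a suffix; maximal words; zigzags. -/

set_option autoImplicit false

namespace Pool.Agent.CZS

section fix

variable {m : ℕ} {R : List ℕ → List ℕ → Prop} (hct : CTRel m R) (hm0 : 0 < m)
include hct hm0

theorem fixR {X D : List ℕ} {c c' : ℕ}
    (hc : c ≠ c' → ∃ a, (c, a) ∈ ed (X ++ [c]) ∧ (c', a) ∈ ed (X ++ [c]) ∧
      Reach (X ++ [c]) a c' ∧ Reach (X ++ [c]) a c)
    (hlaw : ∀ (a : ℕ) (s t : List ℕ), R ((c :: a :: (s ++ c' :: a :: (t ++ [c]))) ++ D)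
      ((c :: a :: (s ++ c' :: a :: (t ++ c :: pw m (a :: (s ++ [c']))))) ++ D)) :
    ∃ X', R (X ++ c :: D) (X' ++ c' :: D) ∧ (∀ e, e ∈ ed (X' ++ [c']) ↔ e ∈ ed (X ++ [c])) ∧
      (X' ++ [c']).head? = (X ++ [c]).head? ∧ ∀ z, z ∈ X' ++ [c'] ↔ z ∈ X ++ [c] := by
  by_cases hcc : c = c'
  · subst hcc
    exact ⟨X, hct.refl _, fun e => Iff.rfl, rfl, fun z => Iff.rfl⟩
  · obtain ⟨a, h1, h2, h3, h4⟩ := hc hcc
    obtain ⟨s, hs⟩ := walk_of_trg (trg_of_reach h3 (fun h => by rw [h] at h2 ⊢; exact h2))
    obtain ⟨t, ht⟩ := walk_of_trg (trg_of_reach h4 (fun h => by rw [h] at h1 ⊢; exact h1))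
    have hE : ∀ e ∈ ed (c :: a :: (s ++ c' :: a :: (t ++ [c]))), e ∈ ed (X ++ [c]) := by
      intro e he
      have h5 : ed (a :: (s ++ c' :: a :: (t ++ [c]))) =
          ed (a :: (s ++ [c'])) + (c', a) ::ₘ ed (a :: (t ++ [c])) := by
        simpa using ed_append_two (a :: s) c' a (t ++ [c])
      rw [ed_cons_cons, h5, Multiset.mem_cons, Multiset.mem_add, Multiset.mem_cons] at he
      rcases he with he | he | he | he
      · rw [he]; exact h1
      · exact (hs e he).1
      · rw [he]; exact h2
      · exact (ht e he).1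
    have hR := alignR hct hm0 (hlaw a s t) hE
    obtain ⟨n, rfl⟩ : ∃ n, m = n + 1 := ⟨m - 1, by omega⟩
    have e1 : ∀ D' : List ℕ, X ++ c :: (pw (n + 1) (a :: (s ++ [c'])) ++ D') =
        (X ++ c :: (pw n (a :: (s ++ [c'])) ++ a :: s)) ++ c' :: D' := by
      intro D'
      rw [pw_succ']; simp
    refine ⟨X ++ c :: (pw n (a :: (s ++ [c'])) ++ a :: s), ?_, ?_, ?_, ?_⟩
    · rw [e1] at hR; exact hR
    · intro e
      rw [← e1 [], ed_append_cons, ed_block, ed_singleton, add_zero]
      simp only [Multiset.mem_add, Multiset.mem_cons]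
      constructor
      · rintro (h | h | h | h)
        · exact h
        · rw [h]; exact h1
        · exact (hs e (Multiset.mem_of_mem_nsmul h)).1
        · rw [Multiset.mem_singleton.1 (Multiset.mem_of_mem_nsmul h)]; exact h2
      · exact fun h => Or.inl h
    · cases X <;> simp
    · intro z
      constructor
      · intro hz
        rw [← e1 []] at hz
        simp only [List.mem_append, List.mem_cons, mem_pw, List.not_mem_nil, or_false] at hz
        have hmem : ∀ z ∈ a :: (s ++ [c']), z ∈ X ++ [c] := by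
          intro z hz
          have : ∀ w ∈ (ed (a :: (s ++ [c']))).map Prod.fst, w ∈ X ++ [c] := by
            intro w hw
            obtain ⟨e, he, rfl⟩ := Multiset.mem_map.1 hw
            exact (mem_of_mem_ed (x := e.1) (y := e.2) (hs e he).1).1
          have h6 : z ∈ (((a :: (s ++ [c']) : List ℕ)) : Multiset ℕ) := by simpa using hz
          rw [← map_fst_ed, Multiset.mem_add] at h6
          rcases h6 with h6 | h6
          · exact this z h6
          · have : (a :: (s ++ [c'])).getLast? = some c' := by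
              rw [← List.cons_append, List.getLast?_append_of_ne_nil _ (by simp)]; rfl
            rw [this] at h6
            simp only [Option.elim, Multiset.mem_singleton] at h6
            rw [h6]
            exact (mem_of_mem_ed h2).1
        rcases hz with h | h | ⟨_, h⟩
        · simp [h]
        · simp [h]
        · exact hmem z (by simpa using h)
      · intro hz
        rw [List.mem_append] at hz
        rcases hz with h | h
        · simp [h]
        · simp only [List.mem_singleton] at h; simp [h]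

theorem fixL {X D : List ℕ} {d d' : ℕ}
    (hd : d ≠ d' → ∃ b, (b, d) ∈ ed (d :: D) ∧ (b, d') ∈ ed (d :: D) ∧
      Reach (d :: D) d b ∧ Reach (d :: D) d' b)
    (hlaw : ∀ (b : ℕ) (s t : List ℕ), R (X ++ (d :: (s ++ b :: d' :: (t ++ [b, d]))))
      (X ++ (pw m (d' :: (t ++ [b])) ++ d :: (s ++ b :: d' :: (t ++ [b, d]))))) :
    ∃ D', R (X ++ d :: D) (X ++ d' :: D') ∧ (∀ e, e ∈ ed (d' :: D') ↔ e ∈ ed (d :: D)) ∧
      (d' :: D').getLast? = (d :: D).getLast? ∧ ∀ z, z ∈ d' :: D' ↔ z ∈ d :: D := by
  by_cases hdd : d = d'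
  · subst hdd
    exact ⟨D, hct.refl _, fun e => Iff.rfl, rfl, fun z => Iff.rfl⟩
  · obtain ⟨b, h1, h2, h3, h4⟩ := hd hdd
    obtain ⟨s, hs⟩ := walk_of_trg (trg_of_reach h3 (fun h => by rw [← h] at h1 ⊢; exact h1))
    obtain ⟨t, ht⟩ := walk_of_trg (trg_of_reach h4 (fun h => by rw [← h] at h2 ⊢; exact h2))
    have hE : ∀ e ∈ ed (d :: (s ++ b :: d' :: (t ++ [b, d]))), e ∈ ed (d :: D) := by
      intro e he
      have h5 : ed (d :: (s ++ b :: d' :: (t ++ [b, d]))) =
          ed (d :: (s ++ [b])) + (b, d') ::ₘ (ed (d' :: (t ++ [b])) + {(b, d)}) := by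
        have h6 := ed_append_two (d :: s) b d' (t ++ [b, d])
        have h7 := ed_append_two (d' :: t) b d []
        simp only [List.cons_append] at h6 h7
        rw [h6, h7]; rfl
      rw [h5, Multiset.mem_add, Multiset.mem_cons, Multiset.mem_add, Multiset.mem_singleton] at he
      rcases he with he | he | he | he
      · exact (hs e he).1
      · rw [he]; exact h2
      · exact (ht e he).1
      · rw [he]; exact h1
    have hR := alignL hct hm0 (hlaw b s t) hE
    obtain ⟨n, rfl⟩ : ∃ n, m = n + 1 := ⟨m - 1, by omega⟩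
    have e1 : pw (n + 1) (d' :: (t ++ [b])) ++ d :: D =
        d' :: ((t ++ [b]) ++ (pw n (d' :: (t ++ [b])) ++ d :: D)) := by
      rw [pw_succ]; simp
    refine ⟨(t ++ [b]) ++ (pw n (d' :: (t ++ [b])) ++ d :: D), ?_, ?_, ?_, ?_⟩
    · rw [e1] at hR; exact hR
    · intro e
      rw [← e1, ed_block', ed_cons_cons]
      simp only [Multiset.mem_add, Multiset.mem_cons]
      constructor
      · rintro ((h | h) | h | h)
        · exact (ht e (Multiset.mem_of_mem_nsmul h)).1
        · rw [Multiset.mem_singleton.1 (Multiset.mem_of_mem_nsmul h)]; exact h2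
        · rw [h]; exact h1
        · exact h
      · exact fun h => Or.inr (Or.inr h)
    · rw [← e1, List.getLast?_append_of_ne_nil _ (by simp)]
    · intro z
      constructor
      · intro hz
        rw [← e1] at hz
        simp only [List.mem_append, mem_pw] at hz
        rcases hz with ⟨_, h⟩ | h
        · have : ∀ w ∈ (ed (d' :: (t ++ [b]))).map Prod.fst, w ∈ d :: D := by
            intro w hw
            obtain ⟨e, he, rfl⟩ := Multiset.mem_map.1 hw
            exact (mem_of_mem_ed (x := e.1) (y := e.2) (ht e he).1).1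
          have h6 : z ∈ (((d' :: (t ++ [b]) : List ℕ)) : Multiset ℕ) := by simpa using h
          rw [← map_fst_ed, Multiset.mem_add] at h6
          rcases h6 with h6 | h6
          · exact this z h6
          · have : (d' :: (t ++ [b])).getLast? = some b := by
              rw [← List.cons_append, List.getLast?_append_of_ne_nil _ (by simp)]; rfl
            rw [this] at h6
            simp only [Option.elim, Multiset.mem_singleton] at h6
            rw [h6]
            exact (mem_of_mem_ed h1).1
        · exact h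
      · intro hz
        rw [← e1]
        exact List.mem_append.2 (Or.inr hz)

end fix

/-! ### Maximal words -/

theorem exists_emax {G I L : Type} [AddCommGroup G] {A : L → I → Prop} {p : L → I → G} {m r : ℕ}
    {R : List ℕ → List ℕ → Prop} (hL : Laws A p m r R) {u : List ℕ} (hu : u ≠ []) :
    ∃ u', R u u' ∧ EMax R u' := by
  classical
  let P : ℕ → Prop := fun k => ∃ u', R u u' ∧ (ed u').toFinset.card = k
  set N := (u.toFinset ×ˢ u.toFinset).card
  have hbound : ∀ u', R u u' → (ed u').toFinset.card ≤ N := by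
    intro u' h
    have hS := (hL.sound h).2 hu
    refine Finset.card_le_card ?_
    intro e he
    rw [Multiset.mem_toFinset] at he
    have := mem_of_mem_ed (x := e.1) (y := e.2) he
    exact Finset.mem_product.2 ⟨List.mem_toFinset.2 ((hS.content _).2 this.1),
      List.mem_toFinset.2 ((hS.content _).2 this.2)⟩
  have h0 : P ((ed u).toFinset.card) := ⟨u, hL.ct.refl u, rfl⟩
  have hs : P (Nat.findGreatest P N) := Nat.findGreatest_spec (hbound u (hL.ct.refl u)) h0
  obtain ⟨u', hu', hcard⟩ := hs
  refine ⟨u', hu', ?_⟩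
  intro v hv hsub e he
  have h1 : (ed v).toFinset.card ≤ Nat.findGreatest P N :=
    Nat.le_findGreatest (hbound v (hL.ct.trans hu' hv)) ⟨v, hL.ct.trans hu' hv, rfl⟩
  have h2 : (ed u').toFinset ⊆ (ed v).toFinset := by
    intro f hf
    exact Multiset.mem_toFinset.2 (hsub f (Multiset.mem_toFinset.1 hf))
  have h3 := Finset.eq_of_subset_of_card_le h2 (by rw [hcard]; exact h1)
  exact Multiset.mem_toFinset.1 (by rw [h3]; exact Multiset.mem_toFinset.2 he)

/-! ### Zigzags and identities -/

section zig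

variable {G I L : Type} [AddCommGroup G] {A : L → I → Prop} {p : L → I → G} {m : ℕ}

open Classical in
/-- Two-valued substitution determined by the component of the row of `x`. -/
theorem zig_subst {u : List ℕ} {l1 l2 : L} {i1 i2 : I} (h1 : A l1 i1) (h2 : A l2 i2) (x : ℕ) :
    Ok A (fun z => if z = x ∨ ∃ a, (∃ k, Zig u k x a) ∧ (z, a) ∈ ed u then l1 else l2)
      (fun z => if ∃ k, Zig u k x z then i1 else i2) u := by
  rintro ⟨z, w⟩ he
  dsimp only
  by_cases hz : z = x ∨ ∃ a, (∃ k, Zig u k x a) ∧ (z, a) ∈ ed u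
  · have hw : ∃ k, Zig u k x w := by
      rcases hz with rfl | ⟨a, ⟨k, hk⟩, ha⟩
      · exact ⟨0, Zig.base he⟩
      · exact ⟨k + 1, zig_append hk ha he⟩
    rw [if_pos hz, if_pos hw]; exact h1
  · have hw : ¬ ∃ k, Zig u k x w := fun hw => hz (Or.inr ⟨w, hw, he⟩)
    rw [if_neg hz, if_neg hw]; exact h2

theorem zig_of_sId {u v : List ℕ} (h : SId A p m u v) {l1 l2 : L} {i1 i2 : I} (h1 : A l1 i1)
    (h2 : A l2 i2) (h3 : ¬ A l1 i2) {x y : ℕ} (he : (x, y) ∈ ed v) : ∃ k, Zig u k x y := by
  classical
  by_contra hne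
  have := (h.ok _ _).1 (zig_subst (u := u) h1 h2 x) (x, y) he
  simp only [true_or, if_true] at this
  rw [if_neg hne] at this
  exact h3 this

/-- Reachability is the same for maximal words. -/
theorem reach_of_zig {u v : List ℕ}
    (hzv : ∀ k x y, Zig v k x y → Reach v y x → (x, y) ∈ ed v)
    (hcont : ∀ x, x ∈ u ↔ x ∈ v) (huv : ∀ x y, (x, y) ∈ ed u → ∃ k, Zig v k x y)
    {x y : ℕ} (h : Reach u x y) : Reach v x y := by
  induction h with
  | refl => exact Relation.ReflTransGen.refl
  | @tail b c _ h2 ih =>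
    have hm := mem_of_mem_ed h2
    rcases reach_total ((hcont _).1 hm.1) ((hcont _).1 hm.2) with h | h
    · exact ih.trans h
    · obtain ⟨k, hk⟩ := huv _ _ h2
      exact ih.tail (hzv k _ _ hk h)

end zig

/-! ### Crossing a cut -/

section cross

variable {v : List ℕ} {Lt : ℕ → Prop} {c' d' : ℕ}
  (hdown : ∀ x y, (x, y) ∈ ed v → Lt y → Lt x)
  (hcross : ∀ x y, (x, y) ∈ ed v → Lt x → ¬ Lt y → x = c' ∧ y = d')
include hdown hcross

theorem crossC {k c d : ℕ} (h : Zig v k c d) (hc : Lt c) (hd : ¬ Lt d) :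
    c = c' ∨ ∃ a, Lt a ∧ (c, a) ∈ ed v ∧ ∃ j, Zig v j c' a := by
  induction h with
  | base he => exact Or.inl (hcross _ _ he hc hd).1
  | @step k c a b d h1 h2 _ ih =>
    by_cases ha : Lt a
    · have hb : Lt b := hdown _ _ h2 ha
      right
      rcases ih hb hd with rfl | ⟨a', ha', hba', j, hj⟩
      · exact ⟨a, ha, h1, 0, Zig.base h2⟩
      · exact ⟨a, ha, h1, j + 1, zig_append hj hba' h2⟩
    · exact Or.inl (hcross _ _ h1 hc ha).1

theorem crossD {y : ℕ} (hy : ¬ Lt y) : ∀ k c, Zig v k c y → (Lt c ∨ ∃ j, Zig v j c d') →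
    y = d' ∨ ∃ b, ¬ Lt b ∧ (b, y) ∈ ed v ∧ ∃ j, Zig v j b d' := by
  intro k
  induction k with
  | zero =>
    intro c h hc
    cases h with
    | base he =>
      by_cases hLc : Lt c
      · exact Or.inl (hcross _ _ he hLc hy).2
      · exact Or.inr ⟨c, hLc, he, hc.resolve_left hLc⟩
  | succ k ih =>
    intro c h hc
    cases h with
    | @step _ _ a b _ h1 h2 h3 =>
      refine ih b h3 ?_
      by_cases hLc : Lt c
      · by_cases ha : Lt a
        · exact Or.inl (hdown _ _ h2 ha)
        · have := (hcross _ _ h1 hLc ha).2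
          subst this
          exact Or.inr ⟨0, Zig.base h2⟩
      · obtain ⟨j, hj⟩ := hc.resolve_left hLc
        exact Or.inr ⟨j + 1, Zig.step h2 h1 hj⟩

end cross

end Pool.Agent.CZS
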