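import Pool.Agent.CZS.Defs

/-!
# The key lemma: ladder invariance, Ramsey and compactness
-/

set_option autoImplicit false
open scoped BigOperators

namespace Pool.Agent.CZS

namespace Key

open Finset

/-- a finite set labelled by ranks -/
def pat (q : ℕ) (D : Finset ℕ) : Vx q := (D, fun v => ((D.filter (· < v)).card : ZMod q))

/-- the union of two images, labelled by ranks -/
def patU (q : ℕ) (n n' : ℕ → ℕ) (J : Finset ℕ) : Vx q :=
  (J.image n ∪ J.image n', fun v =>
    if v ∈ J.image n then (((J.image n).filter (· < v)).card : ZMod q)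
    else (((J.image n').filter (· < v)).card : ZMod q))

lemma card_filter_lt {n : ℕ → ℕ} (hn : StrictMono n) {s m j : ℕ} (hj : j ∈ Ico s (s + m)) :
    (((Ico s (s + m)).image n).filter (· < n j)).card = j - s := by
  have h0 : ((Ico s (s + m)).image n).filter (· < n j) = (Ico s j).image n := by
    ext v
    simp only [mem_filter, mem_image, mem_Ico]
    constructor
    · rintro ⟨⟨i, ⟨h1, h2⟩, rfl⟩, h3⟩
      exact ⟨i, ⟨h1, hn.lt_iff_lt.1 h3⟩, rfl⟩
    · rintro ⟨i, ⟨h1, h2⟩, rfl⟩
      exact ⟨⟨i, ⟨h1, by have := (mem_Ico.1 hj).2; omega⟩, rfl⟩, hn h2⟩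
  rw [h0, card_image_of_injective _ hn.injective, Nat.card_Ico]

lemma pat_label (q : ℕ) {n : ℕ → ℕ} (hn : StrictMono n) {s m j : ℕ} (hj : j ∈ Ico s (s + m)) :
    (pat q ((Ico s (s + m)).image n)).2 (n j) = ((j - s : ℕ) : ZMod q) := by
  show ((((Ico s (s + m)).image n).filter (· < n j)).card : ZMod q) = _
  rw [card_filter_lt hn hj]

lemma patU_label_left (q : ℕ) {n n' : ℕ → ℕ} (hn : StrictMono n) {s m j : ℕ}
    (hj : j ∈ Ico s (s + m)) :
    (patU q n n' (Ico s (s + m))).2 (n j) = ((j - s : ℕ) : ZMod q) := by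
  have h1 : n j ∈ (Ico s (s + m)).image n := mem_image_of_mem _ hj
  simp only [patU]
  rw [if_pos h1, card_filter_lt hn hj]

lemma patU_label_right (q : ℕ) {n n' : ℕ → ℕ} (hn : StrictMono n) (hn' : StrictMono n')
    {i : ℕ} (hd : ∀ j, j ≠ i → n j = n' j) {s m j : ℕ} (hj : j ∈ Ico s (s + m)) :
    (patU q n n' (Ico s (s + m))).2 (n' j) = ((j - s : ℕ) : ZMod q) := by
  by_cases h1 : n' j ∈ (Ico s (s + m)).image n
  · obtain ⟨j', hj', h2⟩ := mem_image.1 h1
    have h3 : j' = j := by
      by_cases hji : j = i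
      · by_contra hne
        have h4 : n j' = n' j' := hd j' (by rw [← hji]; exact hne)
        exact hne (hn'.injective (h4.symm.trans h2))
      · rw [← hd j hji] at h2
        exact hn.injective h2
    rw [h3] at h2
    rw [← h2]
    exact patU_label_left q hn hj
  · simp only [patU]
    rw [if_neg h1, card_filter_lt hn' hj]

lemma card_patU (q : ℕ) {n n' : ℕ → ℕ} (hn : StrictMono n)
    {i : ℕ} (hd : ∀ j, j ≠ i → n j = n' j) (J : Finset ℕ) :
    (patU q n n' J).1.card = J.card ∨ (patU q n n' J).1.card = J.card + 1 := by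
  have h1 : (J.image n).card = J.card := card_image_of_injective _ hn.injective
  have h2 : J.image n ∪ J.image n' ⊆ insert (n' i) (J.image n) := by
    intro v hv
    rw [mem_union] at hv
    rcases hv with hv | hv
    · exact mem_insert_of_mem hv
    · obtain ⟨j, hj, rfl⟩ := mem_image.1 hv
      by_cases hji : j = i
      · rw [hji]; exact mem_insert_self _ _
      · rw [← hd j hji]
        exact mem_insert_of_mem (mem_image_of_mem _ hj)
  have h3 := card_le_card h2
  have h4 := card_insert_le (n' i) (J.image n)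
  have h5 : (J.image n).card ≤ (J.image n ∪ J.image n').card := card_le_card subset_union_left
  show (J.image n ∪ J.image n').card = J.card ∨ (J.image n ∪ J.image n').card = J.card + 1
  omega

lemma sub_cast (q : ℕ) {s d j : ℕ} (h : s + d ≤ j) :
    ((j - s : ℕ) : ZMod q) = ((j - (s + d) : ℕ) : ZMod q) + (d : ZMod q) := by
  have : j - s = (j - (s + d)) + d := by omega
  rw [this, Nat.cast_add]

lemma hadj_pat {q k : ℕ} {n : ℕ → ℕ} (hn : StrictMono n) (s : ℕ) {d : ℕ} (hd : d ≤ 1) :
    HAdj k (pat q ((Ico (s + d) (s + d + k)).image n)) (pat q ((Ico s (s + (k + 1))).image n)) := by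
  refine ⟨?_, Or.inl ?_, ?_, (d : ZMod q), ?_⟩
  · show ((Ico (s + d) (s + d + k)).image n).card = k
    rw [card_image_of_injective _ hn.injective, Nat.card_Ico]
    omega
  · show ((Ico s (s + (k + 1))).image n).card = k + 1
    rw [card_image_of_injective _ hn.injective, Nat.card_Ico]
    omega
  · apply image_subset_image
    intro j hj
    rw [mem_Ico] at hj ⊢
    omega
  · intro v hv
    obtain ⟨j, hj, rfl⟩ := mem_image.1 hv
    rw [pat_label q hn hj, pat_label q hn (by rw [mem_Ico] at hj ⊢; omega)]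
    exact sub_cast q (mem_Ico.1 hj).1

lemma hadj_patU_left {q k : ℕ} {n n' : ℕ → ℕ} (hn : StrictMono n)
    {i : ℕ} (hdf : ∀ j, j ≠ i → n j = n' j) (s : ℕ) {d : ℕ} (hd : d ≤ 1) :
    HAdj k (pat q ((Ico (s + d) (s + d + k)).image n)) (patU q n n' (Ico s (s + (k + 1)))) := by
  refine ⟨?_, ?_, ?_, (d : ZMod q), ?_⟩
  · show ((Ico (s + d) (s + d + k)).image n).card = k
    rw [card_image_of_injective _ hn.injective, Nat.card_Ico]
    omega
  · have h1 := card_patU q hn hdf (Ico s (s + (k + 1)))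
    rw [Nat.card_Ico] at h1
    omega
  · show (Ico (s + d) (s + d + k)).image n ⊆
      (Ico s (s + (k + 1))).image n ∪ (Ico s (s + (k + 1))).image n'
    refine Subset.trans (image_subset_image ?_) subset_union_left
    intro j hj
    rw [mem_Ico] at hj ⊢
    omega
  · intro v hv
    obtain ⟨j, hj, rfl⟩ := mem_image.1 hv
    rw [pat_label q hn hj, patU_label_left q hn (by rw [mem_Ico] at hj ⊢; omega)]
    exact sub_cast q (mem_Ico.1 hj).1

lemma hadj_patU_right {q k : ℕ} {n n' : ℕ → ℕ} (hn : StrictMono n) (hn' : StrictMono n')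
    {i : ℕ} (hdf : ∀ j, j ≠ i → n j = n' j) (s : ℕ) {d : ℕ} (hd : d ≤ 1) :
    HAdj k (pat q ((Ico (s + d) (s + d + k)).image n')) (patU q n n' (Ico s (s + (k + 1)))) := by
  refine ⟨?_, ?_, ?_, (d : ZMod q), ?_⟩
  · show ((Ico (s + d) (s + d + k)).image n').card = k
    rw [card_image_of_injective _ hn'.injective, Nat.card_Ico]
    omega
  · have h1 := card_patU q hn hdf (Ico s (s + (k + 1)))
    rw [Nat.card_Ico] at h1
    omega
  · show (Ico (s + d) (s + d + k)).image n' ⊆
      (Ico s (s + (k + 1))).image n ∪ (Ico s (s + (k + 1))).image n'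
    refine Subset.trans (image_subset_image ?_) subset_union_right
    intro j hj
    rw [mem_Ico] at hj ⊢
    omega
  · intro v hv
    obtain ⟨j, hj, rfl⟩ := mem_image.1 hv
    rw [pat_label q hn' hj, patU_label_right q hn hn' hdf (by rw [mem_Ico] at hj ⊢; omega)]
    exact sub_cast q (mem_Ico.1 hj).1

/-- vertices of the ladder -/
def xv (q k : ℕ) (n : ℕ → ℕ) (s : ℕ) : Vx q := pat q ((Ico s (s + k)).image n)

def yv (q k : ℕ) (n : ℕ → ℕ) (s : ℕ) : Vx q := pat q ((Ico s (s + (k + 1))).image n)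

lemma gain_pat {q k : ℕ} (hk : 0 < k) {n : ℕ → ℕ} (hn : StrictMono n) (s : ℕ) {d : ℕ}
    (hd : d ≤ 1) : gain (xv q k n (s + d)) (yv q k n s) = (d : ZMod q) := by
  have h1 : (((Ico (s + d) (s + d + k)).image n : Finset ℕ) : Set ℕ).Nonempty := by
    rw [coe_nonempty, image_nonempty]
    exact ⟨s + d, mem_Ico.2 ⟨le_refl _, by omega⟩⟩
  have h2 := Nat.sInf_mem h1
  rw [mem_coe, mem_image] at h2
  obtain ⟨j, hj, h3⟩ := h2
  show (pat q ((Ico s (s + (k + 1))).image n)).2
      (sInf (((Ico (s + d) (s + d + k)).image n : Finset ℕ) : Set ℕ)) -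
    (pat q ((Ico (s + d) (s + d + k)).image n)).2
      (sInf (((Ico (s + d) (s + d + k)).image n : Finset ℕ) : Set ℕ)) = _
  rw [← h3, pat_label q hn hj, pat_label q hn (by rw [mem_Ico] at hj ⊢; omega),
    sub_cast q (mem_Ico.1 hj).1]
  ring

section ladder

variable {L I G : Type} [AddCommGroup G] {A : L → I → Prop} {f : L → I → G}
  (hf : ∀ l i l' i', A l i → A l i' → A l' i → A l' i' → f l i - f l i' - f l' i + f l' i' = 0)
  {q k : ℕ} {φ : Vx q → L} {ψ : Vx q → I}
  (hA : ∀ x y : Vx q, HAdj k x y → A (φ x) (ψ y))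

include hf hA

lemma cn {a a' u u' : Vx q} (h1 : HAdj k a u) (h2 : HAdj k a' u) (h3 : HAdj k a u')
    (h4 : HAdj k a' u') :
    f (φ a) (ψ u) - f (φ a') (ψ u) = f (φ a) (ψ u') - f (φ a') (ψ u') := by
  have h := hf (φ a) (ψ u) (φ a') (ψ u') (hA _ _ h1) (hA _ _ h3) (hA _ _ h2) (hA _ _ h4)
  rw [← sub_eq_zero, ← h]
  abel

/-- the difference of two linear walks -/
lemma telescope {n n' : ℕ → ℕ} (hn : StrictMono n) (hn' : StrictMono n')
    {i : ℕ} (hdf : ∀ j, j ≠ i → n j = n' j) (m : ℕ) :
    (∑ s ∈ range m, (f (φ (xv q k n s)) (ψ (yv q k n s)) -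
        f (φ (xv q k n (s + 1))) (ψ (yv q k n s)))) -
      (∑ s ∈ range m, (f (φ (xv q k n' s)) (ψ (yv q k n' s)) -
        f (φ (xv q k n' (s + 1))) (ψ (yv q k n' s)))) =
    (f (φ (xv q k n 0)) (ψ (patU q n n' (Ico 0 (0 + (k + 1))))) -
        f (φ (xv q k n' 0)) (ψ (patU q n n' (Ico 0 (0 + (k + 1)))))) -
      (f (φ (xv q k n m)) (ψ (patU q n n' (Ico m (m + (k + 1))))) -
        f (φ (xv q k n' m)) (ψ (patU q n n' (Ico m (m + (k + 1)))))) := by
  rw [← sum_sub_distrib]
  rw [← sum_range_sub' (fun s => f (φ (xv q k n s)) (ψ (patU q n n' (Ico s (s + (k + 1))))) -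
        f (φ (xv q k n' s)) (ψ (patU q n n' (Ico s (s + (k + 1)))))) m]
  apply sum_congr rfl
  intro s _
  have e1 := cn hf hA (hadj_pat (q := q) (k := k) hn s (d := 0) (by omega))
    (hadj_pat (q := q) (k := k) hn s (d := 1) (by omega))
    (hadj_patU_left (q := q) (k := k) hn hdf s (d := 0) (by omega))
    (hadj_patU_left (q := q) (k := k) hn hdf s (d := 1) (by omega))
  have e2 := cn hf hA (hadj_pat (q := q) (k := k) hn' s (d := 0) (by omega))
    (hadj_pat (q := q) (k := k) hn' s (d := 1) (by omega))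
    (hadj_patU_right (q := q) (k := k) hn hn' hdf s (d := 0) (by omega))
    (hadj_patU_right (q := q) (k := k) hn hn' hdf s (d := 1) (by omega))
  have e3 := cn hf hA (hadj_patU_left (q := q) (k := k) hn hdf s (d := 1) (by omega))
    (hadj_patU_right (q := q) (k := k) hn hn' hdf s (d := 1) (by omega))
    (hadj_patU_left (q := q) (k := k) hn hdf (s + 1) (d := 0) (by omega))
    (hadj_patU_right (q := q) (k := k) hn hn' hdf (s + 1) (d := 0) (by omega))
  simp only [add_zero] at e1 e2 e3
  simp only [xv, yv]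
  rw [e1, e2, ← e3]
  abel

end ladder

/-! ### Ramsey -/

open Filter

/-- functions to a finite type are eventually constant along an ultrafilter -/
lemma ulim {ι C : Type} [Finite C] (U : Ultrafilter ι) (g : ι → C) :
    ∃ c, ∀ᶠ a in (U : Filter ι), g a = c := by
  by_contra hcon
  have h1 : ∀ c, ∀ᶠ a in (U : Filter ι), g a ≠ c := fun c =>
    Ultrafilter.eventually_not.2 fun h => hcon ⟨c, h⟩
  obtain ⟨a, ha⟩ := (eventually_all.2 h1).exists
  exact ha (g a) rfl

/-- iterated ultrafilter limits of a colouring -/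
noncomputable def cl {C : Type} [Finite C] (U : Ultrafilter ℕ) (c : Finset ℕ → C) :
    ℕ → Finset ℕ → C
  | 0 => c
  | m + 1 => fun B => Classical.choose (ulim U (fun n => cl U c m (insert n B)))

lemma cl_spec {C : Type} [Finite C] (U : Ultrafilter ℕ) (c : Finset ℕ → C) (m : ℕ)
    (B : Finset ℕ) : ∀ᶠ n in (U : Filter ℕ), cl U c m (insert n B) = cl U c (m + 1) B :=
  Classical.choose_spec (ulim U (fun n => cl U c m (insert n B)))

lemma exists_homog {C : Type} [Finite C] (c : Finset ℕ → C) (K : ℕ) :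
    ∃ n : ℕ → ℕ, StrictMono n ∧ ∃ col : ℕ → C,
      ∀ J : Finset ℕ, J.card ≤ K → c (J.image n) = col J.card := by
  set U : Ultrafilter ℕ := hyperfilter ℕ with hU
  have hnext : ∀ B : Finset ℕ, ∃ n, (∀ b ∈ B, b < n) ∧
      ∀ B' ∈ B.powerset, ∀ m ∈ range K, cl U c m (insert n B') = cl U c (m + 1) B' := by
    intro B
    have h1 : ∀ᶠ n in (U : Filter ℕ), ∀ b ∈ B, b < n :=
      (eventually_all_finset B).2 fun b _ =>
        _root_.Nat.hyperfilter_le_atTop (eventually_gt_atTop b)
    have h2 : ∀ᶠ n in (U : Filter ℕ), ∀ B' ∈ B.powerset, ∀ m ∈ range K,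
        cl U c m (insert n B') = cl U c (m + 1) B' :=
      (eventually_all_finset B.powerset).2 fun B' _ =>
        (eventually_all_finset (range K)).2 fun m _ => cl_spec U c m B'
    exact (h1.and h2).exists
  choose next hn1 hn2 using hnext
  set S : ℕ → Finset ℕ := fun i => Nat.rec ∅ (fun _ B => insert (next B) B) i with hS
  have hSs : ∀ i, S (i + 1) = insert (next (S i)) (S i) := fun i => rfl
  have hmem : ∀ i j, j < i → next (S j) ∈ S i := by
    intro i
    induction i with
    | zero => intro j hj; exact absurd hj (Nat.not_lt_zero _)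
    | succ i ih =>
      intro j hj
      rw [hSs i]
      rcases Nat.lt_succ_iff_lt_or_eq.1 hj with h | h
      · exact mem_insert_of_mem (ih j h)
      · rw [h]; exact mem_insert_self _ _
  refine ⟨fun i => next (S i), strictMono_nat_of_lt_succ fun i => ?_, fun r => cl U c r ∅, ?_⟩
  · exact hn1 _ _ (hmem (i + 1) i (Nat.lt_succ_self i))
  · have main : ∀ J : Finset ℕ, ∀ m, m + J.card ≤ K →
        cl U c m (J.image fun i => next (S i)) = cl U c (m + J.card) ∅ := by
      intro J
      refine Finset.induction_on_max J ?_ ?_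
      · intro m _
        rfl
      · intro a s hmax ih m hm
        have has : a ∉ s := fun h => lt_irrefl a (hmax a h)
        rw [card_insert_of_notMem has] at hm ⊢
        rw [image_insert, hn2 (S a) _ (mem_powerset.2 ?_) m (mem_range.2 (by omega)),
          ih (m + 1) (by omega)]
        · rw [show m + 1 + s.card = m + (s.card + 1) by ring]
        · intro v hv
          obtain ⟨j, hj, rfl⟩ := mem_image.1 hv
          exact hmem a j (hmax j hj)
    intro J hJ
    have h := main J 0 (by omega)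
    rw [zero_add] at h
    exact h

/-! ### the closed walk -/

/-- the shift of indices -/
def hh (k j : ℕ) : ℕ := if j < k then j else j + 1

lemma hh_strictMono (k : ℕ) : StrictMono (hh k) := by
  intro a b hab
  unfold hh
  split_ifs <;> omega

/-- the difference of the two linear walks -/
def bs {H : Type} [AddCommGroup H] (q k : ℕ) (w : Vx q → Vx q → H) (n : ℕ → ℕ) : H :=
  (∑ s ∈ range k, (w (xv q k (n ∘ hh k) s) (yv q k (n ∘ hh k) s) -
      w (xv q k (n ∘ hh k) (s + 1)) (yv q k (n ∘ hh k) s))) -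
    (∑ s ∈ range (k + 1), (w (xv q k n s) (yv q k n s) - w (xv q k n (s + 1)) (yv q k n s)))

lemma xv_hh_zero (q k : ℕ) (n : ℕ → ℕ) : xv q k (n ∘ hh k) 0 = xv q k n 0 := by
  unfold xv
  congr 1
  apply image_congr
  intro j hj
  rw [coe_Ico, Set.mem_Ico] at hj
  have : hh k j = j := by
    unfold hh
    rw [if_pos (by omega)]
  rw [Function.comp_apply, this]

lemma xv_hh_last (q k : ℕ) (n : ℕ → ℕ) : xv q k (n ∘ hh k) k = xv q k n (k + 1) := by
  unfold xv
  congr 1
  ext v
  simp only [mem_image, mem_Ico, Function.comp_apply]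
  constructor
  · rintro ⟨j, hj, rfl⟩
    refine ⟨j + 1, by omega, ?_⟩
    unfold hh
    rw [if_neg (by omega)]
  · rintro ⟨j, hj, rfl⟩
    refine ⟨j - 1, by omega, ?_⟩
    unfold hh
    rw [if_neg (by omega)]
    congr 1
    omega

lemma bs_congr {H : Type} [AddCommGroup H] (q k : ℕ) (w : Vx q → Vx q → H) {n n' : ℕ → ℕ}
    (h : ∀ j ≤ 2 * k, n j = n' j) : bs q k w n = bs q k w n' := by
  have hx : ∀ s ≤ k + 1, xv q k n s = xv q k n' s := by
    intro s hs
    unfold xv
    congr 1
    apply image_congr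
    intro j hj
    rw [coe_Ico, Set.mem_Ico] at hj
    exact h j (by omega)
  have hy : ∀ s ≤ k, yv q k n s = yv q k n' s := by
    intro s hs
    unfold yv
    congr 1
    apply image_congr
    intro j hj
    rw [coe_Ico, Set.mem_Ico] at hj
    exact h j (by omega)
  have hh1 : ∀ j < 2 * k, n (hh k j) = n' (hh k j) := by
    intro j hj
    apply h
    unfold hh
    split_ifs <;> omega
  have hx' : ∀ s ≤ k, xv q k (n ∘ hh k) s = xv q k (n' ∘ hh k) s := by
    intro s hs
    unfold xv
    congr 1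
    apply image_congr
    intro j hj
    rw [coe_Ico, Set.mem_Ico] at hj
    exact hh1 j (by omega)
  have hy' : ∀ s < k, yv q k (n ∘ hh k) s = yv q k (n' ∘ hh k) s := by
    intro s hs
    unfold yv
    congr 1
    apply image_congr
    intro j hj
    rw [coe_Ico, Set.mem_Ico] at hj
    exact hh1 j (by omega)
  unfold bs
  congr 1
  · apply sum_congr rfl
    intro s hs
    rw [mem_range] at hs
    rw [hx' s (by omega), hx' (s + 1) (by omega), hy' s hs]
  · apply sum_congr rfl
    intro s hs
    rw [mem_range] at hs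
    rw [hx s (by omega), hx (s + 1) (by omega), hy s (by omega)]

section ladder

variable {L I G : Type} [AddCommGroup G] {A : L → I → Prop} {f : L → I → G}
  (hf : ∀ l i l' i', A l i → A l i' → A l' i → A l' i' → f l i - f l i' - f l' i + f l' i' = 0)
  {q k : ℕ} {φ : Vx q → L} {ψ : Vx q → I}
  (hA : ∀ x y : Vx q, HAdj k x y → A (φ x) (ψ y))

include hf hA

lemma bs_move {n n' : ℕ → ℕ} (hn : StrictMono n) (hn' : StrictMono n')
    {i : ℕ} (hdf : ∀ j, j ≠ i → n j = n' j) :
    bs q k (fun x y => f (φ x) (ψ y)) n = bs q k (fun x y => f (φ x) (ψ y)) n' := by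
  have hdf' : ∀ j, j ≠ (if i < k then i else i - 1) → (n ∘ hh k) j = (n' ∘ hh k) j := by
    intro j hj
    apply hdf
    unfold hh
    split_ifs at hj ⊢ <;> omega
  have t1 := telescope hf hA (hn.comp (hh_strictMono k)) (hn'.comp (hh_strictMono k)) hdf' k
  have t2 := telescope hf hA hn hn' hdf (k + 1)
  have a1 := hadj_patU_left (q := q) (k := k) (hn.comp (hh_strictMono k)) hdf' 0
    (d := 0) (by omega)
  have a2 := hadj_patU_right (q := q) (k := k) (hn.comp (hh_strictMono k))
    (hn'.comp (hh_strictMono k)) hdf' 0 (d := 0) (by omega)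
  have a3 := hadj_patU_left (q := q) (k := k) hn hdf 0 (d := 0) (by omega)
  have a4 := hadj_patU_right (q := q) (k := k) hn hn' hdf 0 (d := 0) (by omega)
  have b1 := hadj_patU_left (q := q) (k := k) (hn.comp (hh_strictMono k)) hdf' k
    (d := 0) (by omega)
  have b2 := hadj_patU_right (q := q) (k := k) (hn.comp (hh_strictMono k))
    (hn'.comp (hh_strictMono k)) hdf' k (d := 0) (by omega)
  have b3 := hadj_patU_left (q := q) (k := k) hn hdf (k + 1) (d := 0) (by omega)
  have b4 := hadj_patU_right (q := q) (k := k) hn hn' hdf (k + 1) (d := 0) (by omega)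
  have a1' : HAdj k (xv q k n 0) (patU q (n ∘ hh k) (n' ∘ hh k) (Ico 0 (0 + (k + 1)))) := by
    rw [← xv_hh_zero]; exact a1
  have a2' : HAdj k (xv q k n' 0) (patU q (n ∘ hh k) (n' ∘ hh k) (Ico 0 (0 + (k + 1)))) := by
    rw [← xv_hh_zero]; exact a2
  have b1' : HAdj k (xv q k n (k + 1)) (patU q (n ∘ hh k) (n' ∘ hh k) (Ico k (k + (k + 1)))) := by
    rw [← xv_hh_last]; exact b1
  have b2' : HAdj k (xv q k n' (k + 1)) (patU q (n ∘ hh k) (n' ∘ hh k) (Ico k (k + (k + 1)))) := by
    rw [← xv_hh_last]; exact b2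
  have e1 := cn hf hA a1' a2' a3 a4
  have e2 := cn hf hA b1' b2' b3 b4
  simp only [xv_hh_zero, xv_hh_last] at t1
  have t3 := (t1.trans ((congrArg₂ (fun a b => a - b) e1 e2).trans t2.symm))
  unfold bs
  rw [sub_eq_sub_iff_add_eq_add] at t3 ⊢
  rw [t3, add_comm]

/-- the closed walk has total zero -/
lemma bs_id [Finite L] [Finite I] : bs q k (fun x y => f (φ x) (ψ y)) id = 0 := by
  obtain ⟨n, hn, col, hcol⟩ := exists_homog
    (fun D => (φ (pat q D), ψ (pat q D))) (k + 1)
  -- hybrids
  set hyb : ℕ → ℕ → ℕ := fun T j => if j < T then j else n j with hhyb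
  have hle : ∀ j, j ≤ n j := fun j => hn.le_apply
  have hmono : ∀ T, StrictMono (hyb T) := by
    intro T a b hab
    have h1 := hle b
    have h2 := hn hab
    rw [hhyb]
    simp only
    split_ifs <;> omega
  have hstep : ∀ T, bs q k (fun x y => f (φ x) (ψ y)) (hyb T) =
      bs q k (fun x y => f (φ x) (ψ y)) (hyb 0) := by
    intro T
    induction T with
    | zero => rfl
    | succ T ih =>
      rw [← ih]
      refine bs_move hf hA (hmono _) (hmono _) (i := T) ?_
      intro j hj
      rw [hhyb]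
      simp only
      by_cases h1 : j < T
      · rw [if_pos h1, if_pos (by omega)]
      · rw [if_neg h1, if_neg (by omega)]
  have h0 : hyb 0 = n := by
    funext j
    rw [hhyb]
    simp only
    rw [if_neg (Nat.not_lt_zero _)]
  have h1 : bs q k (fun x y => f (φ x) (ψ y)) id =
      bs q k (fun x y => f (φ x) (ψ y)) (hyb (2 * k + 1)) := by
    apply bs_congr
    intro j hj
    rw [hhyb]
    simp only
    rw [if_pos (by omega)]
    rfl
  rw [h1, hstep, h0]
  -- everything is constant
  have hx : ∀ s, φ (xv q k n s) = (col k).1 := by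
    intro s
    have h := hcol (Ico s (s + k)) (by rw [Nat.card_Ico]; omega)
    rw [Nat.card_Ico, Nat.add_sub_cancel_left] at h
    exact congrArg Prod.fst h
  have hy : ∀ s, ψ (yv q k n s) = (col (k + 1)).2 := by
    intro s
    have h := hcol (Ico s (s + (k + 1))) (by rw [Nat.card_Ico]; omega)
    rw [Nat.card_Ico, Nat.add_sub_cancel_left] at h
    exact congrArg Prod.snd h
  have hx' : ∀ s, φ (xv q k (n ∘ hh k) s) = (col k).1 := by
    intro s
    have hc : ((Ico s (s + k)).image (hh k)).card = k := by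
      rw [card_image_of_injective _ (hh_strictMono k).injective, Nat.card_Ico]
      omega
    have h := hcol ((Ico s (s + k)).image (hh k)) (by rw [hc]; omega)
    rw [hc, image_image] at h
    exact congrArg Prod.fst h
  have hy' : ∀ s, ψ (yv q k (n ∘ hh k) s) = (col (k + 1)).2 := by
    intro s
    have hc : ((Ico s (s + (k + 1))).image (hh k)).card = k + 1 := by
      rw [card_image_of_injective _ (hh_strictMono k).injective, Nat.card_Ico]
      omega
    have h := hcol ((Ico s (s + (k + 1))).image (hh k)) (by rw [hc])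
    rw [hc, image_image] at h
    exact congrArg Prod.snd h
  unfold bs
  simp only [hx, hy, hx', hy', sub_self, sum_const_zero]

end ladder

/-- the vertices of the closed walk -/
def wx (q k j : ℕ) : Vx q := if j < k then xv q k (hh k) j else xv q k id (2 * k + 1 - j)

def wy (q k j : ℕ) : Vx q := if j < k then yv q k (hh k) j else yv q k id (2 * k - j)

lemma wx_lt {q k j : ℕ} (h : j ≤ k) : wx q k j = xv q k (hh k) j := by
  unfold wx
  rcases h.lt_or_eq with h | h
  · rw [if_pos h]
  · subst h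
    rw [if_neg (lt_irrefl _), show 2 * j + 1 - j = j + 1 by omega]
    exact (xv_hh_last q j id).symm

lemma wy_lt {q k j : ℕ} (h : j < k) : wy q k j = yv q k (hh k) j := by
  unfold wy
  rw [if_pos h]

lemma wx_ge {q k t : ℕ} : wx q k (k + t) = xv q k id (k + 1 - t) := by
  unfold wx
  rw [if_neg (by omega)]
  congr 1
  omega

lemma wy_ge {q k t : ℕ} : wy q k (k + t) = yv q k id (k - t) := by
  unfold wy
  rw [if_neg (by omega)]
  congr 1
  omega

lemma walk_sum {H : Type} [AddCommGroup H] (q k : ℕ) (w : Vx q → Vx q → H) :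
    ∑ j ∈ range (2 * k + 1), (w (wx q k j) (wy q k j) - w (wx q k (j + 1)) (wy q k j)) =
      bs q k w id := by
  rw [show 2 * k + 1 = k + (k + 1) by ring, sum_range_add]
  unfold bs
  rw [sub_eq_add_neg]
  congr 1
  · apply sum_congr rfl
    intro s hs
    rw [mem_range] at hs
    rw [wx_lt hs.le, wx_lt hs, wy_lt hs]
    rfl
  · rw [← sum_neg_distrib, ← sum_range_reflect (fun s => -(w (xv q k id s) (yv q k id s) -
      w (xv q k id (s + 1)) (yv q k id s)))]
    apply sum_congr rfl
    intro t ht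
    rw [mem_range] at ht
    rw [wx_ge, wy_ge, show k + t + 1 = k + (t + 1) by ring, wx_ge,
      show k + 1 - (t + 1) = k - t by omega, show k + 1 - 1 - t = k - t by omega,
      show k + 1 - t = k - t + 1 by omega]
    abel

end Key

open Finset Key in
theorem key_lemma {L I G : Type} [Finite L] [Finite I] [AddCommGroup G]
    (A : L → I → Prop) (f : L → I → G)
    (hf : ∀ l i l' i', A l i → A l i' → A l' i → A l' i' → f l i - f l i' - f l' i + f l' i' = 0)
    {k q : ℕ} (hk : 0 < k) (hq : 1 < q) :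
    ∃ (F : Finset (Vx q × Vx q)) (M : ℕ) (X Y : ℕ → Vx q),
      (∀ e ∈ F, HAdj k e.1 e.2) ∧ X M = X 0 ∧
      (∀ j < M, (X j, Y j) ∈ F ∧ (X (j + 1), Y j) ∈ F) ∧
      ∑ j ∈ Finset.range M, (gain (X j) (Y j) - gain (X (j + 1)) (Y j)) = 1 ∧
      ∀ (φ : Vx q → L) (ψ : Vx q → I), (∀ e ∈ F, A (φ e.1) (ψ e.2)) →
        ∑ j ∈ Finset.range M, (f (φ (X j)) (ψ (Y j)) - f (φ (X (j + 1))) (ψ (Y j))) = 0 := by
  classical
  -- adjacency along the walk
  have hadj : ∀ j < 2 * k + 1, HAdj k (wx q k j) (wy q k j) ∧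
      HAdj k (wx q k (j + 1)) (wy q k j) := by
    intro j hj
    by_cases h : j < k
    · rw [wx_lt h.le, wx_lt h, wy_lt h]
      exact ⟨hadj_pat (hh_strictMono k) j (d := 0) (by omega),
        hadj_pat (hh_strictMono k) j (d := 1) (by omega)⟩
    · obtain ⟨t, rfl⟩ : ∃ t, j = k + t := ⟨j - k, by omega⟩
      rw [wx_ge, wy_ge, show k + t + 1 = k + (t + 1) by ring, wx_ge,
        show k + 1 - (t + 1) = k - t by omega, show k + 1 - t = k - t + 1 by omega]
      exact ⟨hadj_pat strictMono_id (k - t) (d := 1) (by omega),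
        hadj_pat strictMono_id (k - t) (d := 0) (by omega)⟩
  have hclosed : wx q k (2 * k + 1) = wx q k 0 := by
    rw [wx_lt (Nat.zero_le k), show 2 * k + 1 = k + (k + 1) by ring, wx_ge, Nat.sub_self]
    exact (xv_hh_zero q k id).symm
  have hgain : ∑ j ∈ Finset.range (2 * k + 1), (gain (wx q k j) (wy q k j) -
      gain (wx q k (j + 1)) (wy q k j)) = 1 := by
    rw [walk_sum q k (fun x y => gain x y)]
    unfold bs
    have g0 : ∀ (n : ℕ → ℕ), StrictMono n → ∀ s, gain (xv q k n s) (yv q k n s) = 0 := by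
      intro n hn s
      have := gain_pat (q := q) hk hn s (d := 0) (by omega)
      rwa [add_zero, Nat.cast_zero] at this
    have g1 : ∀ (n : ℕ → ℕ), StrictMono n → ∀ s, gain (xv q k n (s + 1)) (yv q k n s) = 1 := by
      intro n hn s
      have := gain_pat (q := q) hk hn s (d := 1) (by omega)
      rwa [Nat.cast_one] at this
    simp only [g0 _ (strictMono_id.comp (hh_strictMono k)), g1 _ (strictMono_id.comp
      (hh_strictMono k)), g0 _ strictMono_id, g1 _ strictMono_id, sum_const, card_range]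
    simp only [zero_sub, nsmul_eq_mul, mul_neg, mul_one, Nat.cast_add, Nat.cast_one]
    ring
  -- the edges of the walk
  set F0 : Finset (Vx q × Vx q) := (range (2 * k + 1)).image (fun j => (wx q k j, wy q k j)) ∪
    (range (2 * k + 1)).image (fun j => (wx q k (j + 1), wy q k j)) with hF0
  by_contra hcon
  have hbad : ∀ F' : Finset (Vx q × Vx q), ∃ (φ : Vx q → L) (ψ : Vx q → I),
      (∀ e ∈ F', HAdj k e.1 e.2 → A (φ e.1) (ψ e.2)) ∧
      ∑ j ∈ Finset.range (2 * k + 1), (f (φ (wx q k j)) (ψ (wy q k j)) -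
        f (φ (wx q k (j + 1))) (ψ (wy q k j))) ≠ 0 := by
    intro F'
    by_contra hno
    push Not at hno
    apply hcon
    refine ⟨F'.filter (fun e => HAdj k e.1 e.2) ∪ F0, 2 * k + 1, wx q k, wy q k, ?_, hclosed, ?_,
      hgain, ?_⟩
    · intro e he
      rw [mem_union, mem_filter, hF0, mem_union, mem_image, mem_image] at he
      rcases he with he | ⟨j, hj, rfl⟩ | ⟨j, hj, rfl⟩
      · exact he.2
      · exact (hadj j (mem_range.1 hj)).1
      · exact (hadj j (mem_range.1 hj)).2
    · intro j hj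
      rw [hF0]
      exact ⟨mem_union_right _ (mem_union_left _ (mem_image.2 ⟨j, mem_range.2 hj, rfl⟩)),
        mem_union_right _ (mem_union_right _ (mem_image.2 ⟨j, mem_range.2 hj, rfl⟩))⟩
    · intro φ ψ h
      apply hno φ ψ
      intro e he hadj'
      exact h e (mem_union_left _ (mem_filter.2 ⟨he, hadj'⟩))
  choose φs ψs h1 h2 using hbad
  set U : Ultrafilter (Finset (Vx q × Vx q)) := Ultrafilter.of Filter.atTop with hU
  have hUle : (U : Filter (Finset (Vx q × Vx q))) ≤ Filter.atTop := Ultrafilter.of_le _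
  choose φ hφ using fun x : Vx q => ulim U (fun F' => φs F' x)
  choose ψ hψ using fun x : Vx q => ulim U (fun F' => ψs F' x)
  have hA : ∀ x y : Vx q, HAdj k x y → A (φ x) (ψ y) := by
    intro x y hxy
    have h3 : ∀ᶠ F' in (U : Filter (Finset (Vx q × Vx q))), (x, y) ∈ F' := by
      have h4 : ∀ᶠ F' in (Filter.atTop : Filter (Finset (Vx q × Vx q))), {(x, y)} ≤ F' :=
        Filter.eventually_ge_atTop _
      filter_upwards [hUle h4] with F' h5
      exact h5 (mem_singleton_self _)
    obtain ⟨F', h4, h5, h6⟩ := (h3.and ((hφ x).and (hψ y))).exists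
    rw [← h5, ← h6]
    exact h1 F' (x, y) h4 hxy
  have hfin := bs_id hf hA
  rw [← walk_sum] at hfin
  have h3 : ∀ᶠ F' in (U : Filter (Finset (Vx q × Vx q))), ∀ j ∈ range (2 * k + 2),
      φs F' (wx q k j) = φ (wx q k j) ∧ ψs F' (wy q k j) = ψ (wy q k j) :=
    (Filter.eventually_all_finset _).2 fun j _ => (hφ _).and (hψ _)
  obtain ⟨F', h4⟩ := h3.exists
  apply h2 F'
  rw [← hfin]
  apply sum_congr rfl
  intro j hj
  rw [mem_range] at hj
  rw [(h4 j (mem_range.2 (by omega))).1, (h4 j (mem_range.2 (by omega))).2,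
    (h4 (j + 1) (mem_range.2 (by omega))).1]

end Pool.Agent.CZS
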