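import Pool.Agent.CZS.Valid

/-! A finite set of identities of the semigroup from which all the laws follow. -/

set_option autoImplicit false

namespace Pool.Agent.CZS

/-- The laws at our disposal. -/
structure Laws {G I L : Type} [AddCommGroup G] (A : L → I → Prop) (p : L → I → G) (m r : ℕ)
    (R : List ℕ → List ℕ → Prop) : Prop where
  ct : CTRel m R
  sound : ∀ {u v}, R u v → (u = [] ↔ v = []) ∧ (u ≠ [] → SId A p m u v)
  law3 : K1 A → ∀ (x a b y : ℕ) (s t z : List ℕ),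
    R (x :: (a :: (s ++ b :: a :: (t ++ b :: y :: (z ++ [x])))))
      (x :: ((a :: (s ++ b :: a :: (t ++ b :: y :: (z ++ [x])))) ++ pw m (y :: (z ++ [x]))))
  law4 : K1 A → ∀ (x a b y : ℕ) (s t : List ℕ),
    R (b :: y :: (s ++ b :: a :: (t ++ [x, a])))
      (b :: y :: (s ++ b :: a :: (t ++ x :: (pw m (y :: (s ++ b :: a :: (t ++ [x]))) ++ [a]))))
  law5 : (∀ l i, A l i) → ∀ w : List ℕ, w ≠ [] → R w (pw (m + 1) w)
  law6 : K2 A p r → ∀ (x y x' y' : ℕ) (s t : List ℕ),
    R (x :: (pw (m + 1) (y :: (s ++ [x'])) ++ pw (m + 1) (y' :: (t ++ [x]))))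
      (x :: (pw (m + 1 + (m - 1) * r) (y :: (s ++ [x'])) ++
        (pw (m + 1 + (m - 1) * r) (y' :: (t ++ [x])) ++
          pw r (y :: (s ++ x' :: y' :: (t ++ [x]))))))
  law7 : K1 A → K2 A p 1 → ∀ (c a c' d : ℕ) (s t : List ℕ),
    R (c :: a :: (s ++ c' :: a :: (t ++ [c, d])))
      (c :: a :: (s ++ c' :: a :: (t ++ c :: (pw m (a :: (s ++ [c'])) ++ [d]))))
  law8 : K1 A → K2 A p 1 → ∀ (e d b d' : ℕ) (s t : List ℕ),
    R (e :: d :: (s ++ b :: d' :: (t ++ [b, d])))
      (e :: (pw m (d' :: (t ++ [b])) ++ d :: (s ++ b :: d' :: (t ++ [b, d]))))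
  law9 : (∀ l i i', A l i → A l i' → i = i') → ∀ (d b d' : ℕ) (s t : List ℕ),
    R (d :: (s ++ b :: d' :: (t ++ [b, d])))
      (pw m (d' :: (t ++ [b])) ++ d :: (s ++ b :: d' :: (t ++ [b, d])))
  law10 : (∀ l l' i, A l i → A l' i → l = l') → ∀ (c a c' : ℕ) (s t : List ℕ),
    R (c :: a :: (s ++ c' :: a :: (t ++ [c])))
      (c :: a :: (s ++ c' :: a :: (t ++ c :: pw m (a :: (s ++ [c'])))))

/-- Substitutions. -/
def sg (x0 x1 x2 x3 : List ℕ) (s4 s5 s6 : List ℕ) : ℕ → List ℕ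
  | 0 => x0
  | 1 => x1
  | 2 => x2
  | 3 => x3
  | 4 => s4
  | 5 => s5
  | _ => s6

/-- The templates. -/
def templates (m r : ℕ) : List (List ℕ × List ℕ) :=
  [([0, 4, 0], 0 :: pw (m + 1) [4, 0]),
   ([0, 4, 0, 5, 0], [0, 5, 0, 4, 0]),
   ([0, 1, 4, 2, 1, 5, 2, 3, 6, 0], 0 :: ([1, 4, 2, 1, 5, 2, 3, 6, 0] ++ pw m [3, 6, 0])),
   ([2, 3, 4, 2, 1, 5, 0, 1], [2, 3, 4, 2, 1, 5, 0] ++ (pw m [3, 4, 2, 1, 5, 0] ++ [1])),
   ([0], pw (m + 1) [0]),
   (0 :: (pw (m + 1) [3, 4, 1] ++ pw (m + 1) [2, 5, 0]),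
     0 :: (pw (m + 1 + (m - 1) * r) [3, 4, 1] ++ (pw (m + 1 + (m - 1) * r) [2, 5, 0] ++
       pw r [3, 4, 1, 2, 5, 0]))),
   ([0, 1, 4, 2, 1, 5, 0, 3], [0, 1, 4, 2, 1, 5, 0] ++ (pw m [1, 4, 2] ++ [3])),
   ([0, 1, 4, 2, 3, 5, 2, 1], 0 :: (pw m [3, 5, 2] ++ [1, 4, 2, 3, 5, 2, 1])),
   ([1, 4, 2, 3, 5, 2, 1], pw m [3, 5, 2] ++ [1, 4, 2, 3, 5, 2, 1]),
   ([0, 1, 4, 2, 1, 5, 0], [0, 1, 4, 2, 1, 5, 0] ++ pw m [1, 4, 2])]

attribute [local irreducible] pw

section

variable {G I L : Type} [AddCommGroup G] {A : L → I → Prop} {p : L → I → G} {m : ℕ}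
  (hm0 : 0 < m) (hm : ∀ g : G, m • g = 0) {B : Finset ((ℕ × List ℕ) × (ℕ × List ℕ))}

include hm in
theorem rlaw1 
    (hB : ∀ b ∈ variants ([0, 4, 0]) (0 :: pw (m + 1) [4, 0]), (∀ f : ℕ → Option (I × G × L),
      evo (rmul A p) f b.1 = evo (rmul A p) f b.2) → b ∈ B) (x : ℕ) (w : List ℕ) :
    Rel B (x :: (w ++ [x])) (x :: pw (m + 1) (w ++ [x])) := by
  have hv : Valid A p m {0} ([0, 4, 0]) (0 :: pw (m + 1) [4, 0]) := by
    intro σ hσ
    have s0 : σ 0 = [0] := hσ 0 (by simp)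
    have h1 := val1 (A := A) (p := p) hm 0 (σ 4)
    simpa only [flatMap_pw, s0, List.flatMap_cons, List.flatMap_nil, List.flatMap_append,
      List.append_assoc, List.cons_append, List.nil_append, List.append_nil] using h1
  have h := rel_of_valid hm hB hv (x0 := 0) (by simp) (by simp) (by simp)
    (sg [x] [] [] [] w [] []) (by intro y hy; rw [Finset.mem_singleton] at hy; subst hy; exact List.cons_ne_nil _ _)
  simpa only [flatMap_pw, sg, List.flatMap_cons, List.flatMap_nil, List.flatMap_append,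
    List.append_assoc, List.cons_append, List.nil_append, List.append_nil] using h

include hm in
theorem rlaw2 
    (hB : ∀ b ∈ variants ([0, 4, 0, 5, 0]) ([0, 5, 0, 4, 0]), (∀ f : ℕ → Option (I × G × L),
      evo (rmul A p) f b.1 = evo (rmul A p) f b.2) → b ∈ B) (x : ℕ) (a b : List ℕ) :
    Rel B (x :: (a ++ x :: (b ++ [x]))) (x :: (b ++ x :: (a ++ [x]))) := by
  have hv : Valid A p m {0} ([0, 4, 0, 5, 0]) ([0, 5, 0, 4, 0]) := by
    intro σ hσ
    have s0 : σ 0 = [0] := hσ 0 (by simp)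
    have h1 := val2 (A := A) (p := p) (m := m) 0 (σ 4) (σ 5)
    simpa only [flatMap_pw, s0, List.flatMap_cons, List.flatMap_nil, List.flatMap_append,
      List.append_assoc, List.cons_append, List.nil_append, List.append_nil] using h1
  have h := rel_of_valid hm hB hv (x0 := 0) (by simp) (by simp) (by simp)
    (sg [x] [] [] [] a b []) (by intro y hy; rw [Finset.mem_singleton] at hy; subst hy; exact List.cons_ne_nil _ _)
  simpa only [flatMap_pw, sg, List.flatMap_cons, List.flatMap_nil, List.flatMap_append,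
    List.append_assoc, List.cons_append, List.nil_append, List.append_nil] using h

include hm in
theorem rlaw3 (hK : K1 A)
    (hB : ∀ b ∈ variants ([0, 1, 4, 2, 1, 5, 2, 3, 6, 0]) (0 :: ([1, 4, 2, 1, 5, 2, 3, 6, 0] ++ pw m [3, 6, 0])), (∀ f : ℕ → Option (I × G × L),
      evo (rmul A p) f b.1 = evo (rmul A p) f b.2) → b ∈ B) (x a b y : ℕ) (s t z : List ℕ) :
    Rel B (x :: (a :: (s ++ b :: a :: (t ++ b :: y :: (z ++ [x])))))
      (x :: ((a :: (s ++ b :: a :: (t ++ b :: y :: (z ++ [x])))) ++ pw m (y :: (z ++ [x])))) := by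
  have hv : Valid A p m {0, 1, 2, 3} ([0, 1, 4, 2, 1, 5, 2, 3, 6, 0]) (0 :: ([1, 4, 2, 1, 5, 2, 3, 6, 0] ++ pw m [3, 6, 0])) := by
    intro σ hσ
    have s0 : σ 0 = [0] := hσ 0 (by simp)
    have s1 : σ 1 = [1] := hσ 1 (by simp)
    have s2 : σ 2 = [2] := hσ 2 (by simp)
    have s3 : σ 3 = [3] := hσ 3 (by simp)
    have h1 := val3 (A := A) (p := p) hm hK 0 1 2 3 (σ 4) (σ 5) (σ 6)
    simpa only [flatMap_pw, s0, s1, s2, s3, List.flatMap_cons, List.flatMap_nil, List.flatMap_append,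
      List.append_assoc, List.cons_append, List.nil_append, List.append_nil] using h1
  have h := rel_of_valid hm hB hv (x0 := 0) (by simp) (by simp) (by simp)
    (sg [x] [a] [b] [y] s t z) (by
      intro y hy
      simp only [Finset.mem_insert, Finset.mem_singleton] at hy
      rcases hy with rfl | rfl | rfl | rfl <;> exact List.cons_ne_nil _ _)
  simpa only [flatMap_pw, sg, List.flatMap_cons, List.flatMap_nil, List.flatMap_append,
    List.append_assoc, List.cons_append, List.nil_append, List.append_nil] using h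

include hm in
theorem rlaw4 (hK : K1 A)
    (hB : ∀ b ∈ variants ([2, 3, 4, 2, 1, 5, 0, 1]) ([2, 3, 4, 2, 1, 5, 0] ++ (pw m [3, 4, 2, 1, 5, 0] ++ [1])), (∀ f : ℕ → Option (I × G × L),
      evo (rmul A p) f b.1 = evo (rmul A p) f b.2) → b ∈ B) (x a b y : ℕ) (s t : List ℕ) :
    Rel B (b :: y :: (s ++ b :: a :: (t ++ [x, a])))
      (b :: y :: (s ++ b :: a :: (t ++ x :: (pw m (y :: (s ++ b :: a :: (t ++ [x]))) ++ [a])))) := by
  have hv : Valid A p m {0, 1, 2, 3} ([2, 3, 4, 2, 1, 5, 0, 1]) ([2, 3, 4, 2, 1, 5, 0] ++ (pw m [3, 4, 2, 1, 5, 0] ++ [1])) := by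
    intro σ hσ
    have s0 : σ 0 = [0] := hσ 0 (by simp)
    have s1 : σ 1 = [1] := hσ 1 (by simp)
    have s2 : σ 2 = [2] := hσ 2 (by simp)
    have s3 : σ 3 = [3] := hσ 3 (by simp)
    have h1 := val4 (A := A) (p := p) hm hK 0 1 2 3 (σ 4) (σ 5)
    simpa only [flatMap_pw, s0, s1, s2, s3, List.flatMap_cons, List.flatMap_nil, List.flatMap_append,
      List.append_assoc, List.cons_append, List.nil_append, List.append_nil] using h1
  have h := rel_of_valid hm hB hv (x0 := 0) (by simp) (by simp) (by simp)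
    (sg [x] [a] [b] [y] s t []) (by
      intro y hy
      simp only [Finset.mem_insert, Finset.mem_singleton] at hy
      rcases hy with rfl | rfl | rfl | rfl <;> exact List.cons_ne_nil _ _)
  simpa only [flatMap_pw, sg, List.flatMap_cons, List.flatMap_nil, List.flatMap_append,
    List.append_assoc, List.cons_append, List.nil_append, List.append_nil] using h

include hm in
theorem rlaw5 (hK : ∀ l i, A l i)
    (hB : ∀ b ∈ variants ([0]) (pw (m + 1) [0]), (∀ f : ℕ → Option (I × G × L),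
      evo (rmul A p) f b.1 = evo (rmul A p) f b.2) → b ∈ B) (w : List ℕ) (hw : w ≠ []) :
    Rel B w (pw (m + 1) w) := by
  have hv : Valid A p m {0} ([0]) (pw (m + 1) [0]) := by
    intro σ hσ
    have s0 : σ 0 = [0] := hσ 0 (by simp)
    have h1 := val5 (A := A) (p := p) hm hK 0
    simpa only [flatMap_pw, s0, List.flatMap_cons, List.flatMap_nil, List.flatMap_append,
      List.append_assoc, List.cons_append, List.nil_append, List.append_nil] using h1
  have h := rel_of_valid hm hB hv (x0 := 0) (by simp) (by simp) (mem_pw.2 ⟨by omega, by simp⟩)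
    (sg w [] [] [] [] [] []) (by intro y hy; rw [Finset.mem_singleton] at hy; subst hy; exact hw)
  simpa only [flatMap_pw, sg, List.flatMap_cons, List.flatMap_nil, List.flatMap_append,
    List.append_assoc, List.cons_append, List.nil_append, List.append_nil] using h

include hm0 hm in
theorem rlaw6 {r : ℕ} (hr : K2 A p r)
    (hB : ∀ b ∈ variants (0 :: (pw (m + 1) [3, 4, 1] ++ pw (m + 1) [2, 5, 0])) (0 :: (pw (m + 1 + (m - 1) * r) [3, 4, 1] ++ (pw (m + 1 + (m - 1) * r) [2, 5, 0] ++ pw r [3, 4, 1, 2, 5, 0]))), (∀ f : ℕ → Option (I × G × L),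
      evo (rmul A p) f b.1 = evo (rmul A p) f b.2) → b ∈ B) (x y x' y' : ℕ) (s t : List ℕ) :
    Rel B (x :: (pw (m + 1) (y :: (s ++ [x'])) ++ pw (m + 1) (y' :: (t ++ [x]))))
      (x :: (pw (m + 1 + (m - 1) * r) (y :: (s ++ [x'])) ++
        (pw (m + 1 + (m - 1) * r) (y' :: (t ++ [x])) ++
          pw r (y :: (s ++ x' :: y' :: (t ++ [x])))))) := by
  have hv : Valid A p m {0, 1, 2, 3} (0 :: (pw (m + 1) [3, 4, 1] ++ pw (m + 1) [2, 5, 0])) (0 :: (pw (m + 1 + (m - 1) * r) [3, 4, 1] ++ (pw (m + 1 + (m - 1) * r) [2, 5, 0] ++ pw r [3, 4, 1, 2, 5, 0]))) := by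
    intro σ hσ
    have s0 : σ 0 = [0] := hσ 0 (by simp)
    have s1 : σ 1 = [1] := hσ 1 (by simp)
    have s2 : σ 2 = [2] := hσ 2 (by simp)
    have s3 : σ 3 = [3] := hσ 3 (by simp)
    have h1 := val6 (A := A) (p := p) hm hr hm0 0 3 1 2 (σ 4) (σ 5)
    simpa only [flatMap_pw, s0, s1, s2, s3, List.flatMap_cons, List.flatMap_nil, List.flatMap_append,
      List.append_assoc, List.cons_append, List.nil_append, List.append_nil] using h1
  have h := rel_of_valid hm hB hv (x0 := 0) (by simp) (by simp) (by simp)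
    (sg [x] [x'] [y'] [y] s t []) (by
      intro y hy
      simp only [Finset.mem_insert, Finset.mem_singleton] at hy
      rcases hy with rfl | rfl | rfl | rfl <;> exact List.cons_ne_nil _ _)
  simpa only [flatMap_pw, sg, List.flatMap_cons, List.flatMap_nil, List.flatMap_append,
    List.append_assoc, List.cons_append, List.nil_append, List.append_nil] using h

include hm0 hm in
theorem rlaw7 (hK : K1 A) (hr : K2 A p 1)
    (hB : ∀ b ∈ variants ([0, 1, 4, 2, 1, 5, 0, 3]) ([0, 1, 4, 2, 1, 5, 0] ++ (pw m [1, 4, 2] ++ [3])), (∀ f : ℕ → Option (I × G × L),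
      evo (rmul A p) f b.1 = evo (rmul A p) f b.2) → b ∈ B) (c a c' d : ℕ) (s t : List ℕ) :
    Rel B (c :: a :: (s ++ c' :: a :: (t ++ [c, d])))
      (c :: a :: (s ++ c' :: a :: (t ++ c :: (pw m (a :: (s ++ [c'])) ++ [d])))) := by
  have hv : Valid A p m {0, 1, 2, 3} ([0, 1, 4, 2, 1, 5, 0, 3]) ([0, 1, 4, 2, 1, 5, 0] ++ (pw m [1, 4, 2] ++ [3])) := by
    intro σ hσ
    have s0 : σ 0 = [0] := hσ 0 (by simp)
    have s1 : σ 1 = [1] := hσ 1 (by simp)
    have s2 : σ 2 = [2] := hσ 2 (by simp)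
    have s3 : σ 3 = [3] := hσ 3 (by simp)
    have h1 := val7 (A := A) (p := p) hm hK hr hm0 0 1 2 3 (σ 4) (σ 5)
    simpa only [flatMap_pw, s0, s1, s2, s3, List.flatMap_cons, List.flatMap_nil, List.flatMap_append,
      List.append_assoc, List.cons_append, List.nil_append, List.append_nil] using h1
  have h := rel_of_valid hm hB hv (x0 := 0) (by simp) (by simp) (by simp)
    (sg [c] [a] [c'] [d] s t []) (by
      intro y hy
      simp only [Finset.mem_insert, Finset.mem_singleton] at hy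
      rcases hy with rfl | rfl | rfl | rfl <;> exact List.cons_ne_nil _ _)
  simpa only [flatMap_pw, sg, List.flatMap_cons, List.flatMap_nil, List.flatMap_append,
    List.append_assoc, List.cons_append, List.nil_append, List.append_nil] using h

include hm0 hm in
theorem rlaw8 (hK : K1 A) (hr : K2 A p 1)
    (hB : ∀ b ∈ variants ([0, 1, 4, 2, 3, 5, 2, 1]) (0 :: (pw m [3, 5, 2] ++ [1, 4, 2, 3, 5, 2, 1])), (∀ f : ℕ → Option (I × G × L),
      evo (rmul A p) f b.1 = evo (rmul A p) f b.2) → b ∈ B) (e d b d' : ℕ) (s t : List ℕ) :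
    Rel B (e :: d :: (s ++ b :: d' :: (t ++ [b, d])))
      (e :: (pw m (d' :: (t ++ [b])) ++ d :: (s ++ b :: d' :: (t ++ [b, d])))) := by
  have hv : Valid A p m {0, 1, 2, 3} ([0, 1, 4, 2, 3, 5, 2, 1]) (0 :: (pw m [3, 5, 2] ++ [1, 4, 2, 3, 5, 2, 1])) := by
    intro σ hσ
    have s0 : σ 0 = [0] := hσ 0 (by simp)
    have s1 : σ 1 = [1] := hσ 1 (by simp)
    have s2 : σ 2 = [2] := hσ 2 (by simp)
    have s3 : σ 3 = [3] := hσ 3 (by simp)
    have h1 := val8 (A := A) (p := p) hm hK hr hm0 0 1 2 3 (σ 4) (σ 5)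
    simpa only [flatMap_pw, s0, s1, s2, s3, List.flatMap_cons, List.flatMap_nil, List.flatMap_append,
      List.append_assoc, List.cons_append, List.nil_append, List.append_nil] using h1
  have h := rel_of_valid hm hB hv (x0 := 0) (by simp) (by simp) (by simp)
    (sg [e] [d] [b] [d'] s t []) (by
      intro y hy
      simp only [Finset.mem_insert, Finset.mem_singleton] at hy
      rcases hy with rfl | rfl | rfl | rfl <;> exact List.cons_ne_nil _ _)
  simpa only [flatMap_pw, sg, List.flatMap_cons, List.flatMap_nil, List.flatMap_append,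
    List.append_assoc, List.cons_append, List.nil_append, List.append_nil] using h

include hm0 hm in
theorem rlaw9 (hH : ∀ l i i', A l i → A l i' → i = i')
    (hB : ∀ b ∈ variants ([1, 4, 2, 3, 5, 2, 1]) (pw m [3, 5, 2] ++ [1, 4, 2, 3, 5, 2, 1]), (∀ f : ℕ → Option (I × G × L),
      evo (rmul A p) f b.1 = evo (rmul A p) f b.2) → b ∈ B) (d b d' : ℕ) (s t : List ℕ) :
    Rel B (d :: (s ++ b :: d' :: (t ++ [b, d])))
      (pw m (d' :: (t ++ [b])) ++ d :: (s ++ b :: d' :: (t ++ [b, d]))) := by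
  have hv : Valid A p m {1, 2, 3} ([1, 4, 2, 3, 5, 2, 1]) (pw m [3, 5, 2] ++ [1, 4, 2, 3, 5, 2, 1]) := by
    intro σ hσ
    have s1 : σ 1 = [1] := hσ 1 (by simp)
    have s2 : σ 2 = [2] := hσ 2 (by simp)
    have s3 : σ 3 = [3] := hσ 3 (by simp)
    have h1 := val9 (A := A) (p := p) hm hH hm0 1 2 3 (σ 4) (σ 5)
    simpa only [flatMap_pw, s1, s2, s3, List.flatMap_cons, List.flatMap_nil, List.flatMap_append,
      List.append_assoc, List.cons_append, List.nil_append, List.append_nil] using h1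
  have h := rel_of_valid hm hB hv (x0 := 1) (by simp) (by simp) (by simp)
    (sg [] [d] [b] [d'] s t []) (by
      intro y hy
      simp only [Finset.mem_insert, Finset.mem_singleton] at hy
      rcases hy with rfl | rfl | rfl <;> exact List.cons_ne_nil _ _)
  simpa only [flatMap_pw, sg, List.flatMap_cons, List.flatMap_nil, List.flatMap_append,
    List.append_assoc, List.cons_append, List.nil_append, List.append_nil] using h

include hm0 hm in
theorem rlaw10 (hT : ∀ l l' i, A l i → A l' i → l = l')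
    (hB : ∀ b ∈ variants ([0, 1, 4, 2, 1, 5, 0]) ([0, 1, 4, 2, 1, 5, 0] ++ pw m [1, 4, 2]), (∀ f : ℕ → Option (I × G × L),
      evo (rmul A p) f b.1 = evo (rmul A p) f b.2) → b ∈ B) (c a c' : ℕ) (s t : List ℕ) :
    Rel B (c :: a :: (s ++ c' :: a :: (t ++ [c])))
      (c :: a :: (s ++ c' :: a :: (t ++ c :: pw m (a :: (s ++ [c']))))) := by
  have hv : Valid A p m {0, 1, 2} ([0, 1, 4, 2, 1, 5, 0]) ([0, 1, 4, 2, 1, 5, 0] ++ pw m [1, 4, 2]) := by
    intro σ hσ
    have s0 : σ 0 = [0] := hσ 0 (by simp)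
    have s1 : σ 1 = [1] := hσ 1 (by simp)
    have s2 : σ 2 = [2] := hσ 2 (by simp)
    have h1 := val10 (A := A) (p := p) hm hT hm0 0 1 2 (σ 4) (σ 5)
    simpa only [flatMap_pw, s0, s1, s2, List.flatMap_cons, List.flatMap_nil, List.flatMap_append,
      List.append_assoc, List.cons_append, List.nil_append, List.append_nil] using h1
  have h := rel_of_valid hm hB hv (x0 := 0) (by simp) (by simp) (by simp)
    (sg [c] [a] [c'] [] s t []) (by
      intro y hy
      simp only [Finset.mem_insert, Finset.mem_singleton] at hy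
      rcases hy with rfl | rfl | rfl <;> exact List.cons_ne_nil _ _)
  simpa only [flatMap_pw, sg, List.flatMap_cons, List.flatMap_nil, List.flatMap_append,
    List.append_assoc, List.cons_append, List.nil_append, List.append_nil] using h

end

open Classical in
theorem exists_B {G I L : Type} [AddCommGroup G] (A : L → I → Prop) (p : L → I → G)
    (Ts : List (List ℕ × List ℕ)) : ∃ B : Finset ((ℕ × List ℕ) × (ℕ × List ℕ)),
      (∀ b ∈ B, ∀ f : ℕ → Option (I × G × L), evo (rmul A p) f b.1 = evo (rmul A p) f b.2) ∧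
      (∀ P Q : List ℕ, (P, Q) ∈ Ts → ∀ b ∈ variants P Q,
      (∀ f : ℕ → Option (I × G × L), evo (rmul A p) f b.1 = evo (rmul A p) f b.2) → b ∈ B) := by
  refine ⟨(Ts.toFinset.biUnion (fun t => variants t.1 t.2)).filter
    (fun b => ∀ f : ℕ → Option (I × G × L), evo (rmul A p) f b.1 = evo (rmul A p) f b.2),
    fun b hb => (Finset.mem_filter.1 hb).2, ?_⟩
  intro P Q hPQ b hb hf
  refine Finset.mem_filter.2 ⟨Finset.mem_biUnion.2 ⟨(P, Q), ?_, hb⟩, hf⟩
  exact List.mem_toFinset.2 hPQ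

theorem exists_laws {G I L : Type} [AddCommGroup G] (A : L → I → Prop) (p : L → I → G)
    {m : ℕ} (r : ℕ) (hm0 : 0 < m) (hm : ∀ g : G, m • g = 0)
    (hmz : ∀ n : ℤ, (∀ g : G, n • g = 0) → (m : ℤ) ∣ n) {l0 : L} {i0 : I} (h0 : A l0 i0) :
    ∃ B : Finset ((ℕ × List ℕ) × (ℕ × List ℕ)),
      (∀ b ∈ B, ∀ f : ℕ → Option (I × G × L), evo (rmul A p) f b.1 = evo (rmul A p) f b.2) ∧
      Laws A p m r (Rel B) := by
  obtain ⟨B, hB, hmem⟩ := exists_B A p (templates m r)
  refine ⟨B, hB, ?_⟩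
  have m1 := hmem _ _ List.mem_cons_self
  have m2 := hmem _ _ (List.mem_cons_of_mem _ List.mem_cons_self)
  have m3 := hmem _ _ (List.mem_cons_of_mem _ (List.mem_cons_of_mem _ List.mem_cons_self))
  have m4 := hmem _ _ (List.mem_cons_of_mem _ (List.mem_cons_of_mem _ (List.mem_cons_of_mem _ List.mem_cons_self)))
  have m5 := hmem _ _ (List.mem_cons_of_mem _ (List.mem_cons_of_mem _ (List.mem_cons_of_mem _ (List.mem_cons_of_mem _ List.mem_cons_self))))
  have m6 := hmem _ _ (List.mem_cons_of_mem _ (List.mem_cons_of_mem _ (List.mem_cons_of_mem _ (List.mem_cons_of_mem _ (List.mem_cons_of_mem _ List.mem_cons_self)))))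
  have m7 := hmem _ _ (List.mem_cons_of_mem _ (List.mem_cons_of_mem _ (List.mem_cons_of_mem _ (List.mem_cons_of_mem _ (List.mem_cons_of_mem _ (List.mem_cons_of_mem _ List.mem_cons_self))))))
  have m8 := hmem _ _ (List.mem_cons_of_mem _ (List.mem_cons_of_mem _ (List.mem_cons_of_mem _ (List.mem_cons_of_mem _ (List.mem_cons_of_mem _ (List.mem_cons_of_mem _ (List.mem_cons_of_mem _ List.mem_cons_self)))))))
  have m9 := hmem _ _ (List.mem_cons_of_mem _ (List.mem_cons_of_mem _ (List.mem_cons_of_mem _ (List.mem_cons_of_mem _ (List.mem_cons_of_mem _ (List.mem_cons_of_mem _ (List.mem_cons_of_mem _ (List.mem_cons_of_mem _ List.mem_cons_self))))))))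
  have m10 := hmem _ _ (List.mem_cons_of_mem _ (List.mem_cons_of_mem _ (List.mem_cons_of_mem _ (List.mem_cons_of_mem _ (List.mem_cons_of_mem _ (List.mem_cons_of_mem _ (List.mem_cons_of_mem _ (List.mem_cons_of_mem _ (List.mem_cons_of_mem _ List.mem_cons_self)))))))))
  exact
    { ct := ⟨fun u T _ hT g => rfl, fun h T _ hT g => (h T hT g).symm,
        fun h1 h2 T _ hT g => (h1 T hT g).trans (h2 T hT g), fun a b h => h.app a b,
        rlaw1 hm m1, rlaw2 hm m2⟩
      sound := fun h => sId_of_rel hmz h0 hB h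
      law3 := fun hK => rlaw3 hm hK m3
      law4 := fun hK => rlaw4 hm hK m4
      law5 := fun hK => rlaw5 hm hK m5
      law6 := fun hr => rlaw6 hm0 hm hr m6
      law7 := fun hK hr => rlaw7 hm0 hm hK hr m7
      law8 := fun hK hr => rlaw8 hm0 hm hK hr m8
      law9 := fun hH => rlaw9 hm0 hm hH m9
      law10 := fun hT => rlaw10 hm0 hm hT m10 }

end Pool.Agent.CZS
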