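import Pool.Agent.CZS.Nec

/-! Powers of words, insertion of closed walks. -/

set_option autoImplicit false

namespace Pool.Agent.CZS

attribute [simp] pw_zero

theorem pw_succ' (n : ℕ) (w : List ℕ) : pw (n + 1) w = pw n w ++ w := by
  rw [pw_add, pw_one]

theorem count_pw (n : ℕ) (w : List ℕ) (x : ℕ) : (pw n w).count x = n * w.count x := by
  induction n with
  | zero => simp
  | succ n ih => rw [pw_succ, List.count_append, ih]; ring

theorem mem_pw {n : ℕ} {w : List ℕ} {x : ℕ} : x ∈ pw n w ↔ n ≠ 0 ∧ x ∈ w := by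
  induction n with
  | zero => simp
  | succ n ih =>
    rw [pw_succ, List.mem_append, ih]
    constructor
    · rintro (h | h)
      · exact ⟨by omega, h⟩
      · exact ⟨by omega, h.2⟩
    · intro h; exact Or.inl h.2

theorem flatMap_pw (n : ℕ) (w : List ℕ) (σ : ℕ → List ℕ) :
    (pw n w).flatMap σ = pw n (w.flatMap σ) := by
  induction n with
  | zero => rfl
  | succ n ih => rw [pw_succ, pw_succ, List.flatMap_append, ih]

/-- Rotation. -/
theorem cons_pw (n x : ℕ) (w : List ℕ) : x :: pw n (w ++ [x]) = pw n (x :: w) ++ [x] := by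
  induction n with
  | zero => rfl
  | succ n ih =>
    rw [pw_succ, pw_succ, List.append_assoc, List.cons_append, List.append_assoc, ← ih]
    simp

theorem ed_closed (x : ℕ) (w b : List ℕ) :
    ed (x :: ((w ++ [x]) ++ b)) = ed (x :: (w ++ [x])) + ed (x :: b) := by
  have := ed_append_cons (x :: w) x b
  simpa using this

theorem ed_pw_append (n x : ℕ) (w b : List ℕ) :
    ed (x :: (pw n (w ++ [x]) ++ b)) = n • ed (x :: (w ++ [x])) + ed (x :: b) := by
  induction n with
  | zero => simp
  | succ n ih =>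
    rw [pw_succ, List.append_assoc, ed_closed, ih, succ_nsmul]
    abel

/-- Insertion of the `n`-th power of a closed walk at an occurrence of `x`. -/
theorem ed_ins (a : List ℕ) (n x : ℕ) (w b : List ℕ) :
    ed (a ++ x :: (pw n (w ++ [x]) ++ b)) = ed (a ++ x :: b) + n • ed (x :: (w ++ [x])) := by
  rw [ed_append_cons, ed_pw_append, ed_append_cons a x b]
  abel

theorem last_ins (a : List ℕ) (n x : ℕ) (w b : List ℕ) :
    (a ++ x :: (pw n (w ++ [x]) ++ b)).getLast? = (a ++ x :: b).getLast? := by
  cases b with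
  | nil =>
    have h : x :: (pw n (w ++ [x]) ++ []) = pw n (x :: w) ++ [x] := by
      rw [List.append_nil, cons_pw]
    rw [h, ← List.append_assoc]
    simp
  | cons y b =>
    rw [← List.cons_append, ← List.append_assoc]
    rw [List.getLast?_append_of_ne_nil _ (by simp)]
    rw [show a ++ x :: y :: b = (a ++ [x]) ++ (y :: b) by simp]
    rw [List.getLast?_append_of_ne_nil _ (by simp)]

theorem head_ins (a : List ℕ) (x : ℕ) (b c : List ℕ) :
    (a ++ x :: b).head? = (a ++ x :: c).head? := by
  cases a <;> simp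

/-- The same insertion written in the rotated form, before the letter. -/
theorem ed_ins' (a : List ℕ) (n x : ℕ) (w b : List ℕ) :
    ed (a ++ (pw n (x :: w) ++ x :: b)) = ed (a ++ x :: b) + n • ed (x :: (w ++ [x])) := by
  have h : a ++ (pw n (x :: w) ++ x :: b) = a ++ x :: (pw n (w ++ [x]) ++ b) := by
    rw [← List.cons_append, cons_pw]; simp
  rw [h, ed_ins]

theorem pw_ne_nil {n : ℕ} (hn : 0 < n) {w : List ℕ} (hw : w ≠ []) : pw n w ≠ [] := by
  obtain ⟨k, rfl⟩ : ∃ k, n = k + 1 := ⟨n - 1, by omega⟩
  rw [pw_succ]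
  simp [hw]

end Pool.Agent.CZS
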