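import Pool.Agent.CZS.Laws
import Pool.Agent.CZS.Graph

/-! The differences of the numbers of occurrences of adjacent pairs are generated by 4-cycles. -/

set_option autoImplicit false
open scoped BigOperators

namespace Pool.Agent.CZS

namespace Part2

/-- Same first letter, last letter and adjacent pairs as `u`. -/
def UU (u w : List ℕ) : Prop :=
  w.head? = u.head? ∧ w.getLast? = u.getLast? ∧ ∀ e, e ∈ ed w ↔ e ∈ ed u

/-- The numbers of occurrences of the adjacent pairs, modulo `m`. -/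
def cz (m : ℕ) (F : Multiset (ℕ × ℕ)) : ℕ × ℕ → ZMod m := fun e => (F.count e : ZMod m)

theorem cz_add (m : ℕ) (F F' : Multiset (ℕ × ℕ)) : cz m (F + F') = cz m F + cz m F' := by
  funext e
  simp [cz]

theorem cz_nsmul (m k : ℕ) (F : Multiset (ℕ × ℕ)) : cz m (k • F) = k • cz m F := by
  funext e
  simp [cz]

theorem cz_cons (m : ℕ) (e : ℕ × ℕ) (F : Multiset (ℕ × ℕ)) :
    cz m (e ::ₘ F) = cz m {e} + cz m F := by
  rw [← Multiset.singleton_add, cz_add]

theorem m_nsmul {m : ℕ} (δ : ℕ × ℕ → ZMod m) : m • δ = 0 := by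
  funext e
  simp

theorem neg_eq {m : ℕ} (hm0 : 0 < m) (δ : ℕ × ℕ → ZMod m) : -δ = (m - 1) • δ := by
  refine neg_eq_of_add_eq_zero_right ?_
  have h : δ + (m - 1) • δ = (m - 1 + 1) • δ := by rw [succ_nsmul, add_comm]
  rw [h, Nat.sub_add_cancel hm0, m_nsmul]

/-- Changes that can be achieved. -/
def AM {m : ℕ} {R : List ℕ → List ℕ → Prop} (hR : CTRel m R) (u : List ℕ) :
    AddSubmonoid (ℕ × ℕ → ZMod m) where
  carrier := {δ | ∀ w, UU u w → ∃ w', UU u w' ∧ R w w' ∧ cz m (ed w') = cz m (ed w) + δ}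
  zero_mem' := fun w hw => ⟨w, hw, hR.refl _, by simp⟩
  add_mem' := by
    intro a b ha hb w hw
    obtain ⟨w1, h1, h2, h3⟩ := ha w hw
    obtain ⟨w2, h4, h5, h6⟩ := hb w1 h1
    exact ⟨w2, h4, hR.trans h2 h5, by rw [h6, h3, add_assoc]⟩

/-- Changes that can be achieved. -/
def AA {m : ℕ} (hm0 : 0 < m) {R : List ℕ → List ℕ → Prop} (hR : CTRel m R) (u : List ℕ) :
    AddSubgroup (ℕ × ℕ → ZMod m) :=
  { AM hR u with
    neg_mem' := by
      intro δ hδ
      have h : (m - 1) • δ ∈ AM hR u := AddSubmonoid.nsmul_mem _ hδ _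
      rw [← neg_eq hm0] at h
      exact h }

theorem mem_AA {m : ℕ} (hm0 : 0 < m) {R : List ℕ → List ℕ → Prop} (hR : CTRel m R)
    (u : List ℕ) (δ : ℕ × ℕ → ZMod m) :
    δ ∈ AA hm0 hR u ↔
      ∀ w, UU u w → ∃ w', UU u w' ∧ R w w' ∧ cz m (ed w') = cz m (ed w) + δ := Iff.rfl

theorem modEq_of_cz {m : ℕ} {F F' : Multiset (ℕ × ℕ)} (h : cz m F = cz m F') (e : ℕ × ℕ) :
    F.count e ≡ F'.count e [MOD m] := by
  have := congrFun h e
  exact (ZMod.natCast_eq_natCast_iff _ _ _).1 this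

theorem last_insert {x : ℕ} {g : List ℕ} (h : Wk x g x) (a b : List ℕ) :
    (a ++ x :: (g ++ b)).getLast? = (a ++ x :: b).getLast? := by
  rcases wk_closed h with rfl | ⟨w, rfl⟩
  · rfl
  · have := last_ins a 1 x w b
    rwa [pw_one] at this

/-- Inserting a closed walk inside the support. -/
theorem UU_insert {u a b g : List ℕ} {x : ℕ} (hw : UU u (a ++ x :: b)) (hg : Wk x g x)
    (hsub : ∀ e ∈ ed (x :: g), e ∈ ed u) : UU u (a ++ x :: (g ++ b)) := by
  obtain ⟨h1, h2, h3⟩ := hw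
  refine ⟨?_, ?_, fun e => ?_⟩
  · rw [← h1]; exact head_app _ _ _ _
  · rw [← h2]; exact last_insert hg a b
  · rw [ed_insert hg, Multiset.mem_add, h3]
    exact ⟨fun h => h.elim id (hsub e), Or.inl⟩

theorem exists_walk {u : List ℕ} {y x' : ℕ} (h : Reach u y x') (he : (x', y) ∈ ed u) :
    ∃ s : List ℕ, ∀ e ∈ ed (y :: (s ++ [x'])), e ∈ ed u := by
  obtain ⟨w, h1, h2⟩ := wk_of_reach h
  rcases List.eq_nil_or_concat w with rfl | ⟨s, c, rfl⟩
  · have h3 : y = x' := by
      unfold Wk at h1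
      simpa using h1
    refine ⟨[], ?_⟩
    intro e h4
    subst h3
    simp at h4
    rw [h4]; exact he
  · rw [List.concat_eq_append] at h1 h2
    have h3 : c = x' := by
      have := (wk_append y c x' s []).1 h1
      unfold Wk at this
      simpa using this
    subst h3
    exact ⟨s, h2⟩

/-- The 4-cycle law. -/
theorem four {G I L : Type} [AddCommGroup G] {A : L → I → Prop} {p : L → I → G} {m r : ℕ}
    {R : List ℕ → List ℕ → Prop} (hL : Laws A p m r R) (hm0 : 0 < m)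
    (hrK : K2 A p r) {u : List ℕ}
    (hsc : ∀ x ∈ u, ∀ y ∈ u, Reach u x y) {x y x' y' : ℕ} (h1 : (x, y) ∈ ed u)
    (h2 : (x', y') ∈ ed u) (h3 : (x, y') ∈ ed u) (h4 : (x', y) ∈ ed u) :
    r • (cz m {(x, y)} + cz m {(x', y')} - cz m {(x, y')} - cz m {(x', y)}) ∈
      AA hm0 hL.ct u := by
  obtain ⟨s, hs⟩ := exists_walk (hsc y (mem_of_ed h1).2 x' (mem_of_ed h2).1) h4
  obtain ⟨t, ht⟩ := exists_walk (hsc y' (mem_of_ed h2).2 x (mem_of_ed h1).1) h3
  rw [mem_AA]
  intro w hw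
  obtain ⟨a, b, rfl⟩ := List.append_of_mem (mem_of_ed ((hw.2.2 _).2 h1)).1
  -- the two closed walks
  set Z0 : List ℕ := pw (m + 1) (y :: (s ++ [x'])) ++ pw (m + 1) (y' :: (t ++ [x])) with hZ0
  set Z1 : List ℕ := pw (m + 1 + (m - 1) * r) (y :: (s ++ [x'])) ++
        (pw (m + 1 + (m - 1) * r) (y' :: (t ++ [x])) ++
          pw r (y :: (s ++ x' :: y' :: (t ++ [x])))) with hZ1
  have hl6 : R (x :: Z0) (x :: Z1) := hL.law6 hrK x y x' y' s t
  have hpx : ∀ k, Wk x (pw (k + 1) (y' :: (t ++ [x]))) x := by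
    intro k
    have := wk_concat x x (pw k (y' :: (t ++ [x])) ++ (y' :: t))
    rw [pw_succ']
    simpa using this
  have hpx' : ∀ (c k : ℕ), Wk c (pw (k + 1) (y' :: (t ++ [x]))) x := by
    intro c k
    have := wk_concat c x (pw k (y' :: (t ++ [x])) ++ (y' :: t))
    rw [pw_succ']
    simpa using this
  have hpx'' : ∀ (c k : ℕ), Wk c (pw (k + 1) (y :: (s ++ [x']))) x' := by
    intro c k
    have := wk_concat c x' (pw k (y :: (s ++ [x'])) ++ (y :: s))
    rw [pw_succ']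
    simpa using this
  have hW0 : Wk x Z0 x := (hpx'' x m).trans (hpx' x' m)
  have hpr : Wk x (y :: (s ++ x' :: y' :: (t ++ [x]))) x := by
    have := wk_concat x x (y :: (s ++ x' :: y' :: t))
    simpa using this
  have hk : m + 1 + (m - 1) * r = (m + (m - 1) * r) + 1 := by ring
  have hW1 : Wk x Z1 x := by
    rw [hZ1, hk]
    exact (hpx'' x _).trans ((hpx' x' _).trans (hpr.pw r))
  -- the pairs
  have hS2 : ed (y :: (s ++ x' :: y' :: (t ++ [x]))) =
      ed (y :: (s ++ [x'])) + ({(x', y')} + ed (y' :: (t ++ [x]))) := by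
    rw [ed_ca, ed_cons_cons, Multiset.singleton_add]
  have hE0 : ed (x :: Z0) = (x, y) ::ₘ ((m + 1) • ed (y :: (s ++ [x'])) + m • {(x', y)} +
      ((x', y') ::ₘ ((m + 1) • ed (y' :: (t ++ [x])) + m • {(x, y')}))) := by
    rw [hZ0, ed_block]
    have := ed_block x' y' x m t []
    rw [List.append_nil, ed_singleton, add_zero] at this
    rw [this]
  have hE1 : ed (x :: Z1) = (x, y) ::ₘ ((m + (m - 1) * r + 1) • ed (y :: (s ++ [x'])) +
      (m + (m - 1) * r) • {(x', y)} +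
      ((x', y') ::ₘ ((m + (m - 1) * r + 1) • ed (y' :: (t ++ [x])) +
        (m + (m - 1) * r) • {(x, y')} +
        r • ((x, y) ::ₘ (ed (y :: (s ++ [x'])) + ({(x', y')} + ed (y' :: (t ++ [x])))))))) := by
    rw [hZ1, hk, ed_block, ed_block, ed_pw hpr, ed_cons_cons, hS2]
  have hsub0 : ∀ e ∈ ed (x :: Z0), e ∈ ed u := by
    intro e he
    rw [hE0] at he
    simp only [Multiset.mem_cons, Multiset.mem_add] at he
    rcases he with rfl | (he | he) | rfl | he | he
    · exact h1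
    · exact hs e (Multiset.mem_of_mem_nsmul he)
    · have := Multiset.mem_of_mem_nsmul he
      rw [Multiset.mem_singleton] at this
      rw [this]; exact h4
    · exact h2
    · exact ht e (Multiset.mem_of_mem_nsmul he)
    · have := Multiset.mem_of_mem_nsmul he
      rw [Multiset.mem_singleton] at this
      rw [this]; exact h3
  have hsub1 : ∀ e ∈ ed (x :: Z1), e ∈ ed u := by
    intro e he
    rw [hE1] at he
    simp only [Multiset.mem_cons, Multiset.mem_add] at he
    rcases he with rfl | (he | he) | rfl | (he | he) | he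
    · exact h1
    · exact hs e (Multiset.mem_of_mem_nsmul he)
    · have := Multiset.mem_of_mem_nsmul he
      rw [Multiset.mem_singleton] at this
      rw [this]; exact h4
    · exact h2
    · exact ht e (Multiset.mem_of_mem_nsmul he)
    · have := Multiset.mem_of_mem_nsmul he
      rw [Multiset.mem_singleton] at this
      rw [this]; exact h3
    · have := Multiset.mem_of_mem_nsmul he
      simp only [Multiset.mem_cons, Multiset.mem_add, Multiset.mem_singleton] at this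
      rcases this with rfl | he | rfl | he
      · exact h1
      · exact hs e he
      · exact h2
      · exact ht e he
  have hpw : pw m Z0 = Z0 ++ pw (m - 1) Z0 := by
    obtain ⟨k, rfl⟩ : ∃ k, m = k + 1 := ⟨m - 1, by omega⟩
    rw [pw_succ]; rfl
  have hsubp : ∀ (k : ℕ), ∀ e ∈ ed (x :: pw k Z0), e ∈ ed u := by
    intro k e he
    rw [ed_pw hW0] at he
    exact hsub0 e (Multiset.mem_of_mem_nsmul he)
  have hU1 : UU u (a ++ x :: (pw m Z0 ++ b)) := UU_insert hw (hW0.pw m) (hsubp m)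
  have hW2 : Wk x (Z1 ++ pw (m - 1) Z0) x := hW1.trans (hW0.pw _)
  have hE2 : ed (x :: (Z1 ++ pw (m - 1) Z0)) = ed (x :: Z1) + (m - 1) • ed (x :: Z0) := by
    rw [ed_glue hW1, ed_pw hW0]
  have hU2 : UU u (a ++ x :: ((Z1 ++ pw (m - 1) Z0) ++ b)) := by
    refine UU_insert hw hW2 ?_
    intro e he
    rw [hE2, Multiset.mem_add] at he
    rcases he with he | he
    · exact hsub1 e he
    · exact hsub0 e (Multiset.mem_of_mem_nsmul he)
  have hR1 : R (a ++ x :: b) (a ++ x :: (pw m Z0 ++ b)) := by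
    refine ct_main hm0 hL.ct (hw.1.trans hU1.1.symm) (hw.2.1.trans hU1.2.1.symm)
      (fun e => (hw.2.2 e).trans (hU1.2.2 e).symm) (fun e => ?_)
    refine modEq_of_cz ?_ e
    rw [ed_insert (hW0.pw m), ed_pw hW0, cz_add, cz_nsmul, m_nsmul, add_zero]
  have hR2 : R (a ++ x :: (pw m Z0 ++ b)) (a ++ x :: ((Z1 ++ pw (m - 1) Z0) ++ b)) := by
    have := hL.ct.app' a (pw (m - 1) Z0 ++ b) hl6
    rw [hpw]
    simpa only [List.cons_append, List.append_assoc] using this
  refine ⟨_, hU2, hL.ct.trans hR1 hR2, ?_⟩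
  rw [ed_insert hW2, hE2, cz_add, cz_add, cz_nsmul, hE0, hE1]
  simp only [cz_cons, cz_add, cz_nsmul]
  generalize cz m (ed (a ++ x :: b)) = c0
  generalize cz m (ed (y :: (s ++ [x']))) = cS
  generalize cz m (ed (y' :: (t ++ [x]))) = cT
  generalize cz m {(x, y)} = c1
  generalize cz m {(x', y')} = c2
  generalize cz m {(x, y')} = c3
  generalize cz m {(x', y)} = c4
  have hmz : ((m : ℕ) : ℕ × ℕ → ZMod m) = 0 := by funext e; simp
  have hm1 : ((m - 1 : ℕ) : ℕ × ℕ → ZMod m) = -1 := by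
    rw [Nat.cast_sub hm0, hmz]; simp
  simp only [nsmul_eq_mul, Nat.cast_add, Nat.cast_mul, hm1, hmz, Nat.cast_one]
  ring

end Part2

open Part2 in
theorem part2 {G I L : Type} [AddCommGroup G] {A : L → I → Prop} {p : L → I → G} {m r : ℕ}
    {R : List ℕ → List ℕ → Prop} (hL : Laws A p m r R) (hm0 : 0 < m) (hm : ∀ g : G, m • g = 0)
    (hr0 : 0 < r) (hrK : K2 A p r) (hrg : ∀ k, K2 A p k → r ∣ k) {u v : List ℕ}
    (hu : u ≠ []) (hv : v ≠ []) (hS : SId A p m u v) (hhead : u.head? = v.head?)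
    (hlast : u.getLast? = v.getLast?) (hE : ∀ e, e ∈ ed u ↔ e ∈ ed v)
    (hsc : ∀ x ∈ u, ∀ y ∈ u, Reach u x y)
    (hrect : ∀ x a b y, (x, a) ∈ ed u → (b, a) ∈ ed u → (b, y) ∈ ed u → (x, y) ∈ ed u) :
    R u v := by
  classical
  -- integer differences
  have hD : ∀ e : ℕ × ℕ, ∃ d : ℤ, ((ed v).count e : ℤ) - ((ed u).count e : ℤ) = r * d := by
    intro e
    have h1 := hrg _ (hS.K2_natAbs hm hhead hlast hu hv e.1 e.2)
    have h2 : (r : ℤ) ∣ ((ed u).count (e.1, e.2) : ℤ) - ((ed v).count (e.1, e.2) : ℤ) :=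
      Int.natCast_dvd.2 h1
    obtain ⟨d, hd⟩ := h2
    exact ⟨-d, by rw [mul_neg, ← hd]; simp⟩
  choose D hD using hD
  have hD0 : ∀ e, e ∉ ed u → D e = 0 := by
    intro e he
    have h1 : e ∉ ed v := fun h => he ((hE e).2 h)
    have h2 := hD e
    rw [Multiset.count_eq_zero_of_notMem he, Multiset.count_eq_zero_of_notMem h1] at h2
    simp only [Nat.cast_zero, sub_self] at h2
    rcases mul_eq_zero.1 h2.symm with h3 | h3
    · exfalso
      have : (r : ℤ) ≠ 0 := by exact_mod_cast hr0.ne'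
      exact this h3
    · exact h3
  set c : Finset ℕ := u.toFinset ∪ v.toFinset with hc
  have hcu : ∀ e ∈ ed u, e.1 ∈ c ∧ e.2 ∈ c := by
    intro e he
    have := mem_of_ed (a := e.1) (b := e.2) he
    simp [hc, this.1, this.2]
  have hcv : ∀ e ∈ ed v, e.1 ∈ c ∧ e.2 ∈ c := by
    intro e he
    have := mem_of_ed (a := e.1) (b := e.2) he
    simp [hc, this.1, this.2]
  -- row and column sums
  have hrow : ∀ x, (m : ℤ) ∣ r * ∑ y ∈ c, D (x, y) := by
    intro x
    have h1 := count_fst_modEq hS.occ hlast x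
    rw [← sum_count_fst (ed u) c (fun e he => (hcu e he).2) x,
      ← sum_count_fst (ed v) c (fun e he => (hcv e he).2) x] at h1
    have h2 := (Nat.modEq_iff_dvd).1 h1
    rw [Finset.mul_sum]
    have h3 : ∑ y ∈ c, (r : ℤ) * D (x, y) =
        ((∑ y ∈ c, (ed v).count (x, y) : ℕ) : ℤ) - ((∑ y ∈ c, (ed u).count (x, y) : ℕ) : ℤ) := by
      push_cast
      rw [← Finset.sum_sub_distrib]
      exact Finset.sum_congr rfl fun y _ => (hD (x, y)).symm
    rw [h3]; exact h2
  have hcol : ∀ y, (m : ℤ) ∣ r * ∑ x ∈ c, D (x, y) := by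
    intro y
    have h1 := count_snd_modEq hS.occ hhead y
    rw [← sum_count_snd (ed u) c (fun e he => (hcu e he).1) y,
      ← sum_count_snd (ed v) c (fun e he => (hcv e he).1) y] at h1
    have h2 := (Nat.modEq_iff_dvd).1 h1
    rw [Finset.mul_sum]
    have h3 : ∑ x ∈ c, (r : ℤ) * D (x, y) =
        ((∑ x ∈ c, (ed v).count (x, y) : ℕ) : ℤ) - ((∑ x ∈ c, (ed u).count (x, y) : ℕ) : ℤ) := by
      push_cast
      rw [← Finset.sum_sub_distrib]
      exact Finset.sum_congr rfl fun x _ => (hD (x, y)).symm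
    rw [h3]; exact h2
  -- base points
  let α : ℕ → ℕ := fun x => sInf {a | (x, a) ∈ ed u}
  let β : ℕ → ℕ := fun y => sInf {b | (b, y) ∈ ed u}
  have hα : ∀ x y, (x, y) ∈ ed u → (x, α x) ∈ ed u := fun x y h =>
    Nat.sInf_mem (s := {a | (x, a) ∈ ed u}) ⟨y, h⟩
  have hβ : ∀ x y, (x, y) ∈ ed u → (β y, y) ∈ ed u := fun x y h =>
    Nat.sInf_mem (s := {b | (b, y) ∈ ed u}) ⟨x, h⟩
  have hβα : ∀ x y, (x, y) ∈ ed u → β y = β (α x) := by
    intro x y h
    show sInf _ = sInf _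
    congr 1
    ext b
    exact ⟨fun hb => hrect b y x (α x) hb h (hα x y h),
      fun hb => hrect b (α x) x y hb (hα x y h) h⟩
  let f : ℕ → ℕ × ℕ → ZMod m := fun x => cz m {(x, α x)} - cz m {(β (α x), α x)}
  let g : ℕ → ℕ × ℕ → ZMod m := fun y => cz m {(β y, y)}
  have hmemAA : ∀ x y, (x, y) ∈ ed u →
      r • (cz m {(x, y)} - f x - g y) ∈ AA hm0 hL.ct u := by
    intro x y h
    have h1 : (β y, α x) ∈ ed u := hrect (β y) y x (α x) (hβ x y h) h (hα x y h)
    have h2 := four hL hm0 hrK hsc h h1 (hα x y h) (hβ x y h)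
    have h3 : cz m {(x, y)} - f x - g y =
        cz m {(x, y)} + cz m {(β y, α x)} - cz m {(x, α x)} - cz m {(β y, y)} := by
      show cz m {(x, y)} - (cz m {(x, α x)} - cz m {(β (α x), α x)}) - cz m {(β y, y)} = _
      rw [← hβα x y h]
      abel
    rw [h3]; exact h2
  -- the difference
  have hzs : ∀ (k : ℤ) (δ : ℕ × ℕ → ZMod m), (m : ℤ) ∣ k → k • δ = 0 := by
    rintro k δ ⟨j, rfl⟩
    rw [mul_smul, natCast_zsmul, m_nsmul]
  have hdecomp : ∀ F : Multiset (ℕ × ℕ), (∀ e ∈ F, e.1 ∈ c ∧ e.2 ∈ c) →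
      cz m F = ∑ x ∈ c, ∑ y ∈ c, F.count (x, y) • cz m {(x, y)} := by
    intro F hF
    rw [← sum_map_count F c hF (fun e => cz m {e})]
    clear hF
    induction F using Multiset.induction_on with
    | empty => funext e; simp [cz]
    | cons e F ih => rw [cz_cons, Multiset.map_cons, Multiset.sum_cons, ih]
  have hdiff : cz m (ed v) - cz m (ed u) =
      ∑ x ∈ c, ∑ y ∈ c, D (x, y) • (r • (cz m {(x, y)} - f x - g y)) := by
    rw [hdecomp _ hcu, hdecomp _ hcv]
    have e1 : ∀ x y, (ed v).count (x, y) • cz m {(x, y)} - (ed u).count (x, y) • cz m {(x, y)} =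
        D (x, y) • (r • (cz m {(x, y)} - f x - g y)) + ((r * D (x, y)) • f x +
          (r * D (x, y)) • g y) := by
      intro x y
      rw [← natCast_zsmul (cz m {(x, y)}) ((ed v).count (x, y)),
        ← natCast_zsmul (cz m {(x, y)}) ((ed u).count (x, y)), ← sub_smul, hD (x, y),
        ← natCast_zsmul _ r, smul_smul, mul_comm (D (x, y)) (r : ℤ), smul_sub, smul_sub]
      abel
    have e2 : ∑ x ∈ c, ∑ y ∈ c, (r * D (x, y)) • f x = 0 := by
      refine Finset.sum_eq_zero fun x _ => ?_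
      rw [← Finset.sum_smul, ← Finset.mul_sum]
      exact hzs _ _ (hrow x)
    have e3 : ∑ x ∈ c, ∑ y ∈ c, (r * D (x, y)) • g y = 0 := by
      rw [Finset.sum_comm]
      refine Finset.sum_eq_zero fun y _ => ?_
      rw [← Finset.sum_smul, ← Finset.mul_sum]
      exact hzs _ _ (hcol y)
    rw [← Finset.sum_sub_distrib]
    simp only [← Finset.sum_sub_distrib, e1, Finset.sum_add_distrib]
    rw [e2, e3]
    simp
  have hmem : cz m (ed v) - cz m (ed u) ∈ AA hm0 hL.ct u := by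
    rw [hdiff]
    refine AddSubgroup.sum_mem _ fun x _ => AddSubgroup.sum_mem _ fun y _ => ?_
    by_cases h : (x, y) ∈ ed u
    · exact AddSubgroup.zsmul_mem _ (hmemAA x y h) _
    · rw [hD0 _ h, zero_smul]
      exact AddSubgroup.zero_mem _
  obtain ⟨w', h1, h2, h3⟩ := (mem_AA hm0 hL.ct u _).1 hmem u ⟨rfl, rfl, fun e => Iff.rfl⟩
  refine hL.ct.trans h2 (ct_main hm0 hL.ct (h1.1.trans hhead) (h1.2.1.trans hlast)
    (fun e => (h1.2.2 e).trans (hE e)) (modEq_of_cz ?_))
  rw [h3]; abel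

end Pool.Agent.CZS
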