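import Pool.Agent.CZS.Fix
import Pool.Agent.CZS.Part2
import Pool.Agent.CZS.Closure

/-! Every identity follows from the laws when the nonzero entries form complete bipartite graphs. -/

set_option autoImplicit false

namespace Pool.Agent.CZS

section

variable {G I L : Type} [AddCommGroup G] {A : L → I → Prop} {p : L → I → G} {m r : ℕ}
  {R : List ℕ → List ℕ → Prop} (hL : Laws A p m r R) (hm0 : 0 < m) (hm : ∀ g : G, m • g = 0)
  (hr0 : 0 < r) (hrK : K2 A p r) (hrg : ∀ k, K2 A p k → r ∣ k)
include hL hm0 hm hr0 hrK hrg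

omit hL hm0 hm hr0 hrK hrg in
theorem reach_congr {u v : List ℕ} (h : ∀ e, e ∈ ed u ↔ e ∈ ed v) {x y : ℕ} :
    Reach u x y ↔ Reach v x y :=
  ⟨reach_mono (fun e he => (h e).1 he), reach_mono (fun e he => (h e).2 he)⟩

/-- The strongly connected case. -/
theorem sc_case {u v : List ℕ} (hu : u ≠ []) (hv : v ≠ []) (hS : SId A p m u v)
    (hE : ∀ e, e ∈ ed u ↔ e ∈ ed v) (hsc : ∀ x ∈ u, ∀ y ∈ u, Reach u x y)
    (hrect : ∀ x a b y, (x, a) ∈ ed u → (b, a) ∈ ed u → (b, y) ∈ ed u → (x, y) ∈ ed u)
    (hhead : ∀ h h', u.head? = some h → v.head? = some h' → h ≠ h' →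
      (∀ l i i', A l i → A l i' → i = i') ∧ ∃ b, (b, h) ∈ ed u ∧ (b, h') ∈ ed u)
    (hlast : ∀ h h', u.getLast? = some h → v.getLast? = some h' → h ≠ h' →
      (∀ l l' i, A l i → A l' i → l = l') ∧ ∃ a, (h, a) ∈ ed u ∧ (h', a) ∈ ed u) :
    R u v := by
  have hct := hL.ct
  -- fix the head
  obtain ⟨u1, hR1, hh1, hl1, hE1, hm1⟩ : ∃ u1, R u u1 ∧ u1.head? = v.head? ∧
      u1.getLast? = u.getLast? ∧ (∀ e, e ∈ ed u1 ↔ e ∈ ed u) ∧ ∀ z, z ∈ u1 ↔ z ∈ u := by
    obtain ⟨h, D, rfl⟩ := List.exists_cons_of_ne_nil hu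
    obtain ⟨h', Dv, rfl⟩ := List.exists_cons_of_ne_nil hv
    by_cases hne : h = h'
    · subst hne
      exact ⟨h :: D, hct.refl _, by simp, rfl, fun e => Iff.rfl, fun z => Iff.rfl⟩
    · obtain ⟨hH, b, hb1, hb2⟩ := hhead h h' (by simp) (by simp) hne
      obtain ⟨D', g1, g2, g3, g4⟩ := fixL hct hm0 (X := []) (D := D) (d := h) (d' := h')
        (fun _ => ⟨b, hb1, hb2, hsc _ (by simp) _ (mem_of_mem_ed hb1).1,
          hsc _ (mem_of_mem_ed hb2).2 _ (mem_of_mem_ed hb1).1⟩)
        (fun b s t => by simpa using hL.law9 hH h b h' s t)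
      exact ⟨h' :: D', by simpa using g1, by simp, g3, g2, g4⟩
  have hu1 : u1 ≠ [] := fun h => hu (((hL.sound hR1).1).2 h)
  -- fix the last letter
  obtain ⟨u2, hR2, hl2, hh2, hE2, hm2⟩ : ∃ u2, R u1 u2 ∧ u2.getLast? = v.getLast? ∧
      u2.head? = u1.head? ∧ (∀ e, e ∈ ed u2 ↔ e ∈ ed u) ∧ ∀ z, z ∈ u2 ↔ z ∈ u := by
    obtain ⟨X, c, rfl⟩ : ∃ X c, u1 = X ++ [c] := ⟨_, _, (List.dropLast_append_getLast hu1).symm⟩
    obtain ⟨Xv, c', rfl⟩ : ∃ X c, v = X ++ [c] := ⟨_, _, (List.dropLast_append_getLast hv).symm⟩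
    by_cases hne : c = c'
    · subst hne
      exact ⟨X ++ [c], hct.refl _, by simp, rfl, hE1, hm1⟩
    · obtain ⟨hT, a, ha1, ha2⟩ := hlast c c' (by rw [← hl1]; simp) (by simp) hne
      obtain ⟨X', g1, g2, g3, g4⟩ := fixR hct hm0 (X := X) (D := []) (c := c) (c' := c')
        (fun _ => ⟨a, (hE1 _).2 ha1, (hE1 _).2 ha2,
          (reach_congr hE1).2
            (hsc _ (mem_of_mem_ed ha1).2 _ (mem_of_mem_ed ha2).1),
          (reach_congr hE1).2
            (hsc _ (mem_of_mem_ed ha1).2 _ (mem_of_mem_ed ha1).1)⟩)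
        (fun a s t => by simpa using hL.law10 hT c a c' s t)
      exact ⟨X' ++ [c'], g1, by simp, g3, fun e => (g2 e).trans (hE1 e),
        fun z => (g4 z).trans (hm1 z)⟩
  have hR12 := hct.trans hR1 hR2
  have hu2 : u2 ≠ [] := fun h => hu (((hL.sound hR12).1).2 h)
  refine hct.trans hR12 (part2 hL hm0 hm hr0 hrK hrg hu2 hv
    (((hL.sound hR12).2 hu).symm.trans hS) (hh2.trans hh1) hl2
    (fun e => (hE2 e).trans (hE e)) ?_ ?_)
  · intro x hx y hy
    exact (reach_congr hE2).2 (hsc x ((hm2 x).1 hx) y ((hm2 y).1 hy))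
  · intro x a b y h1 h2 h3
    exact (hE2 _).2 (hrect x a b y ((hE2 _).1 h1) ((hE2 _).1 h2) ((hE2 _).1 h3))

/-- Completely simple with zero adjoined. -/
theorem complete_case (hK : ∀ l i, A l i) {u v : List ℕ} (hu : u ≠ [])
    (hv : v ≠ []) (hS : SId A p m u v) : R u v := by
  have hct := hL.ct
  -- maximal words have all pairs
  have full : ∀ {w : List ℕ}, w ≠ [] → EMax R w → ∀ x ∈ w, ∀ y ∈ w, (x, y) ∈ ed w := by
    intro w hw hmax x hx y hy
    obtain ⟨n, hn⟩ : ∃ n, m = n + 1 := ⟨m - 1, by omega⟩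
    obtain ⟨α, β, hαβ⟩ := List.append_of_mem hy
    obtain ⟨γ, δ, hγδ⟩ := List.append_of_mem hx
    have h1 : R w (pw (m + 1) w) := hL.law5 hK w hw
    have e1 : pw (m + 1) w = α ++ (y :: (β ++ γ ++ [x])) ++ (δ ++ pw n w) := by
      rw [hn, pw_succ, pw_succ]
      conv_lhs => rw [show w ++ (w ++ pw n w) = (α ++ y :: β) ++ ((γ ++ x :: δ) ++ pw n w) by
        rw [← hαβ, ← hγδ]]
      simp
    have h2 : R (y :: (β ++ γ ++ [x])) (pw (m + 1) (y :: (β ++ γ ++ [x]))) :=
      hL.law5 hK _ (by simp)
    have h3 := hct.app α (δ ++ pw n w) h2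
    rw [← e1] at h3
    have h4 := hct.trans h1 h3
    refine hmax _ h4 ?_ (x, y) ?_
    · intro e he
      have h5 : e ∈ ed (pw (m + 1) w) := by
        rw [hn, pw_succ]
        obtain ⟨q, l, rfl⟩ := List.exists_cons_of_ne_nil hw
        obtain ⟨e1, e2⟩ := e
        obtain ⟨f, g, hfg⟩ := mem_ed_iff.1 he
        exact mem_ed_iff.2 ⟨f, g ++ pw (n + 1) (q :: l), by rw [hfg]; simp⟩
      obtain ⟨f1, f2⟩ := e
      obtain ⟨f, g, hfg⟩ := mem_ed_iff.1 h5
      -- ed of the pumped word contains ed of the original word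
      have h6 : ed (α ++ pw (m + 1) (y :: (β ++ γ ++ [x])) ++ (δ ++ pw n w)) =
          ed (pw (m + 1) w) + (m • ed (y :: (β ++ γ ++ [x])) + m • {(x, y)}) := by
        rw [e1]
        have k1 := ed_block' y x m (β ++ γ) (δ ++ pw n w)
        have k2 := ed_append_cons (y :: (β ++ γ)) x (δ ++ pw n w)
        have k3 : α ++ pw (m + 1) (y :: (β ++ γ ++ [x])) ++ (δ ++ pw n w) =
            α ++ y :: ((β ++ γ ++ [x]) ++ (pw m (y :: (β ++ γ ++ [x])) ++ (δ ++ pw n w))) := by
          rw [pw_succ]; simp
        have k4 : pw (m + 1) (y :: (β ++ γ ++ [x])) ++ (δ ++ pw n w) =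
            y :: ((β ++ γ ++ [x]) ++ (pw m (y :: (β ++ γ ++ [x])) ++ (δ ++ pw n w))) := by
          rw [pw_succ]; simp
        have k5 : α ++ (y :: (β ++ γ ++ [x])) ++ (δ ++ pw n w) =
            α ++ y :: ((β ++ γ ++ [x]) ++ (δ ++ pw n w)) := by simp
        have k6 : y :: ((β ++ γ ++ [x]) ++ (δ ++ pw n w)) =
            (y :: (β ++ γ)) ++ x :: (δ ++ pw n w) := by simp
        have kA : ed (α ++ pw (m + 1) (y :: (β ++ γ ++ [x])) ++ (δ ++ pw n w)) =
            ed (α ++ [y]) + ed (pw (m + 1) (y :: (β ++ γ ++ [x])) ++ (δ ++ pw n w)) := by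
          rw [k3, ed_append_cons α y, ← k4]
        have kB : ed (α ++ (y :: (β ++ γ ++ [x])) ++ (δ ++ pw n w)) =
            ed (α ++ [y]) + ed (y :: ((β ++ γ ++ [x]) ++ (δ ++ pw n w))) := by
          rw [k5, ed_append_cons α y]
        rw [kA, kB, k1, k6, k2, succ_nsmul]
        simp only [List.cons_append]
        abel
      rw [h6]
      exact Multiset.mem_add.2 (Or.inl h5)
    · refine mem_ed_iff.2 ⟨α ++ (y :: (β ++ γ)), (β ++ γ ++ [x]) ++
        (pw n (y :: (β ++ γ ++ [x])) ++ (δ ++ pw n w)), ?_⟩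
      rw [hn, pw_succ, pw_succ]
      simp
  obtain ⟨u', hu', hmu⟩ := exists_emax hL hu
  obtain ⟨v', hv', hmv⟩ := exists_emax hL hv
  have hu'0 : u' ≠ [] := fun h => hu (((hL.sound hu').1).2 h)
  have hv'0 : v' ≠ [] := fun h => hv (((hL.sound hv').1).2 h)
  have hS' : SId A p m u' v' :=
    ((hL.sound hu').2 hu).symm.trans (hS.trans ((hL.sound hv').2 hv))
  refine hct.trans hu' (hct.trans ?_ (hct.symm hv'))
  refine sc_case hL hm0 hm hr0 hrK hrg hu'0 hv'0 hS' ?_ ?_ ?_ ?_ ?_
  · rintro ⟨x, y⟩
    constructor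
    · intro he
      have := mem_of_mem_ed he
      exact full hv'0 hmv x ((hS'.content x).1 this.1) y ((hS'.content y).1 this.2)
    · intro he
      have := mem_of_mem_ed he
      exact full hu'0 hmu x ((hS'.content x).2 this.1) y ((hS'.content y).2 this.2)
  · intro x hx y hy
    exact Relation.ReflTransGen.single (full hu'0 hmu x hx y hy)
  · intro x a b y h1 h2 h3
    exact full hu'0 hmu x (mem_of_mem_ed h1).1 y (mem_of_mem_ed h3).2
  · intro h h' hh hh' hne
    have m1 : h ∈ u' := List.mem_of_mem_head? hh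
    have m2 : h' ∈ u' := (hS'.content _).2 (List.mem_of_mem_head? hh')
    refine ⟨?_, h, full hu'0 hmu h m1 h m1, full hu'0 hmu h m1 h' m2⟩
    intro l i i' h1 h2
    by_contra hii
    have := hS'.head_eq h1 h2 hii
    rw [hh, hh'] at this
    exact hne (Option.some.inj this)
  · intro h h' hh hh' hne
    have m1 : h ∈ u' := List.mem_of_getLast? hh
    have m2 : h' ∈ u' := (hS'.content _).2 (List.mem_of_getLast? hh')
    refine ⟨?_, h, full hu'0 hmu h m1 h m1, full hu'0 hmu h' m2 h m1⟩
    intro l l' i h1 h2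
    by_contra hii
    have := hS'.last_eq h1 h2 hii
    rw [hh, hh'] at this
    exact hne (Option.some.inj this)

/-- The induction. -/
theorem noncomplete_case (hK : K1 A) (hrow : ∀ l, ∃ i, A l i) (hcol : ∀ i, ∃ l, A l i)
    {l1 : L} {i2 : I} (hn : ¬ A l1 i2) : ∀ (n : ℕ) (u v : List ℕ), u ≠ [] → v ≠ [] →
      u.toFinset.card = n → SId A p m u v → R u v := by
  classical
  have hct := hL.ct
  obtain ⟨i1, h11⟩ := hrow l1
  obtain ⟨l2, h22⟩ := hcol i2
  intro n
  induction n using Nat.strong_induction_on with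
  | _ n IH =>
  intro u0 v0 hu0 hv0 hcard hS0
  obtain ⟨u, hRu, hmu⟩ := exists_emax hL hu0
  obtain ⟨v, hRv, hmv⟩ := exists_emax hL hv0
  have hu : u ≠ [] := fun h => hu0 (((hL.sound hRu).1).2 h)
  have hv : v ≠ [] := fun h => hv0 (((hL.sound hRv).1).2 h)
  have hSu := (hL.sound hRu).2 hu0
  have hSv := (hL.sound hRv).2 hv0
  have hS : SId A p m u v := hSu.symm.trans (hS0.trans hSv)
  refine hct.trans hRu (hct.trans ?_ (hct.symm hRv))
  have hcardu : u.toFinset.card = n := by
    rw [← hcard]; congr 1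
    ext z
    rw [List.mem_toFinset, List.mem_toFinset]
    exact (hSu.content z).symm
  have hzu := zig_closed (fun x a b y h1 h2 h3 h4 => emax_closure hL hm0 hK hmu h1 h2 h3 h4)
  have hzv := zig_closed (fun x a b y h1 h2 h3 h4 => emax_closure hL hm0 hK hmv h1 h2 h3 h4)
  have huv : ∀ x y, (x, y) ∈ ed u → ∃ k, Zig v k x y := fun x y he =>
    zig_of_sId hS.symm h11 h22 hn he
  have hvu : ∀ x y, (x, y) ∈ ed v → ∃ k, Zig u k x y := fun x y he =>
    zig_of_sId hS h11 h22 hn he
  have hreach : ∀ x y, Reach u x y ↔ Reach v x y := fun x y =>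
    ⟨fun h => reach_of_zig hzv hS.content huv h,
      fun h => reach_of_zig hzu (fun z => (hS.content z).symm) hvu h⟩
  obtain ⟨h, D, hhD⟩ := List.exists_cons_of_ne_nil hu
  have hhead : u.head? = some h := by rw [hhD]; simp
  obtain ⟨h', Dv, hhDv⟩ := List.exists_cons_of_ne_nil hv
  have hhead' : v.head? = some h' := by rw [hhDv]; simp
  have hhu : h ∈ u := List.mem_of_mem_head? hhead
  have hh'v : h' ∈ v := List.mem_of_mem_head? hhead'
  by_cases hsc : ∀ z ∈ u, Reach u z h
  · -- strongly connected
    have hsc' : ∀ x ∈ u, ∀ y ∈ u, Reach u x y := fun x hx y hy =>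
      (hsc x hx).trans (reach_hd hhead hy)
    have cl : ∀ x y, (∃ k, Zig u k x y) → x ∈ u → y ∈ u → (x, y) ∈ ed u := by
      rintro x y ⟨k, hk⟩ hx hy
      exact hzu k x y hk (hsc' y hy x hx)
    refine sc_case hL hm0 hm hr0 hrK hrg hu hv hS ?_ hsc' ?_ ?_ ?_
    · rintro ⟨x, y⟩
      constructor
      · intro he
        obtain ⟨k, hk⟩ := huv x y he
        have hme := mem_of_mem_ed he
        exact hzv k x y hk ((hreach _ _).1 (hsc' _ hme.2 _ hme.1))
      · intro he
        have hme := mem_of_mem_ed he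
        exact cl x y (hvu x y he) ((hS.content _).2 hme.1) ((hS.content _).2 hme.2)
    · intro x a b y g1 g2 g3
      exact cl x y ⟨1, Zig.step g1 g2 (Zig.base g3)⟩ (mem_of_mem_ed g1).1 (mem_of_mem_ed g3).2
    · intro g g' hg hg' hne
      constructor
      · intro l i i' a1 a2
        by_contra hii
        have := hS.head_eq a1 a2 hii
        rw [hg, hg'] at this
        exact hne (Option.some.inj this)
      · have m1 : g ∈ u := List.mem_of_mem_head? hg
        have m2 : g' ∈ u := (hS.content _).2 (List.mem_of_mem_head? hg')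
        -- an edge into g
        obtain ⟨b, hb⟩ : ∃ b, (b, g) ∈ ed u := by
          rcases Relation.ReflTransGen.cases_tail (hsc' g' m2 g m1) with h | ⟨b, _, hb⟩
          · exact absurd h hne
          · exact ⟨b, hb⟩
        refine ⟨b, hb, ?_⟩
        by_contra hbg
        have hnz : ¬ ∃ k, Zig u k b g' := fun hz => hbg (cl b g' hz (mem_of_mem_ed hb).1 m2)
        have hO := zig_subst (A := A) (u := u) h11 h22 b
        have hh := hS.head _ _ hO
        rw [hg, hg'] at hh
        simp only [Option.map_some, Option.some.injEq] at hh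
        rw [if_pos ⟨0, Zig.base hb⟩, if_neg hnz] at hh
        rw [← hh] at hn
        exact hn h11
    · intro g g' hg hg' hne
      constructor
      · intro l l' i a1 a2
        by_contra hii
        have := hS.last_eq a1 a2 hii
        rw [hg, hg'] at this
        exact hne (Option.some.inj this)
      · have m1 : g ∈ u := List.mem_of_getLast? hg
        have m2 : g' ∈ u := (hS.content _).2 (List.mem_of_getLast? hg')
        obtain ⟨a, ha⟩ : ∃ a, (g, a) ∈ ed u := by
          rcases Relation.ReflTransGen.cases_head (hsc' g m1 g' m2) with h | ⟨a, ha, _⟩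
          · exact absurd h hne
          · exact ⟨a, ha⟩
        refine ⟨a, ha, ?_⟩
        by_contra hga
        have hnz : ¬ (g' = g ∨ ∃ a, (∃ k, Zig u k g a) ∧ (g', a) ∈ ed u) := by
          rintro (h | ⟨a', ⟨k, hk⟩, ha'⟩)
          · exact hne h.symm
          · have e1 : (g, a') ∈ ed u := cl g a' ⟨k, hk⟩ m1 (mem_of_mem_ed ha').2
            exact hga (cl g' a ⟨1, Zig.step ha' e1 (Zig.base ha)⟩ m2 (mem_of_mem_ed ha).2)
        have hO := zig_subst (A := A) (u := u) h11 h22 g
        have hh := hS.last _ _ hO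
        rw [hg, hg'] at hh
        simp only [Option.map_some, Option.some.injEq, true_or, if_true] at hh
        rw [if_neg hnz] at hh
        rw [← hh] at h22
        exact hn h22
  · -- cut
    push Not at hsc
    obtain ⟨z0, hz0, hz0'⟩ := hsc
    set Lt : ℕ → Prop := fun z => Reach u z h with hLt
    have hdownu : ∀ x y, (x, y) ∈ ed u → Lt y → Lt x := fun x y he hy =>
      Relation.ReflTransGen.head he hy
    have hdownv : ∀ x y, (x, y) ∈ ed v → Lt y → Lt x := fun x y he hy =>
      ((hreach _ _).2 (Relation.ReflTransGen.single he)).trans hy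
    obtain ⟨a, c, d, b, hueq, hL1, hL2⟩ := exists_cut Lt hdownu (by
      intro g hg
      rw [hhead] at hg
      rw [← Option.some.inj hg]
      exact Relation.ReflTransGen.refl) ⟨z0, hz0, hz0'⟩
    obtain ⟨a', c', d', b', hveq, hL1', hL2'⟩ := exists_cut (u := v) Lt hdownv (by
      intro g hg
      have : Reach v g h := reach_hd hg ((hS.content h).1 hhu)
      exact (hreach _ _).2 this) ⟨z0, (hS.content z0).1 hz0, hz0'⟩
    have hLh : ∀ x, Lt x → ∀ y ∈ u, Reach u x y := fun x hx y hy =>
      hx.trans (reach_hd hhead hy)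
    have cuu : ∀ x y, (x, y) ∈ ed u → (Lt y → (x, y) ∈ ed (a ++ [c])) ∧
        (¬ Lt x → (x, y) ∈ ed (d :: b)) ∧ (Lt x → ¬ Lt y → x = c ∧ y = d) := by
      intro x y he
      rw [hueq] at he
      exact cut_edges hL1 hL2 he
    have cuv : ∀ x y, (x, y) ∈ ed v → (Lt y → (x, y) ∈ ed (a' ++ [c'])) ∧
        (¬ Lt x → (x, y) ∈ ed (d' :: b')) ∧ (Lt x → ¬ Lt y → x = c' ∧ y = d') := by
      intro x y he
      rw [hveq] at he
      exact cut_edges hL1' hL2' he
    have hLc : Lt c := hL1 c (by simp)
    have hLc' : Lt c' := hL1' c' (by simp)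
    have hLd : ¬ Lt d := hL2 d (by simp)
    have hLd' : ¬ Lt d' := hL2' d' (by simp)
    have hcdu : (c, d) ∈ ed u := by rw [hueq]; exact mem_ed_iff.2 ⟨a, b, rfl⟩
    have hcdv : (c', d') ∈ ed v := by rw [hveq]; exact mem_ed_iff.2 ⟨a', b', rfl⟩
    have hcu : c ∈ u := (mem_of_mem_ed hcdu).1
    have hdu : d ∈ u := (mem_of_mem_ed hcdu).2
    have hc'u : c' ∈ u := (hS.content _).2 (mem_of_mem_ed hcdv).1
    have hd'u : d' ∈ u := (hS.content _).2 (mem_of_mem_ed hcdv).2
    -- letters outside Lt are reachable from d in u and from d' in v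
    have hdr : ∀ z ∈ u, ¬ Lt z → Reach u d z := by
      intro z hz hLz
      rw [hueq] at hz ⊢
      have hz' : z ∈ d :: b := by
        rcases List.mem_append.1 hz with h | h
        · exact absurd (hL1 z (by simp [h])) hLz
        · rcases List.mem_cons.1 h with h | h
          · exact absurd (h ▸ hLc) hLz
          · exact h
      have := reach_from (a := a ++ [c]) (d := d) (b := b) hz'
      simpa using this
    have hdr' : ∀ z ∈ u, ¬ Lt z → Reach u d' z := by
      intro z hz hLz
      rw [hreach]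
      have hz := (hS.content z).1 hz
      rw [hveq] at hz ⊢
      have hz' : z ∈ d' :: b' := by
        rcases List.mem_append.1 hz with h | h
        · exact absurd (hL1' z (by simp [h])) hLz
        · rcases List.mem_cons.1 h with h | h
          · exact absurd (h ▸ hLc') hLz
          · exact h
      have := reach_from (a := a' ++ [c']) (d := d') (b := b') hz'
      simpa using this
    -- words with aligned letters
    obtain ⟨X, Y, hR1, hLX, hLY, hXu, hYu⟩ : ∃ X Y : List ℕ, R u (X ++ c' :: d' :: Y) ∧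
        (∀ z ∈ X ++ [c'], Lt z) ∧ (∀ z ∈ d' :: Y, ¬ Lt z) ∧ (∀ z ∈ X ++ [c'], z ∈ u) ∧
        (∀ z ∈ d' :: Y, z ∈ u) := by
      by_cases hr1 : K2 A p 1
      · obtain ⟨k, hk⟩ := huv c d hcdu
        -- last letter of the prefix
        obtain ⟨X, g1, _, _, g4⟩ := fixR hct hm0 (X := a) (D := d :: b) (c := c) (c' := c')
          (by
            intro hne
            rcases crossC hdownv (fun x y he => (cuv x y he).2.2) hk hLc hLd with
              h | ⟨a0, ha0, hca0, j, hj⟩
            · exact absurd h hne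
            · have ma0 : a0 ∈ u := (hS.content _).2 (mem_of_mem_ed hca0).2
              have e1 : (c, a0) ∈ ed u := by
                obtain ⟨k, hk⟩ := hvu _ _ hca0
                exact hzu k _ _ hk (hLh a0 ha0 c hcu)
              have e2 : (c', a0) ∈ ed v := hzv j _ _ hj ((hreach _ _).1 (hLh a0 ha0 c' hc'u))
              have e3 : (c', a0) ∈ ed u := by
                obtain ⟨k, hk⟩ := hvu _ _ e2
                exact hzu k _ _ hk (hLh a0 ha0 c' hc'u)
              have inner : ∀ x, Lt x → Reach u a0 x → Reach (a ++ [c]) a0 x := by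
                intro x hx hr
                induction hr with
                | refl => exact Relation.ReflTransGen.refl
                | @tail y z _ h2 ih =>
                  exact (ih (hdownu _ _ h2 hx)).tail ((cuu _ _ h2).1 hx)
              exact ⟨a0, (cuu _ _ e1).1 ha0, (cuu _ _ e3).1 ha0,
                inner c' hLc' (hLh a0 ha0 c' hc'u), inner c hLc (hLh a0 ha0 c hcu)⟩)
          (by
            intro a0 s t
            have := hct.app [] b (hL.law7 hK hr1 c a0 c' d s t)
            simpa using this)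
        obtain ⟨Y, w1, _, _, w4⟩ := fixL hct hm0 (X := X ++ [c']) (D := b) (d := d) (d' := d')
          (by
            intro hne
            rcases crossD hdownv (fun x y he => (cuv x y he).2.2) hLd k c hk (Or.inl hLc) with
              h | ⟨b0, hb0, hb0d, j, hj⟩
            · exact absurd h hne
            · have mb0 : b0 ∈ u := (hS.content _).2 (mem_of_mem_ed hb0d).1
              have e1 : (b0, d) ∈ ed u := by
                obtain ⟨k, hk⟩ := hvu _ _ hb0d
                exact hzu k _ _ hk (hdr b0 mb0 hb0)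
              have e2 : (b0, d') ∈ ed v := hzv j _ _ hj ((hreach _ _).1 (hdr' b0 mb0 hb0))
              have e3 : (b0, d') ∈ ed u := by
                obtain ⟨k, hk⟩ := hvu _ _ e2
                exact hzu k _ _ hk (hdr' b0 mb0 hb0)
              have inner : ∀ x y, ¬ Lt x → Reach u x y → Reach (d :: b) x y := by
                intro x y hx hr
                have hge : ¬ Lt y ∧ Reach (d :: b) x y := by
                  induction hr with
                  | refl => exact ⟨hx, Relation.ReflTransGen.refl⟩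
                  | @tail y z _ h2 ih =>
                    exact ⟨fun hz => ih.1 (hdownu _ _ h2 hz), ih.2.tail ((cuu _ _ h2).2.1 ih.1)⟩
                exact hge.2
              exact ⟨b0, (cuu _ _ e1).2.1 hb0, (cuu _ _ e3).2.1 hb0,
                inner d b0 hLd (hdr b0 mb0 hb0), inner d' b0 hLd' (hdr' b0 mb0 hb0)⟩)
          (by
            intro b0 s t
            have := hct.app X [] (hL.law8 hK hr1 c' d b0 d' s t)
            simpa using this)
        refine ⟨X, Y, ?_, ?_, ?_, ?_, ?_⟩
        · rw [hueq]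
          refine hct.trans g1 ?_
          simpa using w1
        · intro z hz; exact hL1 z ((g4 z).1 hz)
        · intro z hz; exact hL2 z ((w4 z).1 hz)
        · intro z hz
          have := (g4 z).1 hz
          rw [hueq]
          rw [List.mem_append] at this ⊢
          rcases this with h | h
          · exact Or.inl h
          · exact Or.inr (by simp only [List.mem_singleton] at h; simp [h])
        · intro z hz
          have := (w4 z).1 hz
          rw [hueq]
          exact List.mem_append.2 (Or.inr (List.mem_cons_of_mem _ this))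
      · -- nontrivial cross-ratios: the crossing pairs agree
        have hcd : c = c' ∧ d = d' := by
          have hr1' := hr1
          simp only [K2, not_forall] at hr1'
          obtain ⟨la, ia, lb, ib, q1, q2, q3, q4, q5⟩ := hr1'
          have hi : ia ≠ ib := by
            rintro rfl
            apply q5
            rw [sub_self, zero_sub, neg_add_cancel, smul_zero]
          have hl : la ≠ lb := by
            rintro rfl
            apply q5
            rw [one_smul]; abel
          have e1 := hS.head_eq q1 q2 hi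
          have e2 := hS.last_eq q1 q3 hl
          have e3 := hS.K2_natAbs hm e1 e2 hu hv c d
          by_cases hmem : (c, d) ∈ ed v
          · exact (cuv _ _ hmem).2.2 hLc hLd
          · exfalso
            have e4 : (ed v).count (c, d) = 0 := Multiset.count_eq_zero.2 hmem
            have e5 : (ed u).count (c, d) = 1 := by
              rw [hueq, ed_append_two, Multiset.count_add, Multiset.count_cons_self,
                Multiset.count_eq_zero.2 (fun h => hLd (hL1 _ (mem_of_mem_ed h).2)),
                Multiset.count_eq_zero.2 (fun h => hL2 _ (mem_of_mem_ed h).1 hLc)]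
            rw [e4, e5] at e3
            exact hr1 (by simpa using e3)
        obtain ⟨rfl, rfl⟩ := hcd
        refine ⟨a, b, ?_, hL1, hL2, ?_, ?_⟩
        · rw [← hueq]; exact hct.refl _
        · intro z hz
          rw [hueq]
          rw [List.mem_append] at hz ⊢
          rcases hz with h | h
          · exact Or.inl h
          · exact Or.inr (by simp only [List.mem_singleton] at h; simp [h])
        · intro z hz
          rw [hueq]
          exact List.mem_append.2 (Or.inr (List.mem_cons_of_mem _ hz))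
    have hS2 : SId A p m (X ++ c' :: d' :: Y) (a' ++ c' :: d' :: b') := by
      have := ((hL.sound hR1).2 hu).symm.trans hS
      rwa [hveq] at this
    obtain ⟨s1, s2⟩ := sId_split hrow hcol hm hLX hLY hL1' hL2' hS2
    have c1 : (X ++ [c']).toFinset.card < n := by
      rw [← hcardu]
      refine Finset.card_lt_card ?_
      rw [Finset.ssubset_iff_of_subset (fun z hz =>
        List.mem_toFinset.2 (hXu z (List.mem_toFinset.1 hz)))]
      exact ⟨d, List.mem_toFinset.2 hdu, fun hd => hLd (hLX d (List.mem_toFinset.1 hd))⟩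
    have c2 : (d' :: Y).toFinset.card < n := by
      rw [← hcardu]
      refine Finset.card_lt_card ?_
      rw [Finset.ssubset_iff_of_subset (fun z hz =>
        List.mem_toFinset.2 (hYu z (List.mem_toFinset.1 hz)))]
      exact ⟨c, List.mem_toFinset.2 hcu, fun hc => hLY c (List.mem_toFinset.1 hc) hLc⟩
    have r1 := IH _ c1 (X ++ [c']) (a' ++ [c']) (by simp) (by simp) rfl s1
    have r2 := IH _ c2 (d' :: Y) (d' :: b') (by simp) (by simp) rfl s2
    have t1 := hct.app [] (d' :: Y) r1
    have t2 := hct.app (a' ++ [c']) [] r2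
    have t3 : R (X ++ c' :: d' :: Y) (a' ++ c' :: d' :: b') := by
      refine hct.trans (v := a' ++ [c'] ++ d' :: Y) ?_ ?_
      · simpa using t1
      · simpa using t2
    rw [hveq]
    exact hct.trans hR1 t3

end

end Pool.Agent.CZS
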