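import Pool.Agent.CZS.NFB
import Pool.Agent.CZS.MainK1

/-! Classification of the finitely based finite completely 0-simple semigroups over abelian groups
(in the form of Rees matrix semigroups). -/

set_option autoImplicit false

namespace Pool.Agent.CZS

section

variable {G I L : Type} [AddCommGroup G] [Finite G] {A : L → I → Prop} {p : L → I → G}

theorem exponent_facts (G : Type) [AddCommGroup G] [Finite G] :
    0 < AddMonoid.exponent G ∧ (∀ g : G, AddMonoid.exponent G • g = 0) ∧
      ∀ n : ℤ, (∀ g : G, n • g = 0) → (AddMonoid.exponent G : ℤ) ∣ n := by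
  refine ⟨Nat.pos_of_ne_zero AddMonoid.exponent_ne_zero_of_finite,
    AddMonoid.exponent_nsmul_eq_zero, ?_⟩
  intro n hn
  have : AddMonoid.exponent G ∣ n.natAbs := AddMonoid.exponent_dvd_of_forall_nsmul_eq_zero (by
    intro g
    rcases Int.natAbs_eq n with h | h
    · have := hn g
      rw [h, natCast_zsmul] at this
      exact this
    · have := hn g
      rw [h, neg_smul, natCast_zsmul, neg_eq_zero] at this
      exact this)
  exact Int.natCast_dvd.2 this

/-- If the laws imply all identities then the semigroup is finitely based. -/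
theorem FB_of_rel (l0 : L) (i0 : I) (h0 : A l0 i0)
    (h : ∀ r : ℕ, 0 < r → K2 A p r → (∀ k, K2 A p k → r ∣ k) → ∀ R : List ℕ → List ℕ → Prop,
      Laws A p (AddMonoid.exponent G) r R → ∀ u v : List ℕ, u ≠ [] → v ≠ [] →
        SId A p (AddMonoid.exponent G) u v → R u v) : FB (rmul A p) := by
  obtain ⟨hm0, hm, hmz⟩ := exponent_facts G
  obtain ⟨r, hr0, hrK, hrg⟩ := exists_gen_K2 hm0 hm A p
  obtain ⟨B, hB, hL⟩ := exists_laws A p r hm0 hm hmz h0
  refine ⟨B, hB, ?_⟩
  intro u v huv T _ hT g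
  have hS := sId_of_mod hmz h0 huv
  have hR := h r hr0 hrK hrg _ hL _ _ (by simp) (by simp) hS
  have := hR T hT g
  rw [evl_cons, evl_cons] at this
  exact WithOne.coe_inj.1 this

theorem FB_of_K1 (hrow : ∀ l, ∃ i, A l i) (hcol : ∀ i, ∃ l, A l i) (l0 : L) (hK : K1 A) :
    FB (rmul A p) := by
  obtain ⟨hm0, hm, hmz⟩ := exponent_facts G
  obtain ⟨i0, h0⟩ := hrow l0
  refine FB_of_rel l0 i0 h0 ?_
  intro r hr0 hrK hrg R hL u v hu hv hS
  by_cases hc : ∀ l i, A l i
  · exact complete_case hL hm0 hm hr0 hrK hrg hc hu hv hS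
  · push Not at hc
    obtain ⟨l1, i2, hn⟩ := hc
    exact noncomplete_case hL hm0 hm hr0 hrK hrg hK hrow hcol hn _ u v hu hv rfl hS

theorem FB_of_K3 (hK1 : ¬ K1 A) (hK3 : K3 A p) : FB (rmul A p) := by
  obtain ⟨hm0, hm, hmz⟩ := exponent_facts G
  have hK1' := hK1
  simp only [K1, not_forall] at hK1'
  obtain ⟨l, i, l', i', h1, h2, h3, h4⟩ := hK1'
  have hii : i' ≠ i := by rintro rfl; exact h4 h1
  have hll : l ≠ l' := by rintro rfl; exact h4 h3
  refine FB_of_rel l i h1 ?_
  intro r hr0 hrK hrg R hL u v hu hv hS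
  have hhead := hS.head_eq h3 h2 hii
  have hlast := hS.last_eq h1 h2 hll
  refine ct_main hm0 hL.ct hhead hlast
    (fun e => ⟨fun he => hS.symm.supp_of_not_K1 hK1 e he, fun he => hS.supp_of_not_K1 hK1 e he⟩) ?_
  rintro ⟨x, y⟩
  have hk := hS.K2_natAbs hm hhead hlast hu hv x y
  rcases Nat.eq_zero_or_pos
      (((ed u).count (x, y) : ℤ) - ((ed v).count (x, y) : ℤ)).natAbs with h | h
  · have : (ed u).count (x, y) = (ed v).count (x, y) := by omega
    rw [this]
  · have hg := hK3 _ h hk
    have hd : (AddMonoid.exponent G : ℤ) ∣ ((ed v).count (x, y) : ℤ) - ((ed u).count (x, y) : ℤ) := by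
      refine hmz _ fun g => ?_
      have hz := hg g
      rcases Int.natAbs_eq (((ed u).count (x, y) : ℤ) - ((ed v).count (x, y) : ℤ)) with h5 | h5
      · have : ((ed v).count (x, y) : ℤ) - ((ed u).count (x, y) : ℤ) =
          -((((ed u).count (x, y) : ℤ) - ((ed v).count (x, y) : ℤ)).natAbs : ℤ) := by omega
        rw [this, neg_smul, natCast_zsmul, hz, neg_zero]
      · have : ((ed v).count (x, y) : ℤ) - ((ed u).count (x, y) : ℤ) =
          ((((ed u).count (x, y) : ℤ) - ((ed v).count (x, y) : ℤ)).natAbs : ℤ) := by omega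
        rw [this, natCast_zsmul, hz]
    exact Nat.modEq_iff_dvd.2 hd

/-- **Classification.** -/
theorem FB_iff [Finite I] [Finite L] (hrow : ∀ l, ∃ i, A l i) (hcol : ∀ i, ∃ l, A l i) (l0 : L) :
    FB (rmul A p) ↔ K1 A ∨ K3 A p := by
  constructor
  · intro h
    by_contra hn
    push Not at hn
    exact not_FB A p hn.1 hn.2 h
  · intro h
    by_cases hK : K1 A
    · exact FB_of_K1 hrow hcol l0 hK
    · exact FB_of_K3 hK (h.resolve_left hK)

end

/-! ### Transfer along isomorphisms -/

theorem evo_equiv {S S' : Type} {op : S → S → S} {op' : S' → S' → S'} (f : S → S')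
    (hf : ∀ x y, f (op x y) = op' (f x) (f y)) (g : ℕ → S) (u : ℕ × List ℕ) :
    f (evo op g u) = evo op' (fun x => f (g x)) u := by
  obtain ⟨x, l⟩ := u
  simp only [evo]
  have : ∀ (l : List ℕ) (a : S), f (l.foldl (fun a y => op a (g y)) a) =
      l.foldl (fun a y => op' a (f (g y))) (f a) := by
    intro l
    induction l with
    | nil => intro a; rfl
    | cons y l ih => intro a; rw [List.foldl_cons, List.foldl_cons, ih, hf]
  exact this l _

theorem mod_equiv {S S' : Type} {op : S → S → S} {op' : S' → S' → S'} (f : S ≃ S')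
    (hf : ∀ x y, f (op x y) = op' (f x) (f y)) (u v : ℕ × List ℕ) :
    (∀ g : ℕ → S, evo op g u = evo op g v) ↔ ∀ g : ℕ → S', evo op' g u = evo op' g v := by
  constructor
  · intro h g
    have h1 := congrArg f (h (fun x => f.symm (g x)))
    rw [evo_equiv f hf, evo_equiv f hf] at h1
    simpa using h1
  · intro h g
    apply f.injective
    rw [evo_equiv f hf, evo_equiv f hf, h]

theorem FB_equiv {S S' : Type} {op : S → S → S} {op' : S' → S' → S'} (f : S ≃ S')
    (hf : ∀ x y, f (op x y) = op' (f x) (f y)) : FB op ↔ FB op' := by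
  constructor
  · rintro ⟨B, hB, h⟩
    exact ⟨B, fun b hb => (mod_equiv f hf b.1 b.2).1 (hB b hb),
      fun u v huv => h u v ((mod_equiv f hf u v).2 huv)⟩
  · rintro ⟨B, hB, h⟩
    exact ⟨B, fun b hb => (mod_equiv f hf b.1 b.2).2 (hB b hb),
      fun u v huv => h u v ((mod_equiv f hf u v).1 huv)⟩

end Pool.Agent.CZS
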