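import Pool.Agent.CZS.Defs

/-!
# Small subgraphs of the gain graph are balanced

All domains lose a bounded set `Bad` along edges, so `dom ∖ Bad` is the same for the two ends of an
edge; evaluating the labels at the least element of `dom ∖ Bad` gives a potential for the gains.
-/

set_option autoImplicit false
open scoped BigOperators

namespace Pool.Agent.CZS

theorem small_balanced {q N k : ℕ} (hk : 8 * N ^ 2 < k) (c : Finset ℕ) (hc : c.card ≤ N)
    (E : Finset (ℕ × ℕ)) (hE : ∀ e ∈ E, e.1 ∈ c ∧ e.2 ∈ c) (lam io : ℕ → Vx q)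
    (hadj : ∀ e ∈ E, HAdj k (lam e.1) (io e.2)) (D : ℕ → ℕ → ZMod q)
    (hD : ∀ x y, (x, y) ∉ E → D x y = 0)
    (hrow : ∀ x, ∑ y ∈ c, D x y = 0) (hcol : ∀ y, ∑ x ∈ c, D x y = 0) :
    ∑ x ∈ c, ∑ y ∈ c, D x y * gain (lam x) (io y) = 0 := by
  classical
  set Bad : Finset ℕ := E.biUnion fun e => (io e.2).1 \ (lam e.1).1 with hBad
  have hEcard : E.card ≤ N ^ 2 := by
    have h1 : E ⊆ c ×ˢ c := fun e he => Finset.mem_product.2 (hE e he)
    calc E.card ≤ (c ×ˢ c).card := Finset.card_le_card h1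
      _ = c.card * c.card := Finset.card_product _ _
      _ ≤ N * N := Nat.mul_le_mul hc hc
      _ = N ^ 2 := by ring
  have hBadcard : Bad.card ≤ 2 * N ^ 2 := by
    calc Bad.card ≤ E.card * 2 := by
          apply Finset.card_biUnion_le_card_mul
          intro e he
          obtain ⟨h1, h2, h3, _⟩ := hadj e he
          rw [Finset.card_sdiff_of_subset h3]
          omega
      _ ≤ 2 * N ^ 2 := by omega
  have hsame : ∀ x y, (x, y) ∈ E → (lam x).1 \ Bad = (io y).1 \ Bad := by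
    intro x y hxy
    obtain ⟨_, _, h3, _⟩ := hadj (x, y) hxy
    ext n
    simp only [Finset.mem_sdiff]
    constructor
    · rintro ⟨h4, h5⟩
      exact ⟨h3 h4, h5⟩
    · rintro ⟨h4, h5⟩
      refine ⟨?_, h5⟩
      by_contra h6
      apply h5
      rw [hBad, Finset.mem_biUnion]
      exact ⟨(x, y), hxy, Finset.mem_sdiff.2 ⟨h4, h6⟩⟩
  have hne : ∀ x y, (x, y) ∈ E → ((lam x).1 \ Bad).Nonempty := by
    intro x y hxy
    obtain ⟨h1, _, _, _⟩ := hadj (x, y) hxy
    rw [← Finset.card_pos]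
    have h4 := Finset.le_card_sdiff Bad (lam x).1
    simp only at h1
    omega
  have hgain : ∀ x y, (x, y) ∈ E → gain (lam x) (io y) =
      (io y).2 (sInf (((io y).1 \ Bad : Finset ℕ) : Set ℕ)) -
        (lam x).2 (sInf (((lam x).1 \ Bad : Finset ℕ) : Set ℕ)) := by
    intro x y hxy
    obtain ⟨h1, _, _, e0, he0⟩ := hadj (x, y) hxy
    simp only at h1 he0
    rw [← hsame x y hxy]
    have h4 : sInf (((lam x).1 \ Bad : Finset ℕ) : Set ℕ) ∈ (lam x).1 := by
      have h5 := Nat.sInf_mem (s := (((lam x).1 \ Bad : Finset ℕ) : Set ℕ)) (hne x y hxy)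
      exact (Finset.mem_sdiff.1 (Finset.mem_coe.1 h5)).1
    have h6 : sInf (((lam x).1 : Finset ℕ) : Set ℕ) ∈ (lam x).1 := by
      have h7 : (lam x).1.Nonempty := ⟨_, h4⟩
      exact Finset.mem_coe.1 (Nat.sInf_mem (s := (((lam x).1 : Finset ℕ) : Set ℕ)) h7)
    unfold gain
    rw [he0 _ h6, he0 _ h4]
    ring
  have hterm : ∀ x ∈ c, ∀ y ∈ c, D x y * gain (lam x) (io y) =
      D x y * (io y).2 (sInf (((io y).1 \ Bad : Finset ℕ) : Set ℕ)) -
        D x y * (lam x).2 (sInf (((lam x).1 \ Bad : Finset ℕ) : Set ℕ)) := by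
    intro x _ y _
    by_cases hxy : (x, y) ∈ E
    · rw [hgain x y hxy]; ring
    · rw [hD x y hxy]; ring
  rw [Finset.sum_congr rfl fun x hx => Finset.sum_congr rfl fun y hy => hterm x hx y hy]
  simp only [Finset.sum_sub_distrib]
  rw [Finset.sum_comm]
  simp only [← Finset.sum_mul]
  rw [Finset.sum_eq_zero (s := c) (fun y _ => by rw [hcol y, zero_mul]),
    Finset.sum_eq_zero (s := c) (fun x _ => by rw [hrow x, zero_mul]), sub_zero]

end Pool.Agent.CZS
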