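import Pool.Agent.CZS.Blocks
import Pool.Agent.CZS.Small
import Pool.Agent.CZS.Key

/-! Non-finitely-based direction. -/

set_option autoImplicit false
open scoped BigOperators

namespace Pool.Agent.CZS

/-! ### The infinite Rees matrix semigroup over `ZMod m` -/

/-- The entries: `t` times the gain. -/
noncomputable def gp (q m t : ℕ) (x y : Vx q) : ZMod m := (t : ZMod m) * ((gain x y).val : ZMod m)

/-- It satisfies the identities with few letters of a semigroup of the family. -/
theorem small_identity {G I L : Type} [AddCommGroup G] {A : L → I → Prop} {p : L → I → G}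
    (hK1 : ¬ K1 A) {r t q : ℕ} (hr0 : 0 < r) (hq : 1 < q) (hm : ∀ g : G, (r * t * q) • g = 0)
    (hr : ∀ k, K2 A p k → r ∣ k) {N k : ℕ} (hk : 8 * N ^ 2 < k) {u v : List ℕ} (hu : u ≠ [])
    (hv : v ≠ []) (hN : u.toFinset.card ≤ N) (h : SId A p (r * t * q) u v) :
    SId (HAdj (q := q) k) (gp q (r * t * q) t) (r * t * q) u v := by
  classical
  set m := r * t * q with hmdef
  have hq0 : 0 < q := by omega
  have : NeZero q := ⟨by omega⟩
  -- heads and last letters
  have hK1' := hK1
  simp only [K1, not_forall] at hK1'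
  obtain ⟨l, i, l', i', h1, h2, h3, h4⟩ := hK1'
  have hii : i' ≠ i := by rintro rfl; exact h4 h1
  have hll : l ≠ l' := by rintro rfl; exact h4 h3
  have hhead : u.head? = v.head? := h.head_eq h3 h2 hii
  have hlast : u.getLast? = v.getLast? := h.last_eq h1 h2 hll
  have hsupp : ∀ e, e ∈ ed u ↔ e ∈ ed v := fun e =>
    ⟨fun he => h.symm.supp_of_not_K1 hK1 e he, fun he => h.supp_of_not_K1 hK1 e he⟩
  have hmg : ∀ g : G, m • g = 0 := hm
  -- differences
  have hdvd : ∀ x y, (r : ℤ) ∣ ((ed u).count (x, y) : ℤ) - ((ed v).count (x, y) : ℤ) := by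
    intro x y
    have := hr _ (h.K2_natAbs hmg hhead hlast hu hv x y)
    exact Int.natCast_dvd.2 this
  choose D' hD' using hdvd
  have hc1 : ∀ e ∈ ed u, e.1 ∈ u.toFinset ∧ e.2 ∈ u.toFinset := by
    rintro ⟨x, y⟩ he
    have := mem_of_mem_ed he
    exact ⟨List.mem_toFinset.2 this.1, List.mem_toFinset.2 this.2⟩
  have hc2 : ∀ e ∈ ed v, e.1 ∈ u.toFinset ∧ e.2 ∈ u.toFinset := fun e he =>
    hc1 e ((hsupp e).2 he)
  refine ⟨h.content, h.occ, ?_, ?_, ?_, ?_⟩
  · intro la io
    exact ⟨fun hO e he => hO e ((hsupp e).2 he), fun hO e he => hO e ((hsupp e).1 he)⟩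
  · intro la io _; rw [hhead]
  · intro la io _; rw [hlast]
  · intro la io hO
    rw [psum, psum, sum_map_count (ed u) u.toFinset hc1, sum_map_count (ed v) u.toFinset hc2,
      ← sub_eq_zero, ← Finset.sum_sub_distrib]
    simp only [← Finset.sum_sub_distrib]
    -- the hom iota
    have hqa : q • ((r * t : ℕ) : ZMod m) = 0 := by
      rw [nsmul_eq_mul, ← Nat.cast_mul]
      have : q * (r * t) = m := by rw [hmdef]; ring
      rw [this, ZMod.natCast_self]
    let ι : ZMod q →+ ZMod m := ZMod.lift q ⟨zmultiplesHom (ZMod m) ((r * t : ℕ) : ZMod m), by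
      simpa using hqa⟩
    have hι : ∀ e : ZMod q, r • ((t : ZMod m) * (e.val : ZMod m)) = ι e := by
      intro e
      have h1 : ι e = ι ((e.val : ℤ) : ZMod q) := by
        congr 1
        rw [Int.cast_natCast, ZMod.natCast_zmod_val]
      rw [h1]
      simp only [ι]
      rw [ZMod.lift_coe]
      simp only [zmultiplesHom_apply, natCast_zsmul, nsmul_eq_mul, Nat.cast_mul]
      ring
    have key : ∀ x y, (ed u).count (x, y) • gp q m t (la x) (io y) -
        (ed v).count (x, y) • gp q m t (la x) (io y) =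
        ι (((D' x y : ℤ) : ZMod q) * gain (la x) (io y)) := by
      intro x y
      have h5 : (ed u).count (x, y) • gp q m t (la x) (io y) -
        (ed v).count (x, y) • gp q m t (la x) (io y) =
          (((ed u).count (x, y) : ℤ) - ((ed v).count (x, y) : ℤ)) • gp q m t (la x) (io y) := by
        rw [sub_smul, natCast_zsmul, natCast_zsmul]
      rw [h5, hD' x y, mul_comm, mul_smul, natCast_zsmul]
      unfold gp
      rw [hι, ← map_zsmul, zsmul_eq_mul]
    simp only [key]
    rw [← map_zero ι]
    simp only [← map_sum]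
    congr 1
    have hqm : ∀ a b : ℕ → ℤ, ∀ s : Finset ℕ, (m : ℤ) ∣ ∑ y ∈ s, a y → (∀ y, a y = r * b y) →
        ((∑ y ∈ s, b y : ℤ) : ZMod q) = 0 := by
      intro a b s hd hab
      rw [ZMod.intCast_zmod_eq_zero_iff_dvd]
      have h6 : ∑ y ∈ s, a y = r * ∑ y ∈ s, b y := by
        rw [Finset.mul_sum]; exact Finset.sum_congr rfl fun y _ => hab y
      rw [h6] at hd
      have h7 : (m : ℤ) = r * (t * q) := by rw [hmdef]; push_cast; ring
      rw [h7] at hd
      have h8 : ((t : ℤ) * q) ∣ ∑ y ∈ s, b y :=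
        Int.dvd_of_mul_dvd_mul_left (by exact_mod_cast hr0.ne') hd
      exact (Dvd.intro_left _ rfl).trans h8
    refine small_balanced hk u.toFinset hN (ed u).toFinset ?_ la io ?_
      (fun x y => ((D' x y : ℤ) : ZMod q)) ?_ ?_ ?_
    · intro e he; exact hc1 e (Multiset.mem_toFinset.1 he)
    · intro e he; exact hO e (Multiset.mem_toFinset.1 he)
    · intro x y he
      have e1 : (ed u).count (x, y) = 0 :=
        Multiset.count_eq_zero.2 fun h => he (Multiset.mem_toFinset.2 h)
      have e2 : (ed v).count (x, y) = 0 :=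
        Multiset.count_eq_zero.2 fun h => he (Multiset.mem_toFinset.2 ((hsupp _).2 h))
      have e3 := hD' x y
      rw [e1, e2, sub_self] at e3
      have e4 : D' x y = 0 := by
        rcases mul_eq_zero.1 e3.symm with h | h
        · exact absurd h (by exact_mod_cast hr0.ne')
        · exact h
      simp [e4]
    · intro x
      have e1 := hqm (fun y => ((ed u).count (x, y) : ℤ) - ((ed v).count (x, y) : ℤ))
        (fun y => D' x y) u.toFinset (by
          rw [Finset.sum_sub_distrib, ← Nat.cast_sum, ← Nat.cast_sum,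
            sum_count_fst (ed u) u.toFinset (fun e he => (hc1 e he).2),
            sum_count_fst (ed v) u.toFinset (fun e he => (hc2 e he).2)]
          exact (Nat.modEq_iff_dvd.1 (count_fst_modEq h.occ hlast x).symm)) (hD' x)
      simpa using e1
    · intro y
      have e1 := hqm (fun x => ((ed u).count (x, y) : ℤ) - ((ed v).count (x, y) : ℤ))
        (fun x => D' x y) u.toFinset (by
          rw [Finset.sum_sub_distrib, ← Nat.cast_sum, ← Nat.cast_sum,
            sum_count_snd (ed u) u.toFinset (fun e he => (hc1 e he).1),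
            sum_count_snd (ed v) u.toFinset (fun e he => (hc2 e he).1)]
          exact (Nat.modEq_iff_dvd.1 (count_snd_modEq h.occ hhead y).symm)) (fun x => hD' x y)
      simpa using e1

/-- **Non-finitely-based direction.** -/
theorem not_FB {G I L : Type} [AddCommGroup G] [Finite G] [Finite I] [Finite L]
    (A : L → I → Prop) (p : L → I → G) (hK1 : ¬ K1 A) (hK3 : ¬ K3 A p) : ¬ FB (rmul A p) := by
  classical
  rintro ⟨B, hB, hcomp⟩
  -- the exponent
  set m := AddMonoid.exponent G with hm_def
  have hm0 : 0 < m := Nat.pos_of_ne_zero AddMonoid.exponent_ne_zero_of_finite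
  have hm : ∀ g : G, m • g = 0 := AddMonoid.exponent_nsmul_eq_zero
  have hmz : ∀ n : ℤ, (∀ g : G, n • g = 0) → (m : ℤ) ∣ n := by
    intro n hn
    have : m ∣ n.natAbs := AddMonoid.exponent_dvd_of_forall_nsmul_eq_zero (by
      intro g
      rcases Int.natAbs_eq n with h | h
      · have := hn g
        rw [h, natCast_zsmul] at this
        exact this
      · have := hn g
        rw [h, neg_smul, natCast_zsmul, neg_eq_zero] at this
        exact this)
    exact Int.natCast_dvd.2 this
  obtain ⟨r, hr0, hrK, hr⟩ := exists_gen_K2 hm0 hm A p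
  have hrm : r ∣ m := hr m (fun l i l' i' _ _ _ _ => hm _)
  have hrne : r ≠ m := by
    intro h
    simp only [K3, not_forall] at hK3
    obtain ⟨k, _, hk, g, hg⟩ := hK3
    have h1 := hr k hk
    rw [h] at h1
    obtain ⟨c, rfl⟩ := h1
    exact hg (by rw [mul_comm, mul_smul, hm, smul_zero])
  obtain ⟨s, hs⟩ := hrm
  have hs1 : s ≠ 1 := by rintro rfl; exact hrne (by rw [hs, mul_one])
  obtain ⟨q, hqp, hqs⟩ := Nat.exists_prime_and_dvd hs1
  obtain ⟨t, rfl⟩ := hqs
  have hmeq : m = r * t * q := by rw [hs]; ring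
  have hq1 : 1 < q := hqp.one_lt
  have hq0 : 0 < q := by omega
  have hrt : 0 < r * t := by
    rcases Nat.eq_zero_or_pos (r * t) with h | h
    · rw [hmeq, h, zero_mul] at hm0; omega
    · exact h
  have : NeZero q := ⟨by omega⟩
  -- constants
  set N : ℕ := ∑ b ∈ B, (b.1.2.length + 1) with hN
  set k : ℕ := 8 * N ^ 2 + 1 with hk
  obtain ⟨F, M, X, Y, hF, hXM, hXY, hgain, hhom⟩ := key_lemma A (fun l i => r • p l i) (by
    intro l i l' i' h1 h2 h3 h4
    have := hrK l i l' i' h1 h2 h3 h4
    rw [← this]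
    simp only [smul_add, smul_sub]) (k := k) (q := q) (by omega) hq1
  have hMpos : 0 < M := by
    rcases Nat.eq_zero_or_pos M with h | h
    · rw [h] at hgain
      simp only [Finset.range_zero, Finset.sum_empty] at hgain
      have : Fact (1 < q) := ⟨hq1⟩
      exact absurd hgain zero_ne_one
    · exact h
  -- codes of the vertices
  let W : Finset (Vx q) := F.image Prod.fst ∪ F.image Prod.snd
  obtain ⟨idx, hidx⟩ := Set.countable_iff_exists_injOn.1 (W.finite_toSet.countable)
  have hW1 : ∀ e ∈ F, e.1 ∈ W := fun e he =>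
    Finset.mem_union_left _ (Finset.mem_image_of_mem _ he)
  have hW2 : ∀ e ∈ F, e.2 ∈ W := fun e he =>
    Finset.mem_union_right _ (Finset.mem_image_of_mem _ he)
  have hne : Nonempty (Vx q) := ⟨(∅, fun _ => 0)⟩
  let dec : ℕ → Vx q := Function.invFunOn idx (W : Set (Vx q))
  have hdec : ∀ w ∈ W, dec (idx w) = w := fun w hw => hidx.leftInvOn_invFunOn hw
  let ca : Vx q → ℕ := fun x => 2 * idx x + 1
  let cb : Vx q → ℕ := fun x => 2 * idx x + 2
  -- the words
  let lF : List (ℕ × ℕ) := F.toList.map (fun e => (ca e.1, cb e.2))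
  let lU : List (ℕ × ℕ) := lF ++
    (List.range M).flatMap (fun j => List.replicate r (ca (X j), cb (Y j)))
  let lV : List (ℕ × ℕ) := lF ++
    (List.range M).flatMap (fun j => List.replicate r (ca (X (j + 1)), cb (Y j)))
  have memF : ∀ e, e ∈ lF ↔ ∃ f ∈ F, e = (ca f.1, cb f.2) := by
    intro e
    simp only [lF, List.mem_map, Finset.mem_toList]
    exact ⟨fun ⟨a, h1, h2⟩ => ⟨a, h1, h2.symm⟩, fun ⟨a, h1, h2⟩ => ⟨a, h1, h2.symm⟩⟩
  have memU : ∀ e, e ∈ lU ↔ e ∈ lF := by
    intro e
    constructor
    · intro h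
      rcases List.mem_append.1 h with h | h
      · exact h
      · rw [List.mem_flatMap] at h
        obtain ⟨j, hj, h⟩ := h
        rw [List.mem_range] at hj
        have := List.eq_of_mem_replicate h
        rw [this, memF]
        exact ⟨_, (hXY j hj).1, rfl⟩
    · exact fun h => List.mem_append.2 (Or.inl h)
  have memV : ∀ e, e ∈ lV ↔ e ∈ lF := by
    intro e
    constructor
    · intro h
      rcases List.mem_append.1 h with h | h
      · exact h
      · rw [List.mem_flatMap] at h
        obtain ⟨j, hj, h⟩ := h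
        rw [List.mem_range] at hj
        have := List.eq_of_mem_replicate h
        rw [this, memF]
        exact ⟨_, (hXY j hj).2, rfl⟩
    · exact fun h => List.mem_append.2 (Or.inl h)
  have sumU : ∀ {H : Type} [AddCommMonoid H] (h : ℕ × ℕ → H), (lU.map h).sum =
      (lF.map h).sum + ∑ j ∈ Finset.range M, r • h (ca (X j), cb (Y j)) := by
    intro H _ h
    simp only [lU, List.map_append, List.sum_append]
    rw [sum_map_flatMap M r (fun j => (ca (X j), cb (Y j))) h]
  have sumV : ∀ {H : Type} [AddCommMonoid H] (h : ℕ × ℕ → H), (lV.map h).sum =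
      (lF.map h).sum + ∑ j ∈ Finset.range M, r • h (ca (X (j + 1)), cb (Y j)) := by
    intro H _ h
    simp only [lV, List.map_append, List.sum_append]
    rw [sum_map_flatMap M r (fun j => (ca (X (j + 1)), cb (Y j))) h]
  have hEU : ∀ e, e ∈ ed (0 :: blocks lU) ↔ e ∈ ed (0 :: blocks lV) := by
    intro e
    rw [mem_ed_blocks, mem_ed_blocks]
    simp only [memU, memV]
  -- S satisfies the identity
  have hK1' := hK1
  simp only [K1, not_forall] at hK1'
  obtain ⟨l0, i0, l0', i0', hA0, hA1, hA2, hA3⟩ := hK1'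
  have hS : SId A p m (0 :: blocks lU) (0 :: blocks lV) := by
    refine ⟨?_, ?_, ?_, ?_, ?_, ?_⟩
    · intro x
      rw [mem_blocks, mem_blocks]
      simp only [memU, memV]
    · intro x
      rw [count_blocks, count_blocks, sumU, sumV]
      have : ∑ j ∈ Finset.range M, r • ((if x = (ca (X j), cb (Y j)).1 then 1 else 0) +
          (if x = (ca (X j), cb (Y j)).2 then 1 else 0) + (if x = 0 then 1 else 0)) =
          ∑ j ∈ Finset.range M, r • ((if x = (ca (X (j + 1)), cb (Y j)).1 then 1 else 0) +
          (if x = (ca (X (j + 1)), cb (Y j)).2 then 1 else 0) + (if x = 0 then 1 else 0)) := by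
        simp only [smul_add, Finset.sum_add_distrib]
        rw [sum_shift M X hXM (fun w => r • (if x = ca w then 1 else 0))]
      rw [this]
    · intro la io
      exact ⟨fun h e he => h e ((hEU e).2 he), fun h e he => h e ((hEU e).1 he)⟩
    · intro la io _; simp
    · intro la io _; rw [last_blocks, last_blocks]
    · intro la io hO
      rw [psum, psum, ed_blocks, ed_blocks, sumU, sumV]
      congr 1
      have h1 := hhom (fun w => la (ca w)) (fun w => io (cb w)) (by
        intro e he
        refine hO (ca e.1, cb e.2) ((mem_ed_blocks _ _).2 ⟨(ca e.1, cb e.2), ?_, Or.inr (Or.inl rfl)⟩)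
        rw [memU, memF]
        exact ⟨e, he, rfl⟩)
      rw [Finset.sum_sub_distrib, sub_eq_zero] at h1
      simp only [smul_add, Finset.sum_add_distrib]
      rw [h1, sum_shift M X hXM (fun w => r • p (la 0) (io (ca w)))]
  -- the infinite semigroup
  let AT : Vx q → Vx q → Prop := HAdj (q := q) k
  let pT : Vx q → Vx q → ZMod m := gp q m t
  let _ : Semigroup (Option (Vx q × ZMod m × Vx q)) :=
    { mul := rmul AT pT, mul_assoc := rmul_assoc AT pT }
  have hmodT : ∀ b ∈ B, ∀ g : ℕ → Option (Vx q × ZMod m × Vx q),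
      evo (fun a b : Option (Vx q × ZMod m × Vx q) => a * b) g b.1 =
        evo (fun a b : Option (Vx q × ZMod m × Vx q) => a * b) g b.2 := by
    intro b hb g
    have h1 := sId_of_mod hmz hA0 (hB b hb)
    have hcard : (b.1.1 :: b.1.2).toFinset.card ≤ N := by
      refine (List.toFinset_card_le _).trans ?_
      rw [List.length_cons, hN]
      exact Finset.single_le_sum (f := fun b : (ℕ × List ℕ) × (ℕ × List ℕ) => b.1.2.length + 1)
        (fun _ _ => Nat.zero_le _) hb
    have h2 : SId (HAdj (q := q) k) (gp q (r * t * q) t) (r * t * q) (b.1.1 :: b.1.2)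
        (b.2.1 :: b.2.2) := by
      refine small_identity (p := p) (A := A) hK1 hr0 hq1 ?_ hr (N := N) (k := k) (by omega)
        (by simp) (by simp) hcard ?_
      · intro g; rw [← hmeq]; exact hm g
      · rw [← hmeq]; exact h1
    rw [← hmeq] at h2
    exact mod_of_sId (G := ZMod m) (fun g => by simp) h2 g
  have hfin := hcomp (0, blocks lU) (0, blocks lV) (fun f => mod_of_sId hm hS f)
    (Option (Vx q × ZMod m × Vx q)) hmodT
  -- the bad substitution
  let la : ℕ → Vx q := fun n => if n % 2 = 1 then dec (n / 2) else X 0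
  let io : ℕ → Vx q := fun n => if n % 2 = 0 ∧ n ≠ 0 then dec (n / 2 - 1) else Y 0
  have la_ca : ∀ w ∈ W, la (ca w) = w := by
    intro w hw
    simp only [la, ca]
    rw [if_pos (by omega)]
    have : (2 * idx w + 1) / 2 = idx w := by omega
    rw [this, hdec w hw]
  have la_cb : ∀ w, la (cb w) = X 0 := by
    intro w
    simp only [la, cb]
    rw [if_neg (by omega)]
  have la_0 : la 0 = X 0 := by simp [la]
  have io_cb : ∀ w ∈ W, io (cb w) = w := by
    intro w hw
    simp only [io, cb]
    rw [if_pos (by omega)]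
    have : (2 * idx w + 2) / 2 - 1 = idx w := by omega
    rw [this, hdec w hw]
  have io_ca : ∀ w, io (ca w) = Y 0 := by
    intro w
    simp only [io, ca]
    rw [if_neg (by omega)]
  have io_0 : io 0 = Y 0 := by simp [io]
  have hXY0 : AT (X 0) (Y 0) := hF _ (hXY 0 hMpos).1
  have hOU : Ok AT la io (0 :: blocks lU) := by
    intro e he
    obtain ⟨e', he', h⟩ := (mem_ed_blocks _ _).1 he
    rw [memU, memF] at he'
    obtain ⟨f, hf, rfl⟩ := he'
    rcases h with rfl | rfl | rfl
    · simp only [la_0, io_ca]; exact hXY0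
    · simp only [la_ca _ (hW1 f hf), io_cb _ (hW2 f hf)]; exact hF f hf
    · simp only [la_cb, io_0]; exact hXY0
  have hOV : Ok AT la io (0 :: blocks lV) := fun e he => hOU e ((hEU e).2 he)
  have hval := hfin (fun x => some (io x, (0 : ZMod m), la x))
  have e1 := evo_some AT pT la io (fun _ => (0 : ZMod m)) (0, blocks lU)
  have e2 := evo_some AT pT la io (fun _ => (0 : ZMod m)) (0, blocks lV)
  rw [if_pos hOU] at e1
  rw [if_pos hOV] at e2
  have e3 : evo (rmul AT pT) (fun x => some (io x, (0 : ZMod m), la x)) (0, blocks lU) =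
      evo (rmul AT pT) (fun x => some (io x, (0 : ZMod m), la x)) (0, blocks lV) := hval
  rw [e1, e2] at e3
  simp only [Option.some.injEq, Prod.mk.injEq, true_and, List.map_const', List.sum_replicate,
    smul_zero, zero_add] at e3
  have e4 := e3.1
  rw [psum, psum, ed_blocks, ed_blocks, sumU, sumV] at e4
  have e5 := add_left_cancel e4
  simp only [smul_add, Finset.sum_add_distrib] at e5
  rw [sum_shift M X hXM (fun w => r • pT (la 0) (io (ca w)))] at e5
  have e6 := add_left_cancel (add_right_cancel e5)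
  rw [← sub_eq_zero, ← Finset.sum_sub_distrib] at e6
  -- evaluate
  have hqa : q • ((r * t : ℕ) : ZMod m) = 0 := by
    rw [nsmul_eq_mul, ← Nat.cast_mul]
    have : q * (r * t) = m := by rw [hmeq]; ring
    rw [this, ZMod.natCast_self]
  let ι : ZMod q →+ ZMod m := ZMod.lift q ⟨zmultiplesHom (ZMod m) ((r * t : ℕ) : ZMod m), by
    simpa using hqa⟩
  have hι : ∀ e : ZMod q, r • ((t : ZMod m) * (e.val : ZMod m)) = ι e := by
    intro e
    have h1 : ι e = ι ((e.val : ℤ) : ZMod q) := by
      congr 1
      rw [Int.cast_natCast, ZMod.natCast_zmod_val]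
    rw [h1]
    simp only [ι]
    rw [ZMod.lift_coe]
    simp only [zmultiplesHom_apply, natCast_zsmul, nsmul_eq_mul, Nat.cast_mul]
    ring
  have e7 : ∑ j ∈ Finset.range M, (r • pT (la (ca (X j))) (io (cb (Y j))) -
      r • pT (la (ca (X (j + 1)))) (io (cb (Y j)))) = ι 1 := by
    rw [← hgain, map_sum]
    refine Finset.sum_congr rfl fun j hj => ?_
    rw [Finset.mem_range] at hj
    have w1 := hW1 _ (hXY j hj).1
    have w2 := hW2 _ (hXY j hj).1
    have w3 := hW1 _ (hXY j hj).2
    simp only at w1 w2 w3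
    rw [la_ca _ w1, la_ca _ w3, io_cb _ w2, map_sub, ← hι, ← hι]
    rfl
  rw [e7] at e6
  have e8 : ι 1 = ((r * t : ℕ) : ZMod m) := by
    have : ι ((1 : ℤ) : ZMod q) = ((r * t : ℕ) : ZMod m) := by
      simp only [ι]
      rw [ZMod.lift_coe]
      simp
    rw [← this]; simp
  rw [e8, ZMod.natCast_eq_zero_iff] at e6
  have e9 := Nat.le_of_dvd hrt e6
  rw [hmeq] at e9
  nlinarith

end Pool.Agent.CZS
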