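import Pool.Agent.CZS.Basic

/-! Necessary conditions for an identity of a Rees matrix semigroup. -/

set_option autoImplicit false

namespace Pool.Agent.CZS

variable {G I L : Type} [AddCommGroup G]

section
variable {A : L → I → Prop} {p : L → I → G}

/-- Two words that have the same last letter (or are both empty). -/
theorem count_fst_modEq {m : ℕ} {u v : List ℕ} (hocc : ∀ x, u.count x ≡ v.count x [MOD m])
    (hlast : u.getLast? = v.getLast?) (x : ℕ) :
    ((ed u).map Prod.fst).count x ≡ ((ed v).map Prod.fst).count x [MOD m] := by
  have hu := congrArg (Multiset.count x) (map_fst_ed u)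
  have hv := congrArg (Multiset.count x) (map_fst_ed v)
  rw [Multiset.count_add, Multiset.coe_count] at hu hv
  rw [hlast] at hu
  have := hocc x
  rw [← hu, ← hv] at this
  exact Nat.ModEq.add_right_cancel' _ this

theorem count_snd_modEq {m : ℕ} {u v : List ℕ} (hocc : ∀ x, u.count x ≡ v.count x [MOD m])
    (hhead : u.head? = v.head?) (x : ℕ) :
    ((ed u).map Prod.snd).count x ≡ ((ed v).map Prod.snd).count x [MOD m] := by
  have hu := congrArg (Multiset.count x) (map_snd_ed u)
  have hv := congrArg (Multiset.count x) (map_snd_ed v)
  rw [Multiset.count_add, Multiset.coe_count] at hu hv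
  rw [hhead] at hu
  have := hocc x
  rw [← hu, ← hv] at this
  exact Nat.ModEq.add_right_cancel' _ this

theorem smul_congr {m : ℕ} (hm : ∀ g : G, m • g = 0) {a b : ℕ} (h : a ≡ b [MOD m]) (g : G) :
    a • g = b • g := by
  have red : ∀ n : ℕ, n • g = (n % m) • g := by
    intro n
    conv_lhs => rw [← Nat.mod_add_div n m, add_smul, mul_smul, smul_comm, hm, smul_zero, add_zero]
  rw [red, red b, h]

theorem card_ed_smul {m : ℕ} (hm : ∀ g : G, m • g = 0) {u v : List ℕ} (hu : u ≠ []) (hv : v ≠ [])
    (hocc : ∀ x, u.count x ≡ v.count x [MOD m]) (g : G) :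
    (ed u).card • g = (ed v).card • g := by
  have h := sum_map_congr hm (fun _ => g) hocc
  obtain ⟨x, a, rfl⟩ := List.exists_cons_of_ne_nil hu
  obtain ⟨y, b, rfl⟩ := List.exists_cons_of_ne_nil hv
  rw [card_ed, card_ed]
  simp only [List.map_const', List.sum_replicate, List.length_cons, add_smul, one_smul] at h
  exact add_right_cancel h

theorem sum_two_valued (x y : ℕ) (s : Multiset (ℕ × ℕ)) (a b c d : G) :
    (s.map (fun e => if e.1 = x then (if e.2 = y then a else b) else (if e.2 = y then c else d))).sum
      = s.count (x, y) • (a - b - c + d) + (s.map Prod.fst).count x • (b - d) +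
        (s.map Prod.snd).count y • (c - d) + s.card • d := by
  induction s using Multiset.induction_on with
  | empty => simp
  | cons e s ih =>
    obtain ⟨e1, e2⟩ := e
    rw [Multiset.map_cons, Multiset.sum_cons, ih]
    simp only [Multiset.map_cons, Multiset.card_cons, Multiset.count_cons]
    by_cases h1 : e1 = x
    · by_cases h2 : e2 = y
      · subst h1; subst h2
        simp only [if_true, add_smul, one_smul]; abel
      · subst h1
        have h3 : ¬ ((e1, y) = (e1, e2)) := by
          intro h; exact h2 (Prod.mk.inj h).2.symm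
        have h4 : ¬ (y = e2) := fun h => h2 h.symm
        simp only [if_true, h2, if_false, h3, h4, add_smul, one_smul, add_zero]; abel
    · have h3 : ¬ ((x, y) = (e1, e2)) := by
        intro h; exact h1 (Prod.mk.inj h).1.symm
      have h4 : ¬ (x = e1) := fun h => h1 h.symm
      by_cases h2 : e2 = y
      · subst h2
        simp only [if_true, h1, if_false, h3, h4, add_smul, one_smul, add_zero]; abel
      · have h5 : ¬ (y = e2) := fun h => h2 h.symm
        simp only [h2, h1, if_false, h3, h4, h5, add_smul, one_smul, add_zero]; abel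

theorem SId.symm {m : ℕ} {u v : List ℕ} (h : SId A p m u v) : SId A p m v u where
  content x := (h.content x).symm
  occ x := (h.occ x).symm
  ok la io := (h.ok la io).symm
  head la io hO := (h.head la io ((h.ok la io).2 hO)).symm
  last la io hO := (h.last la io ((h.ok la io).2 hO)).symm
  psum la io hO := (h.psum la io ((h.ok la io).2 hO)).symm

/-- Heads are equal when some row has two nonzero entries. -/
theorem SId.head_eq {m : ℕ} {u v : List ℕ} (h : SId A p m u v) {l : L} {i i' : I}
    (h1 : A l i) (h2 : A l i') (hne : i ≠ i') : u.head? = v.head? := by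
  classical
  cases hu : u.head? with
  | none =>
    cases hv : v.head? with
    | none => rfl
    | some y =>
      exfalso
      rw [List.head?_eq_none_iff] at hu
      have : y ∈ u := (h.content y).2 (List.mem_of_mem_head? hv)
      rw [hu] at this; simp at this
  | some x =>
    have hO : Ok A (fun _ => l) (fun y => if y = x then i else i') u := by
      intro e _
      dsimp only
      split_ifs
      · exact h1
      · exact h2
    have hh := h.head _ _ hO
    rw [hu] at hh
    cases hv : v.head? with
    | none =>
      rw [hv] at hh; simp at hh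
    | some y =>
      rw [hv] at hh
      simp only [Option.map_some, Option.some.injEq, if_true] at hh
      by_cases hyx : y = x
      · rw [hyx]
      · rw [if_neg hyx] at hh; exact absurd hh hne

theorem SId.last_eq {m : ℕ} {u v : List ℕ} (h : SId A p m u v) {l l' : L} {i : I}
    (h1 : A l i) (h2 : A l' i) (hne : l ≠ l') : u.getLast? = v.getLast? := by
  classical
  cases hu : u.getLast? with
  | none =>
    cases hv : v.getLast? with
    | none => rfl
    | some y =>
      exfalso
      rw [List.getLast?_eq_none_iff] at hu
      have : y ∈ u := (h.content y).2 (List.mem_of_getLast? hv)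
      rw [hu] at this; simp at this
  | some x =>
    have hO : Ok A (fun y => if y = x then l else l') (fun _ => i) u := by
      intro e _
      dsimp only
      split_ifs
      · exact h1
      · exact h2
    have hh := h.last _ _ hO
    rw [hu] at hh
    cases hv : v.getLast? with
    | none =>
      rw [hv] at hh; simp at hh
    | some y =>
      rw [hv] at hh
      simp only [Option.map_some, Option.some.injEq, if_true] at hh
      by_cases hyx : y = x
      · rw [hyx]
      · rw [if_neg hyx] at hh; exact absurd hh hne

/-- Adjacent pairs are the same when `K1` fails. -/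
theorem SId.supp_of_not_K1 {m : ℕ} {u v : List ℕ} (h : SId A p m u v) (hK : ¬ K1 A) (e : ℕ × ℕ)
    (he : e ∈ ed v) : e ∈ ed u := by
  classical
  simp only [K1, not_forall] at hK
  obtain ⟨l, i, l', i', h1, h2, h3, h4⟩ := hK
  by_contra hne
  obtain ⟨x, y⟩ := e
  have hO : Ok A (fun a => if a = x then l else l') (fun b => if b = y then i' else i) u := by
    rintro ⟨a, b⟩ hab
    dsimp only
    by_cases ha : a = x <;> by_cases hb : b = y
    · subst ha; subst hb; exact absurd hab hne
    · rw [if_pos ha, if_neg hb]; exact h1
    · rw [if_neg ha, if_pos hb]; exact h3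
    · rw [if_neg ha, if_neg hb]; exact h2
  have := (h.ok _ _).1 hO _ he
  simp only [if_true] at this
  exact h4 this

/-- The differences of the numbers of occurrences of a pair kill the cross-ratios. -/
theorem SId.K2_natAbs {m : ℕ} (hm : ∀ g : G, m • g = 0) {u v : List ℕ} (h : SId A p m u v)
    (hhead : u.head? = v.head?) (hlast : u.getLast? = v.getLast?) (hu : u ≠ []) (hv : v ≠ [])
    (x y : ℕ) :
    K2 A p (((ed u).count (x, y) : ℤ) - ((ed v).count (x, y) : ℤ)).natAbs := by
  classical
  intro l i l' i' h1 h2 h3 h4
  have hO : Ok A (fun a => if a = x then l else l') (fun b => if b = y then i else i') u := by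
    rintro ⟨a, b⟩ _
    dsimp only
    by_cases ha : a = x <;> by_cases hb : b = y
    · rw [if_pos ha, if_pos hb]; exact h1
    · rw [if_pos ha, if_neg hb]; exact h2
    · rw [if_neg ha, if_pos hb]; exact h3
    · rw [if_neg ha, if_neg hb]; exact h4
  have hp := h.psum _ _ hO
  have form : ∀ w : List ℕ, CZS.psum p (fun a => if a = x then l else l')
      (fun b => if b = y then i else i') w =
      (ed w).count (x, y) • (p l i - p l i' - p l' i + p l' i') +
        ((ed w).map Prod.fst).count x • (p l i' - p l' i') +
        ((ed w).map Prod.snd).count y • (p l' i - p l' i') + (ed w).card • p l' i' := by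
    intro w
    rw [← sum_two_valued]
    rw [CZS.psum]
    congr 1
    refine Multiset.map_congr rfl fun e _ => ?_
    by_cases ha : e.1 = x <;> by_cases hb : e.2 = y <;> simp [ha, hb]
  rw [form, form, smul_congr hm (count_fst_modEq h.occ hlast x),
    smul_congr hm (count_snd_modEq h.occ hhead y), card_ed_smul hm hu hv h.occ] at hp
  have hq := add_right_cancel (add_right_cancel (add_right_cancel hp))
  have hz : (((ed u).count (x, y) : ℤ) - ((ed v).count (x, y) : ℤ)) •
      (p l i - p l i' - p l' i + p l' i') = 0 := by
    rw [sub_smul, natCast_zsmul, natCast_zsmul, hq, sub_self]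
  rcases Int.natAbs_eq (((ed u).count (x, y) : ℤ) - ((ed v).count (x, y) : ℤ)) with h5 | h5
  · rw [h5, natCast_zsmul] at hz; exact hz
  · rw [h5, neg_smul, natCast_zsmul, neg_eq_zero] at hz; exact hz

/-- The generator of the `k` with `K2`. -/
theorem exists_gen_K2 {m : ℕ} (hm0 : 0 < m) (hm : ∀ g : G, m • g = 0) (A : L → I → Prop)
    (p : L → I → G) : ∃ r : ℕ, 0 < r ∧ K2 A p r ∧ ∀ k, K2 A p k → r ∣ k := by
  classical
  have hex : ∃ k : ℕ, 0 < k ∧ K2 A p k := ⟨m, hm0, fun l i l' i' _ _ _ _ => hm _⟩
  refine ⟨Nat.find hex, (Nat.find_spec hex).1, (Nat.find_spec hex).2, fun k hk => ?_⟩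
  by_contra hnd
  have hpos : 0 < k % Nat.find hex := Nat.pos_of_ne_zero fun h => hnd (Nat.dvd_of_mod_eq_zero h)
  refine Nat.find_min hex (Nat.mod_lt k (Nat.find_spec hex).1) ⟨hpos, ?_⟩
  intro l i l' i' h1 h2 h3 h4
  have ha := hk l i l' i' h1 h2 h3 h4
  have hb := (Nat.find_spec hex).2 l i l' i' h1 h2 h3 h4
  rw [← Nat.mod_add_div k (Nat.find hex), add_smul, mul_comm, mul_smul, hb, smul_zero, add_zero] at ha
  exact ha

end

end Pool.Agent.CZS
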