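import Pool.Agent.CZS.Defs

/-!
# Rees theorem for a finite 0-simple semigroup with a primitive idempotent (abelian case)
-/

set_option autoImplicit false

namespace Pool.Agent.CZS

namespace Rees

variable {S : Type} [Semigroup S]

/-- The data of the Rees theorem. -/
structure Data (z e : S) : Prop where
  hz1 : ∀ x, z * x = z
  hz2 : ∀ x, x * z = z
  ez : e ≠ z
  ee : e * e = e
  sim : ∀ x, x ≠ z → ∃ s t, e = s * x * t
  dec : ∀ y, ∃ s t, y = s * e * t
  prim : ∀ f, f ≠ z → f * f = f → e * f = f → f * e = f → f = e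
  ab : ∀ a b, (e * a * e) * (e * b * e) = (e * b * e) * (e * a * e)

variable {z e : S}

/-- The maximal subgroup at `e`. -/
def Gp (z e : S) : Type := {a : S // a ≠ z ∧ e * a = a ∧ a * e = a}

theorem Data.one_side (D : Data z e) {a : S} (ha : a ≠ z) (h1 : e * a = a) (h2 : a * e = a) :
    ∃ b, b ≠ z ∧ e * b = b ∧ b * e = b ∧ a * b = e ∧ b * a = e := by
  obtain ⟨x0, y0, hxy⟩ := D.sim a ha
  set x := e * x0 * e with hx
  set y := e * y0 * e with hy
  have ex : e * x = x := by rw [hx, ← mul_assoc, ← mul_assoc, D.ee]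
  have xe : x * e = x := by rw [hx, mul_assoc, D.ee]
  have ey : e * y = y := by rw [hy, ← mul_assoc, ← mul_assoc, D.ee]
  have ye : y * e = y := by rw [hy, mul_assoc, D.ee]
  have key : x * a * y = e := by
    calc x * a * y = e * (x0 * (e * a * e) * y0) * e := by
          rw [hx, hy]; simp only [mul_assoc]
      _ = e * (x0 * a * y0) * e := by rw [h1, h2]
      _ = e := by rw [← hxy, D.ee, D.ee]
  have key' : ∀ w, x * (a * (y * w)) = e * w := by
    intro w
    rw [← mul_assoc a y w, ← mul_assoc x (a * y) w, ← mul_assoc x a y, key]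
  -- f = a y x
  have hf : a * y * x = e := by
    apply D.prim
    · intro h0
      have : x * (a * y * x) * (a * y) = e := by
        calc x * (a * y * x) * (a * y) = (x * a * y) * (x * a * y) := by simp only [mul_assoc]
          _ = e := by rw [key, D.ee]
      rw [h0, D.hz2, D.hz1] at this
      exact D.ez this.symm
    · calc a * y * x * (a * y * x) = a * y * (x * a * y) * x := by simp only [mul_assoc]
        _ = a * y * x := by rw [key, mul_assoc (a * y) e x, ex]
    · rw [← mul_assoc e (a * y) x, ← mul_assoc e a y, h1]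
    · rw [mul_assoc (a * y) x e, xe]
  have hg : y * x * a = e := by
    apply D.prim
    · intro h0
      have : x * a * (y * x * a) * y = e := by
        calc x * a * (y * x * a) * y = (x * a * y) * (x * a * y) := by simp only [mul_assoc]
          _ = e := by rw [key, D.ee]
      rw [h0, D.hz2, D.hz1] at this
      exact D.ez this.symm
    · calc y * x * a * (y * x * a) = y * (x * a * y) * (x * a) := by simp only [mul_assoc]
        _ = y * x * a := by rw [key, mul_assoc y e, ← mul_assoc e x, ex, ← mul_assoc]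
    · rw [← mul_assoc, ← mul_assoc, ey]
    · rw [mul_assoc, h2]
  refine ⟨y * x, ?_, ?_, ?_, ?_, ?_⟩
  · intro h0
    rw [h0, D.hz1] at hg
    exact D.ez hg.symm
  · rw [← mul_assoc, ey]
  · rw [mul_assoc, xe]
  · rw [← mul_assoc]; exact hf
  · exact hg

theorem Data.mul_ne (D : Data z e) {a b : S} (ha : a ≠ z) (h1 : e * a = a) (h2 : a * e = a)
    (hb : b ≠ z) (hb1 : e * b = b) : a * b ≠ z := by
  obtain ⟨c, _, _, _, _, hca⟩ := D.one_side ha h1 h2
  intro h0
  have : c * (a * b) = b := by rw [← mul_assoc, hca, hb1]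
  rw [h0, D.hz2] at this
  exact hb this.symm

theorem Data.mul_ne' (D : Data z e) {a b : S} (ha : a ≠ z) (h1 : e * a = a) (h2 : a * e = a)
    (hb : b ≠ z) (hb1 : b * e = b) : b * a ≠ z := by
  obtain ⟨c, _, _, _, hac, _⟩ := D.one_side ha h1 h2
  intro h0
  have : (b * a) * c = b := by rw [mul_assoc, hac, hb1]
  rw [h0, D.hz1] at this
  exact hb this.symm

/-- The commutative group structure on `Gp z e`. -/
@[instance_reducible] noncomputable def Data.commGroup (D : Data z e) : CommGroup (Gp z e) where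
  mul a b := ⟨a.1 * b.1, D.mul_ne a.2.1 a.2.2.1 a.2.2.2 b.2.1 b.2.2.1,
    by rw [← mul_assoc, a.2.2.1], by rw [mul_assoc, b.2.2.2]⟩
  mul_assoc a b c := Subtype.ext (mul_assoc a.1 b.1 c.1)
  one := ⟨e, D.ez, D.ee, D.ee⟩
  one_mul a := Subtype.ext a.2.2.1
  mul_one a := Subtype.ext a.2.2.2
  inv a := ⟨(D.one_side a.2.1 a.2.2.1 a.2.2.2).choose,
    (D.one_side a.2.1 a.2.2.1 a.2.2.2).choose_spec.1,
    (D.one_side a.2.1 a.2.2.1 a.2.2.2).choose_spec.2.1,
    (D.one_side a.2.1 a.2.2.1 a.2.2.2).choose_spec.2.2.1⟩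
  inv_mul_cancel a := Subtype.ext (D.one_side a.2.1 a.2.2.1 a.2.2.2).choose_spec.2.2.2.2
  mul_comm a b := by
    apply Subtype.ext
    show a.1 * b.1 = b.1 * a.1
    have h := D.ab a.1 b.1
    rwa [a.2.2.1, a.2.2.2, b.2.2.1, b.2.2.2] at h

/-- `e S ∖ {z}` -/
def Rt (z e : S) : Type := {r : S // r ≠ z ∧ e * r = r}

/-- `S e ∖ {z}` -/
def Lt (z e : S) : Type := {q : S // q ≠ z ∧ q * e = q}

theorem Data.rt_inv (D : Data z e) {r : S} (hr : r ≠ z) (h1 : e * r = r) :
    ∃ r', r' ≠ z ∧ r' * e = r' ∧ r * r' = e := by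
  obtain ⟨s, t, hst⟩ := D.sim r hr
  set x := e * s * e with hx
  have key : x * (r * (t * e)) = e := by
    calc x * (r * (t * e)) = e * (s * (e * r) * t) * e := by rw [hx]; simp only [mul_assoc]
      _ = e := by rw [h1, ← hst, D.ee, D.ee]
  have hxz : x ≠ z := by
    intro h0
    rw [h0, D.hz1] at key
    exact D.ez key.symm
  have ex : e * x = x := by rw [hx, ← mul_assoc, ← mul_assoc, D.ee]
  have xe : x * e = x := by rw [hx, mul_assoc, D.ee]
  obtain ⟨b, _, hb1, hb2, hxb, hbx⟩ := D.one_side hxz ex xe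
  have h3 : r * (t * e) = b := by
    calc r * (t * e) = e * (r * (t * e)) := by rw [← mul_assoc e r (t * e), h1]
      _ = b * (x * (r * (t * e))) := by rw [← mul_assoc b x, hbx]
      _ = b := by rw [key, hb2]
  refine ⟨t * e * x, ?_, ?_, ?_⟩
  · intro h0
    have : r * (t * e * x) = e := by
      rw [← mul_assoc, h3, hbx]
    rw [h0, D.hz2] at this
    exact D.ez this.symm
  · rw [mul_assoc, xe]
  · rw [← mul_assoc, h3, hbx]

theorem Data.lt_inv (D : Data z e) {q : S} (hq : q ≠ z) (h1 : q * e = q) :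
    ∃ q', q' ≠ z ∧ e * q' = q' ∧ q' * q = e := by
  obtain ⟨s, t, hst⟩ := D.sim q hq
  set x := e * t * e with hx
  have key : (e * s) * q * x = e := by
    calc (e * s) * q * x = e * (s * (q * e) * t) * e := by rw [hx]; simp only [mul_assoc]
      _ = e := by rw [h1, ← hst, D.ee, D.ee]
  have hxz : x ≠ z := by
    intro h0
    rw [h0, D.hz2] at key
    exact D.ez key.symm
  have ex : e * x = x := by rw [hx, ← mul_assoc, ← mul_assoc, D.ee]
  have xe : x * e = x := by rw [hx, mul_assoc, D.ee]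
  obtain ⟨b, _, hb1, hb2, hxb, hbx⟩ := D.one_side hxz ex xe
  have h3 : e * s * q = b := by
    calc e * s * q = (e * s * q) * e := by rw [mul_assoc _ q e, h1]
      _ = (e * s * q * x) * b := by rw [mul_assoc _ x b, hxb]
      _ = b := by rw [key, hb1]
  refine ⟨x * (e * s), ?_, ?_, ?_⟩
  · intro h0
    have : x * (e * s) * q = e := by
      rw [mul_assoc, h3, hxb]
    rw [h0, D.hz1] at this
    exact D.ez this.symm
  · rw [← mul_assoc, ex]
  · rw [mul_assoc, h3, hxb]

/-- orbits in `e S ∖ {z}` -/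
def Data.setR (D : Data z e) : Setoid (Rt z e) where
  r a b := ∃ g : Gp z e, b.1 = g.1 * a.1
  iseqv := by
    refine ⟨fun a => ⟨⟨e, D.ez, D.ee, D.ee⟩, a.2.2.symm⟩, ?_, ?_⟩
    · rintro a b ⟨g, hg⟩
      obtain ⟨c, hc, hc1, hc2, hgc, hcg⟩ := D.one_side g.2.1 g.2.2.1 g.2.2.2
      refine ⟨⟨c, hc, hc1, hc2⟩, ?_⟩
      show a.1 = c * b.1
      rw [hg, ← mul_assoc, hcg, a.2.2]
    · rintro a b c ⟨g, hg⟩ ⟨h, hh⟩
      refine ⟨⟨h.1 * g.1, D.mul_ne h.2.1 h.2.2.1 h.2.2.2 g.2.1 g.2.2.1,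
        by rw [← mul_assoc, h.2.2.1], by rw [mul_assoc, g.2.2.2]⟩, ?_⟩
      show c.1 = h.1 * g.1 * a.1
      rw [hh, hg, mul_assoc]

/-- orbits in `S e ∖ {z}` -/
def Data.setL (D : Data z e) : Setoid (Lt z e) where
  r a b := ∃ g : Gp z e, b.1 = a.1 * g.1
  iseqv := by
    refine ⟨fun a => ⟨⟨e, D.ez, D.ee, D.ee⟩, a.2.2.symm⟩, ?_, ?_⟩
    · rintro a b ⟨g, hg⟩
      obtain ⟨c, hc, hc1, hc2, hgc, hcg⟩ := D.one_side g.2.1 g.2.2.1 g.2.2.2
      refine ⟨⟨c, hc, hc1, hc2⟩, ?_⟩
      show a.1 = b.1 * c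
      rw [hg, mul_assoc, hgc, a.2.2]
    · rintro a b c ⟨g, hg⟩ ⟨h, hh⟩
      refine ⟨⟨g.1 * h.1, D.mul_ne g.2.1 g.2.2.1 g.2.2.2 h.2.1 h.2.2.1,
        by rw [← mul_assoc, g.2.2.1], by rw [mul_assoc, h.2.2.2]⟩, ?_⟩
      show c.1 = a.1 * (g.1 * h.1)
      rw [hh, hg, mul_assoc]

/-- row index set -/
def Data.LL (D : Data z e) : Type := Quotient D.setR
/-- column index set -/
def Data.II (D : Data z e) : Type := Quotient D.setL

/-- row representative -/
noncomputable def Data.rr (D : Data z e) (l : D.LL) : Rt z e := Quotient.out l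
/-- column representative -/
noncomputable def Data.qq (D : Data z e) (i : D.II) : Lt z e := Quotient.out i

theorem Data.exists_rr (D : Data z e) (a : Rt z e) :
    ∃ (l : D.LL) (g : Gp z e), a.1 = g.1 * (D.rr l).1 := by
  obtain ⟨g, hg⟩ := Quotient.exact (s := D.setR)
    (a := Quotient.out (Quotient.mk D.setR a)) (b := a) (Quotient.out_eq _)
  exact ⟨Quotient.mk D.setR a, g, hg⟩

theorem Data.exists_qq (D : Data z e) (a : Lt z e) :
    ∃ (i : D.II) (g : Gp z e), a.1 = (D.qq i).1 * g.1 := by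
  obtain ⟨g, hg⟩ := Quotient.exact (s := D.setL)
    (a := Quotient.out (Quotient.mk D.setL a)) (b := a) (Quotient.out_eq _)
  exact ⟨Quotient.mk D.setL a, g, hg⟩

theorem Data.rr_inj (D : Data z e) {l k : D.LL} {g : Gp z e}
    (h : (D.rr k).1 = g.1 * (D.rr l).1) : l = k := by
  have h1 : D.setR.r (D.rr l) (D.rr k) := ⟨g, h⟩
  have h2 := Quotient.sound (s := D.setR) h1
  have e1 : Quotient.mk D.setR (D.rr l) = l := Quotient.out_eq l
  have e2 : Quotient.mk D.setR (D.rr k) = k := Quotient.out_eq k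
  rw [e1, e2] at h2
  exact h2

theorem Data.qq_inj (D : Data z e) {i j : D.II} {g : Gp z e}
    (h : (D.qq j).1 = (D.qq i).1 * g.1) : i = j := by
  have h1 : D.setL.r (D.qq i) (D.qq j) := ⟨g, h⟩
  have h2 := Quotient.sound (s := D.setL) h1
  have e1 : Quotient.mk D.setL (D.qq i) = i := Quotient.out_eq i
  have e2 : Quotient.mk D.setL (D.qq j) = j := Quotient.out_eq j
  rw [e1, e2] at h2
  exact h2

/-- the parametrisation -/
noncomputable def Data.F (D : Data z e) : Option (D.II × Additive (Gp z e) × D.LL) → S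
  | none => z
  | some (i, g, l) => (D.qq i).1 * (Additive.toMul g).1 * (D.rr l).1

theorem Data.triple_ne (D : Data z e) {q g r : S} (hq : q ≠ z) (hq1 : q * e = q) (hg : g ≠ z)
    (hg1 : e * g = g) (hg2 : g * e = g) (hr : r ≠ z) (hr1 : e * r = r) : q * g * r ≠ z := by
  obtain ⟨q', _, hq', hqq⟩ := D.lt_inv hq hq1
  obtain ⟨r', _, hr', hrr⟩ := D.rt_inv hr hr1
  intro h0
  have : q' * (q * g * r) * r' = g := by
    calc q' * (q * g * r) * r' = (q' * q) * g * (r * r') := by simp only [mul_assoc]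
      _ = g := by rw [hqq, hrr, hg1, hg2]
  rw [h0, D.hz2, D.hz1] at this
  exact hg this.symm

theorem Data.F_inj (D : Data z e) : Function.Injective D.F := by
  rintro (_ | ⟨i, g, l⟩) (_ | ⟨j, h, k⟩) hF
  · rfl
  · exfalso
    refine D.triple_ne (D.qq j).2.1 (D.qq j).2.2 (Additive.toMul h).2.1 (Additive.toMul h).2.2.1
      (Additive.toMul h).2.2.2 (D.rr k).2.1 (D.rr k).2.2 ?_
    exact hF.symm
  · exfalso
    refine D.triple_ne (D.qq i).2.1 (D.qq i).2.2 (Additive.toMul g).2.1 (Additive.toMul g).2.2.1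
      (Additive.toMul g).2.2.2 (D.rr l).2.1 (D.rr l).2.2 ?_
    exact hF
  · change (D.qq i).1 * (Additive.toMul g).1 * (D.rr l).1 =
      (D.qq j).1 * (Additive.toMul h).1 * (D.rr k).1 at hF
    set g' : Gp z e := Additive.toMul g with hg'
    set h' : Gp z e := Additive.toMul h with hh'
    obtain ⟨gi, hgi, hgi1, hgi2, hggi, hgig⟩ := D.one_side g'.2.1 g'.2.2.1 g'.2.2.2
    obtain ⟨hi, hhi, hhi1, hhi2, hhhi, hhih⟩ := D.one_side h'.2.1 h'.2.2.1 h'.2.2.2
    obtain ⟨q', hq'z, hq', hqq⟩ := D.lt_inv (D.qq i).2.1 (D.qq i).2.2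
    obtain ⟨r', hr'z, hr', hrr⟩ := D.rt_inv (D.rr l).2.1 (D.rr l).2.2
    have hij : i = j := by
      have e1 : (D.qq i).1 * g'.1 = (D.qq j).1 * (h'.1 * ((D.rr k).1 * r')) := by
        calc (D.qq i).1 * g'.1 = (D.qq i).1 * g'.1 * ((D.rr l).1 * r') := by
              rw [hrr, mul_assoc, g'.2.2.2]
          _ = (D.qq i).1 * g'.1 * (D.rr l).1 * r' := by simp only [mul_assoc]
          _ = (D.qq j).1 * (h'.1 * ((D.rr k).1 * r')) := by rw [hF]; simp only [mul_assoc]
      have hc : (D.rr k).1 * r' ≠ z := by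
        intro h0
        rw [h0, D.hz2, D.hz2] at e1
        exact D.mul_ne' g'.2.1 g'.2.2.1 g'.2.2.2 (D.qq i).2.1 (D.qq i).2.2 e1
      have hc1 : e * ((D.rr k).1 * r') = (D.rr k).1 * r' := by rw [← mul_assoc, (D.rr k).2.2]
      have hc2 : ((D.rr k).1 * r') * e = (D.rr k).1 * r' := by rw [mul_assoc, hr']
      have hd := D.mul_ne h'.2.1 h'.2.2.1 h'.2.2.2 hc hc1
      have hd1 : e * (h'.1 * ((D.rr k).1 * r')) = h'.1 * ((D.rr k).1 * r') := by
        rw [← mul_assoc, h'.2.2.1]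
      have hd2 : (h'.1 * ((D.rr k).1 * r')) * e = h'.1 * ((D.rr k).1 * r') := by
        rw [mul_assoc, hc2]
      have hw := D.mul_ne hd hd1 hd2 hgi hgi1
      refine (D.qq_inj (i := j) (j := i)
        (g := ⟨h'.1 * ((D.rr k).1 * r') * gi, hw, ?_, ?_⟩) ?_).symm
      · rw [← mul_assoc, hd1]
      · rw [mul_assoc, hgi2]
      · calc (D.qq i).1 = (D.qq i).1 * (g'.1 * gi) := by rw [hggi, (D.qq i).2.2]
          _ = ((D.qq i).1 * g'.1) * gi := by rw [mul_assoc]
          _ = (D.qq j).1 * (h'.1 * ((D.rr k).1 * r') * gi) := by rw [e1, mul_assoc]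
    have hlk : l = k := by
      obtain ⟨q'', hq''z, hq'', hqq''⟩ := D.lt_inv (D.qq i).2.1 (D.qq i).2.2
      have e1 : g'.1 * (D.rr l).1 = (q'' * (D.qq j).1 * h'.1) * (D.rr k).1 := by
        calc g'.1 * (D.rr l).1 = (q'' * (D.qq i).1) * (g'.1 * (D.rr l).1) := by
              rw [hqq'', ← mul_assoc, g'.2.2.1]
          _ = q'' * ((D.qq i).1 * g'.1 * (D.rr l).1) := by simp only [mul_assoc]
          _ = (q'' * (D.qq j).1 * h'.1) * (D.rr k).1 := by rw [hF]; simp only [mul_assoc]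
      have e2 : q'' * (D.qq j).1 * h'.1 = h'.1 := by
        rw [← hij, hqq'', h'.2.2.1]
      rw [e2] at e1
      have hw := D.mul_ne hgi hgi1 hgi2 h'.2.1 h'.2.2.1
      refine (D.rr_inj (l := k) (k := l) (g := ⟨gi * h'.1, hw, ?_, ?_⟩) ?_).symm
      · rw [← mul_assoc, hgi1]
      · rw [mul_assoc, h'.2.2.2]
      · calc (D.rr l).1 = (gi * g'.1) * (D.rr l).1 := by rw [hgig, (D.rr l).2.2]
          _ = gi * h'.1 * (D.rr k).1 := by rw [mul_assoc, e1, mul_assoc]
    subst hij
    subst hlk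
    have hgh : g' = h' := by
      apply Subtype.ext
      calc g'.1 = (q' * (D.qq i).1) * g'.1 * ((D.rr l).1 * r') := by
            rw [hqq, hrr, g'.2.2.1, g'.2.2.2]
        _ = q' * ((D.qq i).1 * g'.1 * (D.rr l).1) * r' := by simp only [mul_assoc]
        _ = q' * ((D.qq i).1 * h'.1 * (D.rr l).1) * r' := by rw [hF]
        _ = (q' * (D.qq i).1) * h'.1 * ((D.rr l).1 * r') := by simp only [mul_assoc]
        _ = h'.1 := by rw [hqq, hrr, h'.2.2.1, h'.2.2.2]
    have : g = h := Additive.toMul.injective hgh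
    rw [this]

theorem Data.F_surj (D : Data z e) : Function.Surjective D.F := by
  intro s
  by_cases hs : s = z
  · exact ⟨none, hs.symm⟩
  obtain ⟨x, y, hxy⟩ := D.dec s
  have hx : x * e ≠ z := by
    intro h0
    rw [h0, D.hz1] at hxy
    exact hs hxy
  have hy : e * y ≠ z := by
    intro h0
    rw [mul_assoc, h0, D.hz2] at hxy
    exact hs hxy
  obtain ⟨i, g, hg⟩ := D.exists_qq ⟨x * e, hx, by rw [mul_assoc, D.ee]⟩
  obtain ⟨l, h, hh⟩ := D.exists_rr ⟨e * y, hy, by rw [← mul_assoc, D.ee]⟩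
  have hgh := D.mul_ne g.2.1 g.2.2.1 g.2.2.2 h.2.1 h.2.2.1
  refine ⟨some (i, Additive.ofMul ⟨g.1 * h.1, hgh, ?_, ?_⟩, l), ?_⟩
  · rw [← mul_assoc, g.2.2.1]
  · rw [mul_assoc, h.2.2.2]
  · show (D.qq i).1 * (g.1 * h.1) * (D.rr l).1 = s
    have hg' : x * e = (D.qq i).1 * g.1 := hg
    have hh' : e * y = h.1 * (D.rr l).1 := hh
    calc (D.qq i).1 * (g.1 * h.1) * (D.rr l).1 = ((D.qq i).1 * g.1) * (h.1 * (D.rr l).1) := by
          simp only [mul_assoc]
      _ = (x * e) * (e * y) := by rw [hg', hh']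
      _ = s := by rw [← mul_assoc, mul_assoc x e e, D.ee]; exact hxy.symm

/-- incidence -/
def Data.A (D : Data z e) (l : D.LL) (i : D.II) : Prop := (D.rr l).1 * (D.qq i).1 ≠ z

open Classical in
/-- sandwich matrix -/
noncomputable def Data.P (D : Data z e) (l : D.LL) (i : D.II) : Additive (Gp z e) :=
  if h : (D.rr l).1 * (D.qq i).1 ≠ z then
    Additive.ofMul (⟨(D.rr l).1 * (D.qq i).1, h, by rw [← mul_assoc, (D.rr l).2.2],
      by rw [mul_assoc, (D.qq i).2.2]⟩ : Gp z e)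
  else Additive.ofMul (⟨e, D.ez, D.ee, D.ee⟩ : Gp z e)

theorem Data.F_mul (D : Data z e) :
    letI := D.commGroup
    ∀ x y, D.F x * D.F y = D.F (rmul D.A D.P x y) := by
  let := D.commGroup
  rintro (_ | ⟨i, g, l⟩) (_ | ⟨j, h, k⟩)
  · exact D.hz1 _
  · exact D.hz1 _
  · exact D.hz2 _
  · show (D.qq i).1 * (Additive.toMul g).1 * (D.rr l).1 *
      ((D.qq j).1 * (Additive.toMul h).1 * (D.rr k).1) = D.F (rmul D.A D.P _ _)
    have e0 : (D.qq i).1 * (Additive.toMul g).1 * (D.rr l).1 *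
        ((D.qq j).1 * (Additive.toMul h).1 * (D.rr k).1) =
        (D.qq i).1 * ((Additive.toMul g).1 * ((D.rr l).1 * (D.qq j).1) * (Additive.toMul h).1) *
          (D.rr k).1 := by simp only [mul_assoc]
    rw [e0]
    by_cases hA : D.A l j
    · simp only [rmul, if_pos hA]
      show _ = (D.qq i).1 * (Additive.toMul (g + D.P l j + h)).1 * (D.rr k).1
      congr 2
      rw [toMul_add, toMul_add]
      show _ = (Additive.toMul g).1 * (Additive.toMul (D.P l j)).1 * (Additive.toMul h).1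
      congr 2
      have hA' : (D.rr l).1 * (D.qq j).1 ≠ z := hA
      rw [Data.P, dif_pos hA']
      rfl
    · simp only [rmul, if_neg hA]
      have hA' : (D.rr l).1 * (D.qq j).1 = z := not_not.mp hA
      show _ = z
      rw [hA', D.hz2, D.hz1, D.hz2, D.hz1]

end Rees

open Rees in
theorem exists_rees_data {S : Type} [Finite S] [Semigroup S] {z e : S} (D : Data z e) :
    ∃ (G I L : Type) (_ : AddCommGroup G) (_ : Finite G) (_ : Finite I) (_ : Finite L)
      (A : L → I → Prop) (p : L → I → G) (f : S ≃ Option (I × G × L)),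
      Nonempty I ∧ Nonempty L ∧ (∀ l, ∃ i, A l i) ∧ (∀ i, ∃ l, A l i) ∧
      f z = none ∧ ∀ x y, f (x * y) = rmul A p (f x) (f y) := by
  let := D.commGroup
  have : Finite (Gp z e) := Subtype.finite
  have : Finite (Rt z e) := Subtype.finite
  have : Finite (Lt z e) := Subtype.finite
  have : Finite (Additive (Gp z e)) := Finite.of_equiv (Gp z e) Additive.ofMul
  have : Finite D.LL := Quotient.finite _
  have : Finite D.II := Quotient.finite _
  refine ⟨Additive (Gp z e), D.II, D.LL, inferInstance, inferInstance, inferInstance,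
    inferInstance, D.A, D.P, (Equiv.ofBijective D.F ⟨D.F_inj, D.F_surj⟩).symm, ?_, ?_, ?_, ?_, ?_, ?_⟩
  · exact ⟨Quotient.mk D.setL ⟨e, D.ez, D.ee⟩⟩
  · exact ⟨Quotient.mk D.setR ⟨e, D.ez, D.ee⟩⟩
  · intro l
    obtain ⟨r', hr'z, hr', hrr⟩ := D.rt_inv (D.rr l).2.1 (D.rr l).2.2
    obtain ⟨i, g, hg⟩ := D.exists_qq ⟨r', hr'z, hr'⟩
    refine ⟨i, fun h0 => D.ez ?_⟩
    have hg' : r' = (D.qq i).1 * g.1 := hg
    rw [← hrr, hg', ← mul_assoc, h0, D.hz1]
  · intro i
    obtain ⟨q', hq'z, hq', hqq⟩ := D.lt_inv (D.qq i).2.1 (D.qq i).2.2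
    obtain ⟨l, g, hg⟩ := D.exists_rr ⟨q', hq'z, hq'⟩
    refine ⟨l, fun h0 => D.ez ?_⟩
    have hg' : q' = g.1 * (D.rr l).1 := hg
    rw [← hqq, hg', mul_assoc, h0, D.hz2]
  · rw [Equiv.symm_apply_eq]; rfl
  · intro x y
    rw [Equiv.symm_apply_eq]
    set E := Equiv.ofBijective D.F ⟨D.F_inj, D.F_surj⟩ with hE
    have h1 : x = D.F (E.symm x) := (E.apply_symm_apply x).symm
    have h2 : y = D.F (E.symm y) := (E.apply_symm_apply y).symm
    have h3 := D.F_mul (E.symm x) (E.symm y)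
    rw [← h1, ← h2] at h3
    exact h3

theorem exists_rees {S : Type} [Finite S] (op : S → S → S)
    (hassoc : ∀ a b c, op (op a b) c = op a (op b c)) (z : S)
    (hz : ∀ x, op z x = z ∧ op x z = z) (hne : ∃ x y, op x y ≠ z)
    (hsimple : ∀ x, x ≠ z → ∀ y, y = x ∨ (∃ s, y = op s x) ∨ (∃ t, y = op x t) ∨
      ∃ s t, y = op (op s x) t)
    (hprim : ∃ e, e ≠ z ∧ op e e = e ∧ ∀ f, f ≠ z → op f f = f → op e f = f → op f e = f → f = e)
    (hab : ∀ e, e ≠ z → op e e = e → ∀ a b,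
      op (op (op e a) e) (op (op e b) e) = op (op (op e b) e) (op (op e a) e)) :
    ∃ (G I L : Type) (_ : AddCommGroup G) (_ : Finite G) (_ : Finite I) (_ : Finite L)
      (A : L → I → Prop) (p : L → I → G) (f : S ≃ Option (I × G × L)),
      Nonempty I ∧ Nonempty L ∧ (∀ l, ∃ i, A l i) ∧ (∀ i, ∃ l, A l i) ∧
      f z = none ∧ ∀ x y, f (op x y) = rmul A p (f x) (f y) := by
  let : Semigroup S := { mul := op, mul_assoc := hassoc }
  obtain ⟨e, hez, hee, hpr⟩ := hprim
  have hee' : e * e = e := hee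
  have D : Rees.Data z e :=
    { hz1 := fun x => (hz x).1
      hz2 := fun x => (hz x).2
      ez := hez
      ee := hee
      sim := by
        intro x hx
        rcases hsimple x hx e with h | ⟨s, h⟩ | ⟨t, h⟩ | ⟨s, t, h⟩
        · refine ⟨e, e, ?_⟩
          rw [← h, hee', hee']
        · have h' : e = s * x := h
          refine ⟨s, e, ?_⟩
          rw [← h', hee']
        · have h' : e = x * t := h
          refine ⟨e, t, ?_⟩
          rw [mul_assoc, ← h', hee']
        · exact ⟨s, t, h⟩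
      dec := by
        intro y
        rcases hsimple e hez y with h | ⟨s, h⟩ | ⟨t, h⟩ | ⟨s, t, h⟩
        · refine ⟨e, e, ?_⟩
          rw [h, hee', hee']
        · have h' : y = s * e := h
          refine ⟨s, e, ?_⟩
          rw [mul_assoc, hee', h']
        · have h' : y = e * t := h
          refine ⟨e, t, ?_⟩
          rw [hee', h']
        · exact ⟨s, t, h⟩
      prim := hpr
      ab := hab e hez hee }
  exact exists_rees_data D

end Pool.Agent.CZS
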