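import Pool.Agent.CZS.Lists
import Pool.Agent.CZS.Blocks

/-! Consequence relation of a finite set of identities, and laws given by templates. -/

set_option autoImplicit false

namespace Pool.Agent.CZS

/-- Value of a possibly empty word, in the semigroup with an identity added. -/
def evl {T : Type} [Semigroup T] (g : ℕ → T) (u : List ℕ) : WithOne T :=
  (u.map (fun x => (g x : WithOne T))).prod

theorem evl_cons {T : Type} [Semigroup T] (g : ℕ → T) (x : ℕ) (l : List ℕ) :
    evl g (x :: l) = ((evo (fun a b : T => a * b) g (x, l) : T) : WithOne T) := by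
  have key : ∀ (l : List ℕ) (a : T), (a : WithOne T) * (l.map (fun x => (g x : WithOne T))).prod =
      ((l.foldl (fun a y => a * g y) a : T) : WithOne T) := by
    intro l
    induction l with
    | nil => intro a; simp
    | cons y l ih =>
      intro a
      rw [List.map_cons, List.prod_cons, ← mul_assoc, ← WithOne.coe_mul, ih, List.foldl_cons]
  rw [evl, List.map_cons, List.prod_cons, key]
  rfl

theorem evl_append {T : Type} [Semigroup T] (g : ℕ → T) (a b : List ℕ) :
    evl g (a ++ b) = evl g a * evl g b := by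
  simp [evl]

/-- The identity `u ≈ v` (for possibly empty words) follows from `B`. -/
def Rel (B : Finset ((ℕ × List ℕ) × (ℕ × List ℕ))) (u v : List ℕ) : Prop :=
  ∀ (T : Type) [Semigroup T],
    (∀ b ∈ B, ∀ g : ℕ → T, evo (fun a b : T => a * b) g b.1 = evo (fun a b : T => a * b) g b.2) →
    ∀ g : ℕ → T, evl g u = evl g v

theorem Rel.app {B : Finset ((ℕ × List ℕ) × (ℕ × List ℕ))} {u v : List ℕ} (a b : List ℕ)
    (h : Rel B u v) : Rel B (a ++ u ++ b) (a ++ v ++ b) := by
  intro T _ hT g
  rw [evl_append, evl_append, evl_append, evl_append, h T hT g]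

/-- The pair (first letter, rest) of a word. -/
def toW (l : List ℕ) : ℕ × List ℕ := (l.headD 0, l.tail)

theorem toW_cons (x : ℕ) (l : List ℕ) : toW (x :: l) = (x, l) := rfl

theorem toW_eq {l : List ℕ} (h : l ≠ []) : (toW l).1 :: (toW l).2 = l := by
  cases l with
  | nil => exact absurd rfl h
  | cons x l => rfl

/-- The variants of a law, in which some letters are deleted. -/
def variants (P Q : List ℕ) : Finset ((ℕ × List ℕ) × (ℕ × List ℕ)) :=
  ((P ++ Q).toFinset.powerset).image
    (fun D => (toW (P.filter (fun x => decide (x ∉ D))), toW (Q.filter (fun x => decide (x ∉ D)))))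

/-- The identity `P ≈ Q` holds in the Rees matrix semigroup when the letters of `Rq` stay and the
other letters are replaced by arbitrary (possibly empty) words. -/
def Valid {G I L : Type} [AddCommGroup G] (A : L → I → Prop) (p : L → I → G) (m : ℕ)
    (Rq : Finset ℕ) (P Q : List ℕ) : Prop :=
  ∀ σ : ℕ → List ℕ, (∀ x ∈ Rq, σ x = [x]) → SId A p m (P.flatMap σ) (Q.flatMap σ)

theorem filter_eq_flatMap (P : List ℕ) (D : Finset ℕ) :
    P.filter (fun x => decide (x ∉ D)) = P.flatMap (fun x => if x ∈ D then [] else [x]) := by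
  induction P with
  | nil => rfl
  | cons x P ih =>
    rw [List.filter_cons, List.flatMap_cons, ih]
    by_cases hx : x ∈ D
    · simp only [hx, not_true, decide_false, if_true, List.nil_append]; rfl
    · simp only [hx, not_false_eq_true, decide_true, if_true, if_false, List.singleton_append]

theorem evl_flatMap {T : Type} [Semigroup T] (g g' : ℕ → T) (σ : ℕ → List ℕ) (D : Finset ℕ)
    (P : List ℕ) (h1 : ∀ x ∈ P, x ∈ D → σ x = []) (h2 : ∀ x ∈ P, x ∉ D → evl g (σ x) = (g' x : T)) :
    evl g (P.flatMap σ) = evl g' (P.filter (fun x => decide (x ∉ D))) := by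
  induction P with
  | nil => rfl
  | cons x P ih =>
    have ih' := ih (fun y hy => h1 y (by simp [hy])) (fun y hy => h2 y (by simp [hy]))
    rw [List.flatMap_cons, evl_append, ih']
    by_cases hx : x ∈ D
    · rw [h1 x (by simp) hx]
      simp [evl, hx]
    · rw [h2 x (by simp) hx]
      simp [evl, hx]

/-- Instances of a valid law follow from any set containing its valid variants. -/
theorem rel_of_valid {G I L : Type} [AddCommGroup G] {A : L → I → Prop} {p : L → I → G} {m : ℕ}
    (hm : ∀ g : G, m • g = 0) {B : Finset ((ℕ × List ℕ) × (ℕ × List ℕ))} {Rq : Finset ℕ}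
    {P Q : List ℕ}
    (hB : ∀ b ∈ variants P Q, (∀ f : ℕ → Option (I × G × L), evo (rmul A p) f b.1 =
      evo (rmul A p) f b.2) → b ∈ B)
    (hv : Valid A p m Rq P Q) {x0 : ℕ} (hx0 : x0 ∈ Rq) (hP : x0 ∈ P) (hQ : x0 ∈ Q)
    (σ : ℕ → List ℕ) (hσ : ∀ x ∈ Rq, σ x ≠ []) : Rel B (P.flatMap σ) (Q.flatMap σ) := by
  classical
  intro T _ hT g
  set D : Finset ℕ := (P ++ Q).toFinset.filter (fun x => σ x = []) with hD
  have hDR : ∀ x ∈ Rq, x ∉ D := by
    intro x hx hxD
    rw [hD, Finset.mem_filter] at hxD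
    exact hσ x hx hxD.2
  have hval : ∀ x, ∃ t : T, σ x ≠ [] → evl g (σ x) = (t : T) := by
    intro x
    cases h : σ x with
    | nil => exact ⟨g 0, fun h' => absurd rfl h'⟩
    | cons y l => exact ⟨_, fun _ => evl_cons g y l⟩
  choose g' hg' using hval
  have e1 := evl_flatMap g g' σ D P (fun x _ hx => (Finset.mem_filter.1 hx).2)
    (fun x hx hxD => hg' x (fun h => hxD (Finset.mem_filter.2 ⟨by simp [hx], h⟩)))
  have e2 := evl_flatMap g g' σ D Q (fun x _ hx => (Finset.mem_filter.1 hx).2)
    (fun x hx hxD => hg' x (fun h => hxD (Finset.mem_filter.2 ⟨by simp [hx], h⟩)))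
  have n1 : P.filter (fun x => decide (x ∉ D)) ≠ [] :=
    List.ne_nil_of_mem (List.mem_filter.2 ⟨hP, by simpa using hDR x0 hx0⟩)
  have n2 : Q.filter (fun x => decide (x ∉ D)) ≠ [] :=
    List.ne_nil_of_mem (List.mem_filter.2 ⟨hQ, by simpa using hDR x0 hx0⟩)
  have hmem : (toW (P.filter (fun x => decide (x ∉ D))),
      toW (Q.filter (fun x => decide (x ∉ D)))) ∈ B := by
    refine hB _ ?_ ?_
    · refine Finset.mem_image.2 ⟨D, ?_, rfl⟩
      exact Finset.mem_powerset.2 (Finset.filter_subset _ _)
    · intro f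
      have h := hv (fun x => if x ∈ D then [] else [x]) (fun x hx => if_neg (hDR x hx))
      rw [← filter_eq_flatMap, ← filter_eq_flatMap] at h
      rw [← toW_eq n1, ← toW_eq n2] at h
      exact mod_of_sId hm h f
  have hfin := hT _ hmem g'
  rw [e1, e2, ← toW_eq n1, ← toW_eq n2, evl_cons, evl_cons]
  exact congrArg _ hfin

/-- Soundness. -/
theorem sId_of_rel {G I L : Type} [AddCommGroup G] {A : L → I → Prop} {p : L → I → G} {m : ℕ}
    (hm : ∀ n : ℤ, (∀ g : G, n • g = 0) → (m : ℤ) ∣ n) {l0 : L} {i0 : I} (h0 : A l0 i0)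
    {B : Finset ((ℕ × List ℕ) × (ℕ × List ℕ))}
    (hB : ∀ b ∈ B, ∀ f : ℕ → Option (I × G × L), evo (rmul A p) f b.1 = evo (rmul A p) f b.2)
    {u v : List ℕ} (h : Rel B u v) : (u = [] ↔ v = []) ∧ (u ≠ [] → SId A p m u v) := by
  let _ : Semigroup (Option (I × G × L)) := { mul := rmul A p, mul_assoc := rmul_assoc A p }
  have hh : ∀ g : ℕ → Option (I × G × L), evl g u = evl g v := h (Option (I × G × L)) hB
  have hiff : u = [] ↔ v = [] := by
    have h1 := hh (fun _ => none)
    constructor
    · rintro rfl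
      cases v with
      | nil => rfl
      | cons y l => rw [evl_cons] at h1; exact absurd h1 WithOne.one_ne_coe
    · rintro rfl
      cases u with
      | nil => rfl
      | cons y l => rw [evl_cons] at h1; exact absurd h1.symm WithOne.one_ne_coe
  refine ⟨hiff, fun hu => ?_⟩
  have hv : v ≠ [] := fun h => hu (hiff.2 h)
  rw [← toW_eq hu, ← toW_eq hv]
  refine sId_of_mod hm h0 fun f => ?_
  have h2 := hh f
  rw [← toW_eq hu, ← toW_eq hv, evl_cons, evl_cons] at h2
  exact WithOne.coe_inj.1 h2

end Pool.Agent.CZS
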