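import Pool.Agent.CZS.Main
import Pool.Agent.CZS.ReesThm
import Pool.Agent.CZS.Comp

/-! The criterion in terms of the multiplication table. -/

set_option autoImplicit false

namespace Pool.Agent.CZS

/-- `x^(k+1)`. -/
def spow {S : Type} (op : S → S → S) : ℕ → S → S
  | 0, x => x
  | k + 1, x => op (spow op k x) x

/-- Finite 0-simple with a primitive idempotent and abelian maximal subgroups (first-order form). -/
def Basic {S : Type} (op : S → S → S) (z : S) : Prop :=
  (∀ x, op z x = z ∧ op x z = z) ∧ (∃ x y, op x y ≠ z) ∧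
    (∀ x, x ≠ z → ∀ y, y = x ∨ (∃ s, y = op s x) ∨ (∃ t, y = op x t) ∨ ∃ s t, y = op (op s x) t) ∧
    (∃ e, e ≠ z ∧ op e e = e ∧ ∀ f, f ≠ z → op f f = f → op e f = f → op f e = f → f = e) ∧
    (∀ e, e ≠ z → op e e = e → ∀ a b,
      op (op (op e a) e) (op (op e b) e) = op (op (op e b) e) (op (op e a) e))

/-- The combinatorial condition. -/
def C1 {S : Type} (op : S → S → S) (z : S) : Prop :=
  ∀ a b c d, op a b ≠ z → op c b ≠ z → op c d ≠ z → op a d ≠ z

/-- Cross-ratios have order dividing `k + 1`. -/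
def C2 {S : Type} (op : S → S → S) (z : S) (k : ℕ) : Prop :=
  ∀ a b c d y, op a b ≠ z → op c d ≠ z → op a d ≠ z → op c b ≠ z →
    op (spow op k (op (op a b) y)) (spow op k (op (op c d) y)) =
      op (spow op k (op (op a d) y)) (spow op k (op (op c b) y))

/-- The exponent divides `k + 1`. -/
def CE {S : Type} (op : S → S → S) (z : S) (k : ℕ) : Prop :=
  ∀ x, op x x ≠ z → spow op (k + 1) x = x

/-- The criterion on a semigroup. -/
def CritS {S : Type} (op : S → S → S) (n : ℕ) : Prop :=
  ∃ z, Basic op z ∧ (C1 op z ∨ ∀ k < n, C2 op z k → CE op z k)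

/-! ### From tables to `Fin n` -/

theorem crit_iff_critS (n : ℕ) (op : Fin n → Fin n → Fin n) (o : ℕ → ℕ → ℕ)
    (ho : ∀ i j : Fin n, ((op i j : Fin n) : ℕ) = o i j) : Crit n o ↔ CritS op n := by
  have hp : ∀ (k : ℕ) (x : Fin n), ((spow op k x : Fin n) : ℕ) = ppow o k x := by
    intro k
    induction k with
    | zero => intro x; rfl
    | succ k ih => intro x; rw [spow, ho, ih]; rfl
  unfold Crit CritS Basic C1 C2 CE
  simp only [Fin.ext_iff, ho, hp, Fin.forall_iff, Fin.exists_iff, ne_eq]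
  constructor
  · rintro ⟨z, hz, h1, h2, h3, h4, h5, h6⟩
    refine ⟨z, hz, ⟨h1, ?_, ?_, ?_, ?_⟩, ?_⟩
    · simpa using h2
    · simpa using h3
    · obtain ⟨e, he, q⟩ := h4
      exact ⟨e, he, q⟩
    · simpa using h5
    · simpa using h6
  · rintro ⟨z, hz, ⟨h1, h2, h3, h4, h5⟩, h6⟩
    refine ⟨z, hz, h1, ?_, ?_, ?_, ?_, ?_⟩
    · simpa using h2
    · simpa using h3
    · obtain ⟨e, he, q⟩ := h4
      exact ⟨e, he, q⟩
    · simpa using h5
    · simpa using h6

theorem top_ofFn (n : ℕ) (op : Fin n → Fin n → Fin n) (i j : Fin n) :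
    ((op i j : Fin n) : ℕ) =
      top (List.ofFn (fun i : Fin n => List.ofFn (fun j : Fin n => ((op i j : Fin n) : ℕ)))) i j := by
  simp [top, List.getD_eq_getElem?_getD]

/-! ### Ideals -/

theorem ideals_iff {S : Type} (op : S → S → S) (hassoc : ∀ a b c, op (op a b) c = op a (op b c))
    (z : S) (hz : ∀ x, op z x = z ∧ op x z = z) :
    (∀ I : Set S, z ∈ I → (∀ x ∈ I, ∀ s : S, op s x ∈ I ∧ op x s ∈ I) → I = {z} ∨ I = Set.univ) ↔
      ∀ x, x ≠ z → ∀ y, y = x ∨ (∃ s, y = op s x) ∨ (∃ t, y = op x t) ∨ ∃ s t, y = op (op s x) t := by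
  constructor
  · intro h x hx y
    have h1 := h {y | y = x ∨ (∃ s, y = op s x) ∨ (∃ t, y = op x t) ∨ ∃ s t, y = op (op s x) t}
      (Or.inr (Or.inl ⟨z, (hz x).1.symm⟩)) (by
        rintro w (rfl | ⟨s, rfl⟩ | ⟨t, rfl⟩ | ⟨s, t, rfl⟩) r
        · exact ⟨Or.inr (Or.inl ⟨r, rfl⟩), Or.inr (Or.inr (Or.inl ⟨r, rfl⟩))⟩
        · exact ⟨Or.inr (Or.inl ⟨op r s, (hassoc _ _ _).symm⟩),
            Or.inr (Or.inr (Or.inr ⟨s, r, rfl⟩))⟩
        · exact ⟨Or.inr (Or.inr (Or.inr ⟨r, t, (hassoc _ _ _).symm⟩)),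
            Or.inr (Or.inr (Or.inl ⟨op t r, hassoc _ _ _⟩))⟩
        · refine ⟨Or.inr (Or.inr (Or.inr ⟨op r s, t, ?_⟩)), Or.inr (Or.inr (Or.inr ⟨s, op t r, ?_⟩))⟩
          · rw [hassoc r s x, hassoc r (op s x) t]
          · rw [hassoc])
    rcases h1 with h1 | h1
    · have h2 : x ∈ ({z} : Set S) := by rw [← h1]; exact Or.inl rfl
      exact absurd h2 hx
    · have h2 : y ∈ (Set.univ : Set S) := Set.mem_univ y
      rw [← h1] at h2
      exact h2
  · intro h I hzI hI
    by_cases hI' : ∃ x ∈ I, x ≠ z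
    · obtain ⟨x, hx, hxz⟩ := hI'
      right
      ext y
      refine ⟨fun _ => Set.mem_univ y, fun _ => ?_⟩
      rcases h x hxz y with rfl | ⟨s, rfl⟩ | ⟨t, rfl⟩ | ⟨s, t, rfl⟩
      · exact hx
      · exact (hI x hx s).1
      · exact (hI x hx t).2
      · exact (hI _ (hI x hx s).1 t).2
    · left
      push Not at hI'
      ext y
      exact ⟨fun hy => hI' y hy, fun hy => by rw [Set.mem_singleton_iff] at hy; rw [hy]; exact hzI⟩

/-! ### The criterion on Rees matrix semigroups -/

section rees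

variable {G I L : Type} [AddCommGroup G] {A : L → I → Prop} {p : L → I → G}

theorem rmul_some (i j : I) (g h : G) (l k : L) (hA : A l j) :
    rmul A p (some (i, g, l)) (some (j, h, k)) = some (i, g + p l j + h, k) := by
  simp [rmul, hA]

theorem rmul_none (i j : I) (g h : G) (l k : L) (hA : ¬ A l j) :
    rmul A p (some (i, g, l)) (some (j, h, k)) = none := by
  simp [rmul, hA]

theorem rmul_none_right (a : Option (I × G × L)) : rmul A p a none = none := by
  cases a <;> rfl

theorem rmul_none_left (a : Option (I × G × L)) : rmul A p none a = none := by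
  cases a <;> rfl

theorem rmul_ne {i j : I} {g h : G} {l k : L} :
    rmul A p (some (i, g, l)) (some (j, h, k)) ≠ none ↔ A l j := by
  by_cases hA : A l j
  · simp [rmul, hA]
  · simp [rmul, hA]

theorem rmul_ne' {a b : Option (I × G × L)} (h : rmul A p a b ≠ none) :
    ∃ i g l j g' l', a = some (i, g, l) ∧ b = some (j, g', l') ∧ A l j := by
  rcases a with _ | ⟨i, g, l⟩
  · exact absurd (rmul_none_left b) h
  · rcases b with _ | ⟨j, g', l'⟩
    · exact absurd (rmul_none_right _) h
    · exact ⟨i, g, l, j, g', l', rfl, rfl, rmul_ne.1 h⟩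

theorem spow_none (k : ℕ) : spow (rmul A p) k none = none := by
  induction k with
  | zero => rfl
  | succ k ih => rw [spow, ih]; rfl

theorem spow_some {i : I} {g : G} {l : L} (hA : A l i) (k : ℕ) :
    spow (rmul A p) k (some (i, g, l)) = some (i, (k + 1) • g + k • p l i, l) := by
  induction k with
  | zero => simp [spow]
  | succ k ih =>
    rw [spow, ih, rmul_some _ _ _ _ _ _ hA]
    congr 3
    rw [succ_nsmul g (k + 1), succ_nsmul (p l i) k]
    abel

theorem spow_zero' {i : I} {g : G} {l : L} (hA : ¬ A l i) (k : ℕ) :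
    spow (rmul A p) (k + 1) (some (i, g, l)) = none := by
  induction k with
  | zero => exact rmul_none _ _ _ _ _ _ hA
  | succ k ih => rw [spow, ih]; rfl

theorem C1_iff [Nonempty I] [Nonempty L] : C1 (rmul A p) none ↔ K1 A := by
  constructor
  · intro h l i l' i' h1 h2 h3
    obtain ⟨i0⟩ := ‹Nonempty I›
    obtain ⟨l0⟩ := ‹Nonempty L›
    exact rmul_ne.1 (h (some (i0, 0, l)) (some (i, 0, l0)) (some (i0, 0, l')) (some (i', 0, l0))
      (rmul_ne.2 h1) (rmul_ne.2 h2) (rmul_ne.2 h3))
  · intro h a b c d h1 h2 h3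
    obtain ⟨ia, ga, la, ib, gb, lb, rfl, rfl, q1⟩ := rmul_ne' h1
    obtain ⟨ic, gc, lc, ib', gb', lb', rfl, e2, q2⟩ := rmul_ne' h2
    obtain ⟨ic', gc', lc', id, gd, ld, e3, rfl, q3⟩ := rmul_ne' h3
    simp only [Option.some.injEq, Prod.mk.injEq] at e2 e3
    obtain ⟨rfl, rfl, rfl⟩ := e2
    obtain ⟨rfl, rfl, rfl⟩ := e3
    exact rmul_ne.2 (h _ _ _ _ q1 q2 q3)

theorem C2_iff (k : ℕ) : C2 (rmul A p) none k ↔ K2 A p (k + 1) := by
  constructor
  · intro h l i l' i' h1 h2 h3 h4
    have hh := h (some (i, 0, l)) (some (i, 0, l)) (some (i, 0, l')) (some (i', 0, l))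
      (some (i, 0, l)) (rmul_ne.2 h1) (rmul_ne.2 h4) (rmul_ne.2 h2) (rmul_ne.2 h3)
    rw [rmul_some _ _ _ _ _ _ h1, rmul_some _ _ _ _ _ _ h1, rmul_some _ _ _ _ _ _ h4,
      rmul_some _ _ _ _ _ _ h1, rmul_some _ _ _ _ _ _ h2, rmul_some _ _ _ _ _ _ h1,
      rmul_some _ _ _ _ _ _ h3, rmul_some _ _ _ _ _ _ h1, spow_some h1, spow_some h1, spow_some h1,
      spow_some h1, rmul_some _ _ _ _ _ _ h1, rmul_some _ _ _ _ _ _ h1] at hh
    simp only [Option.some.injEq, Prod.mk.injEq, true_and, and_true] at hh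
    rw [← sub_eq_zero] at hh
    rw [← hh]
    simp only [smul_add, smul_sub, smul_zero]
    abel
  · intro h a b c d y h1 h2 h3 h4
    obtain ⟨ia, ga, la, ib, gb, lb, rfl, rfl, q1⟩ := rmul_ne' h1
    obtain ⟨ic, gc, lc, id, gd, ld, rfl, rfl, q2⟩ := rmul_ne' h2
    have q3 := rmul_ne.1 h3
    have q4 := rmul_ne.1 h4
    rw [rmul_some _ _ _ _ _ _ q1, rmul_some _ _ _ _ _ _ q2, rmul_some _ _ _ _ _ _ q3,
      rmul_some _ _ _ _ _ _ q4]
    rcases y with _ | ⟨iy, gy, ly⟩
    · simp only [rmul_none_right, spow_none]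
    · by_cases hb : A lb iy
      · by_cases hd : A ld iy
        · rw [rmul_some _ _ _ _ _ _ hb, rmul_some _ _ _ _ _ _ hd, rmul_some _ _ _ _ _ _ hd,
            rmul_some _ _ _ _ _ _ hb]
          by_cases hc : A ly ic
          · have main : ∀ (ha : k = 0 ∨ A ly ia),
                rmul A p (spow (rmul A p) k (some (ia, ga + p la ib + gb + p lb iy + gy, ly)))
                  (spow (rmul A p) k (some (ic, gc + p lc id + gd + p ld iy + gy, ly))) =
                rmul A p (spow (rmul A p) k (some (ia, ga + p la id + gd + p ld iy + gy, ly)))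
                  (spow (rmul A p) k (some (ic, gc + p lc ib + gb + p lb iy + gy, ly))) := by
              intro ha
              have sp : ∀ g : G, ∃ t : G, spow (rmul A p) k (some (ia, g, ly)) =
                  some (ia, (k + 1) • g + t, ly) ∧ ∀ g', spow (rmul A p) k (some (ia, g', ly)) =
                  some (ia, (k + 1) • g' + t, ly) := by
                intro g
                rcases ha with rfl | ha
                · exact ⟨0, by simp [spow], fun g' => by simp [spow]⟩
                · exact ⟨k • p ly ia, spow_some ha k, fun g' => spow_some ha k⟩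
              obtain ⟨t, ht, ht'⟩ := sp (ga + p la ib + gb + p lb iy + gy)
              rw [ht, ht', spow_some hc, spow_some hc, rmul_some _ _ _ _ _ _ hc,
                rmul_some _ _ _ _ _ _ hc]
              congr 3
              rw [← sub_eq_zero]
              have := h la ib lc id q1 q3 q4 q2
              rw [← this]
              simp only [smul_add, smul_sub]
              abel
            by_cases ha : A ly ia
            · exact main (Or.inr ha)
            · rcases Nat.eq_zero_or_pos k with hk | hk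
              · exact main (Or.inl hk)
              · obtain ⟨k', rfl⟩ : ∃ k', k = k' + 1 := ⟨k - 1, by omega⟩
                rw [spow_zero' ha, spow_zero' ha, rmul_none_left, rmul_none_left]
          · have nn : ∀ (g g' : G), rmul A p (spow (rmul A p) k (some (ia, g, ly)))
                (spow (rmul A p) k (some (ic, g', ly))) = none := by
              intro g g'
              rcases Nat.eq_zero_or_pos k with rfl | hk
              · exact rmul_none _ _ _ _ _ _ hc
              · obtain ⟨k', rfl⟩ : ∃ k', k = k' + 1 := ⟨k - 1, by omega⟩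
                rw [spow_zero' hc, rmul_none_right]
            rw [nn, nn]
        · rw [rmul_none _ _ _ _ _ _ hd, rmul_none _ _ _ _ _ _ hd, spow_none, rmul_none_right,
            rmul_none_left]
      · rw [rmul_none _ _ _ _ _ _ hb, rmul_none _ _ _ _ _ _ hb, spow_none, rmul_none_right,
          rmul_none_left]

theorem CE_iff (k : ℕ) {l0 : L} {i0 : I} (h0 : A l0 i0) :
    CE (rmul A p) none k ↔ ∀ g : G, (k + 1) • g = 0 := by
  constructor
  · intro h g
    have hh := h (some (i0, g - p l0 i0, l0)) (rmul_ne.2 h0)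
    rw [spow_some h0] at hh
    simp only [Option.some.injEq, Prod.mk.injEq, true_and, and_true] at hh
    have : (k + 1) • g = ((k + 1 + 1) • (g - p l0 i0) + (k + 1) • p l0 i0) - (g - p l0 i0) := by
      rw [succ_nsmul (g - p l0 i0) (k + 1), smul_sub]; abel
    rw [this, hh, sub_self]
  · intro h x hx
    obtain ⟨i, g, l, j, g', l', rfl, e, q⟩ := rmul_ne' hx
    simp only [Option.some.injEq, Prod.mk.injEq] at e
    obtain ⟨rfl, rfl, rfl⟩ := e
    rw [spow_some q, succ_nsmul, h, h, zero_add, add_zero]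

end rees

/-! ### Transfer of the criterion -/

theorem spow_equiv {S S' : Type} {op : S → S → S} {op' : S' → S' → S'} (f : S ≃ S')
    (hf : ∀ x y, f (op x y) = op' (f x) (f y)) (k : ℕ) (x : S) :
    f (spow op k x) = spow op' k (f x) := by
  induction k with
  | zero => rfl
  | succ k ih => rw [spow, spow, hf, ih]

theorem C1_equiv {S S' : Type} {op : S → S → S} {op' : S' → S' → S'} (f : S ≃ S')
    (hf : ∀ x y, f (op x y) = op' (f x) (f y)) (z : S) : C1 op z ↔ C1 op' (f z) := by
  constructor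
  · intro h a b c d h1 h2 h3 h4
    refine h (f.symm a) (f.symm b) (f.symm c) (f.symm d) ?_ ?_ ?_ ?_
    · intro e; apply h1; rw [← e, hf]; simp
    · intro e; apply h2; rw [← e, hf]; simp
    · intro e; apply h3; rw [← e, hf]; simp
    · apply f.injective; rw [hf]; simpa using h4
  · intro h a b c d h1 h2 h3 h4
    refine h (f a) (f b) (f c) (f d) ?_ ?_ ?_ ?_
    · intro e; apply h1; apply f.injective; rw [hf, e]
    · intro e; apply h2; apply f.injective; rw [hf, e]
    · intro e; apply h3; apply f.injective; rw [hf, e]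
    · rw [← hf, h4]

theorem C2_equiv {S S' : Type} {op : S → S → S} {op' : S' → S' → S'} (f : S ≃ S')
    (hf : ∀ x y, f (op x y) = op' (f x) (f y)) (z : S) (k : ℕ) :
    C2 op z k ↔ C2 op' (f z) k := by
  constructor
  · intro h a b c d y h1 h2 h3 h4
    have hh := h (f.symm a) (f.symm b) (f.symm c) (f.symm d) (f.symm y)
      (fun e => h1 (by rw [← e, hf]; simp)) (fun e => h2 (by rw [← e, hf]; simp))
      (fun e => h3 (by rw [← e, hf]; simp)) (fun e => h4 (by rw [← e, hf]; simp))
    have := congrArg f hh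
    simpa [hf, spow_equiv f hf] using this
  · intro h a b c d y h1 h2 h3 h4
    have hh := h (f a) (f b) (f c) (f d) (f y)
      (fun e => h1 (f.injective (by rw [hf, e]))) (fun e => h2 (f.injective (by rw [hf, e])))
      (fun e => h3 (f.injective (by rw [hf, e]))) (fun e => h4 (f.injective (by rw [hf, e])))
    apply f.injective
    simpa [hf, spow_equiv f hf] using hh

theorem CE_equiv {S S' : Type} {op : S → S → S} {op' : S' → S' → S'} (f : S ≃ S')
    (hf : ∀ x y, f (op x y) = op' (f x) (f y)) (z : S) (k : ℕ) :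
    CE op z k ↔ CE op' (f z) k := by
  constructor
  · intro h x hx
    have hh := h (f.symm x) (fun e => hx (by rw [← e, hf]; simp))
    have := congrArg f hh
    rw [spow_equiv f hf] at this
    simpa using this
  · intro h x hx
    have hh := h (f x) (fun e => hx (f.injective (by rw [hf, e])))
    apply f.injective
    rw [spow_equiv f hf]
    exact hh

/-- **The criterion is correct.** -/
theorem FB_iff_crit (n : ℕ) (op : Fin n → Fin n → Fin n)
    (hassoc : ∀ a b c, op (op a b) c = op a (op b c)) (z : Fin n) (hb : Basic op z) :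
    FB op ↔ (C1 op z ∨ ∀ k < n, C2 op z k → CE op z k) := by
  obtain ⟨hz, hne, hs, hp, ha⟩ := hb
  obtain ⟨G, I, L, _, _, _, _, A, p, f, hI, hL, hrow, hcol, hfz, hf⟩ :=
    exists_rees op hassoc z hz hne hs hp ha
  obtain ⟨l0⟩ := hL
  obtain ⟨i0, h0⟩ := hrow l0
  have : Nonempty L := ⟨l0⟩
  rw [FB_equiv f hf, FB_iff hrow hcol l0, C1_equiv f hf, hfz, C1_iff]
  refine or_congr Iff.rfl ?_
  have hcardG : Nat.card G < n := by
    have h1 : Nat.card (Fin n) = Nat.card (Option (I × G × L)) := Nat.card_congr f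
    rw [Nat.card_fin, Finite.card_option, Nat.card_prod, Nat.card_prod] at h1
    have h2 : 0 < Nat.card I := Nat.card_pos
    have h3 : 0 < Nat.card L := Nat.card_pos
    rw [h1]
    have h4 : Nat.card G ≤ Nat.card I * (Nat.card G * Nat.card L) := by
      calc Nat.card G = 1 * (Nat.card G * 1) := by ring
        _ ≤ Nat.card I * (Nat.card G * Nat.card L) :=
          Nat.mul_le_mul h2 (Nat.mul_le_mul le_rfl h3)
    omega
  constructor
  · intro h k _ hk
    rw [C2_equiv f hf, hfz, C2_iff] at hk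
    rw [CE_equiv f hf, hfz, CE_iff k h0]
    exact h (k + 1) (by omega) hk
  · intro h k hk0 hk g
    obtain ⟨hm0, hm, _⟩ := exponent_facts G
    obtain ⟨r, hr0, hrK, hrg⟩ := exists_gen_K2 hm0 hm A p
    have hr1 : r ≤ Nat.card G :=
      Nat.le_of_dvd Nat.card_pos ((hrg _ (fun l i l' i' _ _ _ _ => hm _)).trans
        AddGroup.exponent_dvd_nat_card)
    have h1 := h (r - 1) (by omega)
    rw [C2_equiv f hf, hfz, C2_iff, CE_equiv f hf, hfz, CE_iff _ h0] at h1
    have h2 : r - 1 + 1 = r := by omega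
    rw [h2] at h1
    obtain ⟨c, rfl⟩ := hrg k hk
    rw [mul_comm, mul_smul, h1 hrK, smul_zero]

end Pool.Agent.CZS
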