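import Pool.Agent.CZS.Table

/-! The two-element group. -/

set_option autoImplicit false

namespace Pool.Agent.CZS

/-- All maximal subgroups `e S e \ {0}` have exactly two elements, on a table. -/
def CritTwo (n : ℕ) (o : ℕ → ℕ → ℕ) : Prop :=
  ∃ z < n, (∀ x < n, o z x = z ∧ o x z = z) ∧
    ∀ e < n, e ≠ z → o e e = e → ∃ a < n, ∃ b < n, a ≠ b ∧
      (a ≠ z ∧ ∃ y < n, a = o (o e y) e) ∧ (b ≠ z ∧ ∃ y < n, b = o (o e y) e) ∧
      ∀ x < n, x ≠ z → (∃ y < n, x = o (o e y) e) → x = a ∨ x = b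

namespace Cmp

open Tm Fm in
/-- the formula -/
def twoF : Fm :=
  ex (.and (.all (.and (.eq (.op (v 1) (v 0)) (v 1)) (.eq (.op (v 0) (v 1)) (v 1))))
    (.all (imp (ne' (v 0) (v 1)) (imp (.eq (.op (v 0) (v 0)) (v 0))
      (ex (ex (.and (ne' (v 1) (v 0))
        (.and (.and (ne' (v 1) (v 3)) (ex (.eq (v 2) (.op (.op (v 3) (v 0)) (v 3)))))
          (.and (.and (ne' (v 0) (v 3)) (ex (.eq (v 1) (.op (.op (v 3) (v 0)) (v 3)))))
            (.all (imp (ne' (v 0) (v 4)) (imp (ex (.eq (v 1) (.op (.op (v 4) (v 0)) (v 4))))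
              (or' (.eq (v 0) (v 2)) (.eq (v 0) (v 1)))))))))))))))

theorem two_iff (n : ℕ) (o : ℕ → ℕ → ℕ) : CritTwo n o ↔ holds n o [] twoF := by
  unfold twoF
  simp only [holds_ex, holds_or, holds_imp, holds_ne, holds_eq, holds_and, holds_all]
  exact Iff.rfl

end Cmp

theorem critTwo_primrec : PrimrecPred (fun a : ℕ × List (List ℕ) => CritTwo a.1 (top a.2)) := by
  have h2 := (Cmp.primrec_holds Cmp.twoF).comp (f := fun a : ℕ × List (List ℕ) => (a, []))
    (Primrec.pair Primrec.id (Primrec.const []))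
  refine h2.of_eq ?_
  intro a
  exact (Cmp.two_iff a.1 (top a.2)).symm

theorem crit_primrec : PrimrecPred (fun a : ℕ × List (List ℕ) => Crit a.1 (top a.2)) := by
  have h2 := (Cmp.primrec_holds Cmp.critF).comp (f := fun a : ℕ × List (List ℕ) => (a, []))
    (Primrec.pair Primrec.id (Primrec.const []))
  refine h2.of_eq ?_
  intro a
  exact (Cmp.crit_iff a.1 (top a.2)).symm

/-- `S` is completely 0-simple with zero `z` (definition of the problem file). -/
def CompletelyZeroSimple {S : Type} (op : S → S → S) (z : S) : Prop :=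
  (∀ x, op z x = z ∧ op x z = z) ∧ (∃ x y, op x y ≠ z) ∧
    (∀ I : Set S, z ∈ I → (∀ x ∈ I, ∀ s : S, op s x ∈ I ∧ op x s ∈ I) → I = {z} ∨ I = Set.univ) ∧
    ∃ e, e ≠ z ∧ op e e = e ∧ ∀ f, f ≠ z → op f f = f → op e f = f → op f e = f → f = e

/-- The maximal subgroup `e S e \ {0}` of a completely 0-simple semigroup, `e` a nonzero idempotent. -/
def maxSubgroup {S : Type} (op : S → S → S) (z e : S) : Set S :=
  {x | x ≠ z ∧ ∃ y, x = op (op e y) e}

theorem critTwo_iff (n : ℕ) (op : Fin n → Fin n → Fin n) (o : ℕ → ℕ → ℕ)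
    (ho : ∀ i j : Fin n, ((op i j : Fin n) : ℕ) = o i j) : CritTwo n o ↔
      ∃ z : Fin n, (∀ x, op z x = z ∧ op x z = z) ∧
        ∀ e, e ≠ z → op e e = e → (maxSubgroup op z e).ncard = 2 := by
  have h1 : CritTwo n o ↔ ∃ z : Fin n, (∀ x, op z x = z ∧ op x z = z) ∧
      ∀ e, e ≠ z → op e e = e → ∃ a b, a ≠ b ∧
      (a ≠ z ∧ ∃ y, a = op (op e y) e) ∧ (b ≠ z ∧ ∃ y, b = op (op e y) e) ∧
      ∀ x, x ≠ z → (∃ y, x = op (op e y) e) → x = a ∨ x = b := by
    constructor
    · rintro ⟨z, hz, h1, h2⟩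
      refine ⟨⟨z, hz⟩, fun x => ?_, fun e he hee => ?_⟩
      · have := h1 x x.2
        exact ⟨Fin.ext (by rw [ho]; exact this.1), Fin.ext (by rw [ho]; exact this.2)⟩
      · obtain ⟨a, ha, b, hb, hab, ⟨ha1, ya, hya, ha2⟩, ⟨hb1, yb, hyb, hb2⟩, h3⟩ := h2 e e.2
          (fun h => he (Fin.ext h)) (by rw [← ho]; exact congrArg Fin.val hee)
        refine ⟨⟨a, ha⟩, ⟨b, hb⟩, fun h => hab (congrArg Fin.val h),
          ⟨fun h => ha1 (congrArg Fin.val h), ⟨ya, hya⟩, Fin.ext ?_⟩,
          ⟨fun h => hb1 (congrArg Fin.val h), ⟨yb, hyb⟩, Fin.ext ?_⟩, ?_⟩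
        · rw [ho, ho]; exact ha2
        · rw [ho, ho]; exact hb2
        · rintro x hx ⟨y, hy⟩
          rcases h3 x x.2 (fun h => hx (Fin.ext h)) ⟨y, y.2, by
            have := congrArg Fin.val hy
            rw [ho, ho] at this; exact this⟩ with h | h
          · exact Or.inl (Fin.ext h)
          · exact Or.inr (Fin.ext h)
    · rintro ⟨z, h1, h2⟩
      refine ⟨z, z.2, fun x hx => ?_, fun e he hez hee => ?_⟩
      · have := h1 ⟨x, hx⟩
        have t1 := congrArg Fin.val this.1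
        have t2 := congrArg Fin.val this.2
        rw [ho] at t1 t2
        exact ⟨t1, t2⟩
      · obtain ⟨a, b, hab, ⟨ha1, ya, ha2⟩, ⟨hb1, yb, hb2⟩, h3⟩ := h2 ⟨e, he⟩
          (fun h => hez (congrArg Fin.val h)) (Fin.ext (by rw [ho]; exact hee))
        have t1 := congrArg Fin.val ha2
        have t2 := congrArg Fin.val hb2
        rw [ho, ho] at t1 t2
        refine ⟨a, a.2, b, b.2, fun h => hab (Fin.ext h), ⟨fun h => ha1 (Fin.ext h), ya, ya.2, t1⟩,
          ⟨fun h => hb1 (Fin.ext h), yb, yb.2, t2⟩, ?_⟩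
        rintro x hx hxz ⟨y, hy, hxy⟩
        rcases h3 ⟨x, hx⟩ (fun h => hxz (congrArg Fin.val h)) ⟨⟨y, hy⟩, Fin.ext (by
          rw [ho, ho]; exact hxy)⟩ with h | h
        · exact Or.inl (congrArg Fin.val h)
        · exact Or.inr (congrArg Fin.val h)
  rw [h1]
  refine exists_congr fun z => and_congr Iff.rfl (forall_congr' fun e => forall_congr' fun _ =>
    forall_congr' fun _ => ?_)
  rw [Set.ncard_eq_two]
  constructor
  · rintro ⟨a, b, hab, ha, hb, h3⟩
    refine ⟨a, b, hab, ?_⟩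
    ext x
    constructor
    · intro hx
      exact h3 x hx.1 hx.2
    · rintro (rfl | rfl)
      · exact ha
      · exact hb
  · rintro ⟨a, b, hab, h3⟩
    have ha : a ∈ maxSubgroup op z e := by rw [h3]; exact Or.inl rfl
    have hb : b ∈ maxSubgroup op z e := by rw [h3]; exact Or.inr rfl
    refine ⟨a, b, hab, ha, hb, ?_⟩
    intro x hx hy
    have : x ∈ maxSubgroup op z e := ⟨hx, hy⟩
    rw [h3] at this
    exact this

/-- A completely 0-simple semigroup whose maximal subgroups have two elements has abelian maximal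
subgroups. -/
theorem abelian_of_two {S : Type} (op : S → S → S)
    (hassoc : ∀ a b c, op (op a b) c = op a (op b c)) (z : S)
    (hz : ∀ x, op z x = z ∧ op x z = z) (e : S) (he : e ≠ z) (hee : op e e = e)
    (h2 : (maxSubgroup op z e).ncard = 2) (a b : S) :
    op (op (op e a) e) (op (op e b) e) = op (op (op e b) e) (op (op e a) e) := by
  rw [Set.ncard_eq_two] at h2
  obtain ⟨x, y, hxy, hset⟩ := h2
  have hem : e ∈ maxSubgroup op z e := ⟨he, e, by rw [hee, hee]⟩
  have unit : ∀ w, op e (op (op e w) e) = op (op e w) e := by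
    intro w; rw [← hassoc, ← hassoc, hee]
  have unit' : ∀ w, op (op (op e w) e) e = op (op e w) e := by
    intro w; rw [hassoc, hee]
  -- every element of `e S e` is `z`, `e` or one other element
  obtain ⟨t, ht⟩ : ∃ t, ∀ w, op (op e w) e = z ∨ op (op e w) e = e ∨ op (op e w) e = t := by
    have hem' := hem
    rw [hset] at hem'
    rcases hem' with h | h
    · refine ⟨y, fun w => ?_⟩
      by_cases hw : op (op e w) e = z
      · exact Or.inl hw
      · have : op (op e w) e ∈ maxSubgroup op z e := ⟨hw, w, rfl⟩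
        rw [hset] at this
        rcases this with h' | h'
        · exact Or.inr (Or.inl (h'.trans h.symm))
        · exact Or.inr (Or.inr h')
    · refine ⟨x, fun w => ?_⟩
      by_cases hw : op (op e w) e = z
      · exact Or.inl hw
      · have : op (op e w) e ∈ maxSubgroup op z e := ⟨hw, w, rfl⟩
        rw [hset] at this
        rcases this with h' | h'
        · exact Or.inr (Or.inr h')
        · exact Or.inr (Or.inl (h'.trans h.symm))
  rcases ht a with h1 | h1 | h1
  · rw [h1, (hz _).1, (hz _).2]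
  · have := unit b
    have := unit' b
    rw [h1, unit, unit']
  · rcases ht b with h2 | h2 | h2
    · rw [h2, (hz _).1, (hz _).2]
    · rw [h2, unit, unit']
    · rw [h1, h2]

/-- Decidability over the two-element group. -/
theorem two_decidable : ∃ P : ℕ × List (List ℕ) → Prop, ComputablePred P ∧
    ∀ (n : ℕ) (op : Fin n → Fin n → Fin n),
      (∀ a b c : Fin n, op (op a b) c = op a (op b c)) →
      (P (n, List.ofFn (fun i : Fin n => List.ofFn (fun j : Fin n => ((op i j : Fin n) : ℕ)))) ↔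
        (∃ z : Fin n, CompletelyZeroSimple op z ∧
          ∀ e, e ≠ z → op e e = e → (maxSubgroup op z e).ncard = 2) ∧ FB op) := by
  refine ⟨fun a => Crit a.1 (top a.2) ∧ CritTwo a.1 (top a.2),
    (crit_primrec.and critTwo_primrec).computablePred, ?_⟩
  intro n op hassoc
  have h1 := crit_iff_critS n op _ (top_ofFn n op)
  have h2 := critTwo_iff n op _ (top_ofFn n op)
  refine (and_congr h1 h2).trans ?_
  constructor
  · rintro ⟨⟨z, hb, hc⟩, ⟨z', hz', h3⟩⟩
    have hzz : z' = z := by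
      have e1 := (hz' z).1
      have e2 := (hb.1 z').2
      rw [← e1, e2]
    subst hzz
    exact ⟨⟨z', ⟨hb.1, hb.2.1, (ideals_iff op hassoc z' hb.1).2 hb.2.2.1, hb.2.2.2.1⟩, h3⟩,
      (FB_iff_crit n op hassoc z' hb).2 hc⟩
  · rintro ⟨⟨z, ⟨g1, g2, g3, g4⟩, h3⟩, hfb⟩
    have hb : Basic op z := ⟨g1, g2, (ideals_iff op hassoc z g1).1 g3, g4,
      fun e he hee a b => abelian_of_two op hassoc z g1 e he hee (h3 e he hee) a b⟩
    exact ⟨⟨z, hb, (FB_iff_crit n op hassoc z hb).1 hfb⟩, ⟨z, g1, h3⟩⟩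

end Pool.Agent.CZS
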