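import Pool.Agent.CZS.Rel

/-! The laws used in the finitely based direction, and their validity. -/

set_option autoImplicit false

namespace Pool.Agent.CZS

variable {G I L : Type} [AddCommGroup G] {A : L → I → Prop} {p : L → I → G} {m : ℕ}

theorem modEq_add_mul (a m c : ℕ) : a ≡ a + m * c [MOD m] := by
  simp [Nat.ModEq]

theorem cnt_ins (a : List ℕ) (m : ℕ) (w b : List ℕ) (x : ℕ) :
    (a ++ b).count x ≡ (a ++ (pw m w ++ b)).count x [MOD m] := by
  rw [List.count_append, List.count_append, List.count_append, count_pw]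
  have e : ∀ c d f : ℕ, c + (m * d + f) = (c + f) + m * d := by intros; ring
  rw [e]
  exact modEq_add_mul _ _ _

/-- Value of a multiset of pairs. -/
def pm (p : L → I → G) (la : ℕ → L) (io : ℕ → I) (F : Multiset (ℕ × ℕ)) : G :=
  (F.map (fun e => p (la e.1) (io e.2))).sum

theorem psum_eq_pm (p : L → I → G) (la : ℕ → L) (io : ℕ → I) (u : List ℕ) :
    psum p la io u = pm p la io (ed u) := rfl

theorem pm_add (p : L → I → G) (la : ℕ → L) (io : ℕ → I) (F F' : Multiset (ℕ × ℕ)) :
    pm p la io (F + F') = pm p la io F + pm p la io F' := by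
  simp [pm]

theorem pm_nsmul (p : L → I → G) (la : ℕ → L) (io : ℕ → I) (n : ℕ) (F : Multiset (ℕ × ℕ)) :
    pm p la io (n • F) = n • pm p la io F := by
  simp [pm, Multiset.map_nsmul, Multiset.sum_nsmul]

theorem pm_cons (p : L → I → G) (la : ℕ → L) (io : ℕ → I) (e : ℕ × ℕ) (F : Multiset (ℕ × ℕ)) :
    pm p la io (e ::ₘ F) = p (la e.1) (io e.2) + pm p la io F := by
  simp [pm]

theorem pm_singleton (p : L → I → G) (la : ℕ → L) (io : ℕ → I) (e : ℕ × ℕ) :
    pm p la io {e} = p (la e.1) (io e.2) := by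
  simp [pm]

/-- Adding `m` copies of something allowed. -/
theorem sId_add (hm : ∀ g : G, m • g = 0) {u v : List ℕ} (F : Multiset (ℕ × ℕ))
    (hcont : ∀ x, x ∈ u ↔ x ∈ v) (hocc : ∀ x, u.count x ≡ v.count x [MOD m])
    (hhead : u.head? = v.head?) (hlast : u.getLast? = v.getLast?) (hed : ed v = ed u + m • F)
    (hF : ∀ la io, Ok A la io u → ∀ e ∈ F, A (la e.1) (io e.2)) : SId A p m u v := by
  refine ⟨hcont, hocc, ?_, ?_, ?_, ?_⟩
  · intro la io
    constructor
    · intro hO e he
      rw [hed, Multiset.mem_add] at he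
      rcases he with he | he
      · exact hO e he
      · exact hF la io hO e (Multiset.mem_of_mem_nsmul he)
    · intro hO e he
      exact hO e (by rw [hed]; exact Multiset.mem_add.2 (Or.inl he))
  · intro la io _; rw [hhead]
  · intro la io _; rw [hlast]
  · intro la io _
    rw [psum_eq_pm, psum_eq_pm, hed, pm_add, pm_nsmul, hm, add_zero]

theorem ed_block' (y z n : ℕ) (w r : List ℕ) :
    ed (pw (n + 1) (y :: (w ++ [z])) ++ r) =
      (n + 1) • ed (y :: (w ++ [z])) + n • {(z, y)} + ed (z :: r) := by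
  have h1 : pw (n + 1) (y :: (w ++ [z])) ++ r =
      y :: (w ++ z :: (pw n ((y :: w) ++ [z]) ++ r)) := by
    rw [pw_succ]; simp
  have h2 : ed (z :: (y :: (w ++ [z]))) = {(z, y)} + ed (y :: (w ++ [z])) := by
    rw [ed_cons_cons]; rfl
  have h3 : ed (y :: (w ++ z :: (pw n ((y :: w) ++ [z]) ++ r))) =
      ed (y :: (w ++ [z])) + ed (z :: (pw n ((y :: w) ++ [z]) ++ r)) := by
    simpa using ed_append_cons (y :: w) z (pw n ((y :: w) ++ [z]) ++ r)
  rw [h1, h3, ed_pw_append, List.cons_append, h2, nsmul_add, succ_nsmul]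
  abel

/-- A block repeated, with its first letter `y` and last letter `z`. -/
theorem ed_block (c y z n : ℕ) (w r : List ℕ) :
    ed (c :: (pw (n + 1) (y :: (w ++ [z])) ++ r)) =
      (c, y) ::ₘ ((n + 1) • ed (y :: (w ++ [z])) + n • {(z, y)} + ed (z :: r)) := by
  have h1 : c :: (pw (n + 1) (y :: (w ++ [z])) ++ r) =
      c :: y :: (w ++ z :: (pw n ((y :: w) ++ [z]) ++ r)) := by
    rw [pw_succ]; simp
  have h2 : ed (z :: (y :: (w ++ [z]))) = {(z, y)} + ed (y :: (w ++ [z])) := by
    rw [ed_cons_cons]; rfl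
  have h3 : ed (y :: (w ++ z :: (pw n ((y :: w) ++ [z]) ++ r))) =
      ed (y :: (w ++ [z])) + ed (z :: (pw n ((y :: w) ++ [z]) ++ r)) := by
    simpa using ed_append_cons (y :: w) z (pw n ((y :: w) ++ [z]) ++ r)
  rw [h1, ed_cons_cons]
  congr 1
  rw [h3, ed_pw_append, List.cons_append, h2, nsmul_add, succ_nsmul]
  abel

/-! ### The laws -/

section laws

variable (hm : ∀ g : G, m • g = 0)
include hm

theorem val1 (x : ℕ) (w : List ℕ) :
    SId A p m (x :: (w ++ [x])) (x :: pw (m + 1) (w ++ [x])) := by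
  refine sId_add hm (ed (x :: (w ++ [x]))) ?_ ?_ (by simp) ?_ ?_ ?_
  · intro y
    simp only [List.mem_cons, mem_pw, List.mem_append]
    tauto
  · intro y
    rw [List.count_cons, List.count_cons, count_pw]
    have : (m + 1) * (w ++ [x]).count y + (if (x == y) = true then 1 else 0) =
      ((w ++ [x]).count y + if (x == y) = true then 1 else 0) + m * (w ++ [x]).count y := by ring
    rw [this]
    exact modEq_add_mul _ _ _
  · have h := last_ins [] m x w (w ++ [x])
    simp only [List.nil_append] at h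
    rw [pw_succ', h]
  · have h := ed_pw_append m x w (w ++ [x])
    rw [pw_succ', h]
    abel
  · intro la io hO e he; exact hO e he

omit hm in
theorem val2 (x : ℕ) (a b : List ℕ) :
    SId A p m (x :: (a ++ x :: (b ++ [x]))) (x :: (b ++ x :: (a ++ [x]))) := by
  have hed : ed (x :: (a ++ x :: (b ++ [x]))) = ed (x :: (b ++ x :: (a ++ [x]))) := by
    have h1 := ed_append_cons (x :: a) x (b ++ [x])
    have h2 := ed_append_cons (x :: b) x (a ++ [x])
    simp only [List.cons_append] at h1 h2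
    rw [h1, h2, add_comm]
  refine ⟨?_, ?_, ?_, ?_, ?_, ?_⟩
  · intro y; simp; tauto
  · intro y
    have : (x :: (a ++ x :: (b ++ [x]))).count y = (x :: (b ++ x :: (a ++ [x]))).count y := by
      simp only [List.count_cons, List.count_append]; omega
    rw [this]
  · intro la io
    unfold Ok; rw [hed]
  · intro la io _; simp
  · intro la io _
    have h1 : ∀ c d : List ℕ, (x :: (c ++ x :: (d ++ [x]))).getLast? = some x := by
      intro c d
      have : x :: (c ++ x :: (d ++ [x])) = (x :: (c ++ x :: d)) ++ [x] := by simp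
      rw [this, List.getLast?_append_of_ne_nil _ (by simp)]; rfl
    rw [h1, h1]
  · intro la io _
    rw [psum_eq_pm, psum_eq_pm, hed]

theorem val3 (hK : K1 A) (x a b y : ℕ) (s t z : List ℕ) :
    SId A p m (x :: (a :: (s ++ b :: a :: (t ++ b :: y :: (z ++ [x])))))
      (x :: ((a :: (s ++ b :: a :: (t ++ b :: y :: (z ++ [x])))) ++ pw m (y :: (z ++ [x])))) := by
  have hlast1 : ∀ r : List ℕ, (x :: ((a :: (s ++ b :: a :: (t ++ b :: y :: (z ++ [x])))) ++ r)) =
      (x :: a :: (s ++ b :: a :: (t ++ b :: y :: z))) ++ x :: r := by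
    intro r; simp
  have hu : (x :: (a :: (s ++ b :: a :: (t ++ b :: y :: (z ++ [x]))))) =
      (x :: a :: (s ++ b :: a :: (t ++ b :: y :: z))) ++ x :: [] := by
    simp
  refine sId_add hm (ed (x :: y :: (z ++ [x]))) ?_ ?_ (by simp) ?_ ?_ ?_
  · intro w
    simp only [List.mem_cons, mem_pw, List.mem_append, List.cons_append, List.append_assoc]
    tauto
  · intro w
    have := cnt_ins (x :: (a :: (s ++ b :: a :: (t ++ b :: y :: (z ++ [x]))))) m
      (y :: (z ++ [x])) [] w
    simpa using this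
  · rw [hlast1, hu]
    have := last_ins (x :: a :: (s ++ b :: a :: (t ++ b :: y :: z))) m x (y :: z) []
    rw [List.append_nil] at this
    rw [← this]
    simp
  · rw [hlast1, hu]
    have := ed_ins (x :: a :: (s ++ b :: a :: (t ++ b :: y :: z))) m x (y :: z) []
    simp only [List.cons_append, List.append_nil] at this ⊢
    exact this
  · intro la io hO e he
    rw [ed_cons_cons, Multiset.mem_cons] at he
    rcases he with rfl | he
    · refine hK (la x) (io a) (la b) (io y) ?_ ?_ ?_
      · exact hO (x, a) (mem_ed_iff.2 ⟨[], s ++ b :: a :: (t ++ b :: y :: (z ++ [x])), rfl⟩)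
      · exact hO (b, a) (mem_ed_iff.2 ⟨x :: a :: s, t ++ b :: y :: (z ++ [x]), by simp⟩)
      · exact hO (b, y) (mem_ed_iff.2 ⟨x :: a :: (s ++ b :: a :: t), z ++ [x], by simp⟩)
    · obtain ⟨e1, e2⟩ := e
      obtain ⟨c, d, hcd⟩ := mem_ed_iff.1 he
      refine hO (e1, e2) (mem_ed_iff.2 ⟨x :: a :: (s ++ b :: a :: (t ++ [b])) ++ c, d, ?_⟩)
      rw [List.append_assoc, ← hcd]
      simp

theorem val4 (hK : K1 A) (x a b y : ℕ) (s t : List ℕ) :
    SId A p m (b :: y :: (s ++ b :: a :: (t ++ [x, a])))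
      (b :: y :: (s ++ b :: a :: (t ++ x :: (pw m (y :: (s ++ b :: a :: (t ++ [x]))) ++ [a])))) := by
  have hu : (b :: y :: (s ++ b :: a :: (t ++ [x, a]))) =
      (b :: y :: (s ++ b :: a :: t)) ++ x :: [a] := by simp
  have hv : (b :: y :: (s ++ b :: a :: (t ++ x :: (pw m (y :: (s ++ b :: a :: (t ++ [x]))) ++ [a]))))
      = (b :: y :: (s ++ b :: a :: t)) ++ x :: (pw m ((y :: (s ++ b :: a :: t)) ++ [x]) ++ [a]) := by
    simp
  refine sId_add hm (ed (x :: y :: (s ++ b :: a :: (t ++ [x])))) ?_ ?_ (by simp) ?_ ?_ ?_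
  · intro w
    simp only [List.mem_cons, mem_pw, List.mem_append]
    tauto
  · intro w
    have := cnt_ins (b :: y :: (s ++ b :: a :: (t ++ [x]))) m
      (y :: (s ++ b :: a :: (t ++ [x]))) [a] w
    simpa using this
  · rw [hu, hv, last_ins]
  · rw [hu, hv, ed_ins]
    congr 3
    simp
  · intro la io hO e he
    rw [ed_cons_cons, Multiset.mem_cons] at he
    rcases he with rfl | he
    · refine hK (la x) (io a) (la b) (io y) ?_ ?_ ?_
      · exact hO (x, a) (mem_ed_iff.2 ⟨b :: y :: (s ++ b :: a :: t), [], by simp⟩)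
      · exact hO (b, a) (mem_ed_iff.2 ⟨b :: y :: s, t ++ [x, a], by simp⟩)
      · exact hO (b, y) (mem_ed_iff.2 ⟨[], s ++ b :: a :: (t ++ [x, a]), rfl⟩)
    · obtain ⟨e1, e2⟩ := e
      obtain ⟨c, d, hcd⟩ := mem_ed_iff.1 he
      refine hO (e1, e2) (mem_ed_iff.2 ⟨b :: c, d ++ [a], ?_⟩)
      have : b :: y :: (s ++ b :: a :: (t ++ [x, a])) =
        b :: (y :: (s ++ b :: a :: (t ++ [x])) ++ [a]) := by simp
      rw [this, hcd]
      simp

theorem val5 (hK : ∀ l i, A l i) (x : ℕ) : SId A p m [x] (pw (m + 1) [x]) := by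
  have h : pw (m + 1) [x] = x :: pw m ([] ++ [x]) := by rw [pw_succ]; rfl
  refine sId_add hm (ed [x, x]) ?_ ?_ ?_ ?_ ?_ ?_
  · intro y
    rw [mem_pw]; simp
  · intro y
    rw [count_pw]
    have : (m + 1) * [x].count y = [x].count y + m * [x].count y := by ring
    rw [this]
    exact modEq_add_mul _ _ _
  · rw [h]; simp
  · rw [h]
    have := last_ins [] m x [] []
    simpa using this.symm
  · rw [h]
    have := ed_ins [] m x [] []
    simpa using this
  · intro la io _ e _; exact hK _ _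

/-- The 4-cycle law. -/
theorem val6 {r : ℕ} (hr : K2 A p r) (hm0 : 0 < m) (x y x' y' : ℕ) (s t : List ℕ) :
    SId A p m (x :: (pw (m + 1) (y :: (s ++ [x'])) ++ pw (m + 1) (y' :: (t ++ [x]))))
      (x :: (pw (m + 1 + (m - 1) * r) (y :: (s ++ [x'])) ++
        (pw (m + 1 + (m - 1) * r) (y' :: (t ++ [x])) ++
          pw r (y :: (s ++ x' :: y' :: (t ++ [x])))))) := by
  obtain ⟨n, rfl⟩ : ∃ n, m = n + 1 := ⟨m - 1, by omega⟩
  have e0 : n + 1 - 1 = n := by omega
  rw [e0]
  have e1 : n + 1 + 1 + n * r = (n + 1 + n * r) + 1 := by ring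
  have edu : ed (x :: (pw (n + 1 + 1) (y :: (s ++ [x'])) ++ pw (n + 1 + 1) (y' :: (t ++ [x])))) =
      (x, y) ::ₘ ((n + 1 + 1) • ed (y :: (s ++ [x'])) + (n + 1) • {(x', y)} +
        (x', y') ::ₘ ((n + 1 + 1) • ed (y' :: (t ++ [x])) + (n + 1) • {(x, y')} + ed [x])) := by
    have h1 := ed_block x y x' (n + 1) s (pw (n + 1 + 1) (y' :: (t ++ [x])))
    have h2 := ed_block x' y' x (n + 1) t []
    rw [List.append_nil] at h2
    rw [h1, h2]
  have edv : ed (x :: (pw (n + 1 + 1 + n * r) (y :: (s ++ [x'])) ++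
        (pw (n + 1 + 1 + n * r) (y' :: (t ++ [x])) ++
          pw r (y :: (s ++ x' :: y' :: (t ++ [x])))))) =
      (x, y) ::ₘ ((n + 1 + 1 + n * r) • ed (y :: (s ++ [x'])) + (n + 1 + n * r) • {(x', y)} +
        (x', y') ::ₘ ((n + 1 + 1 + n * r) • ed (y' :: (t ++ [x])) + (n + 1 + n * r) • {(x, y')} +
          r • ((x, y) ::ₘ (ed (y :: (s ++ [x'])) + (x', y') ::ₘ ed (y' :: (t ++ [x])))))) := by
    rw [e1]
    have h1 := ed_block x y x' (n + 1 + n * r) s
      (pw (n + 1 + n * r + 1) (y' :: (t ++ [x])) ++ pw r (y :: (s ++ x' :: y' :: (t ++ [x]))))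
    have h2 := ed_block x' y' x (n + 1 + n * r) t (pw r (y :: (s ++ x' :: y' :: (t ++ [x]))))
    have h3 := ed_pw_append r x (y :: (s ++ x' :: y' :: t)) []
    have h4 : (y :: (s ++ x' :: y' :: t)) ++ [x] = y :: (s ++ x' :: y' :: (t ++ [x])) := by simp
    rw [h4, List.append_nil, ed_singleton, add_zero] at h3
    have h5 : ed (x :: y :: (s ++ x' :: y' :: (t ++ [x]))) =
        (x, y) ::ₘ (ed (y :: (s ++ [x'])) + (x', y') ::ₘ ed (y' :: (t ++ [x]))) := by
      rw [ed_cons_cons]
      have := ed_append_two (y :: s) x' y' (t ++ [x])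
      simp only [List.cons_append] at this
      rw [this]
    rw [h1, h2, h3, h5]
  have hE : ∀ e, e ∈ ed (x :: (pw (n + 1 + 1) (y :: (s ++ [x'])) ++
      pw (n + 1 + 1) (y' :: (t ++ [x])))) ↔
      e ∈ ed (x :: (pw (n + 1 + 1 + n * r) (y :: (s ++ [x'])) ++
        (pw (n + 1 + 1 + n * r) (y' :: (t ++ [x])) ++
          pw r (y :: (s ++ x' :: y' :: (t ++ [x])))))) := by
    intro e
    rw [edu, edv]
    have q1 : n + 1 + 1 + n * r ≠ 0 := by omega
    have q2 : n + 1 + n * r ≠ 0 := by omega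
    simp only [Multiset.mem_cons, Multiset.mem_add, Multiset.mem_nsmul, q1, q2, ne_eq,
      Nat.add_eq_zero_iff, one_ne_zero, and_false, not_false_eq_true, Multiset.mem_singleton, true_and,
      ed_singleton, Multiset.notMem_zero, or_false]
    tauto
  have lastlem : ∀ (c : List ℕ) (k : ℕ), (x :: (c ++ pw (k + 1) (y' :: (t ++ [x])))).getLast? =
      some x := by
    intro c k
    rw [pw_succ']
    have : x :: (c ++ (pw k (y' :: (t ++ [x])) ++ y' :: (t ++ [x]))) =
      (x :: (c ++ (pw k (y' :: (t ++ [x])) ++ y' :: t))) ++ [x] := by simp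
    rw [this, List.getLast?_append_of_ne_nil _ (by simp)]; rfl
  refine ⟨?_, ?_, ?_, ?_, ?_, ?_⟩
  · intro w
    have q1 : n + 1 + 1 + n * r ≠ 0 := by omega
    simp only [List.mem_cons, List.mem_append, mem_pw, q1, ne_eq, Nat.add_eq_zero_iff, one_ne_zero,
      and_false, not_false_eq_true, true_and]
    tauto
  · intro w
    simp only [List.count_cons, List.count_append, count_pw, List.count_nil]
    have e2 : ∀ a b c d f g : ℕ,
        (n + 1 + 1 + n * r) * a + ((n + 1 + 1 + n * r) * b + r * c) + d =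
          ((n + 1 + 1) * a + (n + 1 + 1) * b + d) + (n * r * (a + b) + r * c) := by
      intros; ring
    rw [e2 _ _ _ _ 0 0]
    have e3 : ∀ a b a' x1 y1 y1' : ℕ,
        n * r * (a + x1 + y1 + (b + a' + y1')) + r * (a + (b + a' + y1') + x1 + y1) =
          (n + 1) * (r * (a + x1 + y1 + (b + a' + y1'))) := by intros; ring
    have e4 : ∀ (c1 c2 i1 i2 i3 i4 : ℕ), n * r * (c1 + (0 + i3) + i1 + (c2 + (0 + i2) + i4)) +
        r * (c1 + (c2 + (0 + i2) + i4 + i3) + i1) =
        (n + 1) * (r * (c1 + i3 + i1 + (c2 + i2 + i4))) := by intros; ring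
    rw [e4]
    exact modEq_add_mul _ _ _
  · intro la io
    exact ⟨fun h e he => h e ((hE e).2 he), fun h e he => h e ((hE e).1 he)⟩
  · intro la io _; simp
  · intro la io _
    congr 1
    rw [lastlem]
    cases r with
    | zero =>
      simp only [Nat.mul_zero, Nat.add_zero, pw_zero, List.append_nil]
      rw [lastlem]
    | succ r' =>
      rw [pw_succ']
      have : x :: (pw (n + 1 + 1 + n * (r' + 1)) (y :: (s ++ [x'])) ++
        (pw (n + 1 + 1 + n * (r' + 1)) (y' :: (t ++ [x])) ++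
          (pw r' (y :: (s ++ x' :: y' :: (t ++ [x]))) ++ y :: (s ++ x' :: y' :: (t ++ [x]))))) =
          (x :: (pw (n + 1 + 1 + n * (r' + 1)) (y :: (s ++ [x'])) ++
        (pw (n + 1 + 1 + n * (r' + 1)) (y' :: (t ++ [x])) ++
          (pw r' (y :: (s ++ x' :: y' :: (t ++ [x]))) ++ y :: (s ++ x' :: y' :: t))))) ++ [x] := by
        simp
      rw [this, List.getLast?_append_of_ne_nil _ (by simp)]; rfl
  · intro la io hO
    rw [psum_eq_pm, psum_eq_pm, edu, edv]
    simp only [pm_cons, pm_add, pm_nsmul, pm_singleton, ed_singleton]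
    have hx : A (la x) (io y) := hO (x, y) (by rw [edu]; simp)
    have hx1 : A (la x') (io y') := hO (x', y') (by rw [edu]; simp)
    have hx2 : A (la x) (io y') := hO (x, y') (by rw [edu]; simp)
    have hx3 : A (la x') (io y) := hO (x', y) (by rw [edu]; simp)
    have hk := hr (la x) (io y) (la x') (io y') hx hx2 hx3 hx1
    have z1 : ∀ g : G, (n + 1) • g = 0 := hm
    have z2 : ∀ g : G, (n * r) • g = - (r • g) := by
      intro g
      rw [eq_neg_iff_add_eq_zero]
      have : (n * r) • g + r • g = (n + 1) • (r • g) := by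
        rw [← add_smul, ← mul_smul]; congr 1; ring
      rw [this, z1]
    have z3 : pm p la io (0 : Multiset (ℕ × ℕ)) = 0 := by simp [pm]
    simp only [add_smul (n + 1) _ _, add_smul (n + 1 + 1) _ _, z1, z2, z3, zero_add, add_zero,
      smul_add]
    have hk' : r • p (la x) (io y) = r • p (la x) (io y') + r • p (la x') (io y)
        - r • p (la x') (io y') := by
      have : r • p (la x) (io y) - r • p (la x) (io y') - r • p (la x') (io y)
        + r • p (la x') (io y') = 0 := by
        rw [← hk]; simp only [smul_add, smul_sub]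
      rw [← sub_eq_zero]
      rw [← this]; abel
    rw [hk']
    abel

/-- Changing the last letter `c` of a prefix to `c'` (trivial cross-ratios). -/
theorem val7 (hK : K1 A) (hr : K2 A p 1) (hm0 : 0 < m) (c a c' d : ℕ) (s t : List ℕ) :
    SId A p m (c :: a :: (s ++ c' :: a :: (t ++ [c, d])))
      (c :: a :: (s ++ c' :: a :: (t ++ c :: (pw m (a :: (s ++ [c'])) ++ [d])))) := by
  obtain ⟨n, rfl⟩ : ∃ n, m = n + 1 := ⟨m - 1, by omega⟩
  have edu : ed (c :: a :: (s ++ c' :: a :: (t ++ [c, d]))) =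
      ed (c :: a :: (s ++ c' :: a :: (t ++ [c]))) + {(c, d)} := by
    have := ed_append_cons (c :: a :: (s ++ c' :: a :: t)) c [d]
    simpa using this
  have edv : ed (c :: a :: (s ++ c' :: a :: (t ++ c :: (pw (n + 1) (a :: (s ++ [c'])) ++ [d])))) =
      ed (c :: a :: (s ++ c' :: a :: (t ++ [c]))) +
        (c, a) ::ₘ ((n + 1) • ed (a :: (s ++ [c'])) + n • {(c', a)} + {(c', d)}) := by
    have h1 := ed_append_cons (c :: a :: (s ++ c' :: a :: t)) c
      (pw (n + 1) (a :: (s ++ [c'])) ++ [d])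
    rw [ed_block] at h1
    simpa using h1
  have mca : (c, a) ∈ ed (c :: a :: (s ++ c' :: a :: (t ++ [c]))) := by simp
  have mca' : (c', a) ∈ ed (c :: a :: (s ++ c' :: a :: (t ++ [c]))) :=
    mem_ed_iff.2 ⟨c :: a :: s, t ++ [c], by simp⟩
  have msub : ∀ e ∈ ed (a :: (s ++ [c'])), e ∈ ed (c :: a :: (s ++ c' :: a :: (t ++ [c]))) := by
    rintro ⟨e1, e2⟩ he
    obtain ⟨f, g, hfg⟩ := mem_ed_iff.1 he
    refine mem_ed_iff.2 ⟨c :: f, g ++ a :: (t ++ [c]), ?_⟩
    have : c :: a :: (s ++ c' :: a :: (t ++ [c])) = c :: (a :: (s ++ [c']) ++ a :: (t ++ [c])) := by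
      simp
    rw [this, hfg]
    simp
  refine ⟨?_, ?_, ?_, ?_, ?_, ?_⟩
  · intro w
    simp only [List.mem_cons, mem_pw, List.mem_append]
    have : n + 1 ≠ 0 := by omega
    tauto
  · intro w
    have := cnt_ins (c :: a :: (s ++ c' :: a :: (t ++ [c]))) (n + 1) (a :: (s ++ [c'])) [d] w
    simpa using this
  · intro la io
    unfold Ok
    rw [edu, edv]
    constructor
    · intro h e he
      have h1 : A (la c) (io a) := h (c, a) (Multiset.mem_add.2 (Or.inl mca))
      have h2 : A (la c') (io a) := h (c', a) (Multiset.mem_add.2 (Or.inl mca'))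
      have h3 : A (la c) (io d) := h (c, d) (by simp)
      have h4 : A (la c') (io d) := hK _ _ _ _ h2 h1 h3
      simp only [Multiset.mem_add, Multiset.mem_cons, Multiset.mem_singleton] at he
      rcases he with he | he | (he | he) | he
      · exact h e (Multiset.mem_add.2 (Or.inl he))
      · rw [he]; exact h1
      · exact h e (Multiset.mem_add.2 (Or.inl (msub e (Multiset.mem_of_mem_nsmul he))))
      · rw [Multiset.mem_singleton.1 (Multiset.mem_of_mem_nsmul he)]; exact h2
      · rw [he]; exact h4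
    · intro h e he
      have h1 : A (la c) (io a) := h (c, a) (Multiset.mem_add.2 (Or.inl mca))
      have h2 : A (la c') (io a) := h (c', a) (Multiset.mem_add.2 (Or.inl mca'))
      have h3 : A (la c') (io d) := h (c', d) (by simp)
      have h4 : A (la c) (io d) := hK _ _ _ _ h1 h2 h3
      simp only [Multiset.mem_add, Multiset.mem_singleton] at he
      rcases he with he | he
      · exact h e (Multiset.mem_add.2 (Or.inl he))
      · rw [he]; exact h4
  · intro la io _; simp
  · intro la io _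
    have e1 : c :: a :: (s ++ c' :: a :: (t ++ [c, d])) =
      (c :: a :: (s ++ c' :: a :: (t ++ [c]))) ++ [d] := by simp
    have e2 : c :: a :: (s ++ c' :: a :: (t ++ c :: (pw (n + 1) (a :: (s ++ [c'])) ++ [d]))) =
      (c :: a :: (s ++ c' :: a :: (t ++ c :: (pw (n + 1) (a :: (s ++ [c'])))))) ++ [d] := by simp
    rw [e1, e2, List.getLast?_append_of_ne_nil _ (by simp),
      List.getLast?_append_of_ne_nil _ (by simp)]
  · intro la io hO
    have hO' := hO
    unfold Ok at hO'
    rw [edu] at hO'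
    have h1 : A (la c) (io a) := hO' (c, a) (Multiset.mem_add.2 (Or.inl mca))
    have h2 : A (la c') (io a) := hO' (c', a) (Multiset.mem_add.2 (Or.inl mca'))
    have h3 : A (la c) (io d) := hO' (c, d) (by simp)
    have h4 : A (la c') (io d) := hK _ _ _ _ h2 h1 h3
    have hk := hr _ _ _ _ h1 h3 h2 h4
    rw [one_smul] at hk
    rw [psum_eq_pm, psum_eq_pm, edu, edv]
    simp only [pm_cons, pm_add, pm_nsmul, pm_singleton]
    have z1 : ∀ g : G, (n + 1) • g = 0 := hm
    have z2 : ∀ g : G, n • g = - g := by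
      intro g
      rw [eq_neg_iff_add_eq_zero, ← succ_nsmul, z1]
    rw [z1, z2, zero_add]
    congr 1
    have hk' : p (la c) (io d) = p (la c) (io a) - p (la c') (io a) + p (la c') (io d) := by
      rw [← sub_eq_zero]
      have : p (la c) (io a) - p (la c) (io d) - p (la c') (io a) + p (la c') (io d) =
        -(p (la c) (io d) - (p (la c) (io a) - p (la c') (io a) + p (la c') (io d))) := by abel
      rw [this, neg_eq_zero] at hk
      exact hk
    rw [hk']; abel

/-- Changing the first letter `d` of a suffix to `d'` (trivial cross-ratios). -/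
theorem val8 (hK : K1 A) (hr : K2 A p 1) (hm0 : 0 < m) (e d b d' : ℕ) (s t : List ℕ) :
    SId A p m (e :: d :: (s ++ b :: d' :: (t ++ [b, d])))
      (e :: (pw m (d' :: (t ++ [b])) ++ d :: (s ++ b :: d' :: (t ++ [b, d])))) := by
  obtain ⟨n, rfl⟩ : ∃ n, m = n + 1 := ⟨m - 1, by omega⟩
  have edu : ed (e :: d :: (s ++ b :: d' :: (t ++ [b, d]))) =
      (e, d) ::ₘ ed (d :: (s ++ b :: d' :: (t ++ [b, d]))) := rfl
  have edv : ed (e :: (pw (n + 1) (d' :: (t ++ [b])) ++ d :: (s ++ b :: d' :: (t ++ [b, d])))) =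
      (e, d') ::ₘ ((n + 1) • ed (d' :: (t ++ [b])) + n • {(b, d')} +
        (b, d) ::ₘ ed (d :: (s ++ b :: d' :: (t ++ [b, d])))) := by
    rw [ed_block, ed_cons_cons]
  have mbd' : (b, d') ∈ ed (d :: (s ++ b :: d' :: (t ++ [b, d]))) :=
    mem_ed_iff.2 ⟨d :: s, t ++ [b, d], by simp⟩
  have mbd : (b, d) ∈ ed (d :: (s ++ b :: d' :: (t ++ [b, d]))) :=
    mem_ed_iff.2 ⟨d :: (s ++ b :: d' :: t), [], by simp⟩
  have msub : ∀ e ∈ ed (d' :: (t ++ [b])), e ∈ ed (d :: (s ++ b :: d' :: (t ++ [b, d]))) := by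
    rintro ⟨e1, e2⟩ he
    obtain ⟨f, g, hfg⟩ := mem_ed_iff.1 he
    refine mem_ed_iff.2 ⟨d :: (s ++ b :: f), g ++ [d], ?_⟩
    have : d :: (s ++ b :: d' :: (t ++ [b, d])) = d :: (s ++ b :: ((d' :: (t ++ [b])) ++ [d])) := by
      simp
    rw [this, hfg]
    simp
  refine ⟨?_, ?_, ?_, ?_, ?_, ?_⟩
  · intro w
    simp only [List.mem_cons, mem_pw, List.mem_append]
    have : n + 1 ≠ 0 := by omega
    tauto
  · intro w
    have := cnt_ins [e] (n + 1) (d' :: (t ++ [b])) (d :: (s ++ b :: d' :: (t ++ [b, d]))) w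
    simpa using this
  · intro la io
    unfold Ok
    rw [edu, edv]
    constructor
    · intro h f hf
      have h1 : A (la b) (io d') := h (b, d') (Multiset.mem_cons_of_mem mbd')
      have h2 : A (la b) (io d) := h (b, d) (Multiset.mem_cons_of_mem mbd)
      have h3 : A (la e) (io d) := h (e, d) (by simp)
      have h4 : A (la e) (io d') := hK _ _ _ _ h3 h2 h1
      simp only [Multiset.mem_add, Multiset.mem_cons] at hf
      rcases hf with hf | (hf | hf) | hf | hf
      · rw [hf]; exact h4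
      · exact h f (Multiset.mem_cons_of_mem (msub f (Multiset.mem_of_mem_nsmul hf)))
      · rw [Multiset.mem_singleton.1 (Multiset.mem_of_mem_nsmul hf)]; exact h1
      · rw [hf]; exact h2
      · exact h f (Multiset.mem_cons_of_mem hf)
    · intro h f hf
      have h1 : A (la b) (io d') := h (b, d') (by
        rw [Multiset.mem_cons, Multiset.mem_add]
        exact Or.inr (Or.inr (Multiset.mem_cons_of_mem mbd')))
      have h2 : A (la b) (io d) := h (b, d) (by simp)
      have h3 : A (la e) (io d') := h (e, d') (by simp)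
      have h4 : A (la e) (io d) := hK _ _ _ _ h3 h1 h2
      simp only [Multiset.mem_cons] at hf
      rcases hf with hf | hf
      · rw [hf]; exact h4
      · exact h f (by
          rw [Multiset.mem_cons, Multiset.mem_add]
          exact Or.inr (Or.inr (Multiset.mem_cons_of_mem hf)))
  · intro la io _; simp
  · intro la io _
    have e1 : e :: d :: (s ++ b :: d' :: (t ++ [b, d])) =
      (e :: d :: (s ++ b :: d' :: (t ++ [b]))) ++ [d] := by simp
    have e2 : e :: (pw (n + 1) (d' :: (t ++ [b])) ++ d :: (s ++ b :: d' :: (t ++ [b, d]))) =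
      (e :: (pw (n + 1) (d' :: (t ++ [b])) ++ d :: (s ++ b :: d' :: (t ++ [b])))) ++ [d] := by simp
    rw [e1, e2, List.getLast?_append_of_ne_nil _ (by simp),
      List.getLast?_append_of_ne_nil _ (by simp)]
  · intro la io hO
    have hO' := hO
    unfold Ok at hO'
    rw [edu] at hO'
    have h1 : A (la b) (io d') := hO' (b, d') (Multiset.mem_cons_of_mem mbd')
    have h2 : A (la b) (io d) := hO' (b, d) (Multiset.mem_cons_of_mem mbd)
    have h3 : A (la e) (io d) := hO' (e, d) (by simp)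
    have h4 : A (la e) (io d') := hK _ _ _ _ h3 h2 h1
    have hk := hr _ _ _ _ h3 h4 h2 h1
    rw [one_smul] at hk
    rw [psum_eq_pm, psum_eq_pm, edu, edv]
    simp only [pm_cons, pm_add, pm_nsmul, pm_singleton]
    have z1 : ∀ g : G, (n + 1) • g = 0 := hm
    have z2 : ∀ g : G, n • g = - g := by
      intro g
      rw [eq_neg_iff_add_eq_zero, ← succ_nsmul, z1]
    rw [z1, z2, zero_add]
    have hk' : p (la e) (io d) = p (la e) (io d') + p (la b) (io d) - p (la b) (io d') := by
      rw [← sub_eq_zero, ← hk]; abel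
    rw [hk']; abel

/-- Changing the first letter of a word (every row has one nonzero entry). -/
theorem val9 (hH : ∀ l i i', A l i → A l i' → i = i') (hm0 : 0 < m) (d b d' : ℕ)
    (s t : List ℕ) :
    SId A p m (d :: (s ++ b :: d' :: (t ++ [b, d])))
      (pw m (d' :: (t ++ [b])) ++ d :: (s ++ b :: d' :: (t ++ [b, d]))) := by
  obtain ⟨n, rfl⟩ : ∃ n, m = n + 1 := ⟨m - 1, by omega⟩
  have edv : ed (pw (n + 1) (d' :: (t ++ [b])) ++ d :: (s ++ b :: d' :: (t ++ [b, d]))) =
      ((n + 1) • ed (d' :: (t ++ [b])) + n • {(b, d')} +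
        (b, d) ::ₘ ed (d :: (s ++ b :: d' :: (t ++ [b, d])))) := by
    rw [ed_block', ed_cons_cons]
  have mbd' : (b, d') ∈ ed (d :: (s ++ b :: d' :: (t ++ [b, d]))) :=
    mem_ed_iff.2 ⟨d :: s, t ++ [b, d], by simp⟩
  have mbd : (b, d) ∈ ed (d :: (s ++ b :: d' :: (t ++ [b, d]))) :=
    mem_ed_iff.2 ⟨d :: (s ++ b :: d' :: t), [], by simp⟩
  have msub : ∀ e ∈ ed (d' :: (t ++ [b])), e ∈ ed (d :: (s ++ b :: d' :: (t ++ [b, d]))) := by
    rintro ⟨e1, e2⟩ he
    obtain ⟨f, g, hfg⟩ := mem_ed_iff.1 he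
    refine mem_ed_iff.2 ⟨d :: (s ++ b :: f), g ++ [d], ?_⟩
    have : d :: (s ++ b :: d' :: (t ++ [b, d])) = d :: (s ++ b :: ((d' :: (t ++ [b])) ++ [d])) := by
      simp
    rw [this, hfg]
    simp
  have heq : ∀ la io, Ok A la io (d :: (s ++ b :: d' :: (t ++ [b, d]))) → io d = io d' := by
    intro la io hO
    exact hH _ _ _ (hO _ mbd) (hO _ mbd')
  refine ⟨?_, ?_, ?_, ?_, ?_, ?_⟩
  · intro w
    simp only [List.mem_cons, mem_pw, List.mem_append]
    have : n + 1 ≠ 0 := by omega
    tauto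
  · intro w
    have := cnt_ins [] (n + 1) (d' :: (t ++ [b])) (d :: (s ++ b :: d' :: (t ++ [b, d]))) w
    simpa using this
  · intro la io
    unfold Ok
    rw [edv]
    constructor
    · intro h f hf
      simp only [Multiset.mem_add, Multiset.mem_cons] at hf
      rcases hf with (hf | hf) | hf | hf
      · exact h f (msub f (Multiset.mem_of_mem_nsmul hf))
      · rw [Multiset.mem_singleton.1 (Multiset.mem_of_mem_nsmul hf)]; exact h _ mbd'
      · rw [hf]; exact h _ mbd
      · exact h f hf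
    · intro h f hf
      exact h f (by
          rw [Multiset.mem_add]
          exact Or.inr (Multiset.mem_cons_of_mem hf))
  · intro la io hO
    rw [pw_succ]
    simp only [List.cons_append, List.head?_cons, Option.map_some]
    rw [heq la io hO]
  · intro la io _
    rw [List.getLast?_append_of_ne_nil _ (by simp)]
  · intro la io hO
    have h0 := heq la io hO
    rw [psum_eq_pm, psum_eq_pm, edv]
    simp only [pm_cons, pm_add, pm_nsmul, pm_singleton]
    have z1 : ∀ g : G, (n + 1) • g = 0 := hm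
    have z2 : ∀ g : G, n • g = - g := by
      intro g
      rw [eq_neg_iff_add_eq_zero, ← succ_nsmul, z1]
    rw [z1, z2, zero_add, h0]
    abel

/-- Changing the last letter of a word (every column has one nonzero entry). -/
theorem val10 (hT : ∀ l l' i, A l i → A l' i → l = l') (hm0 : 0 < m) (c a c' : ℕ)
    (s t : List ℕ) :
    SId A p m (c :: a :: (s ++ c' :: a :: (t ++ [c])))
      (c :: a :: (s ++ c' :: a :: (t ++ c :: pw m (a :: (s ++ [c']))))) := by
  obtain ⟨n, rfl⟩ : ∃ n, m = n + 1 := ⟨m - 1, by omega⟩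
  have edv : ed (c :: a :: (s ++ c' :: a :: (t ++ c :: pw (n + 1) (a :: (s ++ [c']))))) =
      ed (c :: a :: (s ++ c' :: a :: (t ++ [c]))) +
        (c, a) ::ₘ ((n + 1) • ed (a :: (s ++ [c'])) + n • {(c', a)}) := by
    have h1 := ed_append_cons (c :: a :: (s ++ c' :: a :: t)) c
      (pw (n + 1) (a :: (s ++ [c'])) ++ [])
    rw [ed_block] at h1
    simpa using h1
  have mca : (c, a) ∈ ed (c :: a :: (s ++ c' :: a :: (t ++ [c]))) := by simp
  have mca' : (c', a) ∈ ed (c :: a :: (s ++ c' :: a :: (t ++ [c]))) :=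
    mem_ed_iff.2 ⟨c :: a :: s, t ++ [c], by simp⟩
  have msub : ∀ e ∈ ed (a :: (s ++ [c'])), e ∈ ed (c :: a :: (s ++ c' :: a :: (t ++ [c]))) := by
    rintro ⟨e1, e2⟩ he
    obtain ⟨f, g, hfg⟩ := mem_ed_iff.1 he
    refine mem_ed_iff.2 ⟨c :: f, g ++ a :: (t ++ [c]), ?_⟩
    have : c :: a :: (s ++ c' :: a :: (t ++ [c])) = c :: (a :: (s ++ [c']) ++ a :: (t ++ [c])) := by
      simp
    rw [this, hfg]
    simp
  have heq : ∀ la io, Ok A la io (c :: a :: (s ++ c' :: a :: (t ++ [c]))) → la c = la c' := by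
    intro la io hO
    exact hT _ _ _ (hO _ mca) (hO _ mca')
  refine ⟨?_, ?_, ?_, ?_, ?_, ?_⟩
  · intro w
    simp only [List.mem_cons, mem_pw, List.mem_append]
    have : n + 1 ≠ 0 := by omega
    tauto
  · intro w
    have := cnt_ins (c :: a :: (s ++ c' :: a :: (t ++ [c]))) (n + 1) (a :: (s ++ [c'])) [] w
    simpa using this
  · intro la io
    unfold Ok
    rw [edv]
    constructor
    · intro h e he
      simp only [Multiset.mem_add, Multiset.mem_cons] at he
      rcases he with he | he | (he | he)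
      · exact h e he
      · rw [he]; exact h _ mca
      · exact h e (msub e (Multiset.mem_of_mem_nsmul he))
      · rw [Multiset.mem_singleton.1 (Multiset.mem_of_mem_nsmul he)]; exact h _ mca'
    · intro h e he
      exact h e (Multiset.mem_add.2 (Or.inl he))
  · intro la io _; simp
  · intro la io hO
    have e1 : c :: a :: (s ++ c' :: a :: (t ++ [c])) =
      (c :: a :: (s ++ c' :: a :: t)) ++ [c] := by simp
    have e2 : c :: a :: (s ++ c' :: a :: (t ++ c :: pw (n + 1) (a :: (s ++ [c'])))) =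
      (c :: a :: (s ++ c' :: a :: (t ++ c :: (pw n (a :: (s ++ [c'])) ++ a :: s)))) ++ [c'] := by
      rw [pw_succ']; simp
    rw [e1, e2, List.getLast?_append_of_ne_nil _ (by simp),
      List.getLast?_append_of_ne_nil _ (by simp)]
    simp only [List.getLast?_singleton, Option.map_some]
    rw [heq la io hO]
  · intro la io hO
    have h0 := heq la io hO
    rw [psum_eq_pm, psum_eq_pm, edv]
    simp only [pm_cons, pm_add, pm_nsmul, pm_singleton]
    have z1 : ∀ g : G, (n + 1) • g = 0 := hm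
    have z2 : ∀ g : G, n • g = - g := by
      intro g
      rw [eq_neg_iff_add_eq_zero, ← succ_nsmul, z1]
    rw [z1, z2, zero_add, h0]
    abel

end laws

end Pool.Agent.CZS
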